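import Pool.Agent.Circ.Order

/-!
The affine group from a two-transitive action in which nontrivial elements have at most one
fixed point (section 6 of the proof).
-/

set_option autoImplicit false
set_option linter.unusedSectionVars false

open Set Filter Topology

namespace Pool.Agent.Circ

lemma fix_between {c : E} {x y : ℝ} (hx : x < c x) (hy : c y < y) (hxy : x < y) :
    ∃ p, x < p ∧ p < y ∧ c p = p := by
  have hcg : Continuous (fun z => c z - z) := (cont_ap c).sub continuous_id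
  have h3 : (0 : ℝ) ∈ (fun z => c z - z) '' Icc x y := by
    apply intermediate_value_Icc' hxy.le hcg.continuousOn
    constructor
    · show c y - y ≤ 0; linarith
    · show 0 ≤ c x - x; linarith
  obtain ⟨p, ⟨hp1, hp2⟩, hp⟩ := h3
  have hp' : c p = p := by have : c p - p = 0 := hp; linarith
  refine ⟨p, lt_of_le_of_ne hp1 ?_, lt_of_le_of_ne hp2 ?_, hp'⟩
  · rintro rfl; linarith
  · rintro rfl; linarith

lemma fix_between' {c : E} {x y : ℝ} (hx : c x < x) (hy : y < c y) (hxy : x < y) :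
    ∃ p, x < p ∧ p < y ∧ c p = p := by
  have hcg : Continuous (fun z => c z - z) := (cont_ap c).sub continuous_id
  have h3 : (0 : ℝ) ∈ (fun z => c z - z) '' Icc x y := by
    apply intermediate_value_Icc hxy.le hcg.continuousOn
    constructor
    · show c x - x ≤ 0; linarith
    · show 0 ≤ c y - y; linarith
  obtain ⟨p, ⟨hp1, hp2⟩, hp⟩ := h3
  have hp' : c p = p := by have : c p - p = 0 := hp; linarith
  refine ⟨p, lt_of_le_of_ne hp1 ?_, lt_of_le_of_ne hp2 ?_, hp'⟩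
  · rintro rfl; linarith
  · rintro rfl; linarith

/-- Iterates of a map contracting the right half line to `q`. -/
lemma pow_tendsto {c : E} {q : ℝ} (hq : c q = q) (hc : ∀ x, q < x → c x < x) {z : ℝ}
    (hz : q < z) : Tendsto (fun n : ℕ => (c ^ n) z) atTop (𝓝 q) := by
  have hgt : ∀ n : ℕ, q < (c ^ n) z := by
    intro n
    induction n with
    | zero => simpa using hz
    | succ n ih =>
      rw [pow_succ_ap]
      calc q = c q := hq.symm
        _ < _ := c.strictMono ih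
  have hanti : Antitone (fun n : ℕ => (c ^ n) z) := by
    apply antitone_nat_of_succ_le
    intro n
    rw [pow_succ_ap]
    exact (hc _ (hgt n)).le
  have hbdd : BddBelow (range (fun n : ℕ => (c ^ n) z)) :=
    ⟨q, by rintro _ ⟨n, rfl⟩; exact (hgt n).le⟩
  have hlim := tendsto_atTop_ciInf hanti hbdd
  set p := ⨅ n : ℕ, (c ^ n) z with hp
  have h1 : Tendsto (fun n : ℕ => (c ^ (n + 1)) z) atTop (𝓝 p) :=
    hlim.comp (tendsto_add_atTop_nat 1)
  have h2 : Tendsto (fun n : ℕ => (c ^ (n + 1)) z) atTop (𝓝 (c p)) := by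
    have h3 : (fun n : ℕ => (c ^ (n + 1)) z) = fun n : ℕ => c ((c ^ n) z) := by
      ext n; rw [pow_succ_ap]
    rw [h3]
    exact ((cont_ap c).tendsto p).comp hlim
  have h4 := tendsto_nhds_unique h1 h2
  have h5 : q ≤ p := le_ciInf fun n => (hgt n).le
  rcases h5.lt_or_eq with h6 | h6
  · have := hc p h6
    rw [← h4] at this
    exact absurd this (lt_irrefl _)
  · rw [h6]; exact hlim

/-- The restriction of a map fixing `q` to the right half line, in a logarithmic coordinate. -/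
noncomputable def ioiMap (e : E) (q : ℝ) (he : e q = q) : E where
  toFun x := Real.log (e (q + Real.exp x) - q)
  invFun x := Real.log (e⁻¹ (q + Real.exp x) - q)
  left_inv x := by
    have h1 : q < e (q + Real.exp x) := by
      calc q = e q := he.symm
        _ < _ := e.strictMono (by linarith [Real.exp_pos x])
    show Real.log (e⁻¹ (q + Real.exp (Real.log (e (q + Real.exp x) - q))) - q) = x
    rw [Real.exp_log (by linarith), show q + (e (q + Real.exp x) - q) = e (q + Real.exp x) by ring,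
      inv_ap, show q + Real.exp x - q = Real.exp x by ring, Real.log_exp]
  right_inv x := by
    have h1 : q < e⁻¹ (q + Real.exp x) := by
      rw [lt_inv_iff, he]; linarith [Real.exp_pos x]
    show Real.log (e (q + Real.exp (Real.log (e⁻¹ (q + Real.exp x) - q))) - q) = x
    rw [Real.exp_log (by linarith),
      show q + (e⁻¹ (q + Real.exp x) - q) = e⁻¹ (q + Real.exp x) by ring,
      ap_inv, show q + Real.exp x - q = Real.exp x by ring, Real.log_exp]
  map_rel_iff' := by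
    intro x y
    have h1 : ∀ x, 0 < e (q + Real.exp x) - q := by
      intro x
      have : q < e (q + Real.exp x) := by
        calc q = e q := he.symm
          _ < _ := e.strictMono (by linarith [Real.exp_pos x])
      linarith
    show Real.log (e (q + Real.exp x) - q) ≤ Real.log (e (q + Real.exp y) - q) ↔ x ≤ y
    rw [Real.log_le_log_iff (h1 x) (h1 y)]
    constructor
    · intro h2
      have h3 : e (q + Real.exp x) ≤ e (q + Real.exp y) := by linarith
      rw [e.le_iff_le] at h3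
      have h4 : Real.exp x ≤ Real.exp y := by linarith
      exact Real.exp_le_exp.1 h4
    · intro h2
      have h3 := Real.exp_le_exp.2 h2
      have h4 : e (q + Real.exp x) ≤ e (q + Real.exp y) := e.monotone (by linarith)
      linarith

lemma exp_ioiMap (e : E) (q : ℝ) (he : e q = q) (x : ℝ) :
    e (q + Real.exp x) = q + Real.exp (ioiMap e q he x) := by
  have h1 : q < e (q + Real.exp x) := by
    calc q = e q := he.symm
      _ < _ := e.strictMono (by linarith [Real.exp_pos x])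
  show _ = q + Real.exp (Real.log (e (q + Real.exp x) - q))
  rw [Real.exp_log (by linarith)]
  ring

section AffS
variable {L : Type*} [Group L] [TopologicalSpace L] [IsTopologicalGroup L] {ρ : L →* E}

namespace AffHyp

variable (h : AffHyp ρ)
include h

/-- Two elements agreeing at two points are equal. -/
lemma eq2 {g g' : L} {x y : ℝ} (hxy : x ≠ y) (hx : ρ g x = ρ g' x) (hy : ρ g y = ρ g' y) :
    g = g' := by
  have h1 : g⁻¹ * g' = 1 := by
    apply h.uniq _ x y hxy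
    · rw [rho_mul_ap, ← hx, rho_inv_ap]
    · rw [rho_mul_ap, ← hy, rho_inv_ap]
  exact inv_mul_eq_one.1 h1

lemma tr1 (x y : ℝ) : ∃ g : L, ρ g x = y := by
  have h1 : {y | ∃ g : L, ρ g x = y} = univ := by
    apply invariant_univ h.act (S := {y | ∃ g : L, ρ g x = y}) ⟨x, (1 : L), by simp⟩
    refine Eventually.of_forall fun k z hz => ?_
    obtain ⟨g, rfl⟩ := hz
    exact ⟨k * g, by rw [rho_mul_ap]⟩
  have : y ∈ {y | ∃ g : L, ρ g x = y} := by rw [h1]; trivial
  exact this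

lemma tr2 {a b c d : ℝ} (hab : a < b) (hcd : c < d) : ∃ g : L, ρ g a = c ∧ ρ g b = d := by
  obtain ⟨g, hg⟩ := h.tr1 a c
  have h1 : c < ρ g b := by rw [← hg]; exact (ρ g).strictMono hab
  obtain ⟨k, hk1, hk2⟩ := h.tr c (ρ g b) d (Or.inl ⟨h1, hcd⟩)
  exact ⟨k * g, by rw [rho_mul_ap, hg, hk1], by rw [rho_mul_ap, hk2]⟩

lemma sgn {g : L} {q x y : ℝ} (hq : ρ g q = q) (hside : q < x ∧ q < y ∨ x < q ∧ y < q)
    (hgx : x < ρ g x) : y < ρ g y := by
  by_contra hcon
  push Not at hcon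
  have hyq : q ≠ y := by rcases hside with h1 | h1 <;> intro h2 <;> linarith [h1.2]
  have hone : ∀ p, q ≠ p → ρ g p = p → False := by
    intro p hp hgp
    have := h.uniq g q p hp hq hgp
    rw [this, map_one, one_ap] at hgx
    exact lt_irrefl _ hgx
  rcases hcon.lt_or_eq with h1 | h1
  · rcases lt_trichotomy x y with h2 | h2 | h2
    · obtain ⟨p, hp1, hp2, hp3⟩ := fix_between hgx h1 h2
      apply hone p _ hp3
      rcases hside with h3 | h3 <;> intro h4 <;> linarith [h3.1, h3.2]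
    · rw [h2] at hgx; linarith
    · obtain ⟨p, hp1, hp2, hp3⟩ := fix_between' h1 hgx h2
      apply hone p _ hp3
      rcases hside with h3 | h3 <;> intro h4 <;> linarith [h3.1, h3.2]
  · exact hone y hyq h1

lemma sgn' {g : L} {q x y : ℝ} (hq : ρ g q = q) (hside : q < x ∧ q < y ∨ x < q ∧ y < q)
    (hgx : ρ g x < x) : ρ g y < y := by
  have hq' : ρ g⁻¹ q = q := by
    conv_lhs => rw [← hq]
    rw [rho_inv_ap]
  have hs : ∀ z, q < z → q < ρ g z := by
    intro z hz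
    calc q = ρ g q := hq.symm
      _ < _ := (ρ g).strictMono hz
  have hs' : ∀ z, z < q → ρ g z < q := by
    intro z hz
    calc ρ g z < ρ g q := (ρ g).strictMono hz
      _ = q := hq
  have h1 := h.sgn hq' (x := ρ g x) (y := ρ g y) (by
    rcases hside with h3 | h3
    · exact Or.inl ⟨hs _ h3.1, hs _ h3.2⟩
    · exact Or.inr ⟨hs' _ h3.1, hs' _ h3.2⟩) (by rw [rho_inv_ap]; exact hgx)
  rwa [rho_inv_ap] at h1

lemma isOpen_lt {a b c s t : ℝ} (hab : a ≠ b) :
    IsOpen {z | ∃ g : L, ρ g a = c ∧ ρ g b = z ∧ ρ g s < t} := by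
  rw [isOpen_iff_mem_nhds]
  rintro z ⟨g, hga, hgb, hgs⟩
  have hne : z ≠ c := by
    rw [← hgb, ← hga]
    exact fun hh => hab ((ρ g).injective hh).symm
  have hU : ∀ᶠ u in 𝓝 (1 : L), ρ u (ρ g s) < t :=
    (h.act.tendsto (ρ g s)).eventually (gt_mem_nhds hgs)
  refine mem_of_superset (h.mt2 c z hne _ hU) ?_
  rintro y ⟨u, hu, hu1, hu2⟩
  refine ⟨u * g, ?_, ?_, ?_⟩
  · rw [rho_mul_ap, hga, hu1]
  · rw [rho_mul_ap, hgb, hu2]
  · rw [rho_mul_ap]; exact hu

lemma isOpen_gt {a b c s t : ℝ} (hab : a ≠ b) :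
    IsOpen {z | ∃ g : L, ρ g a = c ∧ ρ g b = z ∧ t < ρ g s} := by
  rw [isOpen_iff_mem_nhds]
  rintro z ⟨g, hga, hgb, hgs⟩
  have hne : z ≠ c := by
    rw [← hgb, ← hga]
    exact fun hh => hab ((ρ g).injective hh).symm
  have hU : ∀ᶠ u in 𝓝 (1 : L), t < ρ u (ρ g s) :=
    (h.act.tendsto (ρ g s)).eventually (lt_mem_nhds hgs)
  refine mem_of_superset (h.mt2 c z hne _ hU) ?_
  rintro y ⟨u, hu, hu1, hu2⟩
  refine ⟨u * g, ?_, ?_, ?_⟩
  · rw [rho_mul_ap, hga, hu1]
  · rw [rho_mul_ap, hgb, hu2]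
  · rw [rho_mul_ap]; exact hu

/-- A hyperbolic element at every point. -/
lemma exists_hyp {q x y : ℝ} (hx : q < x) (hy : y < q) :
    ∃ k : L, ρ k q = q ∧ x < ρ k x ∧ ρ k y < y := by
  obtain ⟨g1, h10, h13⟩ := h.tr2 (show (0 : ℝ) < 3 by norm_num) (show (1 : ℝ) < 2 by norm_num)
  obtain ⟨p, hp0, hp3, hp⟩ := fix_between (c := ρ g1) (x := 0) (y := 3)
    (by rw [h10]; norm_num) (by rw [h13]; norm_num) (by norm_num)
  obtain ⟨g0, hg0⟩ := h.tr1 p q
  set j : L := g0 * g1 * g0⁻¹ with hj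
  have hg0' : ρ g0⁻¹ q = p := by rw [← hg0, rho_inv_ap]
  have hjq : ρ j q = q := by
    rw [hj, rho_mul_ap, rho_mul_ap, hg0', hp, hg0]
  have h3 : ρ j (ρ g0 3) < ρ g0 3 := by
    rw [hj, rho_mul_ap, rho_mul_ap, rho_inv_ap, h13]
    exact (ρ g0).strictMono (by norm_num)
  have h0 : ρ g0 0 < ρ j (ρ g0 0) := by
    rw [hj, rho_mul_ap, rho_mul_ap, rho_inv_ap, h10]
    exact (ρ g0).strictMono (by norm_num)
  have hq3 : q < ρ g0 3 := by rw [← hg0]; exact (ρ g0).strictMono hp3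
  have hq0 : ρ g0 0 < q := by rw [← hg0]; exact (ρ g0).strictMono hp0
  have h4 : ρ j x < x := h.sgn' hjq (Or.inl ⟨hq3, hx⟩) h3
  have h5 : y < ρ j y := h.sgn hjq (Or.inr ⟨hq0, hy⟩) h0
  refine ⟨j⁻¹, ?_, ?_, ?_⟩
  · conv_lhs => rw [← hjq]
    rw [rho_inv_ap]
  · rw [map_inv, lt_inv_iff]; exact h4
  · rw [map_inv, inv_lt_iff]; exact h5

/-- Every nontrivial element with a fixed point is hyperbolic. -/
lemma hyp {g : L} {q x y : ℝ} (hq : ρ g q = q) (hx : q < x) (hgx : x < ρ g x) (hy : y < q) :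
    ρ g y < y := by
  by_contra hcon
  push Not at hcon
  have hcon' : y < ρ g y := by
    apply lt_of_le_of_ne hcon
    intro h1
    have := h.uniq g q y hy.ne' hq h1.symm
    rw [this, map_one, one_ap] at hgx
    exact lt_irrefl _ hgx
  obtain ⟨k, hkq, hkx, hky⟩ := h.exists_hyp hx hy
  have hpre := (isPreconnected_Ioi (a := x)) _ _
    (h.isOpen_lt (a := q) (b := x) (c := q) (s := y) (t := y) hx.ne)
    (h.isOpen_gt (a := q) (b := x) (c := q) (s := y) (t := y) hx.ne) (by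
      intro z hz
      have hxz : x < z := hz
      obtain ⟨j, hj1, hj2⟩ := h.tr q x z (Or.inl ⟨hx, hx.trans hxz⟩)
      rcases lt_trichotomy (ρ j y) y with h1 | h1 | h1
      · exact Or.inl ⟨j, hj1, hj2, h1⟩
      · exfalso
        have := h.uniq j q y hy.ne' hj1 h1
        rw [this, map_one, one_ap] at hj2
        exact absurd hj2 hxz.ne
      · exact Or.inr ⟨j, hj1, hj2, h1⟩)
    ⟨ρ k x, hkx, k, hkq, rfl, hky⟩ ⟨ρ g x, hgx, g, hq, rfl, hcon'⟩
  obtain ⟨z, _, ⟨j, hj1, hj2, hj3⟩, ⟨j', hj'1, hj'2, hj'3⟩⟩ := hpre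
  have : j = j' := h.eq2 hx.ne (hj1.trans hj'1.symm) (hj2.trans hj'2.symm)
  rw [this] at hj3
  exact absurd hj3 (not_lt.2 hj'3.le)

/-- Elements of a stabiliser moving a point little are small. -/
lemma stab_small {q x : ℝ} (hx : x ≠ q) {U : Set L} (hU : U ∈ 𝓝 (1 : L)) :
    ∀ᶠ y in 𝓝 x, ∀ k : L, ρ k q = q → ρ k x = y → k ∈ U := by
  filter_upwards [h.mt2 q x hx U hU] with y hy k hk1 hk2
  obtain ⟨g, hgU, hg1, hg2⟩ := hy
  have : k = g := h.eq2 hx.symm (hk1.trans hg1.symm) (hk2.trans hg2.symm)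
  rw [this]; exact hgU

/-- Fixed point free positive elements moving a point little are small. -/
lemma small_of_pos (q : ℝ) {W : Set L} (hW : W ∈ 𝓝 (1 : L)) :
    ∀ᶠ y in 𝓝 q, ∀ f : L, (∀ x, x < ρ f x) → ρ f q = y → f ∈ W := by
  obtain ⟨U, hU, hUU⟩ := exists_nhds_one_split hW
  obtain ⟨δ1, hδ1, hd1⟩ := Metric.eventually_nhds_iff.1
    (h.stab_small (q := q) (x := q + 1) (by linarith [lt_add_one q] ) hU)
  obtain ⟨δ2, hδ2, hd2⟩ := Metric.eventually_nhds_iff.1
    (h.stab_small (q := q) (x := q - 1) (by linarith [lt_add_one q]) hU)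
  have hD1 : ∀ᶠ u in 𝓝 (1 : L), q + 1 - δ1 < ρ u⁻¹ (q + 1) :=
    (((h.act.tendsto (q + 1)).comp tendsto_inv_one).eventually (lt_mem_nhds (by linarith)))
  have hD2 : ∀ᶠ u in 𝓝 (1 : L), q - 1 - δ2 < ρ u⁻¹ (q - 1) :=
    (((h.act.tendsto (q - 1)).comp tendsto_inv_one).eventually (lt_mem_nhds (by linarith)))
  have hD : ∀ᶠ u in 𝓝 (1 : L), u ∈ U ∧ q + 1 - δ1 < ρ u⁻¹ (q + 1) ∧
      q - 1 - δ2 < ρ u⁻¹ (q - 1) := by
    filter_upwards [hU, hD1, hD2] with u h1 h2 h3
    exact ⟨h1, h2, h3⟩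
  filter_upwards [h.act.mt q _ hD] with y hy f hf hfy
  obtain ⟨u, ⟨hu1, hu2, hu3⟩, huq⟩ := hy
  set k : L := u⁻¹ * f with hk
  have hkq : ρ k q = q := by
    rw [hk, rho_mul_ap, hfy, ← huq, rho_inv_ap]
  have hk1 : q + 1 - δ1 < ρ k (q + 1) := by
    rw [hk, rho_mul_ap]
    exact hu2.trans ((ρ u⁻¹).strictMono (hf _))
  have hk2 : q - 1 - δ2 < ρ k (q - 1) := by
    rw [hk, rho_mul_ap]
    exact hu3.trans ((ρ u⁻¹).strictMono (hf _))
  have hkU : k ∈ U := by
    by_cases hc : ρ k (q + 1) ≤ q + 1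
    · apply hd1 (y := ρ k (q + 1)) _ k hkq rfl
      rw [Real.dist_eq, abs_lt]
      constructor <;> linarith
    · push Not at hc
      have h1 := h.hyp hkq (by linarith) hc (show q - 1 < q by linarith)
      apply hd2 (y := ρ k (q - 1)) _ k hkq rfl
      rw [Real.dist_eq, abs_lt]
      constructor <;> linarith
  have : f = u * k := by rw [hk, mul_inv_cancel_left]
  rw [this]
  exact hUU u hu1 k hkU

/-- The stabiliser of a point is commutative. -/
lemma stab_comm {q : ℝ} {g g' : L} (hg : ρ g q = q) (hg' : ρ g' q = q) : g * g' = g' * g := by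
  let C : Subgroup E :=
    { carrier := {c | ∃ g : L, ρ g q = q ∧ ∀ x, ρ g (q + Real.exp x) = q + Real.exp (c x)}
      one_mem' := ⟨1, by simp, fun x => by simp⟩
      mul_mem' := by
        rintro a b ⟨ga, ha, ha'⟩ ⟨gb, hb, hb'⟩
        refine ⟨ga * gb, by rw [rho_mul_ap, hb, ha], fun x => ?_⟩
        rw [rho_mul_ap, hb', ha']; rfl
      inv_mem' := by
        rintro a ⟨ga, ha, ha'⟩
        refine ⟨ga⁻¹, ?_, fun x => ?_⟩
        · conv_lhs => rw [← ha]
          rw [rho_inv_ap]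
        · have := ha' (a⁻¹ x)
          rw [ap_inv] at this
          rw [← this, rho_inv_ap] }
  have hmem : ∀ c : E, c ∈ C ↔ ∃ g : L, ρ g q = q ∧
      ∀ x, ρ g (q + Real.exp x) = q + Real.exp (c x) := fun c => Iff.rfl
  have hne : ∀ x : ℝ, q ≠ q + Real.exp x := by
    intro x hx
    have := Real.exp_pos x
    linarith
  have hF : Free C := by
    intro c hc x hx
    obtain ⟨k, hk1, hk2⟩ := (hmem c).1 hc
    have h1 := h.uniq k q (q + Real.exp x) (hne x) hk1 (by rw [hk2, hx])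
    apply ext_ap
    intro z
    have h2 := hk2 z
    rw [h1, map_one, one_ap] at h2
    have h3 : Real.exp z = Real.exp (c z) := by linarith
    rw [one_ap]
    exact (Real.exp_injective h3).symm
  have htr : Trans C := by
    intro x y
    obtain ⟨k, hk1, hk2⟩ := h.tr q (q + Real.exp x) (q + Real.exp y)
      (Or.inl ⟨by linarith [Real.exp_pos x], by linarith [Real.exp_pos y]⟩)
    refine ⟨ioiMap (ρ k) q hk1, ⟨k, hk1, exp_ioiMap (ρ k) q hk1⟩, ?_⟩
    have h1 := exp_ioiMap (ρ k) q hk1 x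
    rw [hk2] at h1
    have h3 : Real.exp y = Real.exp (ioiMap (ρ k) q hk1 x) := by linarith
    exact (Real.exp_injective h3).symm
  have hcomm := free_comm hF (trans_no_least hF htr) (ioiMap (ρ g) q hg)
    ⟨g, hg, exp_ioiMap (ρ g) q hg⟩ (ioiMap (ρ g') q hg') ⟨g', hg', exp_ioiMap (ρ g') q hg'⟩
  apply h.eq2 (hne 0)
  · rw [rho_mul_ap, rho_mul_ap, hg, hg', hg]
  · rw [rho_mul_ap, rho_mul_ap, exp_ioiMap (ρ g') q hg', exp_ioiMap (ρ g) q hg,
      exp_ioiMap (ρ g) q hg, exp_ioiMap (ρ g') q hg', ← mul_ap, ← mul_ap, hcomm]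

lemma key_pos {f f' : L} (hf : ∀ x, x < ρ f x) (hf' : ∀ x, x < ρ f' x) {q : ℝ}
    (hq : ρ f q = ρ f' q) : f = f' := by
  obtain ⟨ν, hν1, hν2⟩ := h.tr q (q + 1) (q + 1 / 2)
    (Or.inl ⟨by linarith, by linarith⟩)
  have hνc : ∀ x, q < x → ρ ν x < x := by
    intro x hx
    exact h.sgn' hν1 (x := q + 1) (Or.inl ⟨by linarith, hx⟩) (by rw [hν2]; linarith)
  set j : L := f⁻¹ * f' with hj
  have hjq : ρ j q = q := by rw [hj, rho_mul_ap, ← hq, rho_inv_ap]
  by_contra hne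
  have hj1 : j ≠ 1 := fun h1 => hne (inv_mul_eq_one.1 h1)
  have hjx : ρ j (q + 1) ≠ q + 1 := fun h1 => hj1 (h.uniq j q (q + 1) (by linarith [lt_add_one q]) hjq h1)
  -- a neighbourhood excluding `j`
  have hW' : ∀ᶠ k in 𝓝 (1 : L), ρ k (q + 1) ≠ ρ j (q + 1) :=
    (h.act.tendsto (q + 1)).eventually (isOpen_ne.mem_nhds hjx.symm)
  have hpair : Tendsto (fun p : L × L => p.1⁻¹ * p.2) (𝓝 1 ×ˢ 𝓝 1) (𝓝 1) := by
    have h2 : Continuous (fun p : L × L => p.1⁻¹ * p.2) := by fun_prop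
    have h3 := h2.tendsto (1, 1)
    simpa [nhds_prod_eq] using h3
  have hev := hpair.eventually hW'
  rw [eventually_prod_iff] at hev
  obtain ⟨P, hP, Q, hQ, hPQ⟩ := hev
  have hνq : ∀ n : ℕ, ρ (ν ^ n) q = q := by
    intro n
    induction n with
    | zero => simp
    | succ n ih => rw [pow_succ, rho_mul_ap, hν1, ih]
  have hνq' : ∀ n : ℕ, ρ (ν ^ n)⁻¹ q = q := by
    intro n
    conv_lhs => rw [← hνq n]
    rw [rho_inv_ap]
  have hlim : Tendsto (fun n : ℕ => ρ (ν ^ n) (ρ f q)) atTop (𝓝 q) := by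
    have := pow_tendsto hν1 hνc (hf q)
    simpa [map_pow] using this
  have hpos : ∀ (a : L), (∀ x, x < ρ a x) → ∀ (b : L) (x : ℝ), x < ρ (b * a * b⁻¹) x := by
    intro a ha b x
    rw [rho_mul_ap, rho_mul_ap]
    have := (ρ b).strictMono (ha (ρ b⁻¹ x))
    rwa [rho_ap_inv] at this
  have hval : ∀ (n : ℕ) (a : L), ρ (ν ^ n * a * (ν ^ n)⁻¹) q = ρ (ν ^ n) (ρ a q) := by
    intro n a
    rw [rho_mul_ap, rho_mul_ap, hνq']
  have h1 := hlim.eventually (h.small_of_pos q hP)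
  have h2 := hlim.eventually (h.small_of_pos q hQ)
  obtain ⟨n, hn1, hn2⟩ := (h1.and h2).exists
  have h3 : P (ν ^ n * f * (ν ^ n)⁻¹) := hn1 _ (hpos f hf _) (hval n f)
  have h4 : Q (ν ^ n * f' * (ν ^ n)⁻¹) := hn2 _ (hpos f' hf' _) (by rw [hval n f', hq])
  have h5 := hPQ h3 h4
  apply h5
  have h6 : (ν ^ n * f * (ν ^ n)⁻¹)⁻¹ * (ν ^ n * f' * (ν ^ n)⁻¹) = ν ^ n * j * (ν ^ n)⁻¹ := by
    rw [hj]; group
  have h7 : ν ^ n * j * (ν ^ n)⁻¹ = j := by
    rw [h.stab_comm (hνq n) hjq, mul_inv_cancel_right]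
  show ρ ((ν ^ n * f * (ν ^ n)⁻¹)⁻¹ * (ν ^ n * f' * (ν ^ n)⁻¹)) (q + 1) = ρ j (q + 1)
  rw [h6, h7]

end AffHyp

theorem key_aff (h : AffHyp ρ) {f f' : L} (hf : ∀ x, ρ f x ≠ x) (hf' : ∀ x, ρ f' x ≠ x) {q : ℝ}
    (hq : ρ f q = ρ f' q) : f = f' := by
  rcases pos_or_neg hf with h1 | h1
  · rcases pos_or_neg hf' with h2 | h2
    · exact h.key_pos h1 h2 hq
    · exact absurd (h1 q) (by rw [hq]; exact not_lt.2 (h2 q).le)
  · rcases pos_or_neg hf' with h2 | h2
    · exact absurd (h1 q) (by rw [hq]; exact not_lt.2 (h2 q).le)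
    · have h3 : ∀ x, x < ρ f⁻¹ x := by
        intro x; rw [map_inv, lt_inv_iff]; exact h1 x
      have h4 : ∀ x, x < ρ f'⁻¹ x := by
        intro x; rw [map_inv, lt_inv_iff]; exact h2 x
      have h5 : ρ f⁻¹ (ρ f q) = ρ f'⁻¹ (ρ f q) := by
        rw [rho_inv_ap, hq, rho_inv_ap]
      exact inv_injective (h.key_pos h3 h4 h5)

namespace AffHyp

lemma exists_fpf (h : AffHyp ρ) {q v : ℝ} (hqv : q < v) :
    ∃ f : L, (∀ x, ρ f x ≠ x) ∧ ρ f q = v := by
  by_contra hcon
  push Not at hcon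
  have hcon' : ∀ g : L, ρ g q = v → ∃ x, ρ g x = x := by
    intro g hg
    by_contra hc
    push Not at hc
    exact hcon g hc hg
  have hone : ∀ g : L, ρ g q = v → g ≠ 1 := by
    intro g hg h1
    rw [h1, map_one, one_ap] at hg
    exact absurd hg hqv.ne
  have hqb : q ≠ v + 1 := by linarith [hqv]
  set A : Set ℝ := ⋃ x ∈ Ioi q, {z | ∃ g : L, ρ g q = v ∧ ρ g (v + 1) = z ∧ ρ g x < x} with hA
  set B : Set ℝ := ⋃ x ∈ Iio q, {z | ∃ g : L, ρ g q = v ∧ ρ g (v + 1) = z ∧ ρ g x < x} with hB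
  have hAo : IsOpen A := isOpen_biUnion fun x _ => h.isOpen_lt hqb
  have hBo : IsOpen B := isOpen_biUnion fun x _ => h.isOpen_lt hqb
  have hpre := (isPreconnected_Ioi (a := v)) A B hAo hBo (by
    intro z hz
    have hvz : v < z := hz
    obtain ⟨g, hg1, hg2⟩ := h.tr2 (show q < v + 1 by linarith) hvz
    obtain ⟨p, hp⟩ := hcon' g hg1
    rcases lt_trichotomy p q with h1 | h1 | h1
    · -- fixed point on the left
      right
      have h2 : ρ g (p - 1) < p - 1 :=
        h.hyp hp h1 (by rw [hg1]; exact hqv) (by linarith)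
      simp only [hB, mem_iUnion]
      exact ⟨p - 1, by show p - 1 < q; linarith, g, hg1, hg2, h2⟩
    · rw [h1, hg1] at hp
      exact absurd hp hqv.ne'
    · left
      have h2 : ρ g (p + 1) < p + 1 := by
        by_contra hc
        push Not at hc
        rcases hc.lt_or_eq with h3 | h3
        · have := h.hyp hp (by linarith) h3 h1
          rw [hg1] at this
          linarith
        · exact hone g hg1 (h.uniq g p (p + 1) (by linarith [lt_add_one p]) hp h3.symm)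
      simp only [hA, mem_iUnion]
      exact ⟨p + 1, by show q < p + 1; linarith, g, hg1, hg2, h2⟩)
    (by
      obtain ⟨g, hg1, hg2⟩ := h.tr2 (show q < v + 1 by linarith) (show v < v + 1 / 2 by linarith)
      refine ⟨v + 1 / 2, by show v < v + 1 / 2; linarith, ?_⟩
      simp only [hA, mem_iUnion]
      exact ⟨v + 1, by show q < v + 1; linarith, g, hg1, hg2, by rw [hg2]; linarith⟩)
    (by
      obtain ⟨g, hg1, hg2⟩ := h.tr2 (show q - 1 < q by linarith) (show q - 2 < v by linarith)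
      refine ⟨ρ g (v + 1), ?_, ?_⟩
      · show v < ρ g (v + 1)
        calc v = ρ g q := hg2.symm
          _ < ρ g (v + 1) := (ρ g).strictMono (by linarith)
      · simp only [hB, mem_iUnion]
        exact ⟨q - 1, by show q - 1 < q; linarith, g, hg2, rfl, by rw [hg1]; linarith⟩)
  obtain ⟨z, _, hzA, hzB⟩ := hpre
  simp only [hA, hB, mem_iUnion] at hzA hzB
  obtain ⟨x1, hx1, g, hg1, hg2, hg3⟩ := hzA
  obtain ⟨x2, hx2, g', hg'1, hg'2, hg'3⟩ := hzB
  have hgg : g = g' := h.eq2 hqb (hg1.trans hg'1.symm) (hg2.trans hg'2.symm)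
  rw [← hgg] at hg'3
  have hx1' : q < x1 := hx1
  have hx2' : x2 < q := hx2
  have hgq : q < ρ g q := by rw [hg1]; exact hqv
  obtain ⟨p1, hp11, hp12, hp1⟩ := fix_between hgq hg3 hx1'
  obtain ⟨p2, hp21, hp22, hp2⟩ := fix_between' hg'3 hgq hx2'
  exact hone g hg1 (h.uniq g p1 p2 (by intro hh; linarith) hp1 hp2)

end AffHyp

theorem aff (h : AffHyp ρ) : ∃ χ : E, (∀ g, ∃ a > 0, ∃ b, ∀ x, χ (ρ g x) = a * χ x + b) ∧
    ∀ a > 0, ∀ b, ∃ g, ∀ x, χ (ρ g x) = a * χ x + b := by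
  have hinvf : ∀ g : L, (∀ x, ρ g x ≠ x) → ∀ x, ρ g⁻¹ x ≠ x := by
    intro g hg x hx
    apply hg x
    conv_lhs => rw [← hx]
    rw [rho_ap_inv]
  let P : Subgroup E :=
    { carrier := {p | ∃ g : L, ρ g = p ∧ (g = 1 ∨ ∀ x, ρ g x ≠ x)}
      one_mem' := ⟨1, map_one ρ, Or.inl rfl⟩
      mul_mem' := by
        rintro a b ⟨ga, rfl, ha⟩ ⟨gb, rfl, hb⟩
        refine ⟨ga * gb, map_mul ρ _ _, ?_⟩
        rcases ha with rfl | ha
        · rw [one_mul]; exact hb
        rcases hb with rfl | hb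
        · rw [mul_one]; exact Or.inr ha
        by_cases hfp : ∃ x, ρ (ga * gb) x = x
        · left
          obtain ⟨x, hx⟩ := hfp
          rw [rho_mul_ap] at hx
          have h1 : ρ gb x = ρ ga⁻¹ x := by
            conv_rhs => rw [← hx]
            rw [rho_inv_ap]
          have h2 := key_aff h hb (hinvf ga ha) h1
          rw [h2, mul_inv_cancel]
        · right
          push Not at hfp
          exact hfp
      inv_mem' := by
        rintro a ⟨ga, rfl, ha⟩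
        refine ⟨ga⁻¹, map_inv ρ _, ?_⟩
        rcases ha with rfl | ha
        · left; exact inv_one
        · right; exact hinvf ga ha }
  have hmem : ∀ p : E, p ∈ P ↔ ∃ g : L, ρ g = p ∧ (g = 1 ∨ ∀ x, ρ g x ≠ x) := fun p => Iff.rfl
  have hF : Free P := by
    intro p hp x hx
    obtain ⟨g, rfl, hg⟩ := (hmem p).1 hp
    rcases hg with rfl | hg
    · exact map_one ρ
    · exact absurd hx (hg x)
  have htr : Trans P := by
    intro x y
    rcases lt_trichotomy x y with h1 | h1 | h1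
    · obtain ⟨f, hf1, hf2⟩ := h.exists_fpf h1
      exact ⟨ρ f, ⟨f, rfl, Or.inr hf1⟩, hf2⟩
    · exact ⟨1, P.one_mem, by rw [h1]; rfl⟩
    · obtain ⟨f, hf1, hf2⟩ := h.exists_fpf h1
      refine ⟨(ρ f)⁻¹, P.inv_mem ⟨f, rfl, Or.inr hf1⟩, ?_⟩
      rw [inv_eq_iff]; exact hf2
  obtain ⟨χ, hχ⟩ := holder hF htr
  -- the translation by `t` in the coordinate
  have htrans : ∀ t : ℝ, ∃ g : L, (g = 1 ∨ ∀ x, ρ g x ≠ x) ∧ ∀ x, χ (ρ g x) = χ x + t := by
    intro t
    let p : E := χ⁻¹ * (OrderIso.addRight t : E) * χ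
    have hp : ∀ x, χ (p x) = χ x + t := by
      intro x
      show χ (χ⁻¹ ((OrderIso.addRight t : E) (χ x))) = _
      rw [ap_inv]; rfl
    have hpP : p ∈ P := (hχ p).2 ⟨t, hp⟩
    obtain ⟨g, hg, hg'⟩ := (hmem p).1 hpP
    exact ⟨g, hg', fun x => by rw [hg]; exact hp x⟩
  have haff : ∀ g, ∃ a > 0, ∃ b, ∀ x, χ (ρ g x) = a * χ x + b := by
    intro g
    obtain ⟨a, ha, b, hab⟩ := affine_of_normalizes (χ * ρ g * χ⁻¹) (by
      intro t
      obtain ⟨k, hk, hkt⟩ := htrans t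
      have hconj : ρ (g * k * g⁻¹) ∈ P := by
        refine ⟨g * k * g⁻¹, rfl, ?_⟩
        rcases hk with rfl | hk
        · left; group
        · right
          intro x hx
          apply hk (ρ g⁻¹ x)
          rw [rho_mul_ap, rho_mul_ap] at hx
          conv_rhs => rw [← hx]
          rw [rho_inv_ap]
      obtain ⟨s, hs⟩ := (hχ _).1 hconj
      refine ⟨s, fun x => ?_⟩
      show χ (ρ g (χ⁻¹ (x + t))) = χ (ρ g (χ⁻¹ x)) + s
      have h1 := hs (ρ g (χ⁻¹ x))
      rw [rho_mul_ap, rho_mul_ap, rho_inv_ap] at h1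
      rw [← h1]
      congr 2
      rw [inv_eq_iff, hkt, ap_inv])
    refine ⟨a, ha, b, fun x => ?_⟩
    have := hab (χ x)
    simpa using this
  refine ⟨χ, haff, ?_⟩
  intro a ha b
  obtain ⟨g1, hg1, hg2⟩ := h.tr (χ⁻¹ 0) (χ⁻¹ 1) (χ⁻¹ a)
    (Or.inl ⟨χ⁻¹.strictMono one_pos, χ⁻¹.strictMono ha⟩)
  obtain ⟨g2, -, hg2b⟩ := htrans b
  obtain ⟨a', ha', b', hab'⟩ := haff g1
  have h1 := hab' (χ⁻¹ 0)
  rw [hg1, ap_inv] at h1
  have h2 := hab' (χ⁻¹ 1)
  rw [hg2, ap_inv, ap_inv] at h2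
  have hb' : b' = 0 := by linarith
  have ha'' : a' = a := by linarith
  refine ⟨g2 * g1, fun x => ?_⟩
  rw [rho_mul_ap, hg2b, hab', hb', ha'']
  ring

end AffS

end Pool.Agent.Circ
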