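import Pool.Agent.Circ.Basic

set_option autoImplicit false

open Set Filter Topology

namespace Pool.Agent.Circ

/-- Affine map from `(-1,1)` to `(a,b)`. -/
noncomputable def affIoo {a b : ℝ} (hab : a < b) : Ioo (-1 : ℝ) 1 ≃o Ioo a b where
  toFun x := ⟨a + (b - a) * ((x : ℝ) + 1) / 2, by
    have h1 := x.2.1; have h2 := x.2.2
    constructor <;> nlinarith⟩
  invFun y := ⟨2 * ((y : ℝ) - a) / (b - a) - 1, by
    have h1 := y.2.1; have h2 := y.2.2
    have h3 : 0 < b - a := sub_pos.2 hab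
    constructor
    · have : 0 < 2 * ((y : ℝ) - a) / (b - a) := by
        apply div_pos _ h3; linarith
      linarith
    · have : 2 * ((y : ℝ) - a) / (b - a) < 2 := by
        rw [div_lt_iff₀ h3]; linarith
      linarith⟩
  left_inv x := by
    have h3 : (b - a) ≠ 0 := (sub_pos.2 hab).ne'
    apply Subtype.ext
    show 2 * ((a + (b - a) * ((x : ℝ) + 1) / 2) - a) / (b - a) - 1 = x
    field_simp; ring
  right_inv y := by
    have h3 : (b - a) ≠ 0 := (sub_pos.2 hab).ne'
    apply Subtype.ext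
    show a + (b - a) * ((2 * ((y : ℝ) - a) / (b - a) - 1) + 1) / 2 = y
    field_simp; ring
  map_rel_iff' := by
    intro x y
    have h3 : 0 < b - a := sub_pos.2 hab
    show a + (b - a) * ((x : ℝ) + 1) / 2 ≤ a + (b - a) * ((y : ℝ) + 1) / 2 ↔ x ≤ y
    rw [← Subtype.coe_le_coe]
    constructor
    · intro h; nlinarith
    · intro h; nlinarith

/-- A fixed order isomorphism of the line with the open interval `(a,b)`. -/
noncomputable def arcIso {a b : ℝ} (hab : a < b) : ℝ ≃o Ioo a b :=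
  (orderIsoIooNegOneOne ℝ).trans (affIoo hab)

/-- The value in `(a,b)` as a real number. -/
noncomputable def av {a b : ℝ} (hab : a < b) (x : ℝ) : ℝ := (arcIso hab x : ℝ)

section
variable {a b : ℝ} (hab : a < b)

lemma av_mem (x : ℝ) : av hab x ∈ Ioo a b := (arcIso hab x).2

lemma av_strictMono : StrictMono (av hab) := fun _ _ h => (arcIso hab).strictMono h

lemma av_lt_iff {x y : ℝ} : av hab x < av hab y ↔ x < y := (av_strictMono hab).lt_iff_lt

lemma av_inj {x y : ℝ} : av hab x = av hab y ↔ x = y := (av_strictMono hab).injective.eq_iff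

lemma av_continuous : Continuous (av hab) :=
  continuous_subtype_val.comp (arcIso hab).continuous

lemma av_surj {y : ℝ} (hy : y ∈ Ioo a b) : ∃ x, av hab x = y := by
  obtain ⟨x, hx⟩ := (arcIso hab).surjective ⟨y, hy⟩
  exact ⟨x, congrArg Subtype.val hx⟩

/-- The inverse coordinate: an arbitrary value outside. -/
lemma tendsto_of_av {ι : Type*} {l : Filter ι} {f : ι → ℝ} {x : ℝ}
    (h : Tendsto (fun i => av hab (f i)) l (𝓝 (av hab x))) : Tendsto f l (𝓝 x) := by
  have h1 : Tendsto (fun i => arcIso hab (f i)) l (𝓝 (arcIso hab x)) := by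
    rw [tendsto_subtype_rng]; exact h
  have h2 := ((arcIso hab).symm.continuous.tendsto _).comp h1
  simpa [Function.comp_def] using h2

lemma av_nhds {S : Set ℝ} {x : ℝ} (hS : S ∈ 𝓝 (av hab x)) : {y | av hab y ∈ S} ∈ 𝓝 x :=
  (av_continuous hab).continuousAt hS

lemma av_image_nhds {S : Set ℝ} {x : ℝ} (hS : S ∈ 𝓝 x) :
    {z | ∃ y ∈ S, av hab y = z} ∈ 𝓝 (av hab x) := by
  have h1 : (fun y => arcIso hab y) '' S ∈ 𝓝 (arcIso hab x) :=
    (arcIso hab).toHomeomorph.isOpenMap.image_mem_nhds hS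
  have h2 : (Subtype.val : Ioo a b → ℝ) '' ((fun y => arcIso hab y) '' S) ∈
      𝓝 ((arcIso hab x : Ioo a b) : ℝ) :=
    (isOpen_Ioo.isOpenMap_subtype_val).image_mem_nhds h1
  refine mem_of_superset h2 ?_
  rintro z ⟨w, ⟨y, hy, rfl⟩, rfl⟩
  exact ⟨y, hy, rfl⟩

end

/-- Restriction of a homeomorphism to a map between intervals. -/
def IooMap {a b a' b' : ℝ} (g : E) (ha : g a = a') (hb : g b = b') : Ioo a b ≃o Ioo a' b' where
  toFun x := ⟨g x, by
    have h1 := g.strictMono x.2.1; have h2 := g.strictMono x.2.2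
    rw [ha] at h1; rw [hb] at h2
    exact ⟨h1, h2⟩⟩
  invFun y := ⟨g⁻¹ y, by
    have h1 : g a < y := lt_of_eq_of_lt ha y.2.1
    have h2 : (y : ℝ) < g b := lt_of_lt_of_eq y.2.2 hb.symm
    exact ⟨lt_inv_iff.2 h1, inv_lt_iff.2 h2⟩⟩
  left_inv x := by apply Subtype.ext; simp
  right_inv y := by apply Subtype.ext; simp
  map_rel_iff' := by
    intro x y
    show g x ≤ g y ↔ x ≤ y
    rw [g.le_iff_le]; exact Iff.rfl

/-- `g : (a,b) → (a',b')` in the arc coordinates. -/
noncomputable def arcMap {a b a' b' : ℝ} (hab : a < b) (hab' : a' < b') (g : E)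
    (ha : g a = a') (hb : g b = b') : E :=
  (arcIso hab).trans ((IooMap g ha hb).trans (arcIso hab').symm)

lemma av_arcMap {a b a' b' : ℝ} (hab : a < b) (hab' : a' < b') (g : E)
    (ha : g a = a') (hb : g b = b') (x : ℝ) :
    av hab' (arcMap hab hab' g ha hb x) = g (av hab x) := by
  unfold av arcMap
  simp only [OrderIso.trans_apply, OrderIso.apply_symm_apply]
  rfl

/-- The action of `St a b` on the arc `(a,b)`. -/
noncomputable def res {a b : ℝ} (hab : a < b) : St a b →* E where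
  toFun g := arcMap hab hab g.1 g.2.1 g.2.2
  map_one' := by
    apply ext_ap
    intro x
    rw [← av_inj hab, av_arcMap]
    rfl
  map_mul' := by
    intro g h
    apply ext_ap
    intro x
    rw [← av_inj hab, av_arcMap, mul_ap, av_arcMap, av_arcMap]
    rfl

@[simp] lemma av_res {a b : ℝ} (hab : a < b) (g : St a b) (x : ℝ) :
    av hab (res hab g x) = (g : E) (av hab x) := av_arcMap hab hab g.1 g.2.1 g.2.2 x

lemma res_continuous {a b : ℝ} (hab : a < b) : Continuous (res hab) := by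
  rw [continuous_E]
  intro x
  rw [continuous_iff_continuousAt]
  intro g
  apply tendsto_of_av hab
  simp only [av_res]
  exact ((continuous_eval_at _).comp continuous_subtype_val).tendsto g

/-- Left endpoint of the distinguished arc of a configuration. -/
def lo {k : ℕ} (G : Fin (k + 1) → ℝ) : ℝ := G (Fin.last k) - 1

/-- Right endpoint of the distinguished arc of a configuration. -/
def hi {k : ℕ} (G : Fin (k + 1) → ℝ) : ℝ := G 0

lemma lo_lt_hi {k : ℕ} {G : Fin (k + 1) → ℝ} (hG : G ∈ Conf (k + 1)) : lo G < hi G := by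
  have := hG.2 (Fin.last k) 0
  unfold lo hi; linarith

lemma Fix_le_St {Γ : Subgroup E} (hΓ : Γ ≤ H) {k : ℕ} (G : Fin (k + 1) → ℝ) :
    Fix Γ G ≤ St (lo G) (hi G) := by
  rintro g ⟨hg, hg'⟩
  refine ⟨?_, hg' 0⟩
  unfold lo
  rw [H_sub_one (hΓ hg), hg']

/-- The action of the stabiliser of `G` on the distinguished arc of `G`. -/
noncomputable def arcAct {Γ : Subgroup E} (hΓ : Γ ≤ H) {k : ℕ} {G : Fin (k + 1) → ℝ}
    (hG : G ∈ Conf (k + 1)) : Fix Γ G →* E :=
  (res (lo_lt_hi hG)).comp (Subgroup.inclusion (Fix_le_St hΓ G))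

lemma av_arcAct {Γ : Subgroup E} (hΓ : Γ ≤ H) {k : ℕ} {G : Fin (k + 1) → ℝ}
    (hG : G ∈ Conf (k + 1)) (g : Fix Γ G) (x : ℝ) :
    av (lo_lt_hi hG) (arcAct hΓ hG g x) = (g : E) (av (lo_lt_hi hG) x) := by
  unfold arcAct
  rw [MonoidHom.comp_apply, av_res]
  rfl

lemma arcAct_continuous {Γ : Subgroup E} (hΓ : Γ ≤ H) {k : ℕ} {G : Fin (k + 1) → ℝ}
    (hG : G ∈ Conf (k + 1)) : Continuous (arcAct hΓ hG) := by
  unfold arcAct
  have h1 : Continuous (Subgroup.inclusion (Fix_le_St hΓ G)) := by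
    rw [continuous_induced_rng]
    exact continuous_subtype_val
  exact (res_continuous _).comp h1

end Pool.Agent.Circ
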