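import Pool.Agent.Circ.Basic

/-!
Module G2 (section 9): the frozen statement from the main theorem on the line.
-/

set_option autoImplicit false

open Set Filter Topology

namespace Pool.Agent.Circ

/-- The circle. -/
abbrev Ci := AddCircle (1 : ℝ)

lemma ci_eq {x y : ℝ} : (x : Ci) = (y : Ci) ↔ ∃ n : ℤ, x = y + n := by
  rw [← sub_eq_zero, ← AddCircle.coe_sub, AddCircle.coe_eq_zero_iff]
  constructor
  · rintro ⟨n, hn⟩
    refine ⟨n, ?_⟩
    rw [zsmul_eq_mul, mul_one] at hn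
    linarith
  · rintro ⟨n, rfl⟩
    exact ⟨n, by rw [zsmul_eq_mul, mul_one]; ring⟩

lemma ci_ind {p : Ci → Prop} (h : ∀ t : ℝ, p (t : Ci)) (x : Ci) : p x :=
  Quotient.inductionOn' x h

/-- `F` is a lift of `f`. -/
def Lifts (F : E) (f : Ci → Ci) : Prop := ∀ t : ℝ, f (t : Ci) = ((F t : ℝ) : Ci)

lemma periodic_coe {F : E} (hF : F ∈ H) : Function.Periodic (fun t : ℝ => ((F t : ℝ) : Ci)) 1 := by
  intro t
  show ((F (t + 1) : ℝ) : Ci) = ((F t : ℝ) : Ci)
  rw [hF t]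
  exact ci_eq.2 ⟨1, by simp⟩

/-- The circle map of an element of `H`. -/
noncomputable def dmap (F : E) (hF : F ∈ H) : Ci → Ci := (periodic_coe hF).lift

lemma dmap_coe (F : E) (hF : F ∈ H) (t : ℝ) : dmap F hF (t : Ci) = ((F t : ℝ) : Ci) := rfl

lemma continuous_dmap (F : E) (hF : F ∈ H) : Continuous (dmap F hF) := by
  have h1 : Continuous (fun t : ℝ => dmap F hF (t : Ci)) := by
    simp only [dmap_coe]
    exact (AddCircle.continuous_mk' 1).comp (cont_ap F)
  exact continuous_coinduced_dom.2 h1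

/-- The circle homeomorphism of an element of `H`. -/
noncomputable def desc (F : E) (hF : F ∈ H) : Ci ≃ₜ Ci where
  toFun := dmap F hF
  invFun := dmap F⁻¹ (H.inv_mem hF)
  left_inv := by
    intro x
    induction x using ci_ind with
    | h t => rw [dmap_coe, dmap_coe, inv_ap]
  right_inv := by
    intro x
    induction x using ci_ind with
    | h t => rw [dmap_coe, dmap_coe, ap_inv]
  continuous_toFun := continuous_dmap F hF
  continuous_invFun := continuous_dmap _ _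

lemma desc_coe (F : E) (hF : F ∈ H) (t : ℝ) : desc F hF (t : Ci) = ((F t : ℝ) : Ci) := rfl

lemma desc_symm_coe (F : E) (hF : F ∈ H) (t : ℝ) :
    (desc F hF).symm (t : Ci) = ((F⁻¹ t : ℝ) : Ci) := rfl

lemma homeo_eq_of_lifts {f g : Ci ≃ₜ Ci} {F : E} (hf : Lifts F f) (hg : Lifts F g) : f = g := by
  ext x
  induction x using ci_ind with
  | h t => rw [hf t, hg t]

/-- orientation preserving as in the frozen statement -/
def OP (f : Ci ≃ₜ Ci) : Prop :=
  ∃ F : ℝ → ℝ, Continuous F ∧ StrictMono F ∧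
    ∀ t : ℝ, f ((t : ℝ) : AddCircle (1:ℝ)) = ((F t : ℝ) : AddCircle (1:ℝ))

lemma op_of_lifts {f : Ci ≃ₜ Ci} {F : E} (hf : Lifts F f) : OP f :=
  ⟨F, cont_ap F, F.strictMono, hf⟩

lemma exists_lifts {f : Ci ≃ₜ Ci} (hf : OP f) : ∃ Φ ∈ H, Lifts Φ f := by
  obtain ⟨F, hc, hm, hl⟩ := hf
  have h1 : ∀ t, F (t + 1) = F t + 1 := by
    intro t
    have h2 : ((F (t + 1) : ℝ) : Ci) = ((F t : ℝ) : Ci) := by
      rw [← hl, ← hl]
      congr 1
      exact ci_eq.2 ⟨1, by simp⟩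
    obtain ⟨n, hn⟩ := ci_eq.1 h2
    have h3 : F t < F (t + 1) := hm (by linarith)
    have h4 : (0 : ℝ) < n := by linarith
    have h5 : 0 < n := by exact_mod_cast h4
    by_cases h6 : n = 1
    · rw [hn, h6]; simp
    · exfalso
      have h7 : 2 ≤ n := by omega
      have h8 : (2 : ℝ) ≤ n := by exact_mod_cast h7
      have h9 : F t + 1 ∈ Icc (F t) (F (t + 1)) := ⟨by linarith, by linarith⟩
      obtain ⟨s, hs, hs2⟩ := intermediate_value_Icc (by linarith : t ≤ t + 1) hc.continuousOn h9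
      have h10 : f (s : Ci) = f (t : Ci) := by
        rw [hl, hl, hs2]
        exact ci_eq.2 ⟨1, by simp⟩
      obtain ⟨k, hk⟩ := ci_eq.1 (f.injective h10)
      have h11 : F t < F s := by rw [hs2]; linarith
      have h12 : t < s := hm.lt_iff_lt.1 h11
      have h13 : F s < F (t + 1) := by rw [hs2]; linarith
      have h14 : s < t + 1 := hm.lt_iff_lt.1 h13
      have h15 : (0 : ℝ) < k := by linarith
      have h16 : (k : ℝ) < 1 := by linarith
      have h17 : 0 < k := by exact_mod_cast h15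
      have h18 : k < 1 := by exact_mod_cast h16
      omega
  have hnat : ∀ (m : ℕ) (x : ℝ), F (x + m) = F x + m := by
    intro m
    induction m with
    | zero => intro x; simp
    | succ m ih =>
      intro x
      push_cast
      rw [← add_assoc, h1, ih, add_assoc]
  have hint : ∀ (n : ℤ) (x : ℝ), F (x + n) = F x + n := by
    intro n x
    rcases Int.eq_nat_or_neg n with ⟨m, rfl | rfl⟩
    · exact_mod_cast hnat m x
    · have h1 := hnat m (x + ((-(m : ℤ) : ℤ) : ℝ))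
      have h2 : x + ((-(m : ℤ) : ℤ) : ℝ) + (m : ℝ) = x := by push_cast; ring
      rw [h2] at h1
      rw [h1]; push_cast; ring
  have hsurj : Function.Surjective F := by
    intro y
    have h2 := hint ⌊y - F 0⌋ 0
    have h3 := hint (⌊y - F 0⌋ + 1) 0
    have h4 := Int.floor_le (y - F 0)
    have h5 := Int.lt_floor_add_one (y - F 0)
    rw [zero_add] at h2 h3
    push_cast at h3
    have h6 : y ∈ Icc (F (⌊y - F 0⌋ : ℝ)) (F ((⌊y - F 0⌋ : ℝ) + 1)) := by
      constructor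
      · rw [h2]; linarith
      · rw [h3]; linarith
    obtain ⟨s, _, hs⟩ := intermediate_value_Icc (by linarith) hc.continuousOn h6
    exact ⟨s, hs⟩
  exact ⟨StrictMono.orderIsoOfSurjective F hm hsurj, h1, hl⟩

/-- The group of all lifts of the elements of `G`. -/
def Gam (G : Set (Ci ≃ₜ Ci)) (h1 : Homeomorph.refl Ci ∈ G)
    (hmul : ∀ f ∈ G, ∀ g ∈ G, f.trans g ∈ G) (hinv : ∀ f ∈ G, f.symm ∈ G) : Subgroup E where
  carrier := {F | F ∈ H ∧ ∃ f ∈ G, Lifts F f}
  one_mem' := ⟨H.one_mem, _, h1, fun t => rfl⟩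
  mul_mem' := by
    rintro a b ⟨ha, f, hf, hfa⟩ ⟨hb, g, hg, hgb⟩
    refine ⟨H.mul_mem ha hb, _, hmul g hg f hf, fun t => ?_⟩
    show f (g (t : Ci)) = _
    rw [hgb t, hfa (b t)]
    rfl
  inv_mem' := by
    rintro a ⟨ha, f, hf, hfa⟩
    refine ⟨H.inv_mem ha, _, hinv f hf, fun t => ?_⟩
    rw [Homeomorph.symm_apply_eq, hfa, ap_inv]

section
variable {G : Set (Ci ≃ₜ Ci)} {h1 : Homeomorph.refl Ci ∈ G}
  {hmul : ∀ f ∈ G, ∀ g ∈ G, f.trans g ∈ G} {hinv : ∀ f ∈ G, f.symm ∈ G}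

lemma mem_Gam {F : E} : F ∈ Gam G h1 hmul hinv ↔ F ∈ H ∧ ∃ f ∈ G, Lifts F f := Iff.rfl

lemma Gam_le : Gam G h1 hmul hinv ≤ H := fun _ h => h.1

lemma T1_mem : T1 ∈ Gam G h1 hmul hinv := by
  refine ⟨fun x => ?_, _, h1, fun t => ?_⟩
  · rfl
  · show (t : Ci) = ((t + 1 : ℝ) : Ci)
    exact ci_eq.2 ⟨-1, by simp⟩

lemma mem_iff_lift {f : Ci ≃ₜ Ci} {F : E} (hF : F ∈ H) (hl : Lifts F f) :
    f ∈ G ↔ F ∈ Gam G h1 hmul hinv := by
  constructor
  · intro hf; exact ⟨hF, f, hf, hl⟩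
  · rintro ⟨_, g, hg, hgl⟩
    rw [homeo_eq_of_lifts hl hgl]; exact hg

/-- integer translation -/
noncomputable def shift (c : ℝ) : E := OrderIso.addRight c

@[simp] lemma shift_ap (c x : ℝ) : shift c x = x + c := rfl

lemma Gam_trans (hOP : ∀ f ∈ G, OP f) (htr : ∀ x y : Ci, ∃ g ∈ G, g x = y) :
    Trans (Gam G h1 hmul hinv) := by
  intro x y
  obtain ⟨g, hg, hxy⟩ := htr (x : Ci) (y : Ci)
  obtain ⟨F, hF, hl⟩ := exists_lifts (hOP g hg)
  rw [hl x] at hxy
  obtain ⟨n, hn⟩ := ci_eq.1 hxy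
  refine ⟨shift (-n) * F, ⟨fun t => ?_, g, hg, fun t => ?_⟩, ?_⟩
  · simp only [mul_ap, shift_ap]
    rw [hF t]; ring
  · rw [hl t]
    refine ci_eq.2 ⟨n, ?_⟩
    simp only [mul_ap, shift_ap]; ring
  · simp only [mul_ap, shift_ap]
    linarith

lemma Gam_closed
    (hcl : ∀ f : Ci ≃ₜ Ci, OP f →
      (ContinuousMap.mk (⇑f) f.continuous : C(Ci, Ci)) ∈ closure
            ((fun g : Ci ≃ₜ Ci => (ContinuousMap.mk (⇑g) g.continuous : C(Ci, Ci))) '' G) →
          f ∈ G) :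
    IsClosed ((Gam G h1 hmul hinv : Subgroup E) : Set E) := by
  refine isClosed_of_closure_subset fun F hF => ?_
  have hFH : F ∈ H := by
    have : closure ((Gam G h1 hmul hinv : Subgroup E) : Set E) ⊆ (H : Set E) :=
      closure_minimal Gam_le isClosed_H
    exact this hF
  refine ⟨hFH, desc F hFH, ?_, fun t => desc_coe F hFH t⟩
  refine hcl _ (op_of_lifts (fun t => desc_coe F hFH t)) ?_
  rw [Metric.mem_closure_iff]
  intro ε hε
  -- a nearby element of the group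
  have h2 : Tendsto (fun K : E => K * F⁻¹) (𝓝 F) (𝓝 1) := by
    have h3 : Continuous (fun K : E => K * F⁻¹) := continuous_id.mul continuous_const
    have h4 := h3.tendsto F
    rwa [mul_inv_cancel] at h4
  have h3 := h2.eventually (eventually_small hε)
  obtain ⟨K, hK1, hK2⟩ := (mem_closure_iff_nhds.1 hF _ h3)
  obtain ⟨hKH, g, hg, hgl⟩ := hK2
  have h4 : Small ε (K * F⁻¹) := hK1 (H.mul_mem hKH (H.inv_mem hFH))
  refine ⟨_, ⟨g, hg, rfl⟩, ?_⟩
  rw [ContinuousMap.dist_lt_iff hε]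
  intro x
  induction x using ci_ind with
  | h t =>
    show dist (desc F hFH (t : Ci)) (g (t : Ci)) < ε
    rw [desc_coe, hgl t, dist_eq_norm, ← AddCircle.coe_sub]
    refine lt_of_le_of_lt QuotientAddGroup.norm_mk_le_norm ?_
    have h5 := h4 (F t)
    rw [mul_ap, inv_ap] at h5
    rw [Real.norm_eq_abs, abs_sub_comm]
    exact h5

end

/-! ### The covering of degree `k` -/

/-- multiplication by `k` on the line -/
noncomputable def mulk (k : ℕ) (hk : 0 < k) : E :=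
  OrderIso.mulLeft₀ (k : ℝ) (by exact_mod_cast hk)

@[simp] lemma mulk_ap (k : ℕ) (hk : 0 < k) (x : ℝ) : mulk k hk x = k * x := rfl

lemma mulk_inv_ap (k : ℕ) (hk : 0 < k) (x : ℝ) : (mulk k hk)⁻¹ x = x / k := by
  have hk' : (k : ℝ) ≠ 0 := by positivity
  rw [inv_eq_iff, mulk_ap]
  field_simp

lemma hk_mem {k : ℕ} (hk : 0 < k) {ψ : E} (hψ : ∀ x, ψ (x + k) = ψ x + 1) :
    ψ * mulk k hk ∈ H := by
  intro x
  simp only [mul_ap, mulk_ap]
  rw [mul_add, mul_one, hψ]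

/-- continuous maps into the circle with the same `k`-th multiple differ by a torsion constant -/
lemma torsion_trick {k : ℕ} (hk : 0 < k) {φ : ℝ → Ci} (hφ : Continuous φ) {m : ℝ → ℝ}
    (hm : Continuous m) (h : ∀ t, k • φ t = ((m t : ℝ) : Ci)) :
    ∃ j : ℤ, ∀ t, φ t = (((m t + j) / k : ℝ) : Ci) := by
  have hk' : (k : ℝ) ≠ 0 := by positivity
  set δ : ℝ → Ci := fun t => φ t - ((m t / k : ℝ) : Ci) with hδ
  have hδc : Continuous δ := hφ.sub ((AddCircle.continuous_mk' 1).comp (hm.div_const _))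
  have hδk : ∀ t, k • δ t = 0 := by
    intro t
    rw [hδ]
    simp only
    rw [nsmul_sub, h t, ← AddCircle.coe_nsmul, nsmul_eq_mul, mul_div_cancel₀ _ hk', sub_self]
  have hfin : {u : Ci | k • u = 0}.Finite := AddCircle.finite_torsion (1 : ℝ) hk
  have hconst : ∀ t, δ t = δ 0 := by
    intro t
    exact isPreconnected_univ.constant_of_mapsTo hfin.isDiscrete hδc.continuousOn
      (fun s _ => hδk s) (mem_univ t) (mem_univ 0)
  obtain ⟨r, hr⟩ : ∃ r : ℝ, (r : Ci) = δ 0 := QuotientAddGroup.mk_surjective _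
  have h2 : k • (r : Ci) = 0 := by rw [hr]; exact hδk 0
  rw [← AddCircle.coe_nsmul, AddCircle.coe_eq_zero_iff] at h2
  obtain ⟨j, hj⟩ := h2
  rw [zsmul_eq_mul, mul_one, nsmul_eq_mul] at hj
  refine ⟨j, fun t => ?_⟩
  have h3 : φ t = δ t + ((m t / k : ℝ) : Ci) := by rw [hδ]; simp
  rw [h3, hconst t, ← hr, ← AddCircle.coe_add]
  congr 1
  rw [hj]
  field_simp
  ring

section cover
variable {k : ℕ} (hk : 0 < k) {ψ : E} (hψ : ∀ x, ψ (x + k) = ψ x + 1)
include hψ

/-- the conjugated map in terms of a lift -/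
lemma cover_lift {f : Ci ≃ₜ Ci} {F : E} (hl : Lifts F f) (t : ℝ) :
    k • (desc _ (hk_mem hk hψ)).symm (f (desc _ (hk_mem hk hψ) (t : Ci))) =
      (((ψ⁻¹ * F * ψ) (k * t) : ℝ) : Ci) := by
  have hk' : (k : ℝ) ≠ 0 := by positivity
  rw [desc_coe, hl, desc_symm_coe, ← AddCircle.coe_nsmul, nsmul_eq_mul, mul_inv_rev]
  simp only [mul_ap, mulk_ap]
  rw [mulk_inv_ap, mul_div_cancel₀ _ hk']

/-- a homeomorphism which covers `M` has a lift which is conjugate to an integer shift of `M` -/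
lemma exists_cover_lift {f : Ci ≃ₜ Ci} {M : E}
    (h : ∀ t : ℝ, k • (desc _ (hk_mem hk hψ)).symm (f (desc _ (hk_mem hk hψ) (t : Ci))) =
      ((M (k * t) : ℝ) : Ci)) :
    ∃ j : ℤ, Lifts (ψ * (shift j * M) * ψ⁻¹) f := by
  have hk' : (k : ℝ) ≠ 0 := by positivity
  set h₀ := desc _ (hk_mem hk hψ) with hh₀
  obtain ⟨j, hj⟩ := torsion_trick hk (φ := fun t : ℝ => h₀.symm (f (h₀ (t : Ci))))
    (h₀.symm.continuous.comp (f.continuous.comp (h₀.continuous.comp (AddCircle.continuous_mk' 1))))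
    (m := fun t => M (k * t)) ((cont_ap M).comp (continuous_const.mul continuous_id)) h
  refine ⟨j, fun x => ?_⟩
  have h2 := hj (ψ⁻¹ x / k)
  have h3 : h₀ ((ψ⁻¹ x / k : ℝ) : Ci) = (x : Ci) := by
    rw [hh₀, desc_coe]
    simp only [mul_ap, mulk_ap]
    rw [mul_div_cancel₀ _ hk', ap_inv]
  rw [h3, Homeomorph.symm_apply_eq, mul_div_cancel₀ _ hk', hh₀, desc_coe] at h2
  rw [h2]
  simp only [mul_ap, mulk_ap, shift_ap]
  rw [mul_div_cancel₀ _ hk']

end cover

lemma Proj.shift {a b c d : ℝ} {M : E} (h : Proj a b c d M) (j : ℤ) :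
    Proj a b c d (shift j * M) := by
  intro t
  have h1 := h t
  simp only [mul_ap, shift_ap]
  have e1 : Real.cos (Real.pi * (M t + j)) = (-1) ^ j * Real.cos (Real.pi * M t) := by
    rw [mul_add, mul_comm Real.pi (j : ℝ), Real.cos_add_int_mul_pi]
  have e2 : Real.sin (Real.pi * (M t + j)) = (-1) ^ j * Real.sin (Real.pi * M t) := by
    rw [mul_add, mul_comm Real.pi (j : ℝ), Real.sin_add_int_mul_pi]
  rw [e1, e2]
  linear_combination (-1) ^ j * h1

/-- uniqueness of the angle up to integers -/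
lemma angle_unique {p q s u : ℝ} (hpq : ¬ (p = 0 ∧ q = 0))
    (h1 : Real.cos (Real.pi * s) * p = Real.sin (Real.pi * s) * q)
    (h2 : Real.cos (Real.pi * u) * p = Real.sin (Real.pi * u) * q) : (s : Ci) = (u : Ci) := by
  have h3 : Real.sin (Real.pi * s - Real.pi * u) = 0 := by
    rw [Real.sin_sub]
    by_cases hp : p = 0
    · have hq : q ≠ 0 := fun h => hpq ⟨hp, h⟩
      rw [hp, mul_zero] at h1 h2
      have e1 : Real.sin (Real.pi * s) = 0 := by
        rcases mul_eq_zero.1 h1.symm with h | h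
        · exact h
        · exact absurd h hq
      have e2 : Real.sin (Real.pi * u) = 0 := by
        rcases mul_eq_zero.1 h2.symm with h | h
        · exact h
        · exact absurd h hq
      rw [e1, e2]; ring
    · have : p * (Real.sin (Real.pi * s) * Real.cos (Real.pi * u) -
          Real.cos (Real.pi * s) * Real.sin (Real.pi * u)) = 0 := by
        linear_combination Real.sin (Real.pi * s) * h2 - Real.sin (Real.pi * u) * h1
      rcases mul_eq_zero.1 this with h | h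
      · exact absurd h hp
      · exact h
  rw [Real.sin_eq_zero_iff] at h3
  obtain ⟨n, hn⟩ := h3
  refine ci_eq.2 ⟨n, ?_⟩
  have hpi := Real.pi_pos
  have : Real.pi * (s - u - n) = 0 := by linarith
  rcases mul_eq_zero.1 this with h | h
  · exact absurd h hpi.ne'
  · linarith

/-- the angle relation depends only on the angle modulo one -/
lemma proj_of_coe_eq {p q s u : ℝ} (h : (s : Ci) = (u : Ci))
    (h1 : Real.cos (Real.pi * u) * p = Real.sin (Real.pi * u) * q) :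
    Real.cos (Real.pi * s) * p = Real.sin (Real.pi * s) * q := by
  obtain ⟨j, rfl⟩ := ci_eq.1 h
  have e1 : Real.cos (Real.pi * (u + j)) = (-1) ^ j * Real.cos (Real.pi * u) := by
    rw [mul_add, mul_comm Real.pi (j : ℝ), Real.cos_add_int_mul_pi]
  have e2 : Real.sin (Real.pi * (u + j)) = (-1) ^ j * Real.sin (Real.pi * u) := by
    rw [mul_add, mul_comm Real.pi (j : ℝ), Real.sin_add_int_mul_pi]
  rw [e1, e2]
  linear_combination (-1) ^ j * h1

lemma det_ne {a b c d x : ℝ} (hdet : a * d - b * c = 1) :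
    ¬ (c * Real.cos x + d * Real.sin x = 0 ∧ a * Real.cos x + b * Real.sin x = 0) := by
  rintro ⟨h1, h2⟩
  have e1 : Real.cos x = 0 := by
    linear_combination d * h2 - b * h1 - Real.cos x * hdet
  have e2 : Real.sin x = 0 := by
    linear_combination a * h1 - c * h2 - Real.sin x * hdet
  have := Real.sin_sq_add_cos_sq x
  rw [e1, e2] at this
  norm_num at this

/-- The frozen statement from the main theorem on the line. -/
theorem frozen_of_mainE
    (mainE : ∀ Γ : Subgroup E, Γ ≤ H → IsClosed (Γ : Set E) → Trans Γ → T1 ∈ Γ → Γ ≠ H →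
      (∃ h ∈ H, ∀ g : E, g ∈ Γ ↔ ∃ t : ℝ, ∀ x, h⁻¹ (g (h x)) = x + t) ∨
      ∃ k : ℕ, 0 < k ∧ ∃ ψ : E, (∀ x, ψ (x + k) = ψ x + 1) ∧
        ((∀ g : E, g ∈ Γ ↔ ψ⁻¹ * g * ψ ∈ H) ∨
         ((∀ g : E, g ∈ Γ ↔ (ψ⁻¹ * g * ψ ∈ H ∧ ∃ a b c d : ℝ, a * d - b * c = 1 ∧
            Proj a b c d (ψ⁻¹ * g * ψ))) ∧
          (∀ a b c d : ℝ, a * d - b * c = 1 → ∃ g ∈ Γ, Proj a b c d (ψ⁻¹ * g * ψ)))))
    (G : Set (AddCircle (1:ℝ) ≃ₜ AddCircle (1:ℝ)))
    (h1 : Homeomorph.refl (AddCircle (1:ℝ)) ∈ G)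
    (hmul : ∀ f ∈ G, ∀ g ∈ G, f.trans g ∈ G)
    (hinv : ∀ f ∈ G, f.symm ∈ G)
    (hOP : ∀ f ∈ G, ∃ F : ℝ → ℝ, Continuous F ∧ StrictMono F ∧
          ∀ t : ℝ, f ((t : ℝ) : AddCircle (1:ℝ)) = ((F t : ℝ) : AddCircle (1:ℝ)))
    (hcl : ∀ f : AddCircle (1:ℝ) ≃ₜ AddCircle (1:ℝ),
          (∃ F : ℝ → ℝ, Continuous F ∧ StrictMono F ∧
            ∀ t : ℝ, f ((t : ℝ) : AddCircle (1:ℝ)) = ((F t : ℝ) : AddCircle (1:ℝ))) →
          (ContinuousMap.mk (⇑f) f.continuous : C(AddCircle (1:ℝ), AddCircle (1:ℝ))) ∈ closure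
            ((fun g : AddCircle (1:ℝ) ≃ₜ AddCircle (1:ℝ) =>
                (ContinuousMap.mk (⇑g) g.continuous : C(AddCircle (1:ℝ), AddCircle (1:ℝ)))) '' G) →
          f ∈ G)
    (htr : ∀ x y : AddCircle (1:ℝ), ∃ g ∈ G, g x = y)
    (hprop : ∃ f : AddCircle (1:ℝ) ≃ₜ AddCircle (1:ℝ),
          (∃ F : ℝ → ℝ, Continuous F ∧ StrictMono F ∧
            ∀ t : ℝ, f ((t : ℝ) : AddCircle (1:ℝ)) = ((F t : ℝ) : AddCircle (1:ℝ))) ∧
          f ∉ G) :
      ∃ h : AddCircle (1:ℝ) ≃ₜ AddCircle (1:ℝ), ∃ k : ℕ, 0 < k ∧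
        ((∀ f : AddCircle (1:ℝ) ≃ₜ AddCircle (1:ℝ), f ∈ G ↔
            ∃ c : AddCircle (1:ℝ), ∀ x : AddCircle (1:ℝ), h.symm (f (h x)) = x + c) ∨
         (∀ f : AddCircle (1:ℝ) ≃ₜ AddCircle (1:ℝ), f ∈ G ↔
            ∃ a b c d : ℝ, a * d - b * c = 1 ∧
              ∀ t s : ℝ,
                k • h.symm (f (h ((t : ℝ) : AddCircle (1:ℝ)))) = ((s : ℝ) : AddCircle (1:ℝ)) →
                Real.cos (Real.pi * s) *
                    (c * Real.cos (Real.pi * ((k : ℝ) * t)) + d * Real.sin (Real.pi * ((k : ℝ) * t))) =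
                  Real.sin (Real.pi * s) *
                    (a * Real.cos (Real.pi * ((k : ℝ) * t)) + b * Real.sin (Real.pi * ((k : ℝ) * t)))) ∨
         (∀ f : AddCircle (1:ℝ) ≃ₜ AddCircle (1:ℝ), f ∈ G ↔
            ∃ g : AddCircle (1:ℝ) ≃ₜ AddCircle (1:ℝ),
              (∃ F : ℝ → ℝ, Continuous F ∧ StrictMono F ∧
                ∀ t : ℝ, g ((t : ℝ) : AddCircle (1:ℝ)) = ((F t : ℝ) : AddCircle (1:ℝ))) ∧
              ∀ x : AddCircle (1:ℝ), k • h.symm (f (h x)) = g (k • x))) := by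
  have hne : Gam G h1 hmul hinv ≠ H := by
    intro hcon
    obtain ⟨f, hf, hfG⟩ := hprop
    obtain ⟨F, hF, hl⟩ := exists_lifts hf
    exact hfG ((mem_iff_lift (h1 := h1) (hmul := hmul) (hinv := hinv) hF hl).2 (by rw [hcon]; exact hF))
  rcases mainE (Gam G h1 hmul hinv) Gam_le (Gam_closed hcl) (Gam_trans hOP htr) T1_mem hne with
    ⟨h, hh, hiff⟩ | ⟨k, hk, ψ, hψ, hcase⟩
  · refine ⟨desc h hh, 1, one_pos, Or.inl fun f => ⟨fun hf => ?_, ?_⟩⟩
    · obtain ⟨F, hF, hl⟩ := exists_lifts (hOP f hf)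
      obtain ⟨t, ht⟩ := (hiff F).1 ⟨hF, f, hf, hl⟩
      refine ⟨(t : Ci), fun x => ?_⟩
      induction x using ci_ind with
      | h x => rw [desc_coe, hl, desc_symm_coe, ht, AddCircle.coe_add]
    · rintro ⟨c, hc⟩
      obtain ⟨t, rfl⟩ : ∃ t : ℝ, (t : Ci) = c := QuotientAddGroup.mk_surjective _
      have h2 : h * shift t * h⁻¹ ∈ Gam G h1 hmul hinv := by
        rw [hiff]
        exact ⟨t, fun x => by simp⟩
      refine (mem_iff_lift h2.1 fun x => ?_).2 h2
      have h3 := hc ((h⁻¹ x : ℝ) : Ci)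
      rw [Homeomorph.symm_apply_eq, desc_coe, ap_inv, ← AddCircle.coe_add, desc_coe] at h3
      rw [h3]
      simp
  · have hk' : (k : ℝ) ≠ 0 := by positivity
    rcases hcase with hiff | ⟨hiff, hex⟩
    · refine ⟨desc _ (hk_mem hk hψ), k, hk, Or.inr (Or.inr fun f => ⟨fun hf => ?_, ?_⟩)⟩
      · obtain ⟨F, hF, hl⟩ := exists_lifts (hOP f hf)
        have hM := (hiff F).1 ⟨hF, f, hf, hl⟩
        refine ⟨desc _ hM, op_of_lifts fun t => desc_coe _ hM t, fun x => ?_⟩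
        induction x using ci_ind with
        | h t =>
          rw [cover_lift hk hψ hl, ← AddCircle.coe_nsmul, nsmul_eq_mul, desc_coe]
      · rintro ⟨g, hg, hgx⟩
        obtain ⟨M, hM, hMl⟩ := exists_lifts hg
        obtain ⟨j, hj⟩ := exists_cover_lift hk hψ (f := f) (M := M) (fun t => by
          rw [hgx, ← AddCircle.coe_nsmul, nsmul_eq_mul, hMl])
        have h2 : ψ * (shift j * M) * ψ⁻¹ ∈ Gam G h1 hmul hinv := by
          rw [hiff]
          intro x
          simp only [mul_ap, inv_ap, shift_ap]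
          rw [hM]; ring
        exact (mem_iff_lift h2.1 hj).2 h2
    · refine ⟨desc _ (hk_mem hk hψ), k, hk, Or.inr (Or.inl fun f => ⟨fun hf => ?_, ?_⟩)⟩
      · obtain ⟨F, hF, hl⟩ := exists_lifts (hOP f hf)
        obtain ⟨hM, a, b, c, d, hdet, hproj⟩ := (hiff F).1 ⟨hF, f, hf, hl⟩
        refine ⟨a, b, c, d, hdet, fun t s hs => ?_⟩
        rw [cover_lift hk hψ hl] at hs
        exact proj_of_coe_eq hs.symm (hproj (k * t))
      · rintro ⟨a, b, c, d, hdet, hrel⟩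
        obtain ⟨g₀, hg₀, hproj⟩ := hex a b c d hdet
        have hM := ((hiff g₀).1 hg₀).1
        set M := ψ⁻¹ * g₀ * ψ with hMdef
        obtain ⟨j, hj⟩ := exists_cover_lift hk hψ (f := f) (M := M) (fun t => by
          obtain ⟨s, hs⟩ : ∃ s : ℝ, (s : Ci) =
            k • (desc _ (hk_mem hk hψ)).symm (f (desc _ (hk_mem hk hψ) (t : Ci))) :=
              QuotientAddGroup.mk_surjective _
          rw [← hs]
          exact angle_unique (det_ne hdet) (hrel t s hs.symm) (hproj (k * t)))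
        have h2 : ψ * (shift j * M) * ψ⁻¹ ∈ Gam G h1 hmul hinv := by
          rw [hiff]
          have h3 : ψ⁻¹ * (ψ * (shift j * M) * ψ⁻¹) * ψ = shift j * M := by group
          rw [h3]
          refine ⟨fun x => ?_, a, b, c, d, hdet, hproj.shift j⟩
          have h4 : M (x + 1) = M x + 1 := hM x
          simp only [mul_ap, shift_ap]
          rw [h4]; ring
        exact (mem_iff_lift h2.1 hj).2 h2

end Pool.Agent.Circ
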