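import Pool.Agent.Circ.Defs

set_option autoImplicit false

open Set Filter Topology

namespace Pool.Agent.Circ

@[simp] lemma mul_ap (a b : E) (x : ℝ) : (a * b) x = a (b x) := rfl
@[simp] lemma one_ap (x : ℝ) : (1 : E) x = x := rfl
@[simp] lemma ap_inv (a : E) (x : ℝ) : a (a⁻¹ x) = x := RelIso.apply_inv_self a x
@[simp] lemma inv_ap (a : E) (x : ℝ) : a⁻¹ (a x) = x := RelIso.inv_apply_self a x

lemma ext_ap {a b : E} (h : ∀ x, a x = b x) : a = b := by
  ext x; exact h x

lemma inv_eq_iff {a : E} {x y : ℝ} : a⁻¹ x = y ↔ a y = x := by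
  constructor
  · rintro rfl; simp
  · rintro rfl; simp

lemma lt_inv_iff {a : E} {x y : ℝ} : y < a⁻¹ x ↔ a y < x := by
  constructor
  · intro h; have := a.strictMono h; simpa using this
  · intro h; have := a⁻¹.strictMono h; simpa using this

lemma inv_lt_iff {a : E} {x y : ℝ} : a⁻¹ x < y ↔ x < a y := by
  constructor
  · intro h; have := a.strictMono h; simpa using this
  · intro h; have := a⁻¹.strictMono h; simpa using this

lemma le_inv_iff {a : E} {x y : ℝ} : y ≤ a⁻¹ x ↔ a y ≤ x := by
  constructor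
  · intro h; have := a.monotone h; simpa using this
  · intro h; have := a⁻¹.monotone h; simpa using this

lemma inv_le_iff {a : E} {x y : ℝ} : a⁻¹ x ≤ y ↔ x ≤ a y := by
  constructor
  · intro h; have := a.monotone h; simpa using this
  · intro h; have := a⁻¹.monotone h; simpa using this

lemma cont_ap (g : E) : Continuous (fun x => g x) := OrderIso.continuous g

lemma isInducing_coe : IsInducing (fun (g : E) (x : ℝ) => g x) := ⟨rfl⟩

lemma continuous_coe : Continuous (fun (g : E) (x : ℝ) => g x) := isInducing_coe.continuous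

lemma continuous_eval_at (x : ℝ) : Continuous (fun g : E => g x) :=
  (continuous_apply x).comp continuous_coe

lemma tendsto_E {ι : Type*} {l : Filter ι} {f : ι → E} {g : E} :
    Tendsto f l (𝓝 g) ↔ ∀ x, Tendsto (fun i => f i x) l (𝓝 (g x)) := by
  rw [isInducing_coe.tendsto_nhds_iff, tendsto_pi_nhds]
  rfl

lemma continuous_E {X : Type*} [TopologicalSpace X] {f : X → E} :
    Continuous f ↔ ∀ x, Continuous (fun i => f i x) := by
  rw [isInducing_coe.continuous_iff, continuous_pi_iff]
  rfl

/-- Joint continuity of evaluation. -/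
lemma tendsto_ap {ι : Type*} {l : Filter ι} {f : ι → E} {g : E} {u : ι → ℝ} {x : ℝ}
    (hf : Tendsto f l (𝓝 g)) (hu : Tendsto u l (𝓝 x)) :
    Tendsto (fun i => f i (u i)) l (𝓝 (g x)) := by
  rw [tendsto_E] at hf
  rw [tendsto_order]
  constructor
  · intro a ha
    have h1 : g⁻¹ a < x := by rw [inv_lt_iff]; exact ha
    obtain ⟨y, hy1, hy2⟩ := exists_between h1
    have h2 : a < g y := by rw [inv_lt_iff] at hy1; exact hy1
    filter_upwards [(tendsto_order.1 (hf y)).1 a h2, (tendsto_order.1 hu).1 y hy2] with i h3 h4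
    exact lt_trans h3 ((f i).strictMono h4)
  · intro a ha
    have h1 : x < g⁻¹ a := by rw [lt_inv_iff]; exact ha
    obtain ⟨y, hy1, hy2⟩ := exists_between h1
    have h2 : g y < a := by rw [lt_inv_iff] at hy2; exact hy2
    filter_upwards [(tendsto_order.1 (hf y)).2 a h2, (tendsto_order.1 hu).2 y hy1] with i h3 h4
    exact lt_trans ((f i).strictMono h4) h3

lemma continuous_eval : Continuous (fun p : E × ℝ => p.1 p.2) := by
  rw [continuous_iff_continuousAt]
  intro p
  exact tendsto_ap (continuous_fst.tendsto p) (continuous_snd.tendsto p)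

lemma tendsto_inv_E {ι : Type*} {l : Filter ι} {f : ι → E} {g : E}
    (hf : Tendsto f l (𝓝 g)) : Tendsto (fun i => (f i)⁻¹) l (𝓝 g⁻¹) := by
  rw [tendsto_E] at hf ⊢
  intro x
  rw [tendsto_order]
  constructor
  · intro a ha
    rw [lt_inv_iff] at ha
    filter_upwards [(tendsto_order.1 (hf a)).2 x ha] with i h3
    rw [lt_inv_iff]; exact h3
  · intro a ha
    rw [gt_iff_lt, inv_lt_iff] at ha
    filter_upwards [(tendsto_order.1 (hf a)).1 x ha] with i h3
    rw [inv_lt_iff]; exact h3

instance : IsTopologicalGroup E where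
  continuous_mul := by
    rw [continuous_E]
    intro x
    exact continuous_eval.comp
      (continuous_fst.prodMk ((continuous_eval_at x).comp continuous_snd))
  continuous_inv := by
    rw [continuous_iff_continuousAt]
    intro g
    exact tendsto_inv_E tendsto_id

instance : T2Space E := by
  have hinj : Function.Injective (fun (g : E) (x : ℝ) => g x) := by
    intro a b h
    exact ext_ap (fun x => congrFun h x)
  exact T2Space.of_injective_continuous hinj continuous_coe

/-- The topology is already induced by evaluation at the rationals. -/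
lemma isInducing_rat : IsInducing (fun (g : E) (q : ℚ) => g (q : ℝ)) := by
  have hc : Continuous (fun (g : E) (q : ℚ) => g (q : ℝ)) :=
    continuous_pi fun q => continuous_eval_at _
  rw [isInducing_iff_nhds]
  intro g
  apply le_antisymm
  · exact (hc.tendsto g).le_comap
  · have h0 : ∀ q : ℚ, Tendsto (fun h : E => h (q : ℝ))
        (comap (fun (g : E) (q : ℚ) => g (q : ℝ)) (𝓝 (fun q : ℚ => g (q : ℝ)))) (𝓝 (g q)) := by
      intro q
      have h1 : Tendsto (fun (g : E) (q : ℚ) => g (q : ℝ))
        (comap (fun (g : E) (q : ℚ) => g (q : ℝ)) (𝓝 (fun q : ℚ => g (q : ℝ))))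
        (𝓝 (fun q : ℚ => g (q : ℝ))) := tendsto_comap
      exact (tendsto_pi_nhds.1 h1) q
    have h2 : Tendsto (fun h : E => h)
        (comap (fun (g : E) (q : ℚ) => g (q : ℝ)) (𝓝 (fun q : ℚ => g (q : ℝ)))) (𝓝 g) := by
      rw [tendsto_E]
      intro x
      rw [tendsto_order]
      constructor
      · intro a ha
        have h1 : g⁻¹ a < x := by rw [inv_lt_iff]; exact ha
        obtain ⟨y, hy1, hy2⟩ := exists_rat_btwn h1
        have h2 : a < g y := by rw [inv_lt_iff] at hy1; exact hy1
        filter_upwards [(tendsto_order.1 (h0 y)).1 a h2] with i h3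
        exact lt_trans h3 (i.strictMono hy2)
      · intro a ha
        have h1 : x < g⁻¹ a := by rw [lt_inv_iff]; exact ha
        obtain ⟨y, hy1, hy2⟩ := exists_rat_btwn h1
        have h2 : g y < a := by rw [lt_inv_iff] at hy2; exact hy2
        filter_upwards [(tendsto_order.1 (h0 y)).2 a h2] with i h3
        exact lt_trans (i.strictMono hy1) h3
    exact h2

instance : SecondCountableTopology E := isInducing_rat.secondCountableTopology

/-! ### Smallness -/

lemma Small.mono {ε δ : ℝ} {g : E} (h : Small ε g) (hd : ε ≤ δ) : Small δ g :=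
  fun x => lt_of_lt_of_le (h x) hd

lemma small_one {ε : ℝ} (h : 0 < ε) : Small ε 1 := by
  intro x; simpa using h

lemma Small.inv {ε : ℝ} {g : E} (h : Small ε g) : Small ε g⁻¹ := by
  intro x
  have h1 := h (g⁻¹ x)
  rw [ap_inv] at h1
  rwa [abs_sub_comm]

lemma Small.mul {ε δ : ℝ} {g h : E} (hg : Small ε g) (hh : Small δ h) : Small (ε + δ) (g * h) := by
  intro x
  have h1 := hg (h x)
  have h2 := hh x
  rw [mul_ap]
  calc |g (h x) - x| = |(g (h x) - h x) + (h x - x)| := by ring_nf
    _ ≤ |g (h x) - h x| + |h x - x| := abs_add_le _ _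
    _ < ε + δ := by linarith

lemma mem_H {g : E} : g ∈ H ↔ ∀ x, g (x + 1) = g x + 1 := Iff.rfl

lemma H_add_int {g : E} (hg : g ∈ H) (x : ℝ) (n : ℤ) : g (x + n) = g x + n := by
  have hnat : ∀ (m : ℕ) (x : ℝ), g (x + m) = g x + m := by
    intro m
    induction m with
    | zero => intro x; simp
    | succ m ih =>
      intro x
      push_cast
      rw [← add_assoc, hg, ih, add_assoc]
  rcases Int.eq_nat_or_neg n with ⟨m, rfl | rfl⟩
  · exact_mod_cast hnat m x
  · have h1 := hnat m (x + ((-(m : ℤ) : ℤ) : ℝ))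
    have h2 : x + ((-(m : ℤ) : ℤ) : ℝ) + (m : ℝ) = x := by push_cast; ring
    rw [h2] at h1
    rw [h1]; push_cast; ring

lemma H_sub_one {g : E} (hg : g ∈ H) (x : ℝ) : g (x - 1) = g x - 1 := by
  have := hg (x - 1)
  rw [sub_add_cancel] at this
  linarith

lemma isClosed_H : IsClosed (H : Set E) := by
  have : (H : Set E) = ⋂ x : ℝ, {g : E | g (x + 1) = g x + 1} := by
    ext g; simp [mem_H]
  rw [this]
  exact isClosed_iInter fun x =>
    isClosed_eq (continuous_eval_at _) ((continuous_eval_at _).add continuous_const)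

/-- Sup-small maps are in every neighbourhood. -/
lemma exists_small_subset {U : Set E} (hU : U ∈ 𝓝 (1 : E)) :
    ∃ ε > 0, ∀ g : E, Small ε g → g ∈ U := by
  by_contra hcon
  push Not at hcon
  have h1 : ∀ n : ℕ, ∃ g : E, Small (1 / ((n : ℝ) + 1)) g ∧ g ∉ U := fun n =>
    hcon _ (by positivity)
  choose g hg hgU using h1
  have h2 : Tendsto g atTop (𝓝 1) := by
    rw [tendsto_E]
    intro x
    rw [one_ap, tendsto_iff_dist_tendsto_zero]
    refine squeeze_zero (fun _ => dist_nonneg) (fun n => ?_)
      tendsto_one_div_add_atTop_nhds_zero_nat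
    rw [Real.dist_eq]
    exact (hg n x).le
  have h3 := h2.eventually_mem hU
  obtain ⟨n, hn⟩ := h3.exists
  exact hgU n hn

/-- Near the identity, elements of `H` are uniformly small. -/
lemma eventually_small {ε : ℝ} (hε : 0 < ε) : ∀ᶠ g in 𝓝 (1 : E), g ∈ H → Small ε g := by
  obtain ⟨n, hn⟩ := exists_nat_one_div_lt (half_pos hε)
  set d : ℝ := 1 / ((n : ℝ) + 1) with hd
  have hdpos : 0 < d := by positivity
  have h1 : ∀ᶠ g in 𝓝 (1 : E), ∀ i ∈ Finset.range (n + 3), |g (i * d) - i * d| < d := by
    rw [Finset.eventually_all]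
    intro i _
    have h2 := (continuous_eval_at (i * d)).tendsto (1 : E)
    simp only [one_ap] at h2
    have h3 := (Metric.tendsto_nhds.1 h2) d hdpos
    filter_upwards [h3] with g hg
    rwa [Real.dist_eq] at hg
  filter_upwards [h1] with g hg hgH x
  -- reduce to `[0,1)`
  set y := Int.fract x with hy
  have hx : x = y + (⌊x⌋ : ℝ) := by rw [hy]; exact (Int.fract_add_floor x).symm
  have h4 : g x - x = g y - y := by
    conv_lhs => rw [hx]
    rw [H_add_int hgH]
    ring
  rw [h4]
  have hy0 : 0 ≤ y := Int.fract_nonneg x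
  have hy1 : y < 1 := Int.fract_lt_one x
  set j := ⌊y / d⌋₊ with hj
  have hj1 : (j : ℝ) ≤ y / d := Nat.floor_le (by positivity)
  have hj2 : y / d < j + 1 := Nat.lt_floor_add_one _
  have hjd1 : j * d ≤ y := by rwa [le_div_iff₀ hdpos] at hj1
  have hjd2 : y < (j + 1) * d := by rwa [div_lt_iff₀ hdpos] at hj2
  have hn1 : ((n : ℝ) + 1) * d = 1 := by rw [hd]; field_simp
  have hjn : (j : ℝ) < n + 1 := by
    by_contra hc
    push Not at hc
    have : ((n : ℝ) + 1) * d ≤ j * d := mul_le_mul_of_nonneg_right hc hdpos.le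
    linarith
  have hjn' : j < n + 1 := by exact_mod_cast hjn
  have ha := hg j (by rw [Finset.mem_range]; omega)
  have hb := hg (j + 1) (by rw [Finset.mem_range]; omega)
  push_cast at hb
  rw [abs_lt] at ha hb ⊢
  have hm1 : g (j * d) ≤ g y := g.monotone hjd1
  have hm2 : g y ≤ g ((j + 1) * d) := g.monotone hjd2.le
  constructor <;> nlinarith

lemma eventually_mem_of_small {p : E → Prop} (h : ∀ᶠ g in 𝓝 (1 : E), p g) :
    ∃ ε > 0, ∀ g : E, Small ε g → p g := exists_small_subset h

end Pool.Agent.Circ
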