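import Mathlib

/-!
Definitions for MP_348654_gt (closed transitive groups of circle homeomorphisms).
`E` is the group of increasing homeomorphisms of the line with the topology of pointwise
convergence; `H` is the subgroup of maps commuting with `x ↦ x + 1`.
-/

set_option autoImplicit false

open Set Filter Topology

namespace Pool.Agent.Circ

/-- The group of increasing homeomorphisms of the line. -/
abbrev E := ℝ ≃o ℝ

/-- Topology of pointwise convergence. -/
instance instTopE : TopologicalSpace E :=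
  TopologicalSpace.induced (fun (g : E) (x : ℝ) => g x) Pi.topologicalSpace

/-- The maps commuting with the unit translation. -/
def H : Subgroup E where
  carrier := {g | ∀ x, g (x + 1) = g x + 1}
  one_mem' := by intro x; rfl
  mul_mem' := by
    intro a b ha hb x
    have h1 : (a * b) (x + 1) = a (b (x + 1)) := rfl
    have h2 : (a * b) x = a (b x) := rfl
    rw [h1, h2, hb x, ha (b x)]
  inv_mem' := by
    intro a ha x
    have h1 : a (a⁻¹ (x + 1)) = x + 1 := RelIso.apply_inv_self a (x + 1)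
    have h2 : a (a⁻¹ x) = x := RelIso.apply_inv_self a x
    have h3 : a (a⁻¹ x + 1) = x + 1 := by rw [ha (a⁻¹ x), h2]
    exact a.injective (h1.trans h3.symm)

/-- Sup-distance to the identity less than `ε` pointwise. -/
def Small (ε : ℝ) (g : E) : Prop := ∀ x, |g x - x| < ε

/-- Transitive on the line. -/
def Trans (Γ : Subgroup E) : Prop := ∀ x y : ℝ, ∃ g ∈ Γ, g x = y

/-- No nontrivial element has a fixed point. -/
def Free (C : Subgroup E) : Prop := ∀ c ∈ C, ∀ x : ℝ, c x = x → c = 1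

/-- There is a least positive element. -/
def HasLeast (C : Subgroup E) : Prop :=
  ∃ τ ∈ C, (∀ x, x < τ x) ∧ ∀ c ∈ C, (∀ x, x < c x) → ∀ x, τ x ≤ c x

section act
variable {K : Type*} [Group K] [TopologicalSpace K]

/-- A continuous microtransitive action on the line. -/
structure Act (ρ : K →* E) : Prop where
  cont : Continuous ρ
  mt : ∀ x : ℝ, ∀ U ∈ 𝓝 (1 : K), {y | ∃ k ∈ U, ρ k x = y} ∈ 𝓝 x

end act

/-- The quasi-centraliser: maps commuting with all elements near the identity. -/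
def QC {K : Type*} [Group K] [TopologicalSpace K] (ρ : K →* E) : Subgroup E where
  carrier := {c | ∀ᶠ k in 𝓝 (1 : K), c * ρ k = ρ k * c}
  one_mem' := by simp
  mul_mem' := by
    intro a b ha hb
    simp only [Set.mem_ofPred_eq] at *
    filter_upwards [ha, hb] with k h1 h2
    rw [mul_assoc, h2, ← mul_assoc, h1, mul_assoc]
  inv_mem' := by
    intro a ha
    simp only [Set.mem_ofPred_eq] at *
    filter_upwards [ha] with k h1
    rw [inv_mul_eq_iff_eq_mul, ← mul_assoc, h1, mul_assoc, mul_inv_cancel, mul_one]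

/-- `n` points of the circle in cyclic order, lifted to the line. -/
def Conf (n : ℕ) : Set (Fin n → ℝ) := {X | StrictMono X ∧ ∀ i j, X i < X j + 1}

/-- All sign patterns on `n` points are realised by arbitrarily small elements. -/
def AllPat (Γ : Subgroup E) (n : ℕ) : Prop :=
  ∀ X ∈ Conf n, ∀ e : Fin n → ℝ, (∀ i, e i ≠ 0) → ∀ η > 0,
    ∃ g ∈ Γ, Small η g ∧ ∀ i, 0 < e i * (g (X i) - X i)

/-- Pointwise stabiliser of a configuration. -/
def Fix (Γ : Subgroup E) {n : ℕ} (G : Fin n → ℝ) : Subgroup E where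
  carrier := {g | g ∈ Γ ∧ ∀ i, g (G i) = G i}
  one_mem' := ⟨Γ.one_mem, fun _ => rfl⟩
  mul_mem' := by
    rintro a b ⟨ha, ha'⟩ ⟨hb, hb'⟩
    refine ⟨Γ.mul_mem ha hb, fun i => ?_⟩
    have h1 : (a * b) (G i) = a (b (G i)) := rfl
    rw [h1, hb' i, ha' i]
  inv_mem' := by
    rintro a ⟨ha, ha'⟩
    refine ⟨Γ.inv_mem ha, fun i => ?_⟩
    have h1 : a (a⁻¹ (G i)) = G i := RelIso.apply_inv_self a (G i)
    exact a.injective (h1.trans (ha' i).symm)

/-- Cyclic rotation of a configuration. -/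
def rot {k : ℕ} (G : Fin (k + 1) → ℝ) : Fin (k + 1) → ℝ :=
  Fin.snoc (Fin.tail G) (G 0 + 1)

/-- The subgroup fixing `a` and `b`. -/
def St (a b : ℝ) : Subgroup E where
  carrier := {g | g a = a ∧ g b = b}
  one_mem' := ⟨rfl, rfl⟩
  mul_mem' := by
    rintro g h ⟨ha, ha'⟩ ⟨hb, hb'⟩
    refine ⟨?_, ?_⟩
    · have h1 : (g * h) a = g (h a) := rfl
      rw [h1, hb, ha]
    · have h1 : (g * h) b = g (h b) := rfl
      rw [h1, hb', ha']
  inv_mem' := by
    rintro g ⟨ha, ha'⟩
    refine ⟨?_, ?_⟩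
    · have h1 : g (g⁻¹ a) = a := RelIso.apply_inv_self g a
      exact g.injective (h1.trans ha.symm)
    · have h1 : g (g⁻¹ b) = b := RelIso.apply_inv_self g b
      exact g.injective (h1.trans ha'.symm)

/-- translation by one -/
noncomputable def T1 : E := OrderIso.addRight (1 : ℝ)

/-- microtransitivity of a subgroup of `E` on the line -/
def MTr (Γ : Subgroup E) : Prop :=
  ∀ x : ℝ, ∀ U ∈ 𝓝 (1 : E), {y | ∃ g ∈ Γ, g ∈ U ∧ g x = y} ∈ 𝓝 x

/-- pair condition: stabilisers have small elements moving every other point of the circle -/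
def CB (Γ : Subgroup E) : Prop :=
  ∀ x y : ℝ, (∀ n : ℤ, y ≠ x + n) → ∀ U ∈ 𝓝 (1 : E), ∃ g ∈ Γ, g ∈ U ∧ g x = x ∧ g y ≠ y

/-- output of the pattern dichotomy -/
structure LC (Γ : Subgroup E) (m : ℕ) (r : ℝ) : Prop where
  leH : Γ ≤ H
  closed : IsClosed (Γ : Set E)
  trans : Trans Γ
  two_le : 2 ≤ m
  pat : ∀ j ≤ m, AllPat Γ j
  e0 : ∃ X ∈ Conf (m + 1), ∀ᶠ g in 𝓝 (1 : E), g ∈ Γ →
    (∀ i : Fin m, g (X i.succ) = X i.succ) → g (X 0) = X 0
  rpos : 0 < r
  cpt : IsCompact {g : E | g ∈ Γ ∧ ∀ x, |g x - x| ≤ r}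

/-- hypotheses of the abstract affine theorem -/
structure AffHyp {L : Type*} [Group L] [TopologicalSpace L] (ρ : L →* E) : Prop where
  act : Act ρ
  uniq : ∀ g : L, ∀ x y, x ≠ y → ρ g x = x → ρ g y = y → g = 1
  tr : ∀ q x y, (q < x ∧ q < y ∨ x < q ∧ y < q) → ∃ g : L, ρ g q = q ∧ ρ g x = y
  mt2 : ∀ q x, x ≠ q → ∀ U ∈ 𝓝 (1 : L), {y | ∃ g ∈ U, ρ g q = q ∧ ρ g x = y} ∈ 𝓝 x

/-- `M` is a lift of the projective map of the matrix `(a b; c d)` -/
def Proj (a b c d : ℝ) (M : E) : Prop :=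
  ∀ t : ℝ, Real.cos (Real.pi * M t) * (c * Real.cos (Real.pi * t) + d * Real.sin (Real.pi * t)) =
    Real.sin (Real.pi * M t) * (a * Real.cos (Real.pi * t) + b * Real.sin (Real.pi * t))

end Pool.Agent.Circ
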