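import Pool.Agent.Circ.QC

/-!
Free subgroups of `E`, archimedean property, least elements, dense orbits, commutativity.
-/

set_option autoImplicit false
set_option linter.unusedSectionVars false

open Set Filter Topology

namespace Pool.Agent.Circ

/-- A map without fixed point moves all points in the same direction. -/
lemma pos_or_neg {c : E} (hc : ∀ x, c x ≠ x) : (∀ x, x < c x) ∨ (∀ x, c x < x) := by
  by_contra hcon
  push Not at hcon
  obtain ⟨⟨x, hx⟩, ⟨y, hy⟩⟩ := hcon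
  have hx' : c x < x := lt_of_le_of_ne hx (hc x)
  have hy' : y < c y := lt_of_le_of_ne hy (fun h => hc y h.symm)
  have hcg : Continuous (fun z => c z - z) := (cont_ap c).sub continuous_id
  have h3 : (0 : ℝ) ∈ range (fun z => c z - z) := by
    apply mem_range_of_exists_le_of_exists_ge hcg
    · exact ⟨x, by show c x - x ≤ 0; linarith⟩
    · exact ⟨y, by show 0 ≤ c y - y; linarith⟩
  obtain ⟨p, hp⟩ := h3
  exact hc p (by have : c p - p = 0 := hp; linarith)

section free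
variable {C : Subgroup E} (hF : Free C)
include hF

lemma Free.cases {c : E} (hc : c ∈ C) : c = 1 ∨ (∀ x, x < c x) ∨ (∀ x, c x < x) := by
  by_cases h : ∃ x, c x = x
  · obtain ⟨x, hx⟩ := h
    exact Or.inl (hF c hc x hx)
  · right
    push Not at h
    exact pos_or_neg h

lemma Free.pos {c : E} (hc : c ∈ C) {x : ℝ} (hx : x < c x) : ∀ z, z < c z := by
  rcases hF.cases hc with h | h | h
  · rw [h] at hx; exact absurd hx (lt_irrefl _)
  · exact h
  · exact absurd (h x) (not_lt.2 hx.le)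

lemma Free.lt {a b : E} (ha : a ∈ C) (hb : b ∈ C) {x : ℝ} (hx : a x < b x) : ∀ z, a z < b z := by
  have h1 : x < (a⁻¹ * b) x := by rw [mul_ap, lt_inv_iff]; exact hx
  have h2 := hF.pos (C.mul_mem (C.inv_mem ha) hb) h1
  intro z
  have := h2 z
  rwa [mul_ap, lt_inv_iff] at this

lemma Free.eq {a b : E} (ha : a ∈ C) (hb : b ∈ C) {x : ℝ} (hx : a x = b x) : a = b := by
  have h1 : (a⁻¹ * b) x = x := by rw [mul_ap, ← hx, inv_ap]
  have h2 := hF _ (C.mul_mem (C.inv_mem ha) hb) x h1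
  rw [inv_mul_eq_one] at h2
  exact h2

lemma Free.le {a b : E} (ha : a ∈ C) (hb : b ∈ C) {x : ℝ} (hx : a x ≤ b x) : ∀ z, a z ≤ b z := by
  rcases hx.lt_or_eq with h | h
  · intro z; exact (hF.lt ha hb h z).le
  · intro z; rw [hF.eq ha hb h]

end free

lemma pow_succ_ap (c : E) (n : ℕ) (x : ℝ) : (c ^ (n + 1)) x = c ((c ^ n) x) := by
  rw [pow_succ']; rfl

lemma zpow_add_one_ap (c : E) (n : ℤ) (x : ℝ) : (c ^ (n + 1)) x = c ((c ^ n) x) := by
  rw [add_comm, zpow_add, zpow_one]; rfl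

/-- Archimedean property. -/
lemma arch {c : E} (hc : ∀ x, x < c x) (x y : ℝ) : ∃ n : ℕ, y < (c ^ n) x := by
  by_contra hcon
  push Not at hcon
  have hmono : Monotone (fun n : ℕ => (c ^ n) x) := by
    apply monotone_nat_of_le_succ
    intro n
    rw [pow_succ_ap]
    exact (hc _).le
  have hbdd : BddAbove (range (fun n : ℕ => (c ^ n) x)) := ⟨y, by rintro _ ⟨n, rfl⟩; exact hcon n⟩
  have hlim := tendsto_atTop_ciSup hmono hbdd
  set p := ⨆ n : ℕ, (c ^ n) x
  have h1 : Tendsto (fun n : ℕ => (c ^ (n + 1)) x) atTop (𝓝 p) :=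
    hlim.comp (tendsto_add_atTop_nat 1)
  have h2 : Tendsto (fun n : ℕ => (c ^ (n + 1)) x) atTop (𝓝 (c p)) := by
    have h3 : (fun n : ℕ => (c ^ (n + 1)) x) = fun n : ℕ => c ((c ^ n) x) := by
      ext n; rw [pow_succ_ap]
    rw [h3]
    exact ((cont_ap c).tendsto p).comp hlim
  have := tendsto_nhds_unique h1 h2
  exact absurd (hc p) (by rw [← this]; exact lt_irrefl _)

lemma pow_le_of_pos {c : E} (hc : ∀ x, x < c x) (n : ℕ) (x : ℝ) : x ≤ (c ^ n) x := by
  induction n with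
  | zero => simp
  | succ n ih => rw [pow_succ_ap]; exact ih.trans (hc _).le

lemma zpow_le_zpow_ap {c : E} (hc : ∀ x, x < c x) {m n : ℤ} (hmn : m ≤ n) (x : ℝ) :
    (c ^ m) x ≤ (c ^ n) x := by
  obtain ⟨k, hk⟩ := Int.eq_ofNat_of_zero_le (sub_nonneg.2 hmn)
  have : n = m + k := by omega
  rw [this, zpow_add, mul_ap]
  apply (c ^ m).monotone
  rw [zpow_natCast]
  exact pow_le_of_pos hc k x

lemma zpow_lt_of_lt {c : E} (hc : ∀ x, x < c x) {m n : ℤ} {x : ℝ} (h : (c ^ m) x < (c ^ n) x) :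
    m < n := by
  by_contra hcon
  push Not at hcon
  exact absurd h (not_lt.2 (zpow_le_zpow_ap hc hcon x))

/-- Sandwich between consecutive powers. -/
lemma exists_zpow_le {c : E} (hc : ∀ x, x < c x) (x y : ℝ) :
    ∃ n : ℤ, (c ^ n) x ≤ y ∧ y < (c ^ (n + 1)) x := by
  obtain ⟨N, hN⟩ := arch hc x y
  obtain ⟨M, hM⟩ := arch hc y x
  have hb : ∃ b : ℤ, ∀ z : ℤ, (c ^ z) x ≤ y → z ≤ b := by
    refine ⟨N, fun z hz => ?_⟩
    have : (c ^ z) x < (c ^ (N : ℤ)) x := by
      rw [zpow_natCast]; exact lt_of_le_of_lt hz hN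
    exact (zpow_lt_of_lt hc this).le
  have hne : ∃ z : ℤ, (c ^ z) x ≤ y := by
    refine ⟨-(M : ℤ), ?_⟩
    rw [zpow_neg, zpow_natCast, inv_le_iff]
    exact hM.le
  obtain ⟨n, hn1, hn2⟩ := Int.exists_greatest_of_bdd hb hne
  refine ⟨n, hn1, ?_⟩
  by_contra hcon
  push Not at hcon
  have := hn2 _ hcon
  omega

theorem least_generates {C : Subgroup E} (hF : Free C) {τ : E} (hτ : τ ∈ C) (hpos : ∀ x, x < τ x)
    (hleast : ∀ c ∈ C, (∀ x, x < c x) → ∀ x, τ x ≤ c x) : ∀ c ∈ C, ∃ n : ℤ, c = τ ^ n := by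
  intro c hc
  obtain ⟨n, hn1, hn2⟩ := exists_zpow_le hpos 0 (c 0)
  refine ⟨n, ?_⟩
  have hτn : τ ^ n ∈ C := C.zpow_mem hτ n
  rcases hn1.lt_or_eq with h | h
  · exfalso
    have hd : (τ ^ n)⁻¹ * c ∈ C := C.mul_mem (C.inv_mem hτn) hc
    have h1 : (0 : ℝ) < ((τ ^ n)⁻¹ * c) 0 := by rw [mul_ap, lt_inv_iff]; exact h
    have h2 := hleast _ hd (hF.pos hd h1) 0
    rw [mul_ap, le_inv_iff] at h2
    have h3 : (τ ^ (n + 1)) 0 = (τ ^ n) (τ 0) := by
      rw [zpow_add, zpow_one]; rfl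
    rw [h3] at hn2
    exact absurd hn2 (not_lt.2 h2)
  · exact (hF.eq hτn hc h).symm

/-- Below every positive element there is a strictly smaller one. -/
lemma exists_smaller {C : Subgroup E} (hF : Free C) (hno : ¬ HasLeast C) {e : E} (he : e ∈ C)
    (hpos : ∀ x, x < e x) : ∃ d ∈ C, (∀ x, x < d x) ∧ ∀ x, d x < e x := by
  by_contra hcon
  apply hno
  refine ⟨e, he, hpos, ?_⟩
  intro c hc hcpos
  by_contra hcc
  push Not at hcc
  obtain ⟨x, hx⟩ := hcc
  exact hcon ⟨c, hc, hcpos, hF.lt hc he hx⟩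

/-- Square roots from below. -/
lemma exists_half {C : Subgroup E} (hF : Free C) (hno : ¬ HasLeast C) {e : E} (he : e ∈ C)
    (hpos : ∀ x, x < e x) : ∃ d ∈ C, (∀ x, x < d x) ∧ ∀ x, d (d x) ≤ e x := by
  obtain ⟨c, hc, hc1, hc2⟩ := exists_smaller hF hno he hpos
  have hd : c⁻¹ * e ∈ C := C.mul_mem (C.inv_mem hc) he
  have hd1 : ∀ x, x < (c⁻¹ * e) x := by
    intro x; rw [mul_ap, lt_inv_iff]; exact hc2 x
  rcases le_total (c 0) ((c⁻¹ * e) 0) with h | h
  · refine ⟨c, hc, hc1, fun x => ?_⟩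
    have h1 := hF.le hc hd h x
    calc c (c x) ≤ c ((c⁻¹ * e) x) := c.monotone h1
      _ = e x := by simp
  · refine ⟨_, hd, hd1, fun x => ?_⟩
    have h1 := hF.le hd hc h ((c⁻¹ * e) x)
    calc (c⁻¹ * e) ((c⁻¹ * e) x) ≤ c ((c⁻¹ * e) x) := h1
      _ = e x := by simp

theorem free_comm {C : Subgroup E} (hF : Free C) (hno : ¬ HasLeast C) :
    ∀ a ∈ C, ∀ b ∈ C, a * b = b * a := by
  -- it is enough to exclude `b a < a b`
  have key : ∀ a ∈ C, ∀ b ∈ C, ¬ ((b * a) 0 < (a * b) 0) := by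
    intro a ha b hb hlt
    have hab : a * b ∈ C := C.mul_mem ha hb
    have hba : b * a ∈ C := C.mul_mem hb ha
    set e : E := a * b * (b * a)⁻¹ with he
    have heC : e ∈ C := C.mul_mem hab (C.inv_mem hba)
    have hepos : ∀ x, x < e x := by
      have h1 : (b * a) 0 < e ((b * a) 0) := by
        rw [he, mul_ap (a * b), inv_ap]; exact hlt
      exact hF.pos heC h1
    obtain ⟨e', he', he'1, he'2⟩ := exists_smaller hF hno heC hepos
    obtain ⟨c, hc, hc1, hc2⟩ := exists_half hF hno he' he'1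
    obtain ⟨m, hm1, hm2⟩ := exists_zpow_le hc1 0 (a 0)
    obtain ⟨n, hn1, hn2⟩ := exists_zpow_le hc1 0 (b 0)
    have hcm : ∀ z, (c ^ m) z ≤ a z := hF.le (C.zpow_mem hc m) ha hm1
    have hcm' : ∀ z, a z < (c ^ (m + 1)) z := hF.lt ha (C.zpow_mem hc _) hm2
    have hcn : ∀ z, (c ^ n) z ≤ b z := hF.le (C.zpow_mem hc n) hb hn1
    have hcn' : ∀ z, b z < (c ^ (n + 1)) z := hF.lt hb (C.zpow_mem hc _) hn2
    have h1 : (a * b) 0 < (c ^ (m + n + 2)) 0 := by
      have h2 : (c ^ (m + n + 2)) (0 : ℝ) = (c ^ (m + 1)) ((c ^ (n + 1)) 0) := by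
        rw [← mul_ap, ← zpow_add]; congr 2; ring
      rw [h2, mul_ap]
      exact lt_trans (hcm' _) ((c ^ (m + 1)).strictMono (hcn' 0))
    have h2 : (c ^ (m + n + 2)) 0 ≤ (a * b) 0 := by
      have h3 : (c ^ (m + n + 2)) (0 : ℝ) = c (c ((c ^ n) ((c ^ m) 0))) := by
        have : c ^ (m + n + 2) = c * (c * (c ^ n * c ^ m)) := by
          rw [← zpow_add, ← zpow_one_add, ← zpow_one_add]; congr 1; ring
        rw [this]; rfl
      have h4 : (c ^ n) ((c ^ m) 0) ≤ (b * a) 0 := by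
        rw [mul_ap]
        exact ((c ^ n).monotone (hcm 0)).trans (hcn _)
      have h5 : (a * b) 0 = e ((b * a) 0) := by rw [he, mul_ap (a * b), inv_ap]
      rw [h3, h5]
      calc c (c ((c ^ n) ((c ^ m) 0))) ≤ c (c ((b * a) 0)) := c.monotone (c.monotone h4)
        _ ≤ e' ((b * a) 0) := hc2 _
        _ ≤ e ((b * a) 0) := (he'2 _).le
    exact absurd h1 (not_lt.2 h2)
  intro a ha b hb
  apply hF.eq (C.mul_mem ha hb) (C.mul_mem hb ha) (x := 0)
  exact le_antisymm (not_lt.1 (key a ha b hb)) (not_lt.1 (key b hb a ha))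

section B
variable {K : Type*} [Group K] [TopologicalSpace K] [IsTopologicalGroup K] {ρ : K →* E}

theorem least_central (h : Act ρ) {τ : E} (hτ : τ ∈ QC ρ) (hpos : ∀ x, x < τ x)
    (hleast : ∀ c ∈ QC ρ, (∀ x, x < c x) → ∀ x, τ x ≤ c x) (k : K) : ρ k * τ = τ * ρ k := by
  have key : ∀ k : K, ∀ x, τ (ρ k x) ≤ ρ k (τ x) := by
    intro k x
    have h1 := hleast _ (QC_conj k hτ) (by
      intro z
      simp only [mul_ap]
      have := (ρ k).strictMono (hpos ((ρ k)⁻¹ z))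
      simpa using this) (ρ k x)
    simpa using h1
  apply ext_ap
  intro x
  simp only [mul_ap]
  apply le_antisymm _ (key k x)
  have h1 := key k⁻¹ (ρ k x)
  rw [rho_inv_ap, map_inv, le_inv_iff] at h1
  exact h1

/-- No least positive element: arbitrarily small displacements at every point. -/
lemma small_displacement (h : Act ρ) (hne : QC ρ ≠ ⊥) (hno : ¬ HasLeast (QC ρ)) :
    ∀ y : ℝ, ∀ ε > 0, ∃ c ∈ QC ρ, (∀ x, x < c x) ∧ c y < y + ε := by
  have hF := QC_free h
  -- a positive element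
  obtain ⟨c0, hc0, hc0pos⟩ : ∃ c ∈ QC ρ, ∀ x, x < c x := by
    obtain ⟨c, hc, hc1⟩ := (Subgroup.bot_or_exists_ne_one (QC ρ)).resolve_left hne
    rcases hF.cases hc with h1 | h1 | h1
    · exact absurd h1 hc1
    · exact ⟨c, hc, h1⟩
    · refine ⟨c⁻¹, (QC ρ).inv_mem hc, fun x => ?_⟩
      rw [lt_inv_iff]; exact h1 x
  set B : Set ℝ := {y | ∀ ε > 0, ∃ c ∈ QC ρ, (∀ x, x < c x) ∧ c y < y + ε} with hB
  -- nonempty
  set S : Set ℝ := {z | ∃ c ∈ QC ρ, (∀ x, x < c x) ∧ c 0 = z} with hS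
  have hSne : S.Nonempty := ⟨_, c0, hc0, hc0pos, rfl⟩
  have hSb : BddBelow S := ⟨0, by rintro z ⟨c, _, hc, rfl⟩; exact (hc 0).le⟩
  have hp : sInf S ∈ B := by
    intro ε hε
    obtain ⟨z, ⟨c, hc, hcpos, rfl⟩, hz⟩ := exists_lt_of_csInf_lt hSne
      (show sInf S < sInf S + ε by linarith)
    obtain ⟨d, hd, hdpos, hdd⟩ := exists_half hF hno hc hcpos
    refine ⟨d, hd, hdpos, ?_⟩
    have h1 : sInf S ≤ d 0 := csInf_le hSb ⟨d, hd, hdpos, rfl⟩
    calc d (sInf S) ≤ d (d 0) := d.monotone h1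
      _ ≤ c 0 := hdd 0
      _ < _ := hz
  have huniv : B = univ := by
    apply invariant_univ h ⟨_, hp⟩
    refine Eventually.of_forall fun k y hy => ?_
    intro ε hε
    have h1 : ∀ᶠ z in 𝓝 y, ρ k z < ρ k y + ε :=
      ((cont_ap (ρ k)).tendsto y).eventually (gt_mem_nhds (by linarith))
    obtain ⟨δ, hδ, hδ'⟩ := Metric.eventually_nhds_iff.1 h1
    obtain ⟨c, hc, hcpos, hcy⟩ := hy (δ / 2) (by linarith)
    refine ⟨_, QC_conj k hc, ?_, ?_⟩
    · intro z
      simp only [mul_ap]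
      have := (ρ k).strictMono (hcpos ((ρ k)⁻¹ z))
      simpa using this
    · simp only [mul_ap, inv_ap]
      apply hδ'
      rw [Real.dist_eq, abs_lt]
      have := hcpos y
      constructor <;> linarith
  intro y
  have : y ∈ B := by rw [huniv]; trivial
  exact this

theorem dense_orbits (h : Act ρ) (hne : QC ρ ≠ ⊥) (hno : ¬ HasLeast (QC ρ)) :
    ∀ x y : ℝ, ∀ ε > 0, ∃ c ∈ QC ρ, |c x - y| < ε := by
  intro x y ε hε
  obtain ⟨d, hd, hdpos, hdy⟩ := small_displacement h hne hno y ε hε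
  obtain ⟨n, hn1, hn2⟩ := exists_zpow_le hdpos x y
  refine ⟨d ^ (n + 1), (QC ρ).zpow_mem hd _, ?_⟩
  have h1 : (d ^ (n + 1)) x ≤ d y := by
    rw [zpow_add_one_ap]; exact d.monotone hn1
  rw [abs_lt]
  constructor <;> linarith

end B

/-! ### Hölder's theorem -/

lemma trans_no_least {P : Subgroup E} (hF : Free P) (htr : Trans P) : ¬ HasLeast P := by
  rintro ⟨τ, hτ, hpos, hleast⟩
  obtain ⟨y, hy1, hy2⟩ := exists_between (hpos 0)
  obtain ⟨p, hp, hp0⟩ := htr 0 y
  have h1 : (0 : ℝ) < p 0 := by rw [hp0]; exact hy1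
  have h2 := hleast p hp (hF.pos hp h1) 0
  rw [hp0] at h2
  exact absurd hy2 (not_lt.2 h2)

theorem holder {P : Subgroup E} (hF : Free P) (htr : Trans P) :
    ∃ χ : E, ∀ p : E, p ∈ P ↔ ∃ t : ℝ, ∀ x, χ (p x) = χ x + t := by
  have hno := trans_no_least hF htr
  have hcomm := free_comm hF hno
  let icg : CommGroup P := { (inferInstance : Group P) with
    mul_comm := fun a b => Subtype.ext (hcomm a a.2 b b.2) }
  have hinj : Function.Injective (fun p : Additive P => ((Additive.toMul p : P) : E) (0 : ℝ)) := by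
    intro a b hab
    have h1 := hF.eq (Additive.toMul a).2 (Additive.toMul b).2 (x := 0) hab
    exact congrArg Additive.ofMul (Subtype.ext h1)
  let ilo : LinearOrder (Additive P) :=
    LinearOrder.lift' (fun p : Additive P => ((Additive.toMul p : P) : E) (0 : ℝ)) hinj
  have hle : ∀ a b : Additive P, a ≤ b ↔
      ((Additive.toMul a : P) : E) (0 : ℝ) ≤ ((Additive.toMul b : P) : E) 0 := fun a b => Iff.rfl
  have hlt : ∀ a b : Additive P, a < b ↔
      ((Additive.toMul a : P) : E) (0 : ℝ) < ((Additive.toMul b : P) : E) 0 := fun a b => Iff.rfl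
  have hadd : ∀ (a b : Additive P) (x : ℝ), ((Additive.toMul (a + b) : P) : E) x =
      ((Additive.toMul a : P) : E) (((Additive.toMul b : P) : E) x) := fun a b x => rfl
  have hadd' : ∀ a b : Additive P, a ≤ b → ∀ c : Additive P, a + c ≤ b + c := by
    intro a b hab c
    rw [hle] at hab ⊢
    rw [hadd, hadd]
    exact hF.le (Additive.toMul a).2 (Additive.toMul b).2 hab _
  have iord : IsOrderedAddMonoid (Additive P) :=
    { add_le_add_left := hadd'
      add_le_add_right := fun a b hab c => by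
        rw [add_comm c a, add_comm c b]; exact hadd' a b hab c }
  have hnsmul : ∀ (n : ℕ) (y : Additive P) (x : ℝ), ((Additive.toMul (n • y) : P) : E) x =
      (((Additive.toMul y : P) : E) ^ n) x := by
    intro n y x
    rw [toMul_nsmul, Subgroup.coe_pow]
  have iarch : Archimedean (Additive P) := by
    constructor
    intro x y hy
    have hy' : (0 : ℝ) < ((Additive.toMul y : P) : E) 0 := by
      have := (hlt 0 y).1 hy
      simpa using this
    have hpos := hF.pos (Additive.toMul y).2 hy'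
    obtain ⟨n, hn⟩ := arch hpos 0 (((Additive.toMul x : P) : E) 0)
    refine ⟨n, ?_⟩
    rw [hle, hnsmul]
    exact hn.le
  obtain ⟨f, hf⟩ := Archimedean.exists_orderAddMonoidHom_real_injective (Additive P)
  have hfs : StrictMono f := f.monotone'.strictMono_of_injective hf
  choose g hgP hg0 using fun x => htr 0 x
  set φ : ℝ → ℝ := fun x => f (Additive.ofMul ⟨g x, hgP x⟩) with hφ
  have hφmono : StrictMono φ := by
    intro x y hxy
    apply hfs
    rw [hlt]
    show (g x) 0 < (g y) 0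
    rw [hg0, hg0]; exact hxy
  -- equivariance
  have hφeq : ∀ (p : E) (hp : p ∈ P) (x : ℝ), φ (p x) = φ x + f (Additive.ofMul ⟨p, hp⟩) := by
    intro p hp x
    have h1 : g (p x) = p * g x := by
      apply hF.eq (hgP _) (P.mul_mem hp (hgP x)) (x := 0)
      rw [hg0, mul_ap, hg0]
    have h2 : (Additive.ofMul (⟨g (p x), hgP (p x)⟩ : P)) =
        Additive.ofMul (⟨p, hp⟩ : P) + Additive.ofMul (⟨g x, hgP x⟩ : P) := by
      rw [← ofMul_mul]
      congr 1
      exact Subtype.ext h1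
    show f (Additive.ofMul (⟨g (p x), hgP (p x)⟩ : P)) = _
    rw [h2, map_add, add_comm]
  -- small positive values
  obtain ⟨e, heP, he0⟩ := htr 0 1
  have hepos : ∀ x, x < e x := hF.pos heP (x := 0) (by rw [he0]; norm_num)
  have hhalf : ∀ n : ℕ, ∃ d, ∃ hd : d ∈ P, (∀ x, x < d x) ∧
      f (Additive.ofMul ⟨d, hd⟩) ≤ f (Additive.ofMul ⟨e, heP⟩) / 2 ^ n := by
    intro n
    induction n with
    | zero => exact ⟨e, heP, hepos, by simp⟩
    | succ n ih =>
      obtain ⟨d, hd, hdpos, hdf⟩ := ih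
      obtain ⟨c, hc, hcpos, hcc⟩ := exists_half hF hno hd hdpos
      refine ⟨c, hc, hcpos, ?_⟩
      have h1 : Additive.ofMul (⟨c, hc⟩ : P) + Additive.ofMul (⟨c, hc⟩ : P) ≤
          Additive.ofMul (⟨d, hd⟩ : P) := by
        rw [hle]; exact hcc 0
      have h2 := f.monotone' h1
      have h3 : f (Additive.ofMul (⟨c, hc⟩ : P)) + f (Additive.ofMul (⟨c, hc⟩ : P)) ≤
          f (Additive.ofMul (⟨d, hd⟩ : P)) := by
        rw [← map_add]; exact h2
      rw [pow_succ]
      have h4 : f (Additive.ofMul (⟨e, heP⟩ : P)) / (2 ^ n * 2) =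
          (f (Additive.ofMul (⟨e, heP⟩ : P)) / 2 ^ n) / 2 := by
        rw [div_div]
      rw [h4]
      linarith
  have hfpos : ∀ d, ∀ hd : d ∈ P, (∀ x, x < d x) → 0 < f (Additive.ofMul ⟨d, hd⟩) := by
    intro d hd hdpos
    have h1 : (0 : Additive P) < Additive.ofMul ⟨d, hd⟩ := by
      rw [hlt]; exact hdpos 0
    have h2 := hfs h1
    rwa [map_zero] at h2
  have hdense : DenseRange φ := by
    have h1 : range φ = ((f : Additive P →+ ℝ).range : Set ℝ) := by
      ext z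
      constructor
      · rintro ⟨x, rfl⟩
        exact ⟨Additive.ofMul ⟨g x, hgP x⟩, rfl⟩
      · rintro ⟨a, rfl⟩
        refine ⟨((Additive.toMul a : P) : E) 0, ?_⟩
        show f _ = f _
        congr 1
        apply hinj
        show (g _) 0 = _
        rw [hg0]
    rw [DenseRange, h1]
    apply AddSubgroup.dense_of_not_isolated_zero
    intro ε hε
    have hF0 := hfpos e heP hepos
    obtain ⟨n, hn⟩ := pow_unbounded_of_one_lt (f (Additive.ofMul ⟨e, heP⟩) / ε)
      (one_lt_two : (1 : ℝ) < 2)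
    obtain ⟨d, hd, hdpos, hdf⟩ := hhalf n
    refine ⟨f (Additive.ofMul ⟨d, hd⟩), ⟨_, rfl⟩, hfpos d hd hdpos, ?_⟩
    refine lt_of_le_of_lt hdf ?_
    rw [div_lt_iff₀ (by positivity)]
    rw [div_lt_iff₀ hε] at hn
    linarith
  have hφc : Continuous φ := hφmono.monotone.continuous_of_denseRange hdense
  have hφs : Function.Surjective φ := by
    intro z
    obtain ⟨a, ⟨x, rfl⟩, hx⟩ := hdense.exists_between (show z - 1 < z by linarith)
    obtain ⟨b, ⟨y, rfl⟩, hy⟩ := hdense.exists_between (show z < z + 1 by linarith)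
    exact mem_range_of_exists_le_of_exists_ge hφc ⟨x, hx.2.le⟩ ⟨y, hy.1.le⟩
  let χ : E := hφmono.orderIsoOfSurjective φ hφs
  have hχ : ∀ x, χ x = φ x := fun x => rfl
  refine ⟨χ, fun p => ⟨fun hp => ⟨f (Additive.ofMul ⟨p, hp⟩), fun x => ?_⟩, ?_⟩⟩
  · rw [hχ, hχ]; exact hφeq p hp x
  · rintro ⟨t, ht⟩
    obtain ⟨p', hp', hp'0⟩ := htr 0 (p 0)
    have h1 : ∀ x, χ (p' x) = χ x + t := by
      intro x
      have h2 := hφeq p' hp' x
      have h3 := hφeq p' hp' 0
      have h4 := ht 0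
      rw [hχ, hχ] at h4
      rw [hp'0] at h3
      rw [hχ, hχ, h2]
      linarith
    have h2 : p = p' := by
      apply ext_ap
      intro x
      apply χ.injective
      rw [ht, h1]
    rw [h2]; exact hp'

theorem affine_of_normalizes (κ : E) (h : ∀ t : ℝ, ∃ s : ℝ, ∀ x, κ (x + t) = κ x + s) :
    ∃ a > 0, ∃ b, ∀ x, κ x = a * x + b := by
  have hadd : ∀ x t, κ (x + t) = κ x + (κ t - κ 0) := by
    intro x t
    obtain ⟨s, hs⟩ := h t
    have h1 := hs x
    have h2 := hs 0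
    rw [zero_add] at h2
    rw [h1]; linarith
  let F : ℝ →+ ℝ :=
    { toFun := fun x => κ x - κ 0
      map_zero' := sub_self _
      map_add' := fun x y => by
        show κ (x + y) - κ 0 = (κ x - κ 0) + (κ y - κ 0)
        rw [hadd]; ring }
  have hFc : Continuous F := (cont_ap κ).sub continuous_const
  have hlin : ∀ x : ℝ, F x = x * F 1 := by
    intro x
    have := map_real_smul F hFc x 1
    simpa using this
  have hF : ∀ x, κ x = F x + κ 0 := fun x => by show κ x = (κ x - κ 0) + κ 0; ring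
  refine ⟨F 1, ?_, κ 0, fun x => ?_⟩
  · show 0 < κ 1 - κ 0
    have := κ.strictMono (show (0 : ℝ) < 1 by norm_num)
    linarith
  · rw [hF, hlin]; ring

end Pool.Agent.Circ
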