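import Pool.Agent.Circ.LocTrans
import Pool.Agent.Circ.Order

/-!
Sections 5.4-5.9 and 7.
-/

set_option autoImplicit false

open Set Filter Topology

namespace Pool.Agent.Circ.D2

/-! ### generalities -/

lemma pos_of_free {C : Subgroup E} (hF : Free C) {c : E} (hc : c ∈ C) {x : ℝ} (hx : x < c x) :
    ∀ y, y < c y := by
  by_contra hcon
  push Not at hcon
  obtain ⟨y, hy⟩ := hcon
  have hcont : Continuous (fun z => c z - z) := (cont_ap c).sub continuous_id
  obtain ⟨p, hp⟩ : ∃ p, c p - p = 0 := by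
    have h1 : (0 : ℝ) ∈ range (fun z => c z - z) :=
      mem_range_of_exists_le_of_exists_ge hcont ⟨y, by linarith⟩ ⟨x, by linarith⟩
    exact h1
  have h2 := hF c hc p (by linarith)
  rw [h2, one_ap] at hx
  exact lt_irrefl _ hx

section transport
variable {K K' : Type*} [Group K] [TopologicalSpace K] [Group K'] [TopologicalSpace K']
  {ρ : K →* E} {ρ' : K' →* E}

lemma QC_transport {ψ : E} {f : K' → K} (hf : Tendsto f (𝓝 1) (𝓝 1))
    (hψ : ∀ k, ρ' k * ψ = ψ * ρ (f k)) {c : E} (hc : c ∈ QC ρ) : ψ * c * ψ⁻¹ ∈ QC ρ' := by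
  have hc' : ∀ᶠ k in 𝓝 (1 : K), c * ρ k = ρ k * c := hc
  show ∀ᶠ k in 𝓝 (1 : K'), (ψ * c * ψ⁻¹) * ρ' k = ρ' k * (ψ * c * ψ⁻¹)
  filter_upwards [hf.eventually hc'] with k hk
  have h1 : ρ' k = ψ * ρ (f k) * ψ⁻¹ := by rw [← hψ]; group
  rw [h1]
  calc ψ * c * ψ⁻¹ * (ψ * ρ (f k) * ψ⁻¹) = ψ * (c * ρ (f k)) * ψ⁻¹ := by group
    _ = ψ * (ρ (f k) * c) * ψ⁻¹ := by rw [hk]
    _ = _ := by group

lemma HasLeast_transport {ψ : E} {f : K' → K} (hf : Tendsto f (𝓝 1) (𝓝 1))
    (hψ : ∀ k, ρ' k * ψ = ψ * ρ (f k)) {f' : K → K'} (hf' : Tendsto f' (𝓝 1) (𝓝 1))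
    (hψ' : ∀ k, ρ k * ψ⁻¹ = ψ⁻¹ * ρ' (f' k)) (h : HasLeast (QC ρ)) : HasLeast (QC ρ') := by
  obtain ⟨τ, hτ, hpos, hleast⟩ := h
  refine ⟨ψ * τ * ψ⁻¹, QC_transport hf hψ hτ, fun x => ?_, fun c hc hcpos x => ?_⟩
  · have := ψ.strictMono (hpos (ψ⁻¹ x))
    simpa using this
  · have h1 : ψ⁻¹ * c * ψ ∈ QC ρ := by
      have := QC_transport hf' hψ' hc
      rwa [inv_inv] at this
    have h2 : ∀ y, y < (ψ⁻¹ * c * ψ) y := by
      intro y
      rw [mul_ap, mul_ap, lt_inv_iff]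
      exact hcpos _
    have h3 := hleast _ h1 h2 (ψ⁻¹ x)
    rw [mul_ap, mul_ap, ap_inv, le_inv_iff] at h3
    simpa using h3

end transport

section arcs
variable {Γ : Subgroup E} {m : ℕ} {r : ℝ}

lemma arc_conj (hΓ : Γ ≤ H) {k : ℕ} {G G' : Fin (k + 1) → ℝ} (hG : G ∈ Conf (k + 1))
    (hG' : G' ∈ Conf (k + 1)) {q : E} (hq : q ∈ Γ) (hqG : ∀ i, q (G i) = G' i) :
    ∃ (ψ : E) (f : Fix Γ G' → Fix Γ G), Tendsto f (𝓝 1) (𝓝 1) ∧
      (∀ x, av (lo_lt_hi hG') (ψ x) = q (av (lo_lt_hi hG) x)) ∧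
      ∀ κ, arcAct hΓ hG' κ * ψ = ψ * arcAct hΓ hG (f κ) := by
  have hlo : q (lo G) = lo G' := by
    unfold lo
    rw [H_sub_one (hΓ hq), hqG]
  have hhi : q (hi G) = hi G' := hqG 0
  have hmem : ∀ κ : Fix Γ G', q⁻¹ * (κ : E) * q ∈ Fix Γ G := by
    intro κ
    refine ⟨Γ.mul_mem (Γ.mul_mem (Γ.inv_mem hq) κ.2.1) hq, fun i => ?_⟩
    rw [mul_ap, mul_ap, hqG, κ.2.2, inv_eq_iff, hqG]
  refine ⟨arcMap (lo_lt_hi hG) (lo_lt_hi hG') q hlo hhi, fun κ => ⟨_, hmem κ⟩, ?_, ?_, ?_⟩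
  · rw [tendsto_subtype_rng]
    have h1 : Continuous (fun κ : Fix Γ G' => q⁻¹ * (κ : E) * q) := by fun_prop
    have h2 := h1.tendsto 1
    simpa using h2
  · intro x
    exact av_arcMap _ _ _ _ _ _
  · intro κ
    apply ext_ap
    intro x
    rw [← av_inj (lo_lt_hi hG'), mul_ap, mul_ap, av_arcAct, av_arcMap, av_arcMap, av_arcAct]
    simp

lemma eventually_fix {k : ℕ} {G : Fin k → ℝ} {p : E → Prop} (h : ∀ᶠ g in 𝓝 (1 : E), p g) :
    ∀ᶠ κ : Fix Γ G in 𝓝 (1 : Fix Γ G), p (κ : E) :=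
  (continuous_subtype_val.tendsto (1 : Fix Γ G)).eventually h

/-- 5.4 -/
lemma QC_ne_bot {k : ℕ} (h : LC Γ (k + 2) r) {G : Fin (k + 1) → ℝ} (hG : G ∈ Conf (k + 1)) :
    QC (arcAct h.leH hG) ≠ ⊥ := by
  obtain ⟨X, hX, hX0⟩ := h.e0
  have hG0 : (fun i : Fin (k + 1) => X i.succ.succ) ∈ Conf (k + 1) :=
    ⟨fun i j hij => hX.1 (by simpa using hij), fun i j => hX.2 _ _⟩
  obtain ⟨q, hq, hqG⟩ := conf_trans h (by omega) hG0 hG
  have hX' := conf_map (h.leH hq) hX
  have hlt : ∀ {i j : Fin (k + 3)}, i < j → q (X i) < q (X j) := fun hij => hX'.1 hij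
  have hz0 : q (X 0) ∈ Ioo (lo G) (hi G) := by
    constructor
    · unfold lo
      have h1 : q (X (Fin.last (k + 2))) < q (X 0) + 1 := hX'.2 _ _
      have h2 : q (X (Fin.last (k + 2))) = G (Fin.last k) := by
        rw [← hqG]
        rfl
      linarith
    · unfold hi
      rw [← hqG]
      exact hlt (Fin.succ_pos _)
  have hz1 : q (X 1) ∈ Ioo (lo G) (hi G) := by
    constructor
    · exact hz0.1.trans (hlt Fin.zero_lt_one)
    · unfold hi
      rw [← hqG]
      apply hlt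
      rw [← Fin.succ_zero_eq_one]
      exact Fin.succ_lt_succ_iff.2 (Fin.succ_pos _)
  obtain ⟨a0, ha0⟩ := av_surj (lo_lt_hi hG) hz0
  obtain ⟨a1, ha1⟩ := av_surj (lo_lt_hi hG) hz1
  have hne : a0 ≠ a1 := by
    rintro rfl
    rw [ha0] at ha1
    have := hlt (i := 0) (j := 1) Fin.zero_lt_one
    linarith
  -- e0 at q X
  have hconj : Tendsto (fun g : E => q⁻¹ * g * q) (𝓝 1) (𝓝 1) := by
    have h1 : Continuous (fun g : E => q⁻¹ * g * q) := by fun_prop
    have h2 := h1.tendsto 1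
    simpa using h2
  have hX1 := hconj.eventually hX0
  have hact := arcAct_act h (le_refl _) hG
  obtain ⟨c, hc, hca⟩ := exists_QC hact (x := a1) (y := a0) (by
    filter_upwards [eventually_fix (G := G) hX1] with κ hκ hκ1
    rw [← av_inj (lo_lt_hi hG), av_arcAct, ha1] at hκ1
    rw [← av_inj (lo_lt_hi hG), av_arcAct, ha0]
    have h1 := hκ (Γ.mul_mem (Γ.mul_mem (Γ.inv_mem hq) κ.2.1) hq) (by
      intro i
      rw [mul_ap, mul_ap, inv_eq_iff]
      rcases Fin.eq_zero_or_eq_succ i with rfl | ⟨i', rfl⟩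
      · rw [Fin.succ_zero_eq_one]; exact hκ1.symm
      · have := κ.2.2 i'
        rw [← hqG] at this
        exact this.symm)
    rw [mul_ap, mul_ap, inv_eq_iff] at h1
    exact h1.symm)
  intro hbot
  rw [hbot, Subgroup.mem_bot] at hc
  rw [hc, one_ap] at hca
  exact hne hca.symm

lemma hasLeast_all {k : ℕ} (h : LC Γ (k + 2) r) {G G' : Fin (k + 1) → ℝ} (hG : G ∈ Conf (k + 1))
    (hG' : G' ∈ Conf (k + 1)) (hL : HasLeast (QC (arcAct h.leH hG))) :
    HasLeast (QC (arcAct h.leH hG')) := by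
  obtain ⟨q, hq, hqG⟩ := conf_trans h (by omega) hG hG'
  obtain ⟨ψ, f, hf, hψ, hψ'⟩ := arc_conj h.leH hG hG' hq hqG
  obtain ⟨ψ1, f1, hf1, hψ1, hψ1'⟩ := arc_conj h.leH hG' hG (Γ.inv_mem hq)
    (fun i => inv_eq_iff.2 (hqG i))
  have hinv : ψ1 = ψ⁻¹ := by
    apply ext_ap
    intro x
    rw [eq_comm, inv_eq_iff, ← av_inj (lo_lt_hi hG'), hψ, hψ1, ap_inv]
  subst hinv
  exact HasLeast_transport hf hψ' hf1 hψ1' hL

/-- replace the last point -/
lemma conf_replace {k : ℕ} {G : Fin (k + 1) → ℝ} (hG : G ∈ Conf (k + 1)) {z : ℝ}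
    (hz : z ∈ Ioo (lo G) (hi G)) :
    (Function.update G (Fin.last k) (z + 1) : Fin (k + 1) → ℝ) ∈ Conf (k + 1) := by
  have hz1 : G (Fin.last k) - 1 < z := hz.1
  have hz2 : z < G 0 := hz.2
  have hle0 : ∀ i, G 0 ≤ G i := fun i => hG.1.monotone (Fin.zero_le i)
  have hlel : ∀ i, G i ≤ G (Fin.last k) := fun i => hG.1.monotone (Fin.le_last i)
  refine ⟨fun i j hij => ?_, fun i j => ?_⟩
  · have hi : i ≠ Fin.last k := (lt_of_lt_of_le hij (Fin.le_last j)).ne
    rw [Function.update_of_ne hi]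
    by_cases hj : j = Fin.last k
    · rw [hj, Function.update_self]
      have := hlel i
      linarith
    · rw [Function.update_of_ne hj]
      exact hG.1 hij
  · by_cases hi : i = Fin.last k <;> by_cases hj : j = Fin.last k
    · rw [hi, hj, Function.update_self]; linarith
    · rw [hi, Function.update_self, Function.update_of_ne hj]
      have := hle0 j
      linarith
    · rw [hj, Function.update_self, Function.update_of_ne hi]
      have := hlel i
      linarith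
    · rw [Function.update_of_ne hi, Function.update_of_ne hj]
      exact hG.2 i j

/-- 5.5 -/
lemma not_hasLeast {k : ℕ} (h : LC Γ (k + 2) r) {G : Fin (k + 1) → ℝ} (hG : G ∈ Conf (k + 1)) :
    ¬ HasLeast (QC (arcAct h.leH hG)) := by
  intro hL
  set x : ℝ := 0
  set z := av (lo_lt_hi hG) x with hz
  have hzm : z ∈ Ioo (lo G) (hi G) := av_mem _ _
  have hG' := conf_replace hG hzm
  set G' := (Function.update G (Fin.last k) (z + 1) : Fin (k + 1) → ℝ) with hG'def
  have hlo' : lo G' = z := by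
    unfold lo
    rw [hG'def, Function.update_self]; ring
  have hhi' : hi G ≤ hi G' := by
    unfold hi
    rw [hG'def]
    by_cases h0 : (0 : Fin (k + 1)) = Fin.last k
    · rw [h0, Function.update_self]
      have : G (Fin.last k) - 1 < z := hzm.1
      linarith
    · rw [Function.update_of_ne h0]
  have hL' := hasLeast_all h hG hG' hL
  obtain ⟨τ, hτ, hpos, hleast⟩ := hL
  obtain ⟨τ', hτ', hpos', hleast'⟩ := hL'
  have hact := arcAct_act h (le_refl _) hG
  have hact' := arcAct_act h (le_refl _) hG'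
  have hcen := least_central hact hτ hpos hleast
  have hcen' := least_central hact' hτ' hpos' hleast'
  have hy1 : z < av (lo_lt_hi hG) (τ x) := av_strictMono _ (hpos x)
  have hy1' : av (lo_lt_hi hG) (τ x) ∈ Ioo (lo G') (hi G') := by
    rw [hlo']
    exact ⟨hy1, lt_of_lt_of_le (av_mem (lo_lt_hi hG) (τ x)).2 hhi'⟩
  obtain ⟨s, hs⟩ := av_surj (lo_lt_hi hG') hy1'
  have hw1 : av (lo_lt_hi hG') (τ'⁻¹ s) < av (lo_lt_hi hG) (τ x) := by
    rw [← hs]
    apply av_strictMono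
    rw [inv_lt_iff]
    exact hpos' s
  have hw2 : z < av (lo_lt_hi hG') (τ'⁻¹ s) := by
    exact lt_of_eq_of_lt hlo'.symm (av_mem (lo_lt_hi hG') (τ'⁻¹ s)).1
  have hw3 : av (lo_lt_hi hG') (τ'⁻¹ s) ∈ Ioo (lo G) (hi G) :=
    ⟨hzm.1.trans hw2, hw1.trans (av_mem (lo_lt_hi hG) (τ x)).2⟩
  obtain ⟨t, ht⟩ := av_surj (lo_lt_hi hG) hw3
  have hxt : x < t := by
    rw [← av_lt_iff (lo_lt_hi hG), ht]; exact hw2
  have htτ : t < τ x := by
    rw [← av_lt_iff (lo_lt_hi hG), ht]; exact hw1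
  obtain ⟨c, hc, hcx⟩ := exists_QC hact (x := x) (y := t) (by
    refine Eventually.of_forall fun κ hκ => ?_
    have hκz : (κ : E) z = z := by
      rw [hz, ← av_arcAct h.leH hG, hκ]
    have hκ1 : (κ : E) (av (lo_lt_hi hG) (τ x)) = av (lo_lt_hi hG) (τ x) := by
      rw [← av_arcAct h.leH hG]
      have : arcAct h.leH hG κ (τ x) = τ (arcAct h.leH hG κ x) := by
        rw [← mul_ap, ← mul_ap, hcen]
      rw [this, hκ]
    have hκH : (κ : E) ∈ H := h.leH κ.2.1
    have hκ' : (κ : E) ∈ Fix Γ G' := by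
      refine ⟨κ.2.1, fun i => ?_⟩
      by_cases hi : i = Fin.last k
      · rw [hi, hG'def, Function.update_self, hκH, hκz]
      · rw [hG'def, Function.update_of_ne hi, κ.2.2]
    have h1 : arcAct h.leH hG' ⟨κ, hκ'⟩ s = s := by
      rw [← av_inj (lo_lt_hi hG'), av_arcAct, hs]
      exact hκ1
    have h2 : arcAct h.leH hG' ⟨κ, hκ'⟩ (τ'⁻¹ s) = τ'⁻¹ s := by
      rw [eq_comm, inv_eq_iff, ← mul_ap, ← hcen', mul_ap, ap_inv, h1]
    rw [← av_inj (lo_lt_hi hG), av_arcAct, ht]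
    rw [← av_inj (lo_lt_hi hG'), av_arcAct] at h2
    exact h2)
  have hcpos := pos_of_free (QC_free hact) hc (x := x) (by rw [hcx]; exact hxt)
  have := hleast c hc hcpos x
  rw [hcx] at this
  linarith

/-- the arc action is faithful -/
lemma arcAct_inj (h : LC Γ m r) {k : ℕ} {G : Fin (k + 1) → ℝ} (hG : G ∈ Conf (k + 1))
    (κ : Fix Γ G) (hκ : arcAct h.leH hG κ = 1) : κ = 1 := by
  apply Subtype.ext
  refine rigid h κ.2.1 (lo_lt_hi hG) fun y hy => ?_
  obtain ⟨x, rfl⟩ := av_surj (lo_lt_hi hG) hy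
  rw [← av_arcAct h.leH hG, hκ, one_ap]

/-- 5.6 -/
lemma discrete_stab {k : ℕ} (h : LC Γ (k + 2) r) {G : Fin (k + 1) → ℝ} (hG : G ∈ Conf (k + 1))
    (y : ℝ) : ∀ᶠ κ in 𝓝 (1 : Fix Γ G), arcAct h.leH hG κ y = y → κ = 1 := by
  by_contra hcon
  rw [not_eventually] at hcon
  have : FirstCountableTopology (Fix Γ G) :=
    IsInducing.firstCountableTopology (f := fun κ : Fix Γ G => (κ : E)) ⟨rfl⟩
  obtain ⟨κ, hκ1, hκ⟩ := exists_seq_forall_of_frequently hcon
  have hact := arcAct_act h (le_refl _) hG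
  have hκy : ∀ l, arcAct h.leH hG (κ l) y = y := fun l => by
    have := hκ l
    push Not at this
    exact this.1
  have hκne : ∀ l, κ l ≠ 1 := fun l => by
    have := hκ l
    push Not at this
    exact this.2
  have hex : ∀ l, ∃ N : ℕ, (∀ x, |(((κ l) ^ N : Fix Γ G) : E) x - x| ≤ r) ∧
      ¬ Small r (((κ l) ^ (N + 1) : Fix Γ G) : E) := by
    intro l
    by_contra hc
    push Not at hc
    have h1 : ∀ N : ℕ, ∀ x, |(((κ l) ^ N : Fix Γ G) : E) x - x| ≤ r := by
      intro N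
      induction N with
      | zero => intro x; simpa using h.rpos.le
      | succ N ih => intro x; exact (hc N ih x).le
    have h2 := nss h (κ l).2.1 (fun N x => by
      have := h1 N x
      rwa [SubmonoidClass.coe_pow] at this)
    exact hκne l (Subtype.ext h2)
  choose N hN1 hN2 using hex
  obtain ⟨u, huK, φ, hφ, hu⟩ := h.cpt.tendsto_subseq (x := fun l => (((κ l) ^ (N l) : Fix Γ G) : E))
    (fun l => ⟨((κ l) ^ (N l)).2.1, hN1 l⟩)
  have huG : ∀ i, u (G i) = G i := by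
    intro i
    have h1 := (tendsto_E.1 hu) (G i)
    have h2 : (fun l => (((fun l => (((κ l) ^ (N l) : Fix Γ G) : E)) ∘ φ) l) (G i)) =
        fun _ => G i := by
      funext l
      exact ((κ (φ l)) ^ (N (φ l))).2.2 i
    rw [h2] at h1
    exact tendsto_nhds_unique h1 tendsto_const_nhds |>.symm ▸ rfl
  set û : Fix Γ G := ⟨u, huK.1, huG⟩ with hû
  have hu' : Tendsto (fun l => (κ (φ l)) ^ (N (φ l))) atTop (𝓝 û) := by
    rw [tendsto_subtype_rng]; exact hu
  have hκφ : Tendsto (fun l => κ (φ l)) atTop (𝓝 1) := hκ1.comp hφ.tendsto_atTop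
  -- u ≠ 1
  have hune : u ≠ 1 := by
    intro hu1
    have h1 : Tendsto (fun l => (κ (φ l)) ^ (N (φ l) + 1)) atTop (𝓝 (û * 1)) := by
      have := hu'.mul hκφ
      simpa only [pow_succ] using this
    have h2 : û = 1 := Subtype.ext hu1
    rw [h2, mul_one] at h1
    have h3 : Tendsto (fun l => (((κ (φ l)) ^ (N (φ l) + 1) : Fix Γ G) : E)) atTop (𝓝 1) := by
      have := (continuous_subtype_val.tendsto (1 : Fix Γ G)).comp h1
      exact this
    obtain ⟨l, hl⟩ := (h3.eventually (eventually_small h.rpos)).exists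
    exact hN2 (φ l) (hl (h.leH ((κ (φ l)) ^ (N (φ l) + 1)).2.1))
  apply hune
  -- arcAct û commutes with the quasi-centraliser
  have hcomm : ∀ c ∈ QC (arcAct h.leH hG), c * arcAct h.leH hG û = arcAct h.leH hG û * c := by
    intro c hc
    have hc' : ∀ᶠ κ in 𝓝 (1 : Fix Γ G), c * arcAct h.leH hG κ = arcAct h.leH hG κ * c := hc
    have h1 : ∀ᶠ l in atTop, c * arcAct h.leH hG ((κ (φ l)) ^ (N (φ l))) =
        arcAct h.leH hG ((κ (φ l)) ^ (N (φ l))) * c := by
      filter_upwards [hκφ.eventually hc'] with l hl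
      rw [map_pow]
      exact (Commute.pow_right (show Commute c (arcAct h.leH hG (κ (φ l))) from hl) _)
    have h2 : Tendsto (fun l => arcAct h.leH hG ((κ (φ l)) ^ (N (φ l)))) atTop
        (𝓝 (arcAct h.leH hG û)) := (hact.cont.tendsto û).comp hu'
    exact tendsto_nhds_unique_of_eventuallyEq (h2.const_mul c) (h2.mul_const c) h1
  have hfixy : arcAct h.leH hG û y = y := by
    have h2 : Tendsto (fun l => arcAct h.leH hG ((κ (φ l)) ^ (N (φ l)))) atTop
        (𝓝 (arcAct h.leH hG û)) := (hact.cont.tendsto û).comp hu'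
    have h3 := (tendsto_E.1 h2) y
    have h4 : ∀ (l n : ℕ), arcAct h.leH hG ((κ l) ^ n) y = y := by
      intro l n
      induction n with
      | zero => simp
      | succ n ih => rw [pow_succ, map_mul, mul_ap, hκy, ih]
    have h5 : (fun l => arcAct h.leH hG ((κ (φ l)) ^ (N (φ l))) y) = fun _ => y := by
      funext l; exact h4 _ _
    rw [h5] at h3
    exact (tendsto_nhds_unique h3 tendsto_const_nhds)
  have hone : arcAct h.leH hG û = 1 := by
    have hclosed : IsClosed {x : ℝ | arcAct h.leH hG û x = x} :=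
      isClosed_eq (cont_ap _) continuous_id
    have hdense : Dense {x : ℝ | arcAct h.leH hG û x = x} := by
      rw [Metric.dense_iff]
      intro x ε hε
      obtain ⟨c, hc, hcx⟩ := dense_orbits hact (QC_ne_bot h hG) (not_hasLeast h hG) y x ε hε
      refine ⟨c y, ?_, ?_⟩
      · rw [Metric.mem_ball, Real.dist_eq]; exact hcx
      · show arcAct h.leH hG û (c y) = c y
        rw [← mul_ap, ← hcomm c hc, mul_ap, hfixy]
    have huniv := hclosed.closure_eq ▸ hdense.closure_eq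
    apply ext_ap
    intro x
    have : x ∈ {x : ℝ | arcAct h.leH hG û x = x} := by rw [huniv]; trivial
    exact this
  have := arcAct_inj h hG û hone
  exact congrArg Subtype.val this

end arcs

end Pool.Agent.Circ.D2
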