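import Pool.Agent.Circ.H71Excl1

/-!
Sections 5.7-5.9 and 7.
-/

set_option autoImplicit false
set_option linter.unusedSectionVars false

open Set Filter Topology

namespace Pool.Agent.Circ.D2

/-- A faithful microtransitive action with an affine coordinate. -/
structure Good {K : Type*} [Group K] [TopologicalSpace K] (ρ : K →* E) (χ : E) : Prop where
  act : Act ρ
  inj : ∀ κ, ρ κ = 1 → κ = 1
  aff : ∀ κ, ∃ a > 0, ∃ b, ∀ x, χ (ρ κ x) = a * χ x + b
  near : ∀ᶠ κ in 𝓝 (1 : K), ∃ b, ∀ x, χ (ρ κ x) = χ x + b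

section good
variable {K : Type*} [Group K] [TopologicalSpace K] [IsTopologicalGroup K] {ρ ρ' : K →* E}
  {χ χ' : E}

lemma Good.trans_fix (h : Good ρ χ) {κ : K} {b : ℝ} (hκ : ∀ x, χ (ρ κ x) = χ x + b) {x : ℝ}
    (hx : ρ κ x = x) : κ = 1 := by
  apply h.inj
  have hb : b = 0 := by
    have := hκ x
    rw [hx] at this
    linarith
  apply ext_ap
  intro y
  have := hκ y
  rw [hb, add_zero] at this
  exact χ.injective this

/-- two fixed points -/
lemma Good.two_fix (h : Good ρ χ) {κ : K} {x y : ℝ} (hxy : x ≠ y) (hx : ρ κ x = x)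
    (hy : ρ κ y = y) : κ = 1 := by
  obtain ⟨a, ha, b, hab⟩ := h.aff κ
  have h1 := hab x
  have h2 := hab y
  rw [hx] at h1
  rw [hy] at h2
  have h3 : (a - 1) * (χ x - χ y) = 0 := by linarith
  have h4 : χ x - χ y ≠ 0 := sub_ne_zero.2 (fun h => hxy (χ.injective h))
  have h5 : a = 1 := by
    rcases mul_eq_zero.1 h3 with h | h
    · linarith
    · exact absurd h h4
  subst h5
  exact h.trans_fix (b := b) (fun z => by rw [hab]; ring) hx

lemma Good.near_fix (h : Good ρ χ) :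
    ∀ᶠ κ in 𝓝 (1 : K), ∀ x, ρ κ x = x → κ = 1 := by
  filter_upwards [h.near] with κ hκ x hx
  obtain ⟨b, hb⟩ := hκ
  exact h.trans_fix hb hx

lemma trans_mul {κ κ' : K} (h1 : ∃ b, ∀ x, χ (ρ κ x) = χ x + b)
    (h2 : ∃ b, ∀ x, χ (ρ κ' x) = χ x + b) : ∃ b, ∀ x, χ (ρ (κ * κ') x) = χ x + b := by
  obtain ⟨b, hb⟩ := h1
  obtain ⟨b', hb'⟩ := h2
  exact ⟨b' + b, fun x => by rw [rho_mul_ap, hb, hb']; ring⟩

lemma trans_inv {κ : K} (h1 : ∃ b, ∀ x, χ (ρ κ x) = χ x + b) :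
    ∃ b, ∀ x, χ (ρ κ⁻¹ x) = χ x + b := by
  obtain ⟨b, hb⟩ := h1
  refine ⟨-b, fun x => ?_⟩
  have := hb (ρ κ⁻¹ x)
  rw [rho_ap_inv] at this
  linarith

/-- 5.7: an element with a fixed point in one arc has a fixed point in the other. -/
lemma Good.fact (h : Good ρ χ) (h' : Good ρ' χ') {κ : K} (hκ : κ ≠ 1) {x : ℝ}
    (hx : ρ κ x = x) : ∃ y, ρ' κ y = y := by
  by_contra hcon
  push Not at hcon
  -- slope one
  obtain ⟨a, ha, b, hab⟩ := h'.aff κ
  have ha1 : a = 1 := by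
    by_contra hne
    apply hcon (χ'⁻¹ (b / (1 - a)))
    have h1 : (1 - a) ≠ 0 := sub_ne_zero.2 (Ne.symm hne)
    apply χ'.injective
    rw [hab, ap_inv]
    field_simp
    ring
  subst ha1
  have hκ' : ∃ b, ∀ x, χ' (ρ' κ x) = χ' x + b := ⟨b, fun x => by rw [hab]; ring⟩
  have huniv : {y : ℝ | ∃ n : K, (∃ b, ∀ x, χ (ρ n x) = χ x + b) ∧
      (∃ b, ∀ x, χ' (ρ' n x) = χ' x + b) ∧ ρ' n 0 = y} = univ := by
    apply invariant_univ h'.act
    · exact ⟨0, 1, ⟨0, by simp⟩, ⟨0, by simp⟩, by simp⟩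
    · filter_upwards [h.near, h'.near] with j hj hj' y hy
      obtain ⟨n, hn, hn', rfl⟩ := hy
      exact ⟨j * n, trans_mul hj hn, trans_mul hj' hn', rho_mul_ap _ _ _⟩
  have hmem : ρ' κ 0 ∈ {y : ℝ | ∃ n : K, (∃ b, ∀ x, χ (ρ n x) = χ x + b) ∧
      (∃ b, ∀ x, χ' (ρ' n x) = χ' x + b) ∧ ρ' n 0 = y} := by rw [huniv]; trivial
  obtain ⟨n, hn, hn', hn0⟩ := hmem
  have h1 : n⁻¹ * κ = 1 := by
    obtain ⟨c, hc⟩ := trans_mul (trans_inv hn') hκ'
    refine h'.trans_fix hc (x := 0) ?_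
    rw [rho_mul_ap, ← hn0, rho_inv_ap]
  have h2 : κ = n := by
    rw [inv_mul_eq_one] at h1
    exact h1.symm
  subst h2
  obtain ⟨c, hc⟩ := hn
  exact hκ (h.trans_fix hc hx)

end good

section arcs
variable {Γ : Subgroup E} {m : ℕ} {r : ℝ}

/-- 5.7 -/
lemma good_arc {k : ℕ} (h : LC Γ (k + 2) r) {G : Fin (k + 1) → ℝ} (hG : G ∈ Conf (k + 1)) :
    ∃ χ, Good (arcAct h.leH hG) χ := by
  have hact := arcAct_act h (le_refl _) hG
  have hfree := QC_free hact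
  have htr : Trans (QC (arcAct h.leH hG)) := by
    intro x y
    apply exists_QC hact
    filter_upwards [discrete_stab h hG x] with κ hκ hκx
    rw [hκ hκx, map_one, one_ap]
  obtain ⟨χ, hχ⟩ := holder hfree htr
  -- translations
  have hc : ∀ t : ℝ, ∃ c ∈ QC (arcAct h.leH hG), ∀ x, χ (c x) = χ x + t := by
    intro t
    let c : E := χ⁻¹ * OrderIso.addRight t * χ
    have hcx : ∀ x, χ (c x) = χ x + t := by
      intro x
      show χ (χ⁻¹ (χ x + t)) = _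
      rw [ap_inv]
    exact ⟨c, (hχ c).2 ⟨t, hcx⟩, hcx⟩
  have haff : ∀ κ, ∃ a > 0, ∃ b, ∀ x, χ (arcAct h.leH hG κ x) = a * χ x + b := by
    intro κ
    set g := arcAct h.leH hG κ with hg
    obtain ⟨a, ha, b, hab⟩ := affine_of_normalizes (χ * g * χ⁻¹) (by
      intro t
      obtain ⟨c, hcQ, hcx⟩ := hc t
      obtain ⟨s, hs⟩ := (hχ _).1 (QC_conj κ hcQ)
      rw [← hg] at hs
      refine ⟨s, fun x => ?_⟩
      have h1 := hs (g (χ⁻¹ x))
      simp only [mul_ap, inv_ap] at h1 ⊢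
      rw [← h1]
      congr 2
      apply χ.injective
      rw [ap_inv, hcx, ap_inv])
    refine ⟨a, ha, b, fun x => ?_⟩
    have := hab (χ x)
    simpa using this
  refine ⟨χ, hact, arcAct_inj h hG, haff, ?_⟩
  obtain ⟨c, hcQ, hcx⟩ := hc 1
  have hcQ' : ∀ᶠ κ in 𝓝 (1 : Fix Γ G), c * arcAct h.leH hG κ = arcAct h.leH hG κ * c := hcQ
  filter_upwards [hcQ'] with κ hκ
  obtain ⟨a, ha, b, hab⟩ := haff κ
  have h1 : (c * arcAct h.leH hG κ) 0 = (arcAct h.leH hG κ * c) 0 := by rw [hκ]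
  have h2 := congrArg χ h1
  simp only [mul_ap] at h2
  rw [hcx, hab, hab, hcx] at h2
  have ha1 : a = 1 := by linarith
  subst ha1
  exact ⟨b, fun x => by rw [hab]; ring⟩

/-- actions of equal subgroups -/
lemma Good.congr_sub {S T : Subgroup E} (heq : S = T) {ρ : T →* E} {χ : E} (h : Good ρ χ) :
    Good (ρ.comp (Subgroup.inclusion heq.le)) χ := by
  subst heq
  have : ρ.comp (Subgroup.inclusion (le_refl S)) = ρ := by
    ext x; rfl
  rw [this]
  exact h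

lemma rot_last {k : ℕ} (G : Fin (k + 1) → ℝ) : rot G (Fin.last k) = G 0 + 1 := by
  unfold rot
  rw [Fin.snoc_last]

lemma rot_castSucc {k : ℕ} (G : Fin (k + 1) → ℝ) (i : Fin k) : rot G i.castSucc = G i.succ := by
  unfold rot
  rw [Fin.snoc_castSucc]
  rfl

lemma conf_rot {k : ℕ} {G : Fin (k + 1) → ℝ} (hG : G ∈ Conf (k + 1)) : rot G ∈ Conf (k + 1) := by
  refine ⟨fun i j hij => ?_, fun i j => ?_⟩
  · rcases Fin.eq_castSucc_or_eq_last i with ⟨i', rfl⟩ | rfl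
    · rcases Fin.eq_castSucc_or_eq_last j with ⟨j', rfl⟩ | rfl
      · rw [rot_castSucc, rot_castSucc]
        exact hG.1 (Fin.succ_lt_succ_iff.2 (Fin.castSucc_lt_castSucc_iff.1 hij))
      · rw [rot_castSucc, rot_last]
        exact hG.2 _ _
    · exact absurd hij (not_lt_of_ge (Fin.le_last _))
  · rcases Fin.eq_castSucc_or_eq_last i with ⟨i', rfl⟩ | rfl <;>
      rcases Fin.eq_castSucc_or_eq_last j with ⟨j', rfl⟩ | rfl
    · rw [rot_castSucc, rot_castSucc]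
      exact hG.2 _ _
    · rw [rot_castSucc, rot_last]
      have := hG.2 i'.succ 0
      linarith
    · rw [rot_castSucc, rot_last]
      have := hG.1 (Fin.succ_pos j')
      linarith
    · linarith

lemma Fix_rot (hΓ : Γ ≤ H) {k : ℕ} (G : Fin (k + 1) → ℝ) : Fix Γ G = Fix Γ (rot G) := by
  ext g
  constructor
  · rintro ⟨hg, hg'⟩
    refine ⟨hg, fun i => ?_⟩
    rcases Fin.eq_castSucc_or_eq_last i with ⟨i', rfl⟩ | rfl
    · rw [rot_castSucc, hg']
    · rw [rot_last, (hΓ hg : g ∈ H) , hg']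
  · rintro ⟨hg, hg'⟩
    refine ⟨hg, fun i => ?_⟩
    rcases Fin.eq_zero_or_eq_succ i with rfl | ⟨i', rfl⟩
    · have := hg' (Fin.last k)
      rw [rot_last, (hΓ hg : g ∈ H)] at this
      linarith
    · have := hg' i'.castSucc
      rwa [rot_castSucc] at this

end arcs

end Pool.Agent.Circ.D2
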