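import Pool.Agent.Circ.H71Excl2

/-!
Sections 5.8, 5.9 and 7.
-/

set_option autoImplicit false

open Set Filter Topology

namespace Pool.Agent.Circ.D2

section arcs
variable {Γ : Subgroup E} {m : ℕ} {r : ℝ}

/-! ### 5.8 -/

lemma conf_one (p : ℝ) : (fun _ : Fin 1 => p) ∈ Conf 1 := by
  refine ⟨fun i j hij => ?_, fun i j => by simp⟩
  exact absurd (Subsingleton.elim i j) hij.ne

lemma near_one (h : LC Γ 2 r) (p : ℝ) : ∀ᶠ g in 𝓝 (1 : E), g ∈ Γ → g p = p →
    ∀ s ∈ Ioo (p - 1) p, g s = s → g = 1 := by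
  obtain ⟨χ, hχ⟩ := good_arc (k := 0) h (conf_one p)
  obtain ⟨U, hU, hUs⟩ := (mem_nhds_subtype _ _ _).1 hχ.near_fix
  have hU' : U ∈ 𝓝 (1 : E) := hU
  filter_upwards [hU'] with g hgU hg hgp s hs hgs
  have hmem : g ∈ Fix Γ (fun _ : Fin 1 => p) := ⟨hg, fun _ => hgp⟩
  obtain ⟨x, hx⟩ := av_surj (lo_lt_hi (conf_one p)) hs
  have h1 := hUs (a := ⟨g, hmem⟩) hgU
  have h2 := h1 x (by
    rw [← av_inj (lo_lt_hi (conf_one p)), av_arcAct, hx]
    exact hgs)
  exact congrArg Subtype.val h2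

lemma loc_pt (h : LC Γ m r) {p s : ℝ} (hs : s ∈ Ioo (p - 1) p) {U : Set E} (hU : U ∈ 𝓝 (1 : E)) :
    {w | ∃ g ∈ Γ, g ∈ U ∧ g p = p ∧ g s = w} ∈ 𝓝 s := by
  have h1 := loc_trans h h.two_le (mem_conf_two hs.2 (by linarith [hs.1])) hU
  have hc : Continuous (fun w : ℝ => (![w, p] : Fin 2 → ℝ)) := by
    refine continuous_pi (fun i => ?_)
    fin_cases i
    · exact continuous_id
    · exact continuous_const
  have h2 := hc.continuousAt.preimage_mem_nhds h1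
  filter_upwards [h2] with w hw
  obtain ⟨g, hg, hgU, hgF⟩ := hw
  exact ⟨g, hg, hgU, hgF 1, hgF 0⟩

lemma sign_shift {g : E} (hgH : g ∈ H) {p : ℝ} (hno : ∀ s ∈ Ioo (p - 1) p, g s ≠ s)
    {s0 : ℝ} (hs0 : s0 ∈ Ioo (p - 1) p ∨ s0 ∈ Ioo p (p + 1)) (h0 : s0 < g s0) :
    ∀ s, (s ∈ Ioo (p - 1) p ∨ s ∈ Ioo p (p + 1)) → s < g s := by
  obtain ⟨t0, ht0, ht0g⟩ : ∃ t ∈ Ioo (p - 1) p, t < g t := by
    rcases hs0 with hs | hs
    · exact ⟨s0, hs, h0⟩
    · refine ⟨s0 - 1, ⟨by linarith [hs.1], by linarith [hs.2]⟩, ?_⟩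
      rw [H_sub_one hgH]; linarith
  have key : ∀ s ∈ Ioo (p - 1) p, s < g s := by
    intro s hs
    by_contra hc
    push Not at hc
    obtain ⟨x, hx, hxg⟩ := isPreconnected_Ioo.intermediate_value₂ (s := Ioo (p - 1) p) hs ht0
      (f := fun x => g x) (g := fun x => x) (cont_ap g).continuousOn continuousOn_id hc ht0g.le
    exact hno x hx hxg
  rintro s (hs | hs)
  · exact key s hs
  · have := key (s - 1) ⟨by linarith [hs.1], by linarith [hs.2]⟩
    rw [H_sub_one hgH] at this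
    linarith

lemma small_mem {ε : ℝ} (hε : 0 < ε) : {g : E | g ∈ H → Small ε g} ∈ 𝓝 (1 : E) :=
  eventually_small hε

/-- 5.8 -/
lemma not_two (h : LC Γ 2 r) : False := by
  obtain ⟨ε, hε, hεs⟩ := exists_small_subset
    ((near_one h 0).and ((near_one h (1 / 3)).and (near_one h (2 / 3))))
  have hB := loc_pt h (p := 0 + 1) (s := 1 / 3) (by constructor <;> norm_num)
    (small_mem (ε := ε / 3) (by positivity))
  obtain ⟨ε', hε', hB'⟩ := Metric.mem_nhds_iff.1 hB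
  have hδ1 : 0 < min (ε / 3) (ε' / 2) := by positivity
  have hA := loc_pt h (p := 1 / 3) (s := 0) (by constructor <;> norm_num) (small_mem hδ1)
  obtain ⟨ε'', hε'', hA'⟩ := Metric.mem_nhds_iff.1 hA
  have hδ2 : 0 < min (min (ε / 3) (ε' / 2)) ε'' := by positivity
  have hC := loc_pt h (p := 2 / 3) (s := 0) (by constructor <;> norm_num) (small_mem hδ2)
  obtain ⟨w, ⟨g, hg, hgs, hgz, hgx⟩, hw⟩ := exists_gt_of_nhds hC
  have hgH := h.leH hg
  have hgs' : Small (min (min (ε / 3) (ε' / 2)) ε'') g := hgs hgH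
  have hgε : Small (ε / 3) g := hgs'.mono ((min_le_left _ _).trans (min_le_left _ _))
  have hgx0 : (0 : ℝ) < g 0 := by rw [hgx]; exact hw
  -- n_y
  have hgxA : g 0 ∈ Metric.ball (0 : ℝ) ε'' := by
    rw [Metric.mem_ball, Real.dist_eq]
    exact lt_of_lt_of_le (hgs' 0) (min_le_right _ _)
  obtain ⟨n, hn, hns, hny, hnx⟩ := hA' hgxA
  have hnH := h.leH hn
  have hns' : Small (min (ε / 3) (ε' / 2)) n := hns hnH
  have hnε : Small (ε / 3) n := hns'.mono (min_le_left _ _)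
  have hnyB : n⁻¹ (g (1 / 3)) ∈ Metric.ball (1 / 3 : ℝ) ε' := by
    rw [Metric.mem_ball, Real.dist_eq]
    have h1 := (hns'.mono (min_le_right _ _)).inv.mul
      (hgs'.mono ((min_le_left _ _).trans (min_le_right _ _))) (1 / 3)
    rw [add_halves, mul_ap] at h1
    exact h1
  obtain ⟨l, hl, hls, hlx, hly⟩ := hB' hnyB
  have hlH := h.leH hl
  have hlε : Small (ε / 3) l := hls hlH
  have hlx' : l 0 = 0 := by
    rw [hlH] at hlx
    linarith
  -- d = 1
  have hd : l⁻¹ * (n⁻¹ * g) = 1 := by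
    have hds : Small ε (l⁻¹ * (n⁻¹ * g)) :=
      (hlε.inv.mul (hnε.inv.mul hgε)).mono (by linarith)
    refine (hεs _ hds).2.1 (Γ.mul_mem (Γ.inv_mem hl) (Γ.mul_mem (Γ.inv_mem hn) hg)) ?_ 0
      (by constructor <;> norm_num) ?_
    · rw [mul_ap, mul_ap, inv_eq_iff, hly]
    · rw [mul_ap, mul_ap, inv_eq_iff, hlx', eq_comm, inv_eq_iff, hnx]
  have hgeq : ∀ x, g x = n (l x) := by
    intro x
    have h1 : g = n * l := by
      have : g = n * (l * (l⁻¹ * (n⁻¹ * g))) := by group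
      rw [hd, mul_one] at this
      exact this
    rw [h1, mul_ap]
  -- signs
  have hnog : ∀ s ∈ Ioo ((2 / 3 : ℝ) - 1) (2 / 3), g s ≠ s := by
    intro s hs hgs1
    have := (hεs g (hgε.mono (by linarith))).2.2 hg hgz s hs hgs1
    rw [this, one_ap] at hgx0
    exact lt_irrefl _ hgx0
  have hg3 := sign_shift hgH hnog (s0 := 0) (Or.inl (by constructor <;> norm_num)) hgx0 (1 / 3)
    (Or.inl (by constructor <;> norm_num))
  have hnon : ∀ s ∈ Ioo ((1 / 3 : ℝ) - 1) (1 / 3), n s ≠ s := by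
    intro s hs hns1
    have := (hεs n (hnε.mono (by linarith))).2.1 hn hny s hs hns1
    rw [this, one_ap] at hnx
    linarith
  have hn0 : (0 : ℝ) < n 0 := by rw [hnx]; exact hgx0
  have hnpos := sign_shift hnH hnon (s0 := 0) (Or.inl (by constructor <;> norm_num)) hn0
  have hl3 : (1 / 3 : ℝ) < l (1 / 3) := by
    rw [hly, lt_inv_iff, hny]
    exact hg3
  have hnol : ∀ s ∈ Ioo ((0 : ℝ) - 1) 0, l s ≠ s := by
    intro s hs hls1
    have := (hεs l (hlε.mono (by linarith))).1 hl hlx' s hs hls1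
    rw [this, one_ap] at hl3
    exact lt_irrefl _ hl3
  have hlpos := sign_shift hlH hnol (s0 := 1 / 3) (Or.inr (by constructor <;> norm_num)) hl3
    (2 / 3) (Or.inr (by constructor <;> norm_num))
  have hn23 := hnpos (2 / 3) (Or.inr (by constructor <;> norm_num))
  have h1 : n (2 / 3) < n (l (2 / 3)) := n.strictMono hlpos
  rw [← hgeq, hgz] at h1
  linarith

/-! ### 5.9 -/

lemma conf_init {n : ℕ} {F : Fin (n + 1) → ℝ} (hF : F ∈ Conf (n + 1)) :
    (fun i : Fin n => F i.castSucc) ∈ Conf n :=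
  ⟨fun _ _ hij => hF.1 (Fin.castSucc_lt_castSucc_iff.2 hij), fun _ _ => hF.2 _ _⟩

lemma conf_tail {n : ℕ} {F : Fin (n + 1) → ℝ} (hF : F ∈ Conf (n + 1)) :
    (fun i : Fin n => F i.succ) ∈ Conf n :=
  ⟨fun _ _ hij => hF.1 (Fin.succ_lt_succ_iff.2 hij), fun _ _ => hF.2 _ _⟩

/-- 5.9 -/
lemma fix_conf {k : ℕ} (h : LC Γ (k + 3) r) {F : Fin (k + 3) → ℝ} (hF : F ∈ Conf (k + 3))
    {g : E} (hg : g ∈ Γ) (hfix : ∀ i, g (F i) = F i) : g = 1 := by
  by_contra hne
  have hgH := h.leH hg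
  have hG := conf_init hF
  set G : Fin (k + 2) → ℝ := fun i => F i.castSucc with hGdef
  have hT := conf_tail hF
  set T : Fin (k + 2) → ℝ := fun i => F i.succ with hTdef
  obtain ⟨χ, hχ⟩ := good_arc (k := k + 1) h hG
  obtain ⟨χ', hχ'⟩ := good_arc (k := k + 1) h (conf_rot hG)
  have hχ'' := hχ'.congr_sub (Fix_rot h.leH G)
  have hgG : g ∈ Fix Γ G := ⟨hg, fun i => hfix _⟩
  have hgT : g ∈ Fix Γ T := ⟨hg, fun i => hfix _⟩
  have hpm : F (Fin.last (k + 2)) - 1 ∈ Ioo (lo G) (hi G) := by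
    constructor
    · have : G (Fin.last (k + 1)) < F (Fin.last (k + 2)) := hF.1 (Fin.castSucc_lt_last _)
      unfold lo
      linarith
    · have : F (Fin.last (k + 2)) < F 0 + 1 := hF.2 _ _
      have h2 : hi G = F 0 := rfl
      rw [h2]
      linarith
  obtain ⟨x, hx⟩ := av_surj (lo_lt_hi hG) hpm
  obtain ⟨y, hy⟩ := Good.fact hχ hχ'' (κ := ⟨g, hgG⟩) (fun hc => hne (congrArg Subtype.val hc))
    (x := x) (by
      rw [← av_inj (lo_lt_hi hG), av_arcAct, hx]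
      show g _ = _
      rw [H_sub_one hgH, hfix])
  have hy2 : g (av (lo_lt_hi (conf_rot hG)) y) = av (lo_lt_hi (conf_rot hG)) y := by
    rw [MonoidHom.comp_apply, ← av_inj (lo_lt_hi (conf_rot hG)), av_arcAct] at hy
    exact hy
  have hym := av_mem (lo_lt_hi (conf_rot hG)) y
  have hlo : lo (rot G) = F 0 := by
    unfold lo
    rw [rot_last]
    show F 0 + 1 - 1 = F 0
    ring
  have hhi : hi (rot G) = F 1 := by
    unfold hi
    have : (0 : Fin (k + 2)) = (0 : Fin (k + 1)).castSucc := rfl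
    rw [this, rot_castSucc]
    rfl
  set w := av (lo_lt_hi (conf_rot hG)) y with hw
  have hw1 : F 0 < w := lt_of_eq_of_lt hlo.symm hym.1
  have hw2 : w < F 1 := lt_of_lt_of_eq hym.2 hhi
  have hloT : lo T = F (Fin.last (k + 2)) - 1 := rfl
  have hhiT : hi T = F 1 := rfl
  have hl0 : F (Fin.last (k + 2)) < F 0 + 1 := hF.2 _ _
  have h01 : F 0 < F 1 := hF.1 Fin.zero_lt_one
  obtain ⟨x0, hx0⟩ := av_surj (lo_lt_hi hT) (y := F 0)
    ⟨by rw [hloT]; linarith, by rw [hhiT]; exact h01⟩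
  obtain ⟨x1, hx1⟩ := av_surj (lo_lt_hi hT) (y := w)
    ⟨by rw [hloT]; linarith, by rw [hhiT]; exact hw2⟩
  obtain ⟨χT, hχT⟩ := good_arc (k := k + 1) h hT
  have h1 := hχT.two_fix (κ := ⟨g, hgT⟩) (x := x0) (y := x1)
    (by
      rintro rfl
      rw [hx0] at hx1
      linarith)
    (by
      rw [← av_inj (lo_lt_hi hT), av_arcAct, hx0]
      exact hfix 0)
    (by
      rw [← av_inj (lo_lt_hi hT), av_arcAct, hx1]
      exact hy2)
  exact hne (congrArg Subtype.val h1)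

/-! ### the affine hypotheses -/

lemma lo_cons {k : ℕ} (G : Fin (k + 1) → ℝ) (z : ℝ) :
    lo (Fin.cons z G : Fin (k + 2) → ℝ) = lo G := rfl

lemma hi_cons {k : ℕ} (G : Fin (k + 1) → ℝ) (z : ℝ) :
    hi (Fin.cons z G : Fin (k + 2) → ℝ) = z := rfl

lemma conf_cons2 {k : ℕ} {G : Fin (k + 1) → ℝ} (hG : G ∈ Conf (k + 1)) {y z : ℝ}
    (hz : z ∈ Ioo (lo G) (hi G)) (hy : y ∈ Ioo (lo G) (hi G)) (hyz : y < z) :
    (Fin.cons y (Fin.cons z G : Fin (k + 2) → ℝ) : Fin (k + 3) → ℝ) ∈ Conf (k + 3) :=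
  conf_cons (conf_cons hG hz) ⟨hy.1, hyz⟩

lemma affHyp {k : ℕ} (h : LC Γ (k + 3) r) {G : Fin (k + 1) → ℝ} (hG : G ∈ Conf (k + 1)) :
    AffHyp (arcAct h.leH hG) := by
  have hav := fun x => av_mem (lo_lt_hi hG) x
  have hlt := fun {x y : ℝ} => av_lt_iff (lo_lt_hi hG) (x := x) (y := y)
  have huniq : ∀ g : Fix Γ G, ∀ x y, x < y → arcAct h.leH hG g x = x →
      arcAct h.leH hG g y = y → g = 1 := by
    intro g x y hxy hx hy
    rw [← av_inj (lo_lt_hi hG), av_arcAct] at hx hy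
    apply Subtype.ext
    refine fix_conf h (conf_cons2 hG (hav y) (hav x) (hlt.2 hxy)) g.2.1 ?_
    refine Fin.cases hx (Fin.cases hy (fun i => g.2.2 i))
  refine ⟨arcAct_act h (by omega) hG, ?_, ?_, ?_⟩
  · intro g x y hxy hx hy
    rcases lt_or_gt_of_ne hxy with h1 | h1
    · exact huniq g x y h1 hx hy
    · exact huniq g y x h1 hy hx
  · rintro q x y (⟨h1, h2⟩ | ⟨h1, h2⟩)
    · obtain ⟨g, hg, hgF⟩ := conf_trans h (le_refl _) (conf_cons2 hG (hav x) (hav q) (hlt.2 h1))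
        (conf_cons2 hG (hav y) (hav q) (hlt.2 h2))
      refine ⟨⟨g, hg, fun i => hgF i.succ.succ⟩, ?_, ?_⟩
      · rw [← av_inj (lo_lt_hi hG), av_arcAct]; exact hgF 0
      · rw [← av_inj (lo_lt_hi hG), av_arcAct]; exact hgF (Fin.succ 0)
    · obtain ⟨g, hg, hgF⟩ := conf_trans h (le_refl _) (conf_cons2 hG (hav q) (hav x) (hlt.2 h1))
        (conf_cons2 hG (hav q) (hav y) (hlt.2 h2))
      refine ⟨⟨g, hg, fun i => hgF i.succ.succ⟩, ?_, ?_⟩
      · rw [← av_inj (lo_lt_hi hG), av_arcAct]; exact hgF (Fin.succ 0)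
      · rw [← av_inj (lo_lt_hi hG), av_arcAct]; exact hgF 0
  · intro q x hxq U hU
    obtain ⟨V, hV, hVU⟩ := (mem_nhds_subtype _ _ _).1 hU
    have hV' : V ∈ 𝓝 (1 : E) := hV
    rcases lt_or_gt_of_ne hxq with h1 | h1
    · have h2 := loc_trans h (le_refl _) (conf_cons2 hG (hav q) (hav x) (hlt.2 h1)) hV'
      have hc : Continuous (fun w : ℝ => (Fin.cons w (Fin.cons (av (lo_lt_hi hG) q) G :
          Fin (k + 2) → ℝ) : Fin (k + 3) → ℝ)) :=
        continuous_pi (Fin.cases continuous_id (fun _ => continuous_const))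
      have h3 := av_nhds (lo_lt_hi hG) (hc.continuousAt.preimage_mem_nhds h2)
      filter_upwards [h3] with y hy
      obtain ⟨g, hg, hgV, hgF⟩ := hy
      refine ⟨⟨g, hg, fun i => hgF i.succ.succ⟩, hVU hgV, ?_, ?_⟩
      · rw [← av_inj (lo_lt_hi hG), av_arcAct]; exact hgF (Fin.succ 0)
      · rw [← av_inj (lo_lt_hi hG), av_arcAct]; exact hgF 0
    · have h2 := loc_trans h (le_refl _) (conf_cons2 hG (hav x) (hav q) (hlt.2 h1)) hV'
      have hc : Continuous (fun w : ℝ => (Fin.cons (av (lo_lt_hi hG) q) (Fin.cons w G :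
          Fin (k + 2) → ℝ) : Fin (k + 3) → ℝ)) :=
        continuous_pi (Fin.cases continuous_const
          (Fin.cases continuous_id (fun _ => continuous_const)))
      have h3 := av_nhds (lo_lt_hi hG) (hc.continuousAt.preimage_mem_nhds h2)
      filter_upwards [h3] with y hy
      obtain ⟨g, hg, hgV, hgF⟩ := hy
      refine ⟨⟨g, hg, fun i => hgF i.succ.succ⟩, hVU hgV, ?_, ?_⟩
      · rw [← av_inj (lo_lt_hi hG), av_arcAct]; exact hgF 0
      · rw [← av_inj (lo_lt_hi hG), av_arcAct]; exact hgF (Fin.succ 0)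

end arcs

end Pool.Agent.Circ.D2
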