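import Pool.Agent.Circ.H71Excl3
import Pool.Agent.Circ.Aff

/-!
Section 7 and the end of module D2.
-/

set_option autoImplicit false

open Set Filter Topology

namespace Pool.Agent.Circ

open D2

section arcs
variable {Γ : Subgroup E} {m : ℕ} {r : ℝ}

/-! ### 7 -/

lemma D2.exists_conf (n : ℕ) : ∃ G, G ∈ Conf n := by
  refine ⟨fun i => (i : ℝ) / (n + 1), fun i j hij => ?_, fun i j => ?_⟩
  · have : ((i : ℕ) : ℝ) < ((j : ℕ) : ℝ) := by exact_mod_cast hij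
    show ((i : ℕ) : ℝ) / (n + 1) < ((j : ℕ) : ℝ) / (n + 1)
    exact div_lt_div_of_pos_right this (by positivity)
  · have h1 : ((i : ℕ) : ℝ) < n := by exact_mod_cast i.2
    have h2 : (0 : ℝ) ≤ ((j : ℕ) : ℝ) / (n + 1) := by positivity
    have h3 : ((i : ℕ) : ℝ) / (n + 1) < 1 := by
      rw [div_lt_one (by positivity)]
      linarith
    show ((i : ℕ) : ℝ) / (n + 1) < ((j : ℕ) : ℝ) / (n + 1) + 1
    linarith

lemma D2.not_four {k : ℕ} (h : LC Γ (k + 4) r) : False := by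
  obtain ⟨G, hG⟩ := exists_conf (k + 2)
  have hT := conf_tail hG
  set T : Fin (k + 1) → ℝ := fun i => G i.succ with hTdef
  have h01 : G 0 < G 1 := hG.1 Fin.zero_lt_one
  have hlo : lo T = lo G := rfl
  have hhi : hi T = G 1 := rfl
  have hl0 : lo G < G 0 := lo_lt_hi hG
  obtain ⟨w', hw'0, hw'1⟩ := exists_between h01
  obtain ⟨w, hww, hw1⟩ := exists_between hw'1
  have hw0 : G 0 < w := hw'0.trans hww
  obtain ⟨v, hv1, hv2⟩ := exists_between (lo_lt_hi hG)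
  obtain ⟨q, hq1, hqv⟩ := exists_between hv1
  have hq2 : q < hi G := hqv.trans hv2
  have cfg : ∀ u p : ℝ, G 0 < u → u < G 1 → lo G < p → p < G 0 →
      (Fin.cons p (Fin.cons (G 0) (Fin.cons u T : Fin (k + 2) → ℝ) : Fin (k + 3) → ℝ) :
        Fin (k + 4) → ℝ) ∈ Conf (k + 4) := by
    intro u p hu0 hu1 hp0 hp1
    have h1 := conf_cons hT (z := u) ⟨by rw [hlo]; linarith, hu1⟩
    have h2 := conf_cons h1 (z := G 0) ⟨by rw [lo_cons, hlo]; linarith, hu0⟩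
    exact conf_cons h2 (z := p) ⟨by rw [lo_cons, lo_cons, hlo]; exact hp0, hp1⟩
  have mk : ∀ u : ℝ, G 0 < u → u < G 1 → ∃ g : Fix Γ G, (g : E) u = u ∧ (g : E) q = v ∧
      ∀ x, arcAct h.leH hG g x ≠ x := by
    intro u hu0 hu1
    obtain ⟨g, hg, hgF⟩ := conf_trans h (le_refl _) (cfg u q hu0 hu1 hq1 hq2)
      (cfg u v hu0 hu1 hv1 hv2)
    have hgq : g q = v := hgF 0
    have hg0 : g (G 0) = G 0 := hgF (Fin.succ 0)
    have hgu : g u = u := hgF (Fin.succ (Fin.succ 0))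
    have hgT : ∀ i, g (T i) = T i := fun i => hgF i.succ.succ.succ
    refine ⟨⟨g, hg, Fin.cases hg0 hgT⟩, hgu, hgq, fun x hx => ?_⟩
    rw [← av_inj (lo_lt_hi hG), av_arcAct] at hx
    have hx' : g (av (lo_lt_hi hG) x) = av (lo_lt_hi hG) x := hx
    have hm := av_mem (lo_lt_hi hG) x
    have h1 : g = 1 := fix_conf (k := k + 1) h (cfg u _ hu0 hu1 hm.1 hm.2) hg
      (Fin.cases hx' (Fin.cases hg0 (Fin.cases hgu hgT)))
    rw [h1, one_ap] at hgq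
    exact hqv.ne hgq
  obtain ⟨g, hgw, hgq, hgf⟩ := mk w hw0 hw1
  obtain ⟨g', hgw', hgq', hgf'⟩ := mk w' hw'0 (hww.trans hw1)
  obtain ⟨x, hx⟩ := av_surj (lo_lt_hi hG) (y := q) ⟨hq1, hq2⟩
  have heq : g = g' := by
    refine key_aff (affHyp (k := k + 1) h hG) hgf hgf' (q := x) ?_
    rw [← av_inj (lo_lt_hi hG), av_arcAct, av_arcAct, hx, hgq, hgq']
  subst heq
  have h1 := conf_cons hT (z := w) ⟨by rw [hlo]; linarith, hw1⟩
  have h2 := conf_cons h1 (z := w') ⟨by rw [lo_cons, hlo]; linarith, hww⟩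
  have h3 := conf_cons h2 (z := G 0) ⟨by rw [lo_cons, lo_cons, hlo]; exact hl0, hw'0⟩
  have hone : (g : E) = 1 := fix_conf (k := k + 1) h h3 g.2.1
    (Fin.cases (g.2.2 0) (Fin.cases hgw' (Fin.cases hgw (fun i => g.2.2 i.succ))))
  rw [hone, one_ap] at hgq
  exact hqv.ne hgq

theorem m_eq_three (h : LC Γ m r) : m = 3 := by
  obtain ⟨k, rfl⟩ : ∃ k, m = k + 2 := ⟨m - 2, by have := h.two_le; omega⟩
  rcases k with _ | _ | k
  · exact (not_two h).elim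
  · rfl
  · exact (not_four (k := k) h).elim

theorem fix_triple (h : LC Γ 3 r) {F : Fin 3 → ℝ} (hF : F ∈ Conf 3)
    {g : E} (hg : g ∈ Γ) (hfix : ∀ i, g (F i) = F i) : g = 1 :=
  fix_conf (k := 0) h hF hg hfix

theorem stab_affine (h : LC Γ 3 r) :
    ∃ ξ : ℝ ≃o Ioo (0 : ℝ) 1,
      (∀ g ∈ Γ, g 0 = 0 → ∃ a > 0, ∃ b, ∀ x, g (ξ x) = ξ (a * x + b)) ∧
      (∀ a > 0, ∀ b, ∃ g ∈ Γ, g 0 = 0 ∧ ∀ x, g (ξ x) = ξ (a * x + b)) := by
  have hG := conf_one 1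
  obtain ⟨χ, h1, h2⟩ := aff (affHyp (k := 0) h hG)
  have hI : Ioo (lo (fun _ : Fin 1 => (1 : ℝ))) (hi (fun _ : Fin 1 => (1 : ℝ))) = Ioo (0 : ℝ) 1 := by
    have hl : lo (fun _ : Fin 1 => (1 : ℝ)) = 0 := by unfold lo; norm_num
    have hh : hi (fun _ : Fin 1 => (1 : ℝ)) = 1 := rfl
    rw [hl, hh]
  let ξ : ℝ ≃o Ioo (0 : ℝ) 1 :=
    (χ⁻¹ : ℝ ≃o ℝ).trans ((arcIso (lo_lt_hi hG)).trans (OrderIso.setCongr _ _ hI))
  have hξ : ∀ x, (ξ x : ℝ) = av (lo_lt_hi hG) (χ⁻¹ x) := fun x => rfl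
  refine ⟨ξ, fun g hg hg0 => ?_, fun a ha b => ?_⟩
  · have hgH := h.leH hg
    have hmem : g ∈ Fix Γ (fun _ : Fin 1 => (1 : ℝ)) := by
      refine ⟨hg, fun _ => ?_⟩
      have := hgH 0
      rw [zero_add, hg0, zero_add] at this
      exact this
    obtain ⟨a, ha, b, hab⟩ := h1 ⟨g, hmem⟩
    refine ⟨a, ha, b, fun x => ?_⟩
    rw [hξ, hξ]
    have h3 : g (av (lo_lt_hi hG) (χ⁻¹ x)) =
        av (lo_lt_hi hG) (arcAct h.leH hG ⟨g, hmem⟩ (χ⁻¹ x)) := by rw [av_arcAct]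
    rw [h3, av_inj, eq_comm, inv_eq_iff, hab, ap_inv]
  · obtain ⟨g, hg⟩ := h2 a ha b
    refine ⟨g, g.2.1, ?_, fun x => ?_⟩
    · have h3 := g.2.2 0
      have h4 := h.leH g.2.1 0
      have h5 : (g : E) 1 = 1 := h3
      rw [zero_add (1 : ℝ), h5] at h4
      linarith
    · rw [hξ, hξ]
      have h3 : (g : E) (av (lo_lt_hi hG) (χ⁻¹ x)) =
          av (lo_lt_hi hG) (arcAct h.leH hG g (χ⁻¹ x)) := by rw [av_arcAct]
      rw [h3, av_inj, eq_comm, inv_eq_iff, hg, ap_inv]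

end arcs

end Pool.Agent.Circ
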