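import Pool.Agent.Circ.Push

set_option autoImplicit false

open Set Filter Topology

namespace Pool.Agent.Circ

section D1
variable {Γ : Subgroup E} {m : ℕ} {r : ℝ}

/-- 5.1: no small subgroups. -/
theorem nss (h : LC Γ m r) {g : E} (hg : g ∈ Γ) (hp : ∀ j : ℕ, ∀ x, |(g ^ j) x - x| ≤ r) :
    g = 1 := by
  obtain ⟨u, -, φ, hφ, hu⟩ := h.cpt.tendsto_subseq (x := fun j : ℕ => g ^ j)
    (fun j => ⟨Γ.pow_mem hg j, hp j⟩)
  rw [tendsto_E] at hu
  apply ext_ap
  intro x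
  rw [one_ap]
  have h1 : Tendsto (fun j => (g ^ (φ j)) (g x)) atTop (𝓝 (u (g x))) := hu (g x)
  have h2 : Tendsto (fun j => (g ^ (φ j)) x) atTop (𝓝 (u x)) := hu x
  have h3 : Tendsto (fun j => (g ^ (φ (j + 1))) x) atTop (𝓝 (u x)) :=
    h2.comp (tendsto_add_atTop_nat 1)
  have h4 : ∀ j, (g ^ (φ j)) (g x) = (g ^ (φ j + 1)) x := by
    intro j; rw [pow_succ]; rfl
  rcases le_total x (g x) with hx | hx
  · have hmono : Monotone (fun j : ℕ => (g ^ j) x) := monotone_nat_of_le_succ (fun j => by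
      rw [pow_succ]; exact (g ^ j).monotone hx)
    have h5 : u (g x) ≤ u x := le_of_tendsto_of_tendsto' h1 h3 (fun j => by
      rw [h4]; exact hmono (hφ (Nat.lt_succ_self j)))
    exact le_antisymm (u.le_iff_le.1 h5) hx
  · have hmono : Antitone (fun j : ℕ => (g ^ j) x) := antitone_nat_of_succ_le (fun j => by
      rw [pow_succ]; exact (g ^ j).monotone hx)
    have h5 : u x ≤ u (g x) := le_of_tendsto_of_tendsto' h3 h1 (fun j => by
      rw [h4]; exact hmono (hφ (Nat.lt_succ_self j)))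
    exact le_antisymm hx (u.le_iff_le.1 h5)

/-- 5.2: local transitivity on configurations. -/
theorem loc_trans (h : LC Γ m r) {j : ℕ} (hj : j ≤ m) {F : Fin j → ℝ} (hF : F ∈ Conf j)
    {U : Set E} (hU : U ∈ 𝓝 (1 : E)) :
    {P : Fin j → ℝ | ∃ g ∈ Γ, g ∈ U ∧ ∀ i, g (F i) = P i} ∈ 𝓝 F := by
  by_contra hcon
  rw [Metric.mem_nhds_iff] at hcon
  push Not at hcon
  have h0 : ∀ l : ℕ, ∃ P : Fin j → ℝ, dist P F < 1 / ((l : ℝ) + 1) ∧
      ¬ ∃ g ∈ Γ, g ∈ U ∧ ∀ i, g (F i) = P i := by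
    intro l
    have := hcon (1 / ((l : ℝ) + 1)) (by positivity)
    rw [Set.not_subset] at this
    obtain ⟨P, hP1, hP2⟩ := this
    exact ⟨P, hP1, hP2⟩
  choose P hP hPn using h0
  set K : Set E := {g : E | g ∈ Γ ∧ ∀ x, |g x - x| ≤ r} with hK
  have h1K : (1 : E) ∈ K := ⟨Γ.one_mem, fun x => by simpa using h.rpos.le⟩
  have h1 : ∀ l, ∃ g ∈ K, ∀ k ∈ K,
      dist (fun i => g (F i)) (P l) ≤ dist (fun i => k (F i)) (P l) := by
    intro l
    have hc : Continuous (fun g : E => dist (fun i => g (F i)) (P l)) :=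
      (continuous_pi fun i => continuous_eval_at (F i)).dist continuous_const
    obtain ⟨g, hg, hmin⟩ := h.cpt.exists_isMinOn ⟨1, h1K⟩ hc.continuousOn
    exact ⟨g, hg, fun k hk => hmin hk⟩
  choose g hgK hmin using h1
  obtain ⟨u, huK, φ, hφ, hu⟩ := h.cpt.tendsto_subseq (x := g) hgK
  have hPF : Tendsto P atTop (𝓝 F) := by
    rw [tendsto_iff_dist_tendsto_zero]
    exact squeeze_zero (fun _ => dist_nonneg) (fun l => (hP l).le)
      tendsto_one_div_add_atTop_nhds_zero_nat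
  have hgP : Tendsto (fun l => dist (fun i => g l (F i)) (P l)) atTop (𝓝 0) := by
    refine squeeze_zero (fun _ => dist_nonneg) (fun l => ?_)
      tendsto_one_div_add_atTop_nhds_zero_nat
    refine (hmin l 1 h1K).trans ?_
    have : (fun i => (1 : E) (F i)) = F := rfl
    rw [this, dist_comm]
    exact (hP l).le
  have hgF : Tendsto (fun l => (fun i => g (φ l) (F i))) atTop (𝓝 F) := by
    have h2 : Tendsto (fun l => P (φ l)) atTop (𝓝 F) := hPF.comp hφ.tendsto_atTop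
    have h3 : Tendsto (fun l => dist (fun i => g (φ l) (F i)) (P (φ l))) atTop (𝓝 0) :=
      hgP.comp hφ.tendsto_atTop
    rw [tendsto_iff_dist_tendsto_zero] at h2 ⊢
    refine squeeze_zero (fun _ => dist_nonneg) (fun l => dist_triangle _ (P (φ l)) _) ?_
    simpa using h3.add h2
  have huF : ∀ i, u (F i) = F i := by
    intro i
    have h2 : Tendsto (fun l => g (φ l) (F i)) atTop (𝓝 (F i)) := (tendsto_pi_nhds.1 hgF) i
    have h3 : Tendsto (fun l => g (φ l) (F i)) atTop (𝓝 (u (F i))) := (tendsto_E.1 hu) (F i)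
    exact tendsto_nhds_unique h3 h2
  have huF' : ∀ i, u⁻¹ (F i) = F i := fun i => inv_eq_iff.2 (huF i)
  have hh : Tendsto (fun l => g (φ l) * u⁻¹) atTop (𝓝 (1 : E)) := by
    have h2 : Tendsto (fun l => g (φ l) * u⁻¹) atTop (𝓝 (u * u⁻¹)) := hu.mul_const u⁻¹
    rwa [mul_inv_cancel] at h2
  have hev1 := hh.eventually_mem hU
  have hev2 := hh.eventually (eventually_small (half_pos h.rpos))
  obtain ⟨l, hl1, hl2⟩ := (hev1.and hev2).exists
  have hmem : g (φ l) * u⁻¹ ∈ Γ := Γ.mul_mem (hgK _).1 (Γ.inv_mem huK.1)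
  have hsm := hl2 (h.leH hmem)
  by_cases heq : P (φ l) = fun i => g (φ l) (F i)
  · exact hPn (φ l) ⟨_, hmem, hl1, fun i => by rw [mul_ap, huF', heq]⟩
  · obtain ⟨q, hqΓ, hqs, hqd⟩ := push (h.pat j hj) (conf_map (h.leH (hgK _).1) hF) heq
      (half_pos h.rpos)
    have h4 : q * (g (φ l) * u⁻¹) ∈ K := by
      refine ⟨Γ.mul_mem hqΓ hmem, fun x => ?_⟩
      have := (hqs.mul hsm) x
      rw [add_halves] at this
      exact this.le
    have h5 := hmin (φ l) _ h4
    have h6 : (fun i => (q * (g (φ l) * u⁻¹)) (F i)) = fun i => q (g (φ l) (F i)) := by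
      funext i; rw [mul_ap, mul_ap, huF']
    rw [h6] at h5
    linarith

/-- 5.2: transitivity on configurations. -/
theorem conf_trans (h : LC Γ m r) {j : ℕ} (hj : j ≤ m) {F P : Fin j → ℝ} (hF : F ∈ Conf j)
    (hP : P ∈ Conf j) : ∃ g ∈ Γ, ∀ i, g (F i) = P i := by
  refine (convex_Conf j).isPreconnected.induction₂
    (fun A B => ∃ g ∈ Γ, ∀ i, g (A i) = B i) ?_ ?_ ?_ hF hP
  · intro X hX
    have := loc_trans h hj hX (U := univ) univ_mem
    apply mem_nhdsWithin_of_mem_nhds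
    filter_upwards [this] with Y hY
    obtain ⟨g, hg, -, hgY⟩ := hY
    exact ⟨g, hg, hgY⟩
  · rintro X Y Z _ _ _ ⟨g, hg, h1⟩ ⟨k, hk, h2⟩
    exact ⟨k * g, Γ.mul_mem hk hg, fun i => by rw [mul_ap, h1, h2]⟩
  · rintro X Y _ _ ⟨g, hg, h1⟩
    exact ⟨g⁻¹, Γ.inv_mem hg, fun i => inv_eq_iff.2 (h1 i)⟩

lemma mem_conf_two {a b : ℝ} (h1 : a < b) (h2 : b < a + 1) : (![a, b] : Fin 2 → ℝ) ∈ Conf 2 := by
  refine ⟨fun i j hij => ?_, fun i j => ?_⟩
  · fin_cases i <;> fin_cases j <;> simp_all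
  · fin_cases i <;> fin_cases j <;> simp <;> linarith

/-- 5.3: rigidity. -/
theorem rigid (h : LC Γ m r) {g : E} (hg : g ∈ Γ) {a b : ℝ} (hab : a < b)
    (hfix : ∀ x ∈ Ioo a b, g x = x) : g = 1 := by
  obtain ⟨a', ha1, ha2⟩ : ∃ a', a < a' ∧ a' < b := exists_between hab
  obtain ⟨b', hb1, hb2⟩ : ∃ b', a' < b' ∧ b' < min b (a' + 1) :=
    exists_between (lt_min ha2 (by linarith))
  have hb3 : b' < b := lt_of_lt_of_le hb2 (min_le_left _ _)
  have hb4 : b' < a' + 1 := lt_of_lt_of_le hb2 (min_le_right _ _)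
  set s : ℝ := min r (1 / 2) with hs
  have hs0 : 0 < s := lt_min h.rpos (by norm_num)
  have hsr : s ≤ r := min_le_left _ _
  have hs1 : s ≤ 1 / 2 := min_le_right _ _
  obtain ⟨q, hq, hqF⟩ := conf_trans h h.two_le (mem_conf_two hb1 hb4)
    (mem_conf_two (a := 0) (b := 1 - s) (by linarith) (by linarith))
  have hq0 : q a' = 0 := hqF 0
  have hq1 : q b' = 1 - s := hqF 1
  set k : E := q * g * q⁻¹ with hk
  have hkΓ : k ∈ Γ := Γ.mul_mem (Γ.mul_mem hq hg) (Γ.inv_mem hq)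
  have hkfix : ∀ y ∈ Icc 0 (1 - s), k y = y := by
    intro y hy
    have h1 : a' ≤ q⁻¹ y := by rw [le_inv_iff, hq0]; exact hy.1
    have h2 : q⁻¹ y ≤ b' := by rw [inv_le_iff, hq1]; exact hy.2
    rw [hk, mul_ap, mul_ap, hfix _ ⟨by linarith, by linarith⟩, ap_inv]
  have hpow : ∀ j : ℕ, ∀ y ∈ Icc 0 (1 - s), (k ^ j) y = y := by
    intro j
    induction j with
    | zero => intro y _; rw [pow_zero, one_ap]
    | succ j ih =>
      intro y hy
      rw [pow_succ, mul_ap, hkfix y hy, ih y hy]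
  have hk1 : k = 1 := by
    refine nss h hkΓ fun j x => ?_
    have hkj : k ^ j ∈ H := h.leH (Γ.pow_mem hkΓ j)
    set y := Int.fract x with hy
    have hx : x = y + (⌊x⌋ : ℝ) := by rw [hy]; exact (Int.fract_add_floor x).symm
    have h4 : (k ^ j) x - x = (k ^ j) y - y := by
      conv_lhs => rw [hx]
      rw [H_add_int hkj]
      ring
    rw [h4]
    have hy0 : 0 ≤ y := Int.fract_nonneg x
    have hy1 : y < 1 := Int.fract_lt_one x
    rcases le_or_gt y (1 - s) with hle | hlt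
    · rw [hpow j y ⟨hy0, hle⟩, sub_self, abs_zero]
      exact h.rpos.le
    · have h5 : (k ^ j) (1 - s) ≤ (k ^ j) y := (k ^ j).monotone hlt.le
      have h6 : (k ^ j) y ≤ (k ^ j) (0 + 1) := (k ^ j).monotone (by linarith)
      rw [hkj, hpow j 0 ⟨le_rfl, by linarith⟩] at h6
      rw [hpow j (1 - s) ⟨by linarith, le_rfl⟩] at h5
      rw [abs_le]
      constructor <;> linarith
  have h7 : g = q⁻¹ * k * q := by rw [hk]; group
  rw [h7, hk1]; group

/-- adding a point of the arc to a configuration -/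
lemma conf_cons {k : ℕ} {G : Fin (k + 1) → ℝ} (hG : G ∈ Conf (k + 1)) {z : ℝ}
    (hz : z ∈ Ioo (lo G) (hi G)) : (Fin.cons z G : Fin (k + 2) → ℝ) ∈ Conf (k + 2) := by
  have hz1 : G (Fin.last k) - 1 < z := hz.1
  have hz2 : z < G 0 := hz.2
  have hle0 : ∀ i, G 0 ≤ G i := fun i => hG.1.monotone (Fin.zero_le i)
  have hlel : ∀ i, G i ≤ G (Fin.last k) := fun i => hG.1.monotone (Fin.le_last i)
  refine ⟨fun i j hij => ?_, fun i j => ?_⟩
  · rcases Fin.eq_zero_or_eq_succ i with rfl | ⟨i', rfl⟩ <;>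
      rcases Fin.eq_zero_or_eq_succ j with rfl | ⟨j', rfl⟩
    · exact absurd hij (lt_irrefl _)
    · simp only [Fin.cons_zero, Fin.cons_succ]
      have := hle0 j'
      linarith
    · exact absurd hij (not_lt_of_ge (Fin.zero_le _))
    · simp only [Fin.cons_succ]
      exact hG.1 (Fin.succ_lt_succ_iff.1 hij)
  · rcases Fin.eq_zero_or_eq_succ i with rfl | ⟨i', rfl⟩ <;>
      rcases Fin.eq_zero_or_eq_succ j with rfl | ⟨j', rfl⟩
    · simp
    · simp only [Fin.cons_zero, Fin.cons_succ]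
      have := hle0 j'
      linarith
    · simp only [Fin.cons_zero, Fin.cons_succ]
      have := hlel i'
      linarith
    · simp only [Fin.cons_succ]
      exact hG.2 i' j'

/-- MT of the stabiliser of `G` on its arc -/
theorem arcAct_act (h : LC Γ m r) {k : ℕ} (hk : k + 2 ≤ m) {G : Fin (k + 1) → ℝ}
    (hG : G ∈ Conf (k + 1)) : Act (arcAct h.leH hG) := by
  refine ⟨arcAct_continuous _ _, fun x U hU => ?_⟩
  obtain ⟨V, hV, hVU⟩ := (mem_nhds_subtype _ _ _).1 hU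
  have hV' : V ∈ 𝓝 (1 : E) := hV
  set z := av (lo_lt_hi hG) x with hzdef
  have h1 := loc_trans h hk (conf_cons hG (av_mem (lo_lt_hi hG) x)) hV'
  have hc : Continuous (fun w : ℝ => (Fin.cons w G : Fin (k + 2) → ℝ)) :=
    continuous_pi (Fin.cases continuous_id (fun _ => continuous_const))
  have h2 := hc.continuousAt.preimage_mem_nhds h1
  have h3 := av_nhds (lo_lt_hi hG) h2
  filter_upwards [h3] with y hy
  obtain ⟨g, hgΓ, hgV, hgF⟩ := hy
  have hgG : ∀ i, g (G i) = G i := fun i => by simpa using hgF i.succ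
  have hgz : g z = av (lo_lt_hi hG) y := by simpa using hgF 0
  refine ⟨⟨g, hgΓ, hgG⟩, hVU hgV, ?_⟩
  rw [← av_inj (lo_lt_hi hG), av_arcAct]
  exact hgz

end D1

end Pool.Agent.Circ
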