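import Pool.Agent.Circ.Push

/-!
Section 4.0 and 4.2: sign patterns on at most two points; if all patterns are realised, the
group is `H`.
-/

set_option autoImplicit false

open Set Filter Topology

namespace Pool.Agent.Circ

/-- Small elements move a point to all nearby points. -/
lemma mt_move {Γ : Subgroup E} (hH : Γ ≤ H) (hmt : MTr Γ) (x : ℝ) {η : ℝ} (hη : 0 < η) :
    ∃ δ > 0, ∀ y, |y - x| < δ → ∃ g ∈ Γ, Small η g ∧ g x = y := by
  have h1 := hmt x _ (eventually_small hη)
  rw [Metric.mem_nhds_iff] at h1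
  obtain ⟨δ, hδ, h2⟩ := h1
  refine ⟨δ, hδ, fun y hy => ?_⟩
  have h3 : y ∈ Metric.ball x δ := by rw [Metric.mem_ball, Real.dist_eq]; exact hy
  obtain ⟨g, hg, hgU, hgx⟩ := h2 h3
  exact ⟨g, hg, hgU (hH hg), hgx⟩

/-- Small elements moving a point in a prescribed direction. -/
lemma mt_sign {Γ : Subgroup E} (hH : Γ ≤ H) (hmt : MTr Γ) (x : ℝ) {e : ℝ} (he : e ≠ 0) {η : ℝ}
    (hη : 0 < η) : ∃ g ∈ Γ, Small η g ∧ 0 < e * (g x - x) := by
  obtain ⟨δ, hδ, h⟩ := mt_move hH hmt x hη
  rcases lt_or_gt_of_ne he with h1 | h1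
  · obtain ⟨g, hg, hgs, hgx⟩ := h (x - δ / 2) (by rw [abs_lt]; constructor <;> linarith)
    refine ⟨g, hg, hgs, ?_⟩
    rw [hgx]
    nlinarith
  · obtain ⟨g, hg, hgs, hgx⟩ := h (x + δ / 2) (by rw [abs_lt]; constructor <;> linarith)
    refine ⟨g, hg, hgs, ?_⟩
    rw [hgx]
    nlinarith

lemma allPat_zero (Γ : Subgroup E) : AllPat Γ 0 := by
  intro X _ e _ η hη
  exact ⟨1, Γ.one_mem, small_one hη, fun i => i.elim0⟩

lemma allPat_one {Γ : Subgroup E} (hH : Γ ≤ H) (hmt : MTr Γ) : AllPat Γ 1 := by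
  intro X _ e he η hη
  obtain ⟨g, hg, hgs, hgx⟩ := mt_sign hH hmt (X 0) (he 0) hη
  refine ⟨g, hg, hgs, fun i => ?_⟩
  have : i = 0 := Subsingleton.elim _ _
  rw [this]; exact hgx

lemma allPat_two {Γ : Subgroup E} (hH : Γ ≤ H) (hmt : MTr Γ) (hCB : CB Γ) : AllPat Γ 2 := by
  intro X hX e he η hη
  have h01 : X 0 < X 1 := hX.1 (by decide)
  have h10 : X 1 < X 0 + 1 := hX.2 1 0
  have hne : ∀ n : ℤ, X 1 ≠ X 0 + n := by
    intro n hn
    have h1 : (0 : ℝ) < n := by linarith
    have h2 : (n : ℝ) < 1 := by linarith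
    have h3 : 0 < n := by exact_mod_cast h1
    have h4 : n < 1 := by exact_mod_cast h2
    omega
  obtain ⟨k, hk, hkU, hk0, hk1⟩ := hCB (X 0) (X 1) hne _ (eventually_small (half_pos hη))
  have hks : Small (η / 2) k := hkU (hH hk)
  -- choose the direction
  obtain ⟨k', hk', hks', hk0', hk1'⟩ : ∃ k' ∈ Γ, Small (η / 2) k' ∧ k' (X 0) = X 0 ∧
      0 < e 1 * (k' (X 1) - X 1) := by
    by_cases hd : 0 < e 1 * (k (X 1) - X 1)
    · exact ⟨k, hk, hks, hk0, hd⟩
    · refine ⟨k⁻¹, Γ.inv_mem hk, hks.inv, ?_, ?_⟩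
      · rw [inv_eq_iff]; exact hk0
      · push Not at hd
        rcases lt_or_gt_of_ne (he 1) with h1 | h1
        · -- e 1 < 0, so k x1 ≥ x1
          have h2 : X 1 < k (X 1) := by
            rcases lt_or_gt_of_ne hk1 with h3 | h3
            · exfalso
              have := mul_pos_of_neg_of_neg h1 (sub_neg.mpr h3)
              linarith
            · exact h3
          have h3 : k⁻¹ (X 1) < X 1 := inv_lt_iff.mpr h2
          exact mul_pos_of_neg_of_neg h1 (sub_neg.mpr h3)
        · have h2 : k (X 1) < X 1 := by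
            rcases lt_or_gt_of_ne hk1 with h3 | h3
            · exact h3
            · exfalso
              have := mul_pos h1 (sub_pos.mpr h3)
              linarith
          have h3 : X 1 < k⁻¹ (X 1) := lt_inv_iff.mpr h2
          exact mul_pos h1 (sub_pos.mpr h3)
  have hne1 : k' (X 1) - X 1 ≠ 0 := by
    intro h
    rw [h, mul_zero] at hk1'
    exact lt_irrefl _ hk1'
  obtain ⟨u, hu, hus, hux⟩ := mt_sign hH hmt (X 0) (he 0)
    (lt_min (half_pos hη) (abs_pos.mpr hne1))
  refine ⟨u * k', Γ.mul_mem hu hk', ?_, ?_⟩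
  · have := (hus.mono (min_le_left _ _)).mul hks'
    exact this.mono (by linarith)
  · intro i
    rw [mul_ap]
    fin_cases i
    · simp only [Fin.zero_eta]
      rw [hk0']; exact hux
    · simp only [Fin.mk_one]
      have h1 := lt_of_lt_of_le (hus (k' (X 1))) (min_le_right _ _)
      rcases lt_or_gt_of_ne (he 1) with h2 | h2
      · have h3 : k' (X 1) - X 1 < 0 := by
          by_contra hc
          push Not at hc
          have := mul_nonpos_of_nonpos_of_nonneg h2.le hc
          linarith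
        rw [abs_of_neg h3, abs_lt] at h1
        exact mul_pos_of_neg_of_neg h2 (by linarith)
      · have h3 : 0 < k' (X 1) - X 1 := by
          by_contra hc
          push Not at hc
          have := mul_nonpos_of_nonneg_of_nonpos h2.le hc
          linarith
        rw [abs_of_pos h3, abs_lt] at h1
        exact mul_pos h2 (by linarith)

/-- Orbits are dense in the configuration space. -/
lemma conf_dense {Γ : Subgroup E} {n : ℕ} (h : AllPat Γ n) {X : Fin n → ℝ}
    (hX : X ∈ Conf n) : Conf n ⊆ closure {Y | ∃ g ∈ Γ, Y = fun i => g (X i)} := by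
  set O : Set (Fin n → ℝ) := {Y | ∃ g ∈ Γ, Y = fun i => g (X i)} with hO
  -- invariance of the closure
  have hinv : ∀ g ∈ Γ, ∀ Q ∈ closure O, (fun i => g (Q i)) ∈ closure O := by
    intro g hg Q hQ
    have hc : Continuous fun Q : Fin n → ℝ => fun i => g (Q i) :=
      continuous_pi fun i => (cont_ap g).comp (continuous_apply i)
    refine map_mem_closure hc hQ ?_
    rintro _ ⟨k, hk, rfl⟩
    exact ⟨g * k, Γ.mul_mem hg hk, rfl⟩
  have hopen : IsOpen (closure O ∩ Conf n) := by
    rw [Metric.isOpen_iff]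
    rintro Q ⟨hQO, hQC⟩
    obtain ⟨ε, hε, hball⟩ := Metric.isOpen_iff.mp (isOpen_Conf n) Q hQC
    set r := ε / 4 with hr
    have hr0 : 0 < r := by positivity
    have hsub : Metric.closedBall Q (2 * r) ⊆ Conf n := by
      refine (Metric.closedBall_subset_ball ?_).trans hball
      rw [hr]; linarith
    refine ⟨r, hr0, fun P hP => ?_⟩
    have hPQ : dist P Q < r := hP
    have hPC : P ∈ Conf n := hsub (by rw [Metric.mem_closedBall]; linarith)
    refine ⟨?_, hPC⟩
    have hcpt : IsCompact (closure O ∩ Metric.closedBall Q (2 * r)) :=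
      (isCompact_closedBall Q (2 * r)).inter_left isClosed_closure
    obtain ⟨Q', hQ', hmin⟩ := hcpt.exists_isMinOn ⟨Q, hQO, Metric.mem_closedBall_self (by positivity)⟩
      (f := fun Z => dist Z P) (by fun_prop)
    by_cases hPQ' : P = Q'
    · rw [hPQ']; exact hQ'.1
    exfalso
    obtain ⟨g, hg, _, hgd⟩ := push h (hsub hQ'.2) hPQ' one_pos
    have h1 : dist Q' P ≤ dist Q P := hmin ⟨hQO, Metric.mem_closedBall_self (by positivity)⟩
    have h2 : (fun i => g (Q' i)) ∈ closure O ∩ Metric.closedBall Q (2 * r) := by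
      refine ⟨hinv g hg Q' hQ'.1, ?_⟩
      rw [Metric.mem_closedBall]
      have := dist_triangle (fun i => g (Q' i)) P Q
      rw [dist_comm P Q] at hPQ
      rw [dist_comm P Q] at this
      linarith
    have h3 : dist Q' P ≤ dist (fun i => g (Q' i)) P := hmin h2
    linarith
  have hpre : IsPreconnected (Conf n) := (convex_Conf n).isPreconnected
  have hXO : X ∈ O := ⟨1, Γ.one_mem, rfl⟩
  have hsub := hpre.subset_of_closure_inter_subset hopen ⟨X, hX, subset_closure hXO, hX⟩ (by
    rintro Z ⟨hZ1, hZ2⟩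
    refine ⟨?_, hZ2⟩
    have : closure (closure O ∩ Conf n) ⊆ closure O :=
      (closure_mono inter_subset_left).trans (by rw [closure_closure])
    exact this hZ1)
  exact fun Z hZ => (hsub hZ).1

/-- 4.2: if all patterns are realised then `Γ = H`. -/
theorem eq_H_of_allPat {Γ : Subgroup E} (hH : Γ ≤ H) (hcl : IsClosed (Γ : Set E))
    (h : ∀ n, AllPat Γ n) : Γ = H := by
  refine le_antisymm hH fun f hf => ?_
  -- approximations on grids
  have hgrid : ∀ N : ℕ, ∃ g ∈ Γ, ∀ j : ℕ, j < N.factorial →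
      |g ((j : ℝ) / (N.factorial : ℝ)) - f ((j : ℝ) / (N.factorial : ℝ))| < 1 / ((N : ℝ) + 1) := by
    intro N
    set M := N.factorial with hM
    have hM0 : (0 : ℝ) < M := by exact_mod_cast N.factorial_pos
    set X : Fin M → ℝ := fun i => (i : ℕ) / (M : ℝ) with hXdef
    have hX : X ∈ Conf M := by
      refine ⟨fun i j hij => ?_, fun i j => ?_⟩
      · simp only [hXdef]
        have : ((i : ℕ) : ℝ) < (j : ℕ) := by exact_mod_cast hij
        exact div_lt_div_of_pos_right this hM0
      · simp only [hXdef]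
        have h1 : ((i : ℕ) : ℝ) / M < 1 := by
          rw [div_lt_one hM0]; exact_mod_cast i.2
        have h2 : (0 : ℝ) ≤ ((j : ℕ) : ℝ) / M := by positivity
        linarith
    have hfX : (fun i => f (X i)) ∈ Conf M := conf_map hf hX
    have h1 := conf_dense (h M) hX hfX
    rw [Metric.mem_closure_iff] at h1
    obtain ⟨_, ⟨g, hg, rfl⟩, hd⟩ := h1 (1 / ((N : ℝ) + 1)) (by positivity)
    refine ⟨g, hg, fun j hj => ?_⟩
    have h2 := (dist_pi_lt_iff (by positivity)).mp hd ⟨j, hj⟩
    rw [dist_comm, Real.dist_eq] at h2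
    exact h2
  choose g hg hgd using hgrid
  refine hcl.mem_of_tendsto (f := g) (b := atTop) ?_ (Eventually.of_forall hg)
  rw [isInducing_rat.tendsto_nhds_iff, tendsto_pi_nhds]
  intro q
  rw [tendsto_iff_dist_tendsto_zero]
  refine squeeze_zero' (Eventually.of_forall fun _ => dist_nonneg) ?_
    tendsto_one_div_add_atTop_nhds_zero_nat
  filter_upwards [eventually_ge_atTop q.den] with N hN
  set M := N.factorial with hM
  have hMpos : 0 < M := N.factorial_pos
  have hM0 : (0 : ℝ) < M := by exact_mod_cast hMpos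
  have hdvd : q.den ∣ M := Nat.dvd_factorial q.pos hN
  obtain ⟨c, hc⟩ := hdvd
  set a : ℤ := q.num * c with ha
  have hq : (q : ℝ) = a / M := by
    have hc0 : (c : ℝ) ≠ 0 := by
      rintro h0
      have : c = 0 := by exact_mod_cast h0
      rw [this, mul_zero] at hc
      omega
    have hd0 : (q.den : ℝ) ≠ 0 := by exact_mod_cast q.den_nz
    rw [ha, hc, Rat.cast_def q]
    push_cast
    field_simp
  have hsplit : (a : ℝ) / M = ((a % M).toNat : ℝ) / M + ((a / M : ℤ) : ℝ) := by
    have h1 : ((a % M).toNat : ℤ) = a % M := Int.toNat_of_nonneg (Int.emod_nonneg _ (by omega))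
    have h2 : a = (a % M).toNat + M * (a / M) := by
      rw [h1]; exact (Int.emod_add_mul_ediv a M).symm
    have h3 : (a : ℝ) = ((a % M).toNat : ℝ) + M * ((a / M : ℤ) : ℝ) := by
      exact_mod_cast congrArg (fun z : ℤ => (z : ℝ)) h2
    rw [h3]
    field_simp
  have hlt : (a % M).toNat < M := by
    have h1 := Int.emod_lt_of_pos a (b := (M : ℤ)) (by exact_mod_cast hMpos)
    have h2 := Int.emod_nonneg a (b := (M : ℤ)) (by omega)
    omega
  change dist (g N (q : ℝ)) (f (q : ℝ)) ≤ _
  rw [Real.dist_eq, hq, hsplit, H_add_int (hH (hg N)), H_add_int hf]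
  have := (hgd N _ hlt).le
  rw [add_sub_add_right_eq_sub]
  exact this

/-- Glue: a minimal unrealised number of points. -/
theorem dichotomy_glue {Γ : Subgroup E} (hH : Γ ≤ H) (hcl : IsClosed (Γ : Set E))
    (hmt : MTr Γ) (hCB : CB Γ) (hne : Γ ≠ H)
    (hlc : ∀ m, 2 ≤ m → (∀ j ≤ m, AllPat Γ j) → ¬ AllPat Γ (m + 1) → ∃ r, LC Γ m r) :
    ∃ m r, LC Γ m r := by
  classical
  have hex : ∃ n, ¬ AllPat Γ n := by
    by_contra hcon
    push Not at hcon
    exact hne (eq_H_of_allPat hH hcl hcon)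
  set n := Nat.find hex with hn
  have hnot : ¬ AllPat Γ n := Nat.find_spec hex
  have hlt : ∀ j < n, AllPat Γ j := fun j hj => not_not.mp (Nat.find_min hex hj)
  have h0 : n ≠ 0 := fun h => hnot (h ▸ allPat_zero Γ)
  have h1 : n ≠ 1 := fun h => hnot (h ▸ allPat_one hH hmt)
  have h2 : n ≠ 2 := fun h => hnot (h ▸ allPat_two hH hmt hCB)
  obtain ⟨m, hm⟩ : ∃ m, n = m + 1 := Nat.exists_eq_succ_of_ne_zero h0
  rw [hm] at hnot hlt
  obtain ⟨r, hr⟩ := hlc m (by omega) (fun j hj => hlt j (by omega)) hnot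
  exact ⟨m, r, hr⟩

end Pool.Agent.Circ
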