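import Pool.Agent.Circ.PatLC
import Pool.Agent.Circ.PatternsAll

/-!
MP_348654_gt, module C: the dichotomy of section 4.
-/

set_option autoImplicit false

namespace Pool.Agent.Circ

theorem patterns_dichotomy {Γ : Subgroup E} (hH : Γ ≤ H) (hcl : IsClosed (Γ : Set E))
    (htr : Trans Γ) (hmt : MTr Γ) (hCB : CB Γ) (hne : Γ ≠ H) : ∃ m r, LC Γ m r :=
  dichotomy_glue hH hcl hmt hCB hne fun _ hm h1 h2 => lc_of_unrealised hH hcl htr hmt hCB hm h1 h2

end Pool.Agent.Circ
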