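import Pool.Agent.Circ.Arc

/-!
# Module F of MP_348654_gt (section 8): the concrete model of the group of lifts of PSL2
-/

set_option autoImplicit false

open Set Filter Topology

namespace Pool.Agent.Circ

namespace Psl

/-! ### Extension of interval maps to elements of `H` -/

/-- the map on the fundamental domain -/
noncomputable def phi (f : Ioo (0 : ℝ) 1 ≃o Ioo (0 : ℝ) 1) (y : ℝ) : ℝ :=
  open Classical in if h : y ∈ Ioo (0 : ℝ) 1 then (f ⟨y, h⟩ : ℝ) else 0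

theorem phi_of_mem (f : Ioo (0 : ℝ) 1 ≃o Ioo (0 : ℝ) 1) {y : ℝ} (h : y ∈ Ioo (0 : ℝ) 1) :
    phi f y = (f ⟨y, h⟩ : ℝ) := by
  unfold phi; rw [dif_pos h]

theorem phi_zero (f : Ioo (0 : ℝ) 1 ≃o Ioo (0 : ℝ) 1) : phi f 0 = 0 := by
  unfold phi; rw [dif_neg]; intro h; exact lt_irrefl _ h.1

theorem phi_mem (f : Ioo (0 : ℝ) 1 ≃o Ioo (0 : ℝ) 1) {y : ℝ} (h : y ∈ Ico (0 : ℝ) 1) :
    phi f y ∈ Ico (0 : ℝ) 1 := by
  rcases h.1.eq_or_lt with h0 | h0
  · rw [← h0, phi_zero]; exact ⟨le_refl _, zero_lt_one⟩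
  · rw [phi_of_mem f ⟨h0, h.2⟩]
    exact ⟨(f ⟨y, h0, h.2⟩).2.1.le, (f ⟨y, h0, h.2⟩).2.2⟩

theorem phi_lt (f : Ioo (0 : ℝ) 1 ≃o Ioo (0 : ℝ) 1) {x y : ℝ} (hx : 0 ≤ x) (hxy : x < y)
    (hy : y < 1) : phi f x < phi f y := by
  have hy0 : y ∈ Ioo (0 : ℝ) 1 := ⟨lt_of_le_of_lt hx hxy, hy⟩
  rcases hx.eq_or_lt with h0 | h0
  · rw [← h0, phi_zero, phi_of_mem f hy0]; exact (f ⟨y, hy0⟩).2.1
  · rw [phi_of_mem f hy0, phi_of_mem f ⟨h0, hxy.trans hy⟩]
    have : (⟨x, h0, hxy.trans hy⟩ : Ioo (0 : ℝ) 1) < ⟨y, hy0⟩ := hxy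
    exact f.strictMono this

theorem phi_phi_symm (f : Ioo (0 : ℝ) 1 ≃o Ioo (0 : ℝ) 1) {y : ℝ} (h : y ∈ Ico (0 : ℝ) 1) :
    phi f (phi f.symm y) = y := by
  rcases h.1.eq_or_lt with h0 | h0
  · rw [← h0, phi_zero, phi_zero]
  · rw [phi_of_mem f.symm ⟨h0, h.2⟩, phi_of_mem f (f.symm ⟨y, h0, h.2⟩).2]
    simp

/-- the extension -/
noncomputable def Fx (f : Ioo (0 : ℝ) 1 ≃o Ioo (0 : ℝ) 1) (x : ℝ) : ℝ :=
  (⌊x⌋ : ℝ) + phi f (Int.fract x)

theorem fract_mem (x : ℝ) : Int.fract x ∈ Ico (0 : ℝ) 1 := ⟨Int.fract_nonneg x, Int.fract_lt_one x⟩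

theorem Fx_strictMono (f : Ioo (0 : ℝ) 1 ≃o Ioo (0 : ℝ) 1) : StrictMono (Fx f) := by
  intro x y hxy
  unfold Fx
  have h1 : ⌊x⌋ ≤ ⌊y⌋ := Int.floor_mono hxy.le
  rcases h1.eq_or_lt with h2 | h2
  · have h3 : Int.fract x < Int.fract y := by
      have e1 := Int.floor_add_fract x
      have e2 := Int.floor_add_fract y
      rw [h2] at e1
      linarith
    have := phi_lt f (Int.fract_nonneg x) h3 (Int.fract_lt_one y)
    rw [h2]; linarith
  · have h3 : (⌊x⌋ : ℝ) + 1 ≤ ⌊y⌋ := by exact_mod_cast h2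
    have h4 := (phi_mem f (fract_mem x)).2
    have h5 := (phi_mem f (fract_mem y)).1
    linarith

theorem Fx_Fx (f : Ioo (0 : ℝ) 1 ≃o Ioo (0 : ℝ) 1) (x : ℝ) : Fx f (Fx f.symm x) = x := by
  have h1 := phi_mem f.symm (fract_mem x)
  have h2 : ⌊Fx f.symm x⌋ = ⌊x⌋ := by
    rw [Int.floor_eq_iff]
    unfold Fx
    constructor
    · linarith [h1.1]
    · linarith [h1.2]
  have h3 : Int.fract (Fx f.symm x) = phi f.symm (Int.fract x) := by
    unfold Int.fract
    rw [h2]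
    unfold Fx Int.fract
    ring
  have e : Fx f (Fx f.symm x) = (⌊Fx f.symm x⌋ : ℝ) + phi f (Int.fract (Fx f.symm x)) := rfl
  rw [e, h2, h3, phi_phi_symm f (fract_mem x)]
  exact Int.floor_add_fract x

/-- the extension as an element of `E` -/
noncomputable def ext (f : Ioo (0 : ℝ) 1 ≃o Ioo (0 : ℝ) 1) : E :=
  StrictMono.orderIsoOfRightInverse (Fx f) (Fx_strictMono f) (Fx f.symm) (Fx_Fx f)

theorem ext_apply (f : Ioo (0 : ℝ) 1 ≃o Ioo (0 : ℝ) 1) (x : ℝ) : ext f x = Fx f x := rfl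

theorem ext_mem_H (f : Ioo (0 : ℝ) 1 ≃o Ioo (0 : ℝ) 1) : ext f ∈ H := by
  rw [mem_H]
  intro x
  rw [ext_apply, ext_apply]
  unfold Fx
  rw [Int.floor_add_one, Int.fract_add_one]
  push_cast
  ring

theorem ext_zero (f : Ioo (0 : ℝ) 1 ≃o Ioo (0 : ℝ) 1) : ext f 0 = 0 := by
  rw [ext_apply]; unfold Fx; simp [phi_zero]

theorem ext_of_mem (f : Ioo (0 : ℝ) 1 ≃o Ioo (0 : ℝ) 1) {y : ℝ} (h : y ∈ Ioo (0 : ℝ) 1) :
    ext f y = (f ⟨y, h⟩ : ℝ) := by
  rw [ext_apply]
  unfold Fx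
  have h1 : ⌊y⌋ = 0 := by rw [Int.floor_eq_zero_iff]; exact ⟨h.1.le, h.2⟩
  have h2 : Int.fract y = y := by rw [Int.fract_eq_self]; exact ⟨h.1.le, h.2⟩
  rw [h1, h2, phi_of_mem f h]
  simp

/-! ### Elementary facts on `H` -/

theorem H_ext {g h : E} (hg : g ∈ H) (hh : h ∈ H) (h0 : g 0 = h 0)
    (hI : ∀ x ∈ Ioo (0 : ℝ) 1, g x = h x) : g = h := by
  apply ext_ap
  intro x
  have hx : x = Int.fract x + (⌊x⌋ : ℝ) := (Int.fract_add_floor x).symm
  rw [hx, H_add_int hg, H_add_int hh]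
  congr 1
  rcases (Int.fract_nonneg x).eq_or_lt with h1 | h1
  · rw [← h1, h0]
  · exact hI _ ⟨h1, Int.fract_lt_one x⟩

theorem T1_ap (x : ℝ) : T1 x = x + 1 := rfl

theorem T1_mem_H : T1 ∈ H := by
  rw [mem_H]; intro x; rw [T1_ap, T1_ap]

theorem T1_comm {g : E} (hg : g ∈ H) : T1 * g = g * T1 := by
  apply ext_ap
  intro x
  rw [mul_ap, mul_ap, T1_ap, T1_ap, mem_H.1 hg]

theorem T1_inv_ap (x : ℝ) : T1⁻¹ x = x - 1 := by
  rw [inv_eq_iff, T1_ap]; ring

theorem T1_zpow_ap (n : ℤ) (x : ℝ) : (T1 ^ n) x = x + n := by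
  induction n with
  | zero => simp
  | succ n ih =>
    rw [zpow_add_one, mul_ap, T1_ap]
    have h1 : ∀ y : ℝ, (T1 ^ (n : ℤ)) (y + 1) = (T1 ^ (n : ℤ)) y + 1 :=
      mem_H.1 (H.zpow_mem T1_mem_H _)
    rw [h1, ih]
    push_cast
    ring
  | pred n ih =>
    rw [zpow_sub_one, mul_ap, T1_inv_ap]
    have h1 := H_sub_one (H.zpow_mem T1_mem_H (-(n : ℤ))) x
    rw [h1, ih]
    push_cast
    ring

/-- elements of `H` fixing `0` fix `1` -/
theorem fix_one {g : E} (hg : g ∈ H) (h0 : g 0 = 0) : g 1 = 1 := by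
  have := mem_H.1 hg 0
  rw [zero_add, h0, zero_add] at this
  exact this

theorem conf3 {a b c : ℝ} (h1 : a < b) (h2 : b < c) (h3 : c < a + 1) : ![a, b, c] ∈ Conf 3 := by
  constructor
  · intro i j hij
    fin_cases i <;> fin_cases j <;> simp at hij ⊢ <;> linarith
  · intro i j
    fin_cases i <;> fin_cases j <;> simp <;> linarith

/-! ### Projective relation -/

theorem proj_mul {a b c d a' b' c' d' : ℝ} {M N : E} (h : Proj a b c d M)
    (h' : Proj a' b' c' d' N) :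
    Proj (a * a' + b * c') (a * b' + b * d') (c * a' + d * c') (c * b' + d * d') (M * N) := by
  intro t
  rw [mul_ap]
  have e1 := h (N t)
  have e2 := h' t
  set x := Real.cos (Real.pi * t)
  set y := Real.sin (Real.pi * t)
  set u := Real.cos (Real.pi * N t)
  set v := Real.sin (Real.pi * N t)
  set p := Real.cos (Real.pi * M (N t))
  set r := Real.sin (Real.pi * M (N t))
  have huv : u ^ 2 + v ^ 2 = 1 := by
    simp only [u, v]; rw [add_comm]; exact Real.sin_sq_add_cos_sq _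
  -- `X = a' x + b' y`, `Y = c' x + d' y`; `u Y = v X`, so `(X, Y) = m (u, v)` with `m = u X + v Y`
  have hX : a' * x + b' * y = (u * (a' * x + b' * y) + v * (c' * x + d' * y)) * u := by
    have : (a' * x + b' * y) = (u ^ 2 + v ^ 2) * (a' * x + b' * y) := by rw [huv, one_mul]
    have h3 : u * (c' * x + d' * y) = v * (a' * x + b' * y) := e2
    linear_combination this + v * (-1) * h3
  have hY : c' * x + d' * y = (u * (a' * x + b' * y) + v * (c' * x + d' * y)) * v := by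
    have : (c' * x + d' * y) = (u ^ 2 + v ^ 2) * (c' * x + d' * y) := by rw [huv, one_mul]
    have h3 : u * (c' * x + d' * y) = v * (a' * x + b' * y) := e2
    linear_combination this + u * h3
  set m := u * (a' * x + b' * y) + v * (c' * x + d' * y)
  have e3 : p * (c * u + d * v) = r * (a * u + b * v) := e1
  calc p * ((c * a' + d * c') * x + (c * b' + d * d') * y)
      = p * (c * (a' * x + b' * y) + d * (c' * x + d' * y)) := by ring
    _ = m * (p * (c * u + d * v)) := by rw [hX, hY]; ring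
    _ = m * (r * (a * u + b * v)) := by rw [e3]
    _ = r * (a * (m * u) + b * (m * v)) := by ring
    _ = r * ((a * a' + b * c') * x + (a * b' + b * d') * y) := by rw [← hX, ← hY]; ring

theorem proj_smul {a b c d : ℝ} {M : E} (h : Proj a b c d M) (s : ℝ) :
    Proj (s * a) (s * b) (s * c) (s * d) M := by
  intro t
  have := h t
  linear_combination s * this

theorem proj_shift {a b c d : ℝ} {M M' : E} (h : Proj a b c d M) (n : ℤ)
    (hM : ∀ t, M' t = M t + n) : Proj a b c d M' := by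
  intro t
  have h1 : Real.pi * M' t = Real.pi * M t + n * Real.pi := by rw [hM]; ring
  rw [h1, Real.cos_add_int_mul_pi, Real.sin_add_int_mul_pi]
  have := h t
  linear_combination (-1) ^ n * this

/-- it suffices to check on a fundamental domain -/
theorem proj_of_fund {a b c d : ℝ} {M : E} (hM : M ∈ H)
    (h0 : Real.cos (Real.pi * M 0) * c = Real.sin (Real.pi * M 0) * a)
    (hI : ∀ t ∈ Ioo (0 : ℝ) 1, Real.cos (Real.pi * M t) * (c * Real.cos (Real.pi * t) +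
      d * Real.sin (Real.pi * t)) =
      Real.sin (Real.pi * M t) * (a * Real.cos (Real.pi * t) + b * Real.sin (Real.pi * t))) :
    Proj a b c d M := by
  intro t
  have ht : t = Int.fract t + (⌊t⌋ : ℝ) := (Int.fract_add_floor t).symm
  have key : Real.cos (Real.pi * M (Int.fract t)) * (c * Real.cos (Real.pi * Int.fract t) +
      d * Real.sin (Real.pi * Int.fract t)) =
      Real.sin (Real.pi * M (Int.fract t)) * (a * Real.cos (Real.pi * Int.fract t) +
      b * Real.sin (Real.pi * Int.fract t)) := by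
    rcases (Int.fract_nonneg t).eq_or_lt with h1 | h1
    · rw [← h1]
      simp only [mul_zero, Real.cos_zero, Real.sin_zero, mul_one, add_zero]
      exact h0
    · exact hI _ ⟨h1, Int.fract_lt_one t⟩
  have hMt : M t = M (Int.fract t) + (⌊t⌋ : ℝ) := by
    conv_lhs => rw [ht]
    exact H_add_int hM _ _
  have e1 : Real.pi * M t = Real.pi * M (Int.fract t) + (⌊t⌋ : ℝ) * Real.pi := by rw [hMt]; ring
  have e2 : Real.pi * t = Real.pi * Int.fract t + (⌊t⌋ : ℝ) * Real.pi := by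
    conv_lhs => rw [ht]
    ring
  rw [e1, e2, Real.cos_add_int_mul_pi, Real.sin_add_int_mul_pi, Real.cos_add_int_mul_pi,
    Real.sin_add_int_mul_pi]
  linear_combination (-1) ^ ⌊t⌋ * (-1) ^ ⌊t⌋ * key

theorem proj_unique {a b c d : ℝ} {M M' : E} (hdet : a * d - b * c ≠ 0) (h : Proj a b c d M)
    (h' : Proj a b c d M') : ∃ n : ℤ, ∀ t, M t = M' t + n := by
  -- pointwise integrality
  have hint : ∀ t, ∃ n : ℤ, M t - M' t = n := by
    intro t
    have e1 := h t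
    have e2 := h' t
    set x := Real.cos (Real.pi * t)
    set y := Real.sin (Real.pi * t)
    set p := Real.cos (Real.pi * M t)
    set r := Real.sin (Real.pi * M t)
    set p' := Real.cos (Real.pi * M' t)
    set r' := Real.sin (Real.pi * M' t)
    have hxy : x ^ 2 + y ^ 2 = 1 := by
      simp only [x, y]; rw [add_comm]; exact Real.sin_sq_add_cos_sq _
    -- `(X, Y)` is not zero
    have hne : a * x + b * y ≠ 0 ∨ c * x + d * y ≠ 0 := by
      by_contra hcon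
      push Not at hcon
      obtain ⟨h1, h2⟩ := hcon
      have h3 : (a * d - b * c) * x = 0 := by linear_combination d * h1 - b * h2
      have h4 : (a * d - b * c) * y = 0 := by linear_combination a * h2 - c * h1
      have h5 : x = 0 := by
        rcases mul_eq_zero.1 h3 with h | h
        · exact absurd h hdet
        · exact h
      have h6 : y = 0 := by
        rcases mul_eq_zero.1 h4 with h | h
        · exact absurd h hdet
        · exact h
      rw [h5, h6] at hxy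
      norm_num at hxy
    have hs : Real.sin (Real.pi * M t - Real.pi * M' t) = 0 := by
      rw [Real.sin_sub]
      show r * p' - p * r' = 0
      rcases hne with h3 | h3
      · have : (a * x + b * y) * (r * p' - p * r') = 0 := by
          linear_combination p * e2 - p' * e1
        rcases mul_eq_zero.1 this with h | h
        · exact absurd h h3
        · exact h
      · have : (c * x + d * y) * (r * p' - p * r') = 0 := by
          linear_combination r * e2 - r' * e1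
        rcases mul_eq_zero.1 this with h | h
        · exact absurd h h3
        · exact h
    rw [Real.sin_eq_zero_iff] at hs
    obtain ⟨n, hn⟩ := hs
    refine ⟨n, ?_⟩
    have hpi := Real.pi_pos.ne'
    have : (n : ℝ) * Real.pi = (M t - M' t) * Real.pi := by rw [hn]; ring
    exact (mul_right_cancel₀ hpi this).symm
  -- the difference is continuous with integer values
  have hcont : Continuous fun t => M t - M' t := (cont_ap M).sub (cont_ap M')
  obtain ⟨n, hn⟩ := hint 0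
  refine ⟨n, fun t => ?_⟩
  have hconst : M t - M' t = M 0 - M' 0 := by
    by_contra hne
    obtain ⟨k, hk⟩ := hint t
    have hnk : k ≠ n := by
      rintro rfl; exact hne (hk.trans hn.symm)
    -- a non integer value in between
    rcases lt_or_gt_of_ne hnk with hlt | hlt
    · have h1 : ((k : ℝ) + 1) ≤ n := by exact_mod_cast hlt
      have hmem : (n : ℝ) - 1 / 2 ∈ Icc (M t - M' t) (M 0 - M' 0) := by
        rw [hk, hn]; constructor <;> linarith
      obtain ⟨s, hs⟩ := mem_range_of_exists_le_of_exists_ge hcont ⟨t, hmem.1⟩ ⟨0, hmem.2⟩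
      obtain ⟨l, hl⟩ := hint s
      have h2 : (l : ℝ) = n - 1 / 2 := by rw [← hl]; exact hs
      have h3 : ((2 * l : ℤ) : ℝ) = ((2 * n - 1 : ℤ) : ℝ) := by push_cast; linarith
      have h4 : 2 * l = 2 * n - 1 := by exact_mod_cast h3
      omega
    · have h1 : ((n : ℝ) + 1) ≤ k := by exact_mod_cast hlt
      have hmem : (n : ℝ) + 1 / 2 ∈ Icc (M 0 - M' 0) (M t - M' t) := by
        rw [hk, hn]; constructor <;> linarith
      obtain ⟨s, hs⟩ := mem_range_of_exists_le_of_exists_ge hcont ⟨0, hmem.1⟩ ⟨t, hmem.2⟩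
      obtain ⟨l, hl⟩ := hint s
      have h2 : (l : ℝ) = n + 1 / 2 := by rw [← hl]; exact hs
      have h3 : ((2 * l : ℤ) : ℝ) = ((2 * n + 1 : ℤ) : ℝ) := by push_cast; linarith
      have h4 : 2 * l = 2 * n + 1 := by exact_mod_cast h3
      omega
  rw [hn] at hconst
  linarith

/-- The arctangent coordinate of the unit interval. -/
noncomputable def eta (s : ℝ) (hs : 0 < s) : ℝ ≃o Ioo (0 : ℝ) 1 where
  toFun u := ⟨1 / 2 + Real.arctan (u / s) / Real.pi, by
    have h1 := Real.neg_pi_div_two_lt_arctan (u / s)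
    have h2 := Real.arctan_lt_pi_div_two (u / s)
    have hpi := Real.pi_pos
    constructor
    · have : -(1 / 2) < Real.arctan (u / s) / Real.pi := by
        rw [lt_div_iff₀ hpi]; linarith
      linarith
    · have : Real.arctan (u / s) / Real.pi < 1 / 2 := by
        rw [div_lt_iff₀ hpi]; linarith
      linarith⟩
  invFun y := s * Real.tan (Real.pi * ((y : ℝ) - 1 / 2))
  left_inv u := by
    show s * Real.tan (Real.pi * (1 / 2 + Real.arctan (u / s) / Real.pi - 1 / 2)) = u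
    have hpi := Real.pi_pos.ne'
    have e : Real.pi * (1 / 2 + Real.arctan (u / s) / Real.pi - 1 / 2) = Real.arctan (u / s) := by
      field_simp; ring
    rw [e, Real.tan_arctan]
    field_simp
  right_inv y := by
    apply Subtype.ext
    show 1 / 2 + Real.arctan (s * Real.tan (Real.pi * ((y : ℝ) - 1 / 2)) / s) / Real.pi = y
    have hpi := Real.pi_pos
    have e : s * Real.tan (Real.pi * ((y : ℝ) - 1 / 2)) / s =
        Real.tan (Real.pi * ((y : ℝ) - 1 / 2)) := by field_simp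
    have h1 := y.2.1
    have h2 := y.2.2
    rw [e, Real.arctan_tan]
    · field_simp; ring
    · nlinarith
    · nlinarith
  map_rel_iff' := by
    intro x y
    show 1 / 2 + Real.arctan (x / s) / Real.pi ≤ 1 / 2 + Real.arctan (y / s) / Real.pi ↔ x ≤ y
    have hpi := Real.pi_pos
    rw [add_le_add_iff_left, div_le_div_iff_of_pos_right hpi, Real.arctan_le_arctan_iff,
      div_le_div_iff_of_pos_right hs]

theorem eta_apply (s : ℝ) (hs : 0 < s) (u : ℝ) :
    (eta s hs u : ℝ) = 1 / 2 + Real.arctan (u / s) / Real.pi := rfl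

/-! ### The group -/

section grp

variable {Γ : Subgroup E} (ξ : ℝ ≃o Ioo (0 : ℝ) 1)

theorem xi_mem (x : ℝ) : (ξ x : ℝ) ∈ Ioo (0 : ℝ) 1 := (ξ x).2

theorem xi_lt {x y : ℝ} : (ξ x : ℝ) < (ξ y : ℝ) ↔ x < y := ξ.lt_iff_lt

theorem xi_inj {x y : ℝ} (h : (ξ x : ℝ) = (ξ y : ℝ)) : x = y := ξ.injective (Subtype.ext h)

theorem xi_surj {y : ℝ} (h : y ∈ Ioo (0 : ℝ) 1) : ∃ x, (ξ x : ℝ) = y :=
  ⟨ξ.symm ⟨y, h⟩, by rw [OrderIso.apply_symm_apply]⟩

/-- an element of `H` fixing `0` in the coordinate `ξ` -/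
theorem exists_coord {g : E} (hg : g ∈ H) (h0 : g 0 = 0) : ∃ κ : E, ∀ x, g (ξ x) = ξ (κ x) := by
  refine ⟨ξ.trans ((IooMap g h0 (fix_one hg h0)).trans ξ.symm), fun x => ?_⟩
  simp only [OrderIso.trans_apply, OrderIso.apply_symm_apply]
  rfl

/-- The unit translation belongs to `Γ`. -/
theorem T1_mem (hH : Γ ≤ H)
    (htr : ∀ F ∈ Conf 3, ∀ P ∈ Conf 3, ∃ g ∈ Γ, ∀ i, g (F i) = P i)
    (h1 : ∀ g ∈ Γ, g 0 = 0 → ∃ a > 0, ∃ b, ∀ x, g (ξ x) = ξ (a * x + b))
    (h2 : ∀ a > 0, ∀ b, ∃ g ∈ Γ, g 0 = 0 ∧ ∀ x, g (ξ x) = ξ (a * x + b)) : T1 ∈ Γ := by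
  have hq := xi_mem ξ 0
  have hq1 := xi_mem ξ 1
  have hlt : (ξ 0 : ℝ) < ξ 1 := (xi_lt ξ).2 one_pos
  obtain ⟨γ, hγ, hγF⟩ := htr ![0, (ξ 0 : ℝ), (ξ 1 : ℝ)]
    (conf3 hq.1 hlt (by linarith [hq1.2])) ![1, (ξ 0 : ℝ) + 1, (ξ 1 : ℝ) + 1]
    (conf3 (by linarith [hq.1]) (by linarith) (by linarith [hq1.2]))
  have g0 : γ 0 = 1 := hγF 0
  have g1 : γ (ξ 0) = (ξ 0 : ℝ) + 1 := hγF 1
  have g2 : γ (ξ 1) = (ξ 1 : ℝ) + 1 := hγF 2
  set δ : E := T1⁻¹ * γ with hδ
  have hδH : δ ∈ H := H.mul_mem (H.inv_mem T1_mem_H) (hH hγ)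
  have d0 : δ 0 = 0 := by rw [hδ, mul_ap, g0, T1_inv_ap]; ring
  have d1 : δ (ξ 0) = ξ 0 := by rw [hδ, mul_ap, g1, T1_inv_ap]; ring
  have d2 : δ (ξ 1) = ξ 1 := by rw [hδ, mul_ap, g2, T1_inv_ap]; ring
  obtain ⟨κ, hκ⟩ := exists_coord ξ hδH d0
  have k0 : κ 0 = 0 := xi_inj ξ (by rw [← hκ, d1])
  have k1 : κ 1 = 1 := xi_inj ξ (by rw [← hκ, d2])
  -- additivity
  have hadd : ∀ t x, κ (x + t) = κ x + κ t := by
    intro t
    obtain ⟨g, hg, hg0, hgt⟩ := h2 1 one_pos t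
    -- `δ g δ⁻¹ ∈ Γ`
    have hconj : δ * g * δ⁻¹ = γ * g * γ⁻¹ := by
      have hc : T1 * (γ * g * γ⁻¹) = (γ * g * γ⁻¹) * T1 :=
        T1_comm (H.mul_mem (H.mul_mem (hH hγ) (hH hg)) (H.inv_mem (hH hγ)))
      have : δ * g * δ⁻¹ = T1⁻¹ * (γ * g * γ⁻¹) * T1 := by rw [hδ]; group
      rw [this, mul_assoc, ← hc, ← mul_assoc, inv_mul_cancel, one_mul]
    have hmem : δ * g * δ⁻¹ ∈ Γ := by
      rw [hconj]; exact Γ.mul_mem (Γ.mul_mem hγ hg) (Γ.inv_mem hγ)
    have hδinv0 : δ⁻¹ 0 = 0 := by rw [inv_eq_iff]; exact d0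
    have hfix : (δ * g * δ⁻¹) 0 = 0 := by rw [mul_ap, mul_ap, hδinv0, hg0, d0]
    obtain ⟨a, ha, b, hab⟩ := h1 _ hmem hfix
    have hrel : ∀ x, κ (x + t) = a * κ x + b := by
      intro x
      have h3 := hab (κ x)
      rw [← hκ, mul_ap, mul_ap, inv_ap, hgt, hκ, one_mul] at h3
      exact xi_inj ξ h3
    have ha1 : a = 1 := by
      by_contra hne
      have hne' : 1 - a ≠ 0 := sub_ne_zero.2 (Ne.symm hne)
      have h4 := hrel (κ⁻¹ (b / (1 - a)))
      rw [ap_inv] at h4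
      have h5 : a * (b / (1 - a)) + b = b / (1 - a) := by field_simp; ring
      rw [h5] at h4
      have h6 : κ⁻¹ (b / (1 - a)) + t = κ⁻¹ (b / (1 - a)) := by
        apply κ.injective; rw [h4, ap_inv]
      have ht : t = 0 := by linarith
      subst ht
      have h7 := hrel 0
      have h8 := hrel 1
      rw [add_zero, k0] at h7
      rw [add_zero, k1] at h8
      apply hne
      linarith
    subst ha1
    have h7 := hrel 0
    rw [zero_add, k0] at h7
    intro x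
    rw [hrel x, h7]
    ring
  have hlin : ∀ x, κ x = x := by
    intro x
    let A : ℝ →+ ℝ := ⟨⟨κ, k0⟩, fun x y => hadd y x⟩
    have hA : Continuous A := cont_ap κ
    have h3 := map_real_smul A hA x 1
    simp only [smul_eq_mul, mul_one] at h3
    have h4 : A x = κ x := rfl
    have h5 : A 1 = κ 1 := rfl
    rw [h4, h5, k1, mul_one] at h3
    exact h3
  have hδ1 : δ = 1 := by
    apply H_ext hδH H.one_mem
    · rw [d0, one_ap]
    · intro x hx
      obtain ⟨u, rfl⟩ := xi_surj ξ hx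
      rw [hκ, hlin, one_ap]
  have : γ = T1 := by
    have h3 : T1 * δ = γ := by rw [hδ]; group
    rw [← h3, hδ1, mul_one]
  rw [← this]; exact hγ

/-- The inversion. -/
theorem exists_w (hH : Γ ≤ H)
    (htr : ∀ F ∈ Conf 3, ∀ P ∈ Conf 3, ∃ g ∈ Γ, ∀ i, g (F i) = P i)
    (h1 : ∀ g ∈ Γ, g 0 = 0 → ∃ a > 0, ∃ b, ∀ x, g (ξ x) = ξ (a * x + b))
    (h2 : ∀ a > 0, ∀ b, ∃ g ∈ Γ, g 0 = 0 ∧ ∀ x, g (ξ x) = ξ (a * x + b)) :
    ∃ w ∈ Γ, ∃ k > 0, w 0 = ξ 0 ∧ w (ξ 0) = 1 ∧ (∀ u > 0, w (ξ u) = (ξ (-k / u) : ℝ) + 1) ∧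
      (∀ u < 0, w (ξ u) = (ξ (-k / u) : ℝ)) := by
  have hq := xi_mem ξ 0
  have hq1 := xi_mem ξ 1
  have hlt : (ξ 0 : ℝ) < ξ 1 := (xi_lt ξ).2 one_pos
  obtain ⟨w, hw, hwF⟩ := htr ![0, (ξ 0 : ℝ), (ξ 1 : ℝ)]
    (conf3 hq.1 hlt (by linarith [hq1.2])) ![(ξ 0 : ℝ), 1, 1 + (ξ 0 : ℝ) / 2]
    (conf3 hq.2 (by linarith [hq.1]) (by linarith [hq.1]))
  have w0 : w 0 = ξ 0 := hwF 0
  have w1 : w (ξ 0) = 1 := hwF 1
  have hwH : w ∈ H := hH hw
  have w2 : w 1 = (ξ 0 : ℝ) + 1 := by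
    have := mem_H.1 hwH 0
    rw [zero_add, w0] at this
    exact this
  have hT : T1 ∈ Γ := T1_mem ξ hH htr h1 h2
  -- the function
  have hfpos : ∀ u, 0 < u → ∃ v < 0, w (ξ u) = (ξ v : ℝ) + 1 := by
    intro u hu
    have h3 : w (ξ 0) < w (ξ u) := w.strictMono ((xi_lt ξ).2 hu)
    have h4 : w (ξ u) < w 1 := w.strictMono (xi_mem ξ u).2
    rw [w1] at h3
    rw [w2] at h4
    obtain ⟨v, hv⟩ := xi_surj ξ (y := w (ξ u) - 1) ⟨by linarith, by linarith [hq.2]⟩
    refine ⟨v, ?_, by rw [hv]; ring⟩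
    rw [← xi_lt ξ, hv]; linarith
  have hfneg : ∀ u, u < 0 → ∃ v > 0, w (ξ u) = (ξ v : ℝ) := by
    intro u hu
    have h3 : w 0 < w (ξ u) := w.strictMono (xi_mem ξ u).1
    have h4 : w (ξ u) < w (ξ 0) := w.strictMono ((xi_lt ξ).2 hu)
    rw [w0] at h3
    rw [w1] at h4
    obtain ⟨v, hv⟩ := xi_surj ξ (y := w (ξ u)) ⟨by linarith [hq.1], h4⟩
    refine ⟨v, ?_, hv.symm⟩
    rw [gt_iff_lt, ← xi_lt ξ, hv]; exact h3
  choose! fp fp1 fp2 using hfpos
  choose! fn fn1 fn2 using hfneg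
  -- conjugation
  have hconj : ∀ l > 0, ∃ a > 0, (∀ u > 0, fp (l * u) = a * fp u) ∧
      (∀ u < 0, fn (l * u) = a * fn u) := by
    intro l hl
    obtain ⟨g, hg, hg0, hgl⟩ := h2 l hl 0
    have hgl' : ∀ x, g (ξ x) = ξ (l * x) := fun x => by rw [hgl, add_zero]
    have hmem : w * g * w⁻¹ ∈ Γ := Γ.mul_mem (Γ.mul_mem hw hg) (Γ.inv_mem hw)
    have hmH := hH hmem
    have hg00 : g (ξ 0) = ξ 0 := by rw [hgl', mul_zero]
    have f1 : (w * g * w⁻¹) 1 = 1 := by
      rw [mul_ap, mul_ap, ← w1, inv_ap, hg00]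
    have f0 : (w * g * w⁻¹) 0 = 0 := by
      have h3 := H_sub_one hmH 1
      rw [sub_self, f1, sub_self] at h3
      exact h3
    have fq : (w * g * w⁻¹) (ξ 0) = ξ 0 := by
      rw [mul_ap, mul_ap]
      conv_lhs => rw [← w0]
      rw [inv_ap, hg0, w0]
    obtain ⟨a, ha, b, hab⟩ := h1 _ hmem f0
    have hb : b = 0 := by
      have h3 := hab 0
      rw [fq, mul_zero, zero_add] at h3
      exact (xi_inj ξ h3).symm
    subst hb
    refine ⟨a, ha, fun u hu => ?_, fun u hu => ?_⟩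
    · have h3 : (w * g * w⁻¹) (w (ξ u)) = w (ξ (l * u)) := by
        rw [mul_ap, mul_ap, inv_ap, hgl']
      rw [fp2 u hu, fp2 (l * u) (mul_pos hl hu), mem_H.1 hmH, hab, add_zero] at h3
      exact (xi_inj ξ (by linarith)).symm
    · have h3 : (w * g * w⁻¹) (w (ξ u)) = w (ξ (l * u)) := by
        rw [mul_ap, mul_ap, inv_ap, hgl']
      rw [fn2 u hu, fn2 (l * u) (mul_neg_of_pos_of_neg hl hu), hab, add_zero] at h3
      exact (xi_inj ξ h3).symm
  choose! al al0 alp aln using hconj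
  -- monotonicity
  have fp_mono : ∀ u v, 0 < u → u < v → fp u < fp v := by
    intro u v hu huv
    have h3 : w (ξ u) < w (ξ v) := w.strictMono ((xi_lt ξ).2 huv)
    rw [fp2 u hu, fp2 v (hu.trans huv)] at h3
    rw [← xi_lt ξ]; linarith
  have al_one_lt : ∀ l, 1 < l → al l < 1 := by
    intro l hl
    have h3 := alp l (by linarith) 1 one_pos
    have h4 := fp_mono 1 l one_pos hl
    have h5 := fp1 1 one_pos
    rw [mul_one] at h3
    rw [h3] at h4
    by_contra hcon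
    push Not at hcon
    nlinarith
  have al_lt_one : ∀ l, 0 < l → l < 1 → 1 < al l := by
    intro l hl hl1
    have h3 := alp l hl 1 one_pos
    have h4 := fp_mono l 1 hl hl1
    have h5 := fp1 1 one_pos
    rw [mul_one] at h3
    rw [h3] at h4
    by_contra hcon
    push Not at hcon
    nlinarith
  have al_fix : ∀ l > 0, al l = l → l = 1 := by
    intro l hl hll
    rcases lt_trichotomy l 1 with h | h | h
    · have := al_lt_one l hl h; linarith
    · exact h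
    · have := al_one_lt l h; linarith
  -- the square
  have hsq : T1⁻¹ * (w * w) ∈ Γ := Γ.mul_mem (Γ.inv_mem hT) (Γ.mul_mem hw hw)
  have s0 : (T1⁻¹ * (w * w)) 0 = 0 := by
    rw [mul_ap, mul_ap, w0, w1, T1_inv_ap]; ring
  have sq' : (T1⁻¹ * (w * w)) (ξ 0) = ξ 0 := by
    rw [mul_ap, mul_ap, w1, w2, T1_inv_ap]; ring
  obtain ⟨c, hc, b, hcb⟩ := h1 _ hsq s0
  have hb : b = 0 := by
    have h3 := hcb 0
    rw [sq', mul_zero, zero_add] at h3
    exact (xi_inj ξ h3).symm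
  subst hb
  have hww : ∀ x, w (w (ξ x)) = (ξ (c * x) : ℝ) + 1 := by
    intro x
    have h3 := hcb x
    rw [mul_ap, mul_ap, T1_inv_ap, add_zero] at h3
    linarith
  -- `c = 1`
  have hc1 : c = 1 := by
    apply al_fix c hc
    -- `w` commutes with `T1⁻¹ w²`
    have h3 : w (w (w (ξ (-1)))) = w (w (ξ (fn (-1)))) := by rw [fn2 (-1) (by norm_num)]
    rw [hww, hww, mem_H.1 hwH] at h3
    rw [fn2 (c * -1) (by linarith), aln c hc (-1) (by norm_num)] at h3
    have h4 : al c * fn (-1) = c * fn (-1) := xi_inj ξ (by linarith)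
    exact mul_right_cancel₀ (fn1 (-1) (by norm_num)).ne' h4
  subst hc1
  -- `f ∘ f = id`
  have ffp : ∀ u > 0, fn (fp u) = u := by
    intro u hu
    have h3 := hww u
    rw [fp2 u hu, mem_H.1 hwH, fn2 _ (fp1 u hu), one_mul] at h3
    exact xi_inj ξ (by linarith)
  -- `al` is an involution
  have fpal : ∀ u > 0, fp u = al u * fp 1 := by
    intro u hu
    have := alp u hu 1 one_pos
    rwa [mul_one] at this
  have al_al : ∀ u > 0, al (al u) = u := by
    intro u hu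
    have h3 := ffp u hu
    rw [fpal u hu, aln _ (al0 u hu) _ (fp1 1 one_pos), ffp 1 one_pos, mul_one] at h3
    exact h3
  have al_mul : ∀ l > 0, ∀ m > 0, al (l * m) = al l * al m := by
    intro l hl m hm
    have h3 := alp l hl m hm
    rw [fpal _ (mul_pos hl hm), fpal m hm, ← mul_assoc] at h3
    exact mul_right_cancel₀ (fp1 1 one_pos).ne h3
  have al_inv : ∀ l > 0, al l = 1 / l := by
    intro l hl
    have hpos : 0 < l * al l := mul_pos hl (al0 l hl)
    have h3 : al (l * al l) = l * al l := by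
      rw [al_mul l hl (al l) (al0 l hl), al_al l hl]; ring
    have h4 := al_fix _ hpos h3
    field_simp
    linarith
  refine ⟨w, hw, -fp 1, by have := fp1 1 one_pos; linarith, w0, w1, fun u hu => ?_, fun u hu => ?_⟩
  · rw [fp2 u hu, fpal u hu, al_inv u hu, neg_neg]
    have : 1 / u * fp 1 = fp 1 / u := by ring
    rw [this]
  · rw [fn2 u hu, neg_neg]
    -- `u = al _ * fp 1`
    have hp1 := fp1 1 one_pos
    have hl : 0 < u / fp 1 := div_pos_of_neg_of_neg hu hp1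
    have h3 := aln (u / fp 1) hl (fp 1) hp1
    rw [div_mul_cancel₀ _ hp1.ne, ffp 1 one_pos, mul_one, al_inv _ hl, one_div, inv_div] at h3
    rw [h3]

end grp

/-- the coordinate change on the unit interval -/
noncomputable def theta (ξ : ℝ ≃o Ioo (0 : ℝ) 1) (s : ℝ) (hs : 0 < s) :
    Ioo (0 : ℝ) 1 ≃o Ioo (0 : ℝ) 1 := ξ.symm.trans (eta s hs)

theorem Phi_xi (ξ : ℝ ≃o Ioo (0 : ℝ) 1) (s : ℝ) (hs : 0 < s) (u : ℝ) :
    ext (theta ξ s hs) (ξ u) = 1 / 2 + Real.arctan (u / s) / Real.pi := by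
  rw [ext_of_mem _ (xi_mem ξ u)]
  unfold theta
  rw [OrderIso.trans_apply]
  have : ξ.symm ⟨(ξ u : ℝ), xi_mem ξ u⟩ = u := ξ.symm_apply_apply u
  rw [this]
  rfl

/-- the affine elements are projective -/
theorem proj_affine (ξ : ℝ ≃o Ioo (0 : ℝ) 1) {s : ℝ} (hs : 0 < s) {g : E} (hg : g ∈ H)
    (g0 : g 0 = 0) {a b : ℝ} (h : ∀ x, g (ξ x) = ξ (a * x + b)) :
    Proj a (-(b / s)) 0 1 (ext (theta ξ s hs) * g * (ext (theta ξ s hs))⁻¹) := by
  set Φ := ext (theta ξ s hs) with hΦ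
  have hΦH : Φ ∈ H := ext_mem_H _
  have hΦ0 : Φ 0 = 0 := ext_zero _
  have hΦi0 : Φ⁻¹ 0 = 0 := by rw [inv_eq_iff]; exact hΦ0
  have hM0 : (Φ * g * Φ⁻¹) 0 = 0 := by rw [mul_ap, mul_ap, hΦi0, g0, hΦ0]
  apply proj_of_fund (H.mul_mem (H.mul_mem hΦH hg) (H.inv_mem hΦH))
  · rw [hM0]; simp
  · intro t ht
    -- `t = Φ (ξ x)`
    obtain ⟨x, hx⟩ : ∃ x, Φ (ξ x) = t := by
      have h1 : Φ⁻¹ t ∈ Ioo (0 : ℝ) 1 := by
        constructor
        · rw [lt_inv_iff, hΦ0]; exact ht.1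
        · rw [inv_lt_iff, fix_one hΦH hΦ0]; exact ht.2
      obtain ⟨x, hx⟩ := xi_surj ξ h1
      exact ⟨x, by rw [hx, ap_inv]⟩
    have hM : (Φ * g * Φ⁻¹) t = 1 / 2 + Real.arctan ((a * x + b) / s) / Real.pi := by
      rw [mul_ap, mul_ap, ← hx, inv_ap, h, hΦ, Phi_xi]
    rw [hM, ← hx, hΦ, Phi_xi]
    have hpi := Real.pi_pos.ne'
    have e1 : ∀ y : ℝ, Real.pi * (1 / 2 + Real.arctan y / Real.pi) =
        Real.arctan y + Real.pi / 2 := by
      intro y; field_simp; ring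
    rw [e1, e1, Real.cos_add_pi_div_two, Real.cos_add_pi_div_two, Real.sin_add_pi_div_two,
      Real.sin_add_pi_div_two]
    have c1 := Real.cos_arctan_pos (x / s)
    have c2 := Real.cos_arctan_pos ((a * x + b) / s)
    have t1 : Real.sin (Real.arctan (x / s)) = x / s * Real.cos (Real.arctan (x / s)) := by
      have := Real.tan_arctan (x / s)
      rw [Real.tan_eq_sin_div_cos, div_eq_iff c1.ne'] at this
      exact this
    have t2 : Real.sin (Real.arctan ((a * x + b) / s)) =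
        (a * x + b) / s * Real.cos (Real.arctan ((a * x + b) / s)) := by
      have := Real.tan_arctan ((a * x + b) / s)
      rw [Real.tan_eq_sin_div_cos, div_eq_iff c2.ne'] at this
      exact this
    rw [t1, t2]
    have hs' := hs.ne'
    field_simp
    ring

/-- the inversion becomes the half turn -/
theorem w_half (ξ : ℝ ≃o Ioo (0 : ℝ) 1) {k : ℝ} (hk : 0 < k) {w : E} (hw : w ∈ H)
    (w0 : w 0 = ξ 0) (w1 : w (ξ 0) = 1) (hp : ∀ u > 0, w (ξ u) = (ξ (-k / u) : ℝ) + 1)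
    (hn : ∀ u < 0, w (ξ u) = (ξ (-k / u) : ℝ)) (x : ℝ) :
    ext (theta ξ (Real.sqrt k) (Real.sqrt_pos.2 hk)) (w x) =
      ext (theta ξ (Real.sqrt k) (Real.sqrt_pos.2 hk)) x + 1 / 2 := by
  have hs := Real.sqrt_pos.2 hk
  set s := Real.sqrt k with hsdef
  have hss : s * s = k := Real.mul_self_sqrt hk.le
  set Φ := ext (theta ξ s hs) with hΦ
  have hΦH : Φ ∈ H := ext_mem_H _
  have hΦ0 : Φ 0 = 0 := ext_zero _
  have hpi := Real.pi_pos.ne'
  -- reduce to the fundamental domain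
  have hx : x = Int.fract x + (⌊x⌋ : ℝ) := (Int.fract_add_floor x).symm
  suffices hmain : ∀ y ∈ Ico (0 : ℝ) 1, Φ (w y) = Φ y + 1 / 2 by
    rw [hx, H_add_int hw, H_add_int hΦH, H_add_int hΦH, hmain _ (fract_mem x)]
    ring
  intro y hy
  rcases hy.1.eq_or_lt with h | h
  · rw [← h, w0, hΦ0, hΦ, Phi_xi]; simp
  · obtain ⟨u, rfl⟩ := xi_surj ξ ⟨h, hy.2⟩
    rcases lt_trichotomy u 0 with hu | hu | hu
    · rw [hn u hu, hΦ, Phi_xi, Phi_xi]
      have e1 : -k / u / s = (-(u / s))⁻¹ := by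
        have hu' := hu.ne
        have hs' := hs.ne'
        field_simp
        nlinarith
      have hneg : u / s < 0 := div_neg_of_neg_of_pos hu hs
      rw [e1, Real.arctan_inv_of_pos (by linarith), Real.arctan_neg]
      field_simp
      ring
    · rw [hu, w1, hΦ, Phi_xi]
      have := fix_one hΦH hΦ0
      rw [hΦ] at this
      rw [this]
      simp
      norm_num
    · rw [hp u hu, mem_H.1 hΦH, hΦ, Phi_xi, Phi_xi]
      have e1 : -k / u / s = -(u / s)⁻¹ := by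
        have hu' := hu.ne'
        have hs' := hs.ne'
        field_simp
        nlinarith
      have hpos : 0 < u / s := div_pos hu hs
      rw [e1, Real.arctan_neg, Real.arctan_inv_of_pos hpos]
      field_simp
      ring

/-- the half turn is projective -/
theorem proj_half {M : E} (hM : ∀ t, M t = t + 1 / 2) : Proj 0 1 (-1) 0 M := by
  intro t
  have : Real.pi * M t = Real.pi * t + Real.pi / 2 := by rw [hM]; ring
  rw [this, Real.cos_add_pi_div_two, Real.sin_add_pi_div_two]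
  ring

end Psl

open Psl in
theorem psl2_model {Γ : Subgroup E} (hH : Γ ≤ H)
    (htr : ∀ F ∈ Conf 3, ∀ P ∈ Conf 3, ∃ g ∈ Γ, ∀ i, g (F i) = P i)
    (hfix : ∀ F ∈ Conf 3, ∀ g ∈ Γ, (∀ i, g (F i) = F i) → g = 1)
    (ξ : ℝ ≃o Ioo (0 : ℝ) 1)
    (h1 : ∀ g ∈ Γ, g 0 = 0 → ∃ a > 0, ∃ b, ∀ x, g (ξ x) = ξ (a * x + b))
    (h2 : ∀ a > 0, ∀ b, ∃ g ∈ Γ, g 0 = 0 ∧ ∀ x, g (ξ x) = ξ (a * x + b)) :
    ∃ Φ ∈ H, (∀ g : E, g ∈ Γ ↔ (g ∈ H ∧ ∃ a b c d : ℝ, a * d - b * c = 1 ∧
        Proj a b c d (Φ * g * Φ⁻¹))) ∧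
      (∀ a b c d : ℝ, a * d - b * c = 1 → ∃ g ∈ Γ, Proj a b c d (Φ * g * Φ⁻¹)) := by
  obtain ⟨w, hw, k, hk, w0, w1, hp, hn⟩ := exists_w ξ hH htr h1 h2
  have hT : T1 ∈ Γ := T1_mem ξ hH htr h1 h2
  have hs := Real.sqrt_pos.2 hk
  set s := Real.sqrt k with hsdef
  set Φ := Psl.ext (theta ξ s hs) with hΦ
  have hΦH : Φ ∈ H := ext_mem_H _
  have hΦ0 : Φ 0 = 0 := ext_zero _
  have hwhalf : ∀ x, Φ (w x) = Φ x + 1 / 2 := w_half ξ hk (hH hw) w0 w1 hp hn
  have hPw : Proj 0 1 (-1) 0 (Φ * w * Φ⁻¹) := by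
    apply proj_half
    intro t
    rw [mul_ap, mul_ap, hwhalf, ap_inv]
  have hPmul : ∀ (g g' : E) {a b c d a' b' c' d' : ℝ}, Proj a b c d (Φ * g * Φ⁻¹) →
      Proj a' b' c' d' (Φ * g' * Φ⁻¹) →
      Proj (a * a' + b * c') (a * b' + b * d') (c * a' + d * c') (c * b' + d * d')
        (Φ * (g * g') * Φ⁻¹) := by
    intro g g' a b c d a' b' c' d' h h'
    have e : Φ * (g * g') * Φ⁻¹ = (Φ * g * Φ⁻¹) * (Φ * g' * Φ⁻¹) := by group
    rw [e]; exact proj_mul h h'
  -- realisation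
  have hreal : ∀ a b c d : ℝ, a * d - b * c = 1 → ∃ g ∈ Γ, Proj a b c d (Φ * g * Φ⁻¹) := by
    intro a b c d hdet
    by_cases hc : c = 0
    · subst hc
      have had : a * d = 1 := by linarith
      have ha : a ≠ 0 := by rintro rfl; simp at had
      obtain ⟨g, hg, g0, hgx⟩ := h2 (a ^ 2) (by positivity) (-(a * b) * s)
      refine ⟨g, hg, ?_⟩
      have h3 := proj_smul (proj_affine ξ hs (hH hg) g0 hgx) (1 / a)
      have e1 : 1 / a * a ^ 2 = a := by field_simp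
      have e2 : 1 / a * -(-(a * b) * s / s) = b := by field_simp
      have e3 : 1 / a * 1 = d := by field_simp; linarith
      rw [e1, e2, mul_zero, e3] at h3
      exact h3
    · obtain ⟨g₁, hg₁, g₁0, hg₁x⟩ := h2 1 one_pos (-(a / c) * s)
      obtain ⟨g₂, hg₂, g₂0, hg₂x⟩ := h2 (c ^ 2) (by positivity) 0
      obtain ⟨g₃, hg₃, g₃0, hg₃x⟩ := h2 1 one_pos (-(d / c) * s)
      refine ⟨g₁ * (w * (g₂ * g₃)), Γ.mul_mem hg₁ (Γ.mul_mem hw (Γ.mul_mem hg₂ hg₃)), ?_⟩
      have p1 := proj_affine ξ hs (hH hg₁) g₁0 hg₁x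
      have p2 := proj_affine ξ hs (hH hg₂) g₂0 hg₂x
      have p3 := proj_affine ξ hs (hH hg₃) g₃0 hg₃x
      have h3 := proj_smul (hPmul _ _ p1 (hPmul _ _ hPw (hPmul _ _ p2 p3))) (-(1 / c))
      have hs' := hs.ne'
      have es : ∀ y : ℝ, -(-y * s / s) = y := fun y => by field_simp
      rw [es, es, zero_div, neg_zero] at h3
      have hb : b = (a * d - 1) / c := by field_simp; linarith
      convert h3 using 1
      · field_simp; ring
      · rw [hb]; field_simp; ring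
      · field_simp; ring
      · field_simp; ring
  refine ⟨Φ, hΦH, fun g => ⟨fun hg => ⟨hH hg, ?_⟩, ?_⟩, hreal⟩
  · -- decomposition
    have hgood : ∃ a b c d : ℝ, 0 < a * d - b * c ∧ Proj a b c d (Φ * g * Φ⁻¹) := by
      set n := ⌊g 0⌋ with hn'
      have hfr : g 0 = Int.fract (g 0) + (n : ℝ) := (Int.fract_add_floor (g 0)).symm
      -- the translate
      set g' : E := T1 ^ (-n) * g with hg'
      have hg'Γ : g' ∈ Γ := Γ.mul_mem (Γ.zpow_mem hT _) hg
      have hg'0 : g' 0 = Int.fract (g 0) := by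
        rw [hg', mul_ap, T1_zpow_ap]
        push_cast
        linarith
      have hback : ∀ t, (Φ * g * Φ⁻¹) t = (Φ * g' * Φ⁻¹) t + n := by
        intro t
        simp only [hg', mul_ap]
        rw [T1_zpow_ap, H_add_int hΦH]
        push_cast
        ring
      suffices hgood' : ∃ a b c d : ℝ, 0 < a * d - b * c ∧ Proj a b c d (Φ * g' * Φ⁻¹) by
        obtain ⟨a, b, c, d, h3, h4⟩ := hgood'
        exact ⟨a, b, c, d, h3, proj_shift h4 n hback⟩
      rcases (Int.fract_nonneg (g 0)).eq_or_lt with hz | hz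
      · rw [← hz] at hg'0
        obtain ⟨a, ha, b, hab⟩ := h1 g' hg'Γ hg'0
        exact ⟨a, -(b / s), 0, 1, by linarith, proj_affine ξ hs (hH hg'Γ) hg'0 hab⟩
      · obtain ⟨u, hu⟩ := xi_surj ξ ⟨hz, Int.fract_lt_one (g 0)⟩
        obtain ⟨h, hh, hh0, hhx⟩ := h2 1 one_pos u
        have hhw : (h * w) 0 = g' 0 := by
          rw [mul_ap, w0, hhx, mul_zero, zero_add, hu, hg'0]
        set l : E := (h * w)⁻¹ * g' with hl
        have hlΓ : l ∈ Γ := Γ.mul_mem (Γ.inv_mem (Γ.mul_mem hh hw)) hg'Γ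
        have hl0 : l 0 = 0 := by rw [hl, mul_ap, inv_eq_iff, hhw]
        obtain ⟨a, ha, b, hab⟩ := h1 l hlΓ hl0
        have e : g' = h * (w * l) := by rw [hl]; group
        rw [e]
        have p1 := proj_affine ξ hs (hH hh) hh0 hhx
        have p2 := proj_affine ξ hs (hH hlΓ) hl0 hab
        refine ⟨_, _, _, _, ?_, hPmul _ _ p1 (hPmul _ _ hPw p2)⟩
        ring_nf
        exact ha
    obtain ⟨a, b, c, d, hpos, hP⟩ := hgood
    have hr := Real.sqrt_pos.2 hpos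
    refine ⟨_, _, _, _, ?_, proj_smul hP (1 / Real.sqrt (a * d - b * c))⟩
    have hsq := Real.mul_self_sqrt hpos.le
    have hr' := hr.ne'
    field_simp
    nlinarith
  · rintro ⟨hgH, a, b, c, d, hdet, hP⟩
    obtain ⟨g', hg', hP'⟩ := hreal a b c d hdet
    obtain ⟨n, hn'⟩ := proj_unique (by rw [hdet]; exact one_ne_zero) hP hP'
    have e : g = T1 ^ n * g' := by
      apply ext_ap
      intro x
      have h3 := hn' (Φ x)
      simp only [mul_ap, inv_ap] at h3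
      rw [← H_add_int hΦH] at h3
      have h4 := Φ.injective h3
      rw [h4, mul_ap, T1_zpow_ap]
    rw [e]
    exact Γ.mul_mem (Γ.zpow_mem hT _) hg'

end Pool.Agent.Circ
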