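import Pool.Agent.Circ.MainOf
import Pool.Agent.Circ.Patterns
import Pool.Agent.Circ.Psl
import Pool.Agent.Circ.H71Excl4

/-!
Theorem B and the main theorem at the level of the line.
-/

set_option autoImplicit false

open Set Filter Topology

namespace Pool.Agent.Circ

theorem theoremB {Γ : Subgroup E} (hH : Γ ≤ H) (hcl : IsClosed (Γ : Set E)) (htr : Trans Γ)
    (hCB : CB Γ) (hne : Γ ≠ H) : IsPSL Γ := by
  obtain ⟨m, r, h⟩ := patterns_dichotomy hH hcl htr (microtrans hH hcl htr) hCB hne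
  obtain rfl : m = 3 := m_eq_three h
  obtain ⟨ξ, h1, h2⟩ := stab_affine h
  exact psl2_model hH
    (fun F hF P hP => conf_trans h (j := 3) le_rfl hF hP)
    (fun F hF g hg hfix => fix_triple h hF hg hfix) ξ h1 h2

theorem mainE {Γ : Subgroup E} (hH : Γ ≤ H) (hcl : IsClosed (Γ : Set E)) (htr : Trans Γ)
    (hT : T1 ∈ Γ) (_hne : Γ ≠ H) :
    (∃ h ∈ H, ∀ g : E, g ∈ Γ ↔ ∃ t : ℝ, ∀ x, h⁻¹ (g (h x)) = x + t) ∨
    ∃ k : ℕ, 0 < k ∧ ∃ ψ : E, (∀ x, ψ (x + k) = ψ x + 1) ∧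
      ((∀ g : E, g ∈ Γ ↔ ψ⁻¹ * g * ψ ∈ H) ∨
       ((∀ g : E, g ∈ Γ ↔ (ψ⁻¹ * g * ψ ∈ H ∧ ∃ a b c d : ℝ, a * d - b * c = 1 ∧
          Proj a b c d (ψ⁻¹ * g * ψ))) ∧
        (∀ a b c d : ℝ, a * d - b * c = 1 → ∃ g ∈ Γ, Proj a b c d (ψ⁻¹ * g * ψ)))) :=
  mainE_of (fun _ h1 h2 h3 h4 h5 => theoremB h1 h2 h3 h4 h5) hH hcl htr hT

end Pool.Agent.Circ
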