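import Pool.Agent.Circ.Basic

/-!
# Module A of MP_348654_gt: microtransitivity (Effros; Ancel's back and forth argument)

A subgroup `Γ` of `H`, closed in `E` and transitive on the line, is microtransitive: for `U` a
neighbourhood of `1` the set `(U ∩ Γ) x` is a neighbourhood of `x`.
-/

set_option autoImplicit false

open Set Filter Topology Metric

namespace Pool.Agent.Circ

namespace Micro

section general

variable {G X : Type*} [MetricSpace G] [MetricSpace X]

/-- One step of the back and forth. -/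
theorem step {f₁ f₂ : G → X} (hf₁ : Continuous f₁)
    (ha₁ : ∀ g r, 0 < r → f₁ g ∈ interior (closure (f₁ '' ball g r)))
    (ha₂ : ∀ g r, 0 < r → f₂ g ∈ interior (closure (f₂ '' ball g r)))
    {a b : G} {r : ℝ} (hr : 0 < r)
    (hne : (interior (closure (f₁ '' ball a r)) ∩ interior (closure (f₂ '' ball b r))).Nonempty) :
    ∃ (a' b' : G) (r' : ℝ), dist a a' ≤ r ∧ dist b b' ≤ r ∧ 0 < r' ∧ r' ≤ r / 2 ∧
      dist (f₁ a') (f₂ b') ≤ r ∧
      (interior (closure (f₁ '' ball a' r')) ∩ interior (closure (f₂ '' ball b' r'))).Nonempty := by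
  obtain ⟨w, hw⟩ := hne
  have hWo : IsOpen (interior (closure (f₁ '' ball a r)) ∩ interior (closure (f₂ '' ball b r))) :=
    isOpen_interior.inter isOpen_interior
  obtain ⟨_, hW1, ⟨a', ha', rfl⟩⟩ := mem_closure_iff.1 (interior_subset hw.1) _ hWo hw
  obtain ⟨s, hs, hs'⟩ := Metric.continuous_iff.1 hf₁ a' r hr
  set r' := min s (r / 2) with hr'
  have hr'0 : 0 < r' := lt_min hs (by linarith)
  have h1 : f₁ a' ∈ interior (closure (f₁ '' ball a' r')) ∩ interior (closure (f₂ '' ball b r)) :=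
    ⟨ha₁ a' r' hr'0, hW1.2⟩
  have hWo' : IsOpen (interior (closure (f₁ '' ball a' r')) ∩
      interior (closure (f₂ '' ball b r))) := isOpen_interior.inter isOpen_interior
  obtain ⟨_, hW2, ⟨b', hb', rfl⟩⟩ := mem_closure_iff.1 (interior_subset h1.2) _ hWo' h1
  refine ⟨a', b', r', ?_, ?_, hr'0, min_le_right _ _, ?_, ⟨f₂ b', hW2.1, ha₂ b' r' hr'0⟩⟩
  · rw [dist_comm]; exact (mem_ball.1 ha').le
  · rw [dist_comm]; exact (mem_ball.1 hb').le
  · have h2 : closure (f₁ '' ball a' r') ⊆ closedBall (f₁ a') r := by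
      apply closure_minimal _ isClosed_closedBall
      rintro _ ⟨c, hc, rfl⟩
      exact (hs' c (lt_of_lt_of_le (mem_ball.1 hc) (min_le_left _ _))).le
    have h3 := h2 (interior_subset hW2.1)
    rw [mem_closedBall, dist_comm] at h3
    exact h3

/-- Two almost open continuous maps from a complete metric space whose almost images meet have a
common value. -/
theorem common_value [CompleteSpace G] {f₁ f₂ : G → X} (hf₁ : Continuous f₁) (hf₂ : Continuous f₂)
    (ha₁ : ∀ g r, 0 < r → f₁ g ∈ interior (closure (f₁ '' ball g r)))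
    (ha₂ : ∀ g r, 0 < r → f₂ g ∈ interior (closure (f₂ '' ball g r)))
    {a b : G} {r : ℝ} (hr : 0 < r)
    (hne : (interior (closure (f₁ '' ball a r)) ∩ interior (closure (f₂ '' ball b r))).Nonempty) :
    ∃ g₁ g₂ : G, dist a g₁ ≤ 2 * r ∧ dist b g₂ ≤ 2 * r ∧ f₁ g₁ = f₂ g₂ := by
  classical
  let S := {s : G × G × ℝ // 0 < s.2.2 ∧ (interior (closure (f₁ '' ball s.1 s.2.2)) ∩
    interior (closure (f₂ '' ball s.2.1 s.2.2))).Nonempty}
  have hstep : ∀ s : S, ∃ t : S, dist s.1.1 t.1.1 ≤ s.1.2.2 ∧ dist s.1.2.1 t.1.2.1 ≤ s.1.2.2 ∧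
      t.1.2.2 ≤ s.1.2.2 / 2 ∧ dist (f₁ t.1.1) (f₂ t.1.2.1) ≤ s.1.2.2 := by
    rintro ⟨⟨a, b, r⟩, hr, hne⟩
    obtain ⟨a', b', r', h1, h2, h3, h4, h5, h6⟩ := step hf₁ ha₁ ha₂ hr hne
    exact ⟨⟨(a', b', r'), h3, h6⟩, h1, h2, h4, h5⟩
  choose nxt hn1 hn2 hn3 hn4 using hstep
  let s : ℕ → S := fun n => Nat.rec ⟨(a, b, r), hr, hne⟩ (fun _ t => nxt t) n
  have hs0 : (s 0).1 = (a, b, r) := rfl
  have hss : ∀ n, s (n + 1) = nxt (s n) := fun n => rfl
  have hrad : ∀ n, (s n).1.2.2 ≤ r * (1 / 2) ^ n := by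
    intro n
    induction n with
    | zero => simp [hs0]
    | succ n ih =>
      rw [hss, pow_succ]
      have := hn3 (s n)
      linarith
  have hd1 : ∀ n, dist ((s n).1.1) ((s (n + 1)).1.1) ≤ r * (1 / 2) ^ n := fun n =>
    (hn1 (s n)).trans (hrad n)
  have hd2 : ∀ n, dist ((s n).1.2.1) ((s (n + 1)).1.2.1) ≤ r * (1 / 2) ^ n := fun n =>
    (hn2 (s n)).trans (hrad n)
  have hlt : (1 / 2 : ℝ) < 1 := by norm_num
  have hc1 : CauchySeq fun n => (s n).1.1 := cauchySeq_of_le_geometric (1 / 2) r hlt hd1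
  have hc2 : CauchySeq fun n => (s n).1.2.1 := cauchySeq_of_le_geometric (1 / 2) r hlt hd2
  obtain ⟨g₁, hg₁⟩ := cauchySeq_tendsto_of_complete hc1
  obtain ⟨g₂, hg₂⟩ := cauchySeq_tendsto_of_complete hc2
  refine ⟨g₁, g₂, ?_, ?_, ?_⟩
  · have := dist_le_of_le_geometric_of_tendsto₀ (1 / 2) r hlt hd1 hg₁
    rw [hs0] at this
    calc dist a g₁ ≤ r / (1 - 1 / 2) := this
      _ = 2 * r := by ring
  · have := dist_le_of_le_geometric_of_tendsto₀ (1 / 2) r hlt hd2 hg₂
    rw [hs0] at this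
    calc dist b g₂ ≤ r / (1 - 1 / 2) := this
      _ = 2 * r := by ring
  · have t1 : Tendsto (fun n => dist (f₁ (s (n + 1)).1.1) (f₂ (s (n + 1)).1.2.1)) atTop
        (𝓝 (dist (f₁ g₁) (f₂ g₂))) := by
      have h1 : Tendsto (fun n => dist (f₁ (s n).1.1) (f₂ (s n).1.2.1)) atTop
        (𝓝 (dist (f₁ g₁) (f₂ g₂))) :=
        ((hf₁.tendsto g₁).comp hg₁).dist ((hf₂.tendsto g₂).comp hg₂)
      exact h1.comp (tendsto_add_atTop_nat 1)
    have t2 : Tendsto (fun n : ℕ => r * (1 / 2 : ℝ) ^ n) atTop (𝓝 0) := by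
      have := (tendsto_pow_atTop_nhds_zero_of_lt_one (r := (1 / 2 : ℝ)) (by norm_num) hlt).const_mul r
      simpa using this
    have h0 : dist (f₁ g₁) (f₂ g₂) ≤ 0 :=
      le_of_tendsto_of_tendsto' t1 t2 fun n => (hn4 (s n)).trans (hrad n)
    exact dist_le_zero.1 h0

end general

/-! ### The complete metric -/

/-- maps of degree one -/
def HH := {g : E // g ∈ H}

theorem disp_bound {g : E} (hg : g ∈ H) (x : ℝ) : ‖g x - x‖ ≤ |g 0| + 1 := by
  set y := Int.fract x with hy
  have hx : x = y + (⌊x⌋ : ℝ) := by rw [hy]; exact (Int.fract_add_floor x).symm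
  have h4 : g x - x = g y - y := by
    conv_lhs => rw [hx]
    rw [H_add_int hg]
    ring
  have hy0 : 0 ≤ y := Int.fract_nonneg x
  have hy1 : y < 1 := Int.fract_lt_one x
  have h5 : g 0 ≤ g y := g.monotone hy0
  have h6 : g y ≤ g 1 := g.monotone hy1.le
  have h7 : g 1 = g 0 + 1 := by have := mem_H.1 hg 0; rwa [zero_add] at this
  rw [h4, Real.norm_eq_abs, abs_le]
  have h8 := le_abs_self (g 0)
  have h9 := neg_abs_le (g 0)
  constructor <;> linarith

/-- the displacement as a bounded continuous function -/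
noncomputable def disp (g : E) (hg : g ∈ H) : BoundedContinuousFunction ℝ ℝ :=
  BoundedContinuousFunction.ofNormedAddCommGroup (fun x => g x - x)
    ((cont_ap g).sub continuous_id) (|g 0| + 1) (disp_bound hg)

theorem disp_apply (g : E) (hg : g ∈ H) (x : ℝ) : disp g hg x = g x - x := rfl

/-- the displacements of `g` and its inverse -/
noncomputable def pr (g : HH) : BoundedContinuousFunction ℝ ℝ × BoundedContinuousFunction ℝ ℝ :=
  (disp g.1 g.2, disp g.1⁻¹ (H.inv_mem g.2))

theorem pr_injective : Function.Injective pr := by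
  intro g h hgh
  apply Subtype.ext
  apply ext_ap
  intro x
  have h1 := congrArg (fun q : BoundedContinuousFunction ℝ ℝ × BoundedContinuousFunction ℝ ℝ =>
    q.1 x) hgh
  simp only [pr, disp_apply] at h1
  linarith

noncomputable instance : MetricSpace HH := MetricSpace.induced pr pr_injective inferInstance

theorem isometry_pr : Isometry pr := fun _ _ => rfl

theorem dist_apply_le (g h : HH) (x : ℝ) : |g.1 x - h.1 x| ≤ dist g h := by
  have h1 : dist ((pr g).1 x) ((pr h).1 x) ≤ dist (pr g).1 (pr h).1 :=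
    BoundedContinuousFunction.dist_coe_le_dist x
  have h2 : dist ((pr g).1 x) ((pr h).1 x) = |g.1 x - h.1 x| := by
    rw [Real.dist_eq]
    simp only [pr, disp_apply]
    congr 1
    ring
  rw [h2] at h1
  exact h1.trans (le_max_left _ _)

theorem dist_le_of {g h : HH} {ε : ℝ} (hε : 0 ≤ ε) (h1 : ∀ x, |g.1 x - h.1 x| ≤ ε)
    (h2 : ∀ x, |g.1⁻¹ x - h.1⁻¹ x| ≤ ε) : dist g h ≤ ε := by
  have e : dist g h = max (dist (pr g).1 (pr h).1) (dist (pr g).2 (pr h).2) := rfl
  rw [e]
  apply max_le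
  · rw [BoundedContinuousFunction.dist_le hε]
    intro x
    rw [Real.dist_eq]
    simp only [pr, disp_apply]
    have := h1 x
    rwa [show g.1 x - x - (h.1 x - x) = g.1 x - h.1 x by ring]
  · rw [BoundedContinuousFunction.dist_le hε]
    intro x
    rw [Real.dist_eq]
    simp only [pr, disp_apply]
    have := h2 x
    rwa [show g.1⁻¹ x - x - (h.1⁻¹ x - x) = g.1⁻¹ x - h.1⁻¹ x by ring]

theorem range_pr : range pr = {q | (∀ x, q.1 (x + q.2 x) + q.2 x = 0) ∧
    (∀ x, q.2 (x + q.1 x) + q.1 x = 0) ∧ (∀ x, q.1 (x + 1) = q.1 x) ∧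
    (∀ x y, x ≤ y → x + q.1 x ≤ y + q.1 y) ∧ (∀ x y, x ≤ y → x + q.2 x ≤ y + q.2 y)} := by
  ext q
  constructor
  · rintro ⟨g, rfl⟩
    refine ⟨fun x => ?_, fun x => ?_, fun x => ?_, fun x y hxy => ?_, fun x y hxy => ?_⟩
    · simp only [pr, disp_apply]
      rw [show x + (g.1⁻¹ x - x) = g.1⁻¹ x by ring, ap_inv]
      ring
    · simp only [pr, disp_apply]
      rw [show x + (g.1 x - x) = g.1 x by ring, inv_ap]
      ring
    · simp only [pr, disp_apply]
      rw [mem_H.1 g.2 x]
      ring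
    · simp only [pr, disp_apply]
      have := g.1.monotone hxy
      linarith
    · simp only [pr, disp_apply]
      have := g.1⁻¹.monotone hxy
      linarith
  · rintro ⟨h1, h2, h3, h4, h5⟩
    let g : E :=
      { toFun := fun x => x + q.1 x
        invFun := fun x => x + q.2 x
        left_inv := fun x => by
          show x + q.1 x + q.2 (x + q.1 x) = x
          have := h2 x
          linarith
        right_inv := fun x => by
          show x + q.2 x + q.1 (x + q.2 x) = x
          have := h1 x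
          linarith
        map_rel_iff' := by
          intro x y
          show x + q.1 x ≤ y + q.1 y ↔ x ≤ y
          constructor
          · intro h
            have h6 := h5 _ _ h
            have h7 := h2 x
            have h8 := h2 y
            linarith
          · exact h4 x y }
    have hgH : g ∈ H := by
      rw [mem_H]
      intro x
      show x + 1 + q.1 (x + 1) = x + q.1 x + 1
      rw [h3]
      ring
    refine ⟨⟨g, hgH⟩, ?_⟩
    apply Prod.ext
    · ext x
      show x + q.1 x - x = q.1 x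
      ring
    · ext x
      show x + q.2 x - x = q.2 x
      ring

instance : CompleteSpace HH := by
  rw [completeSpace_iff_isComplete_range isometry_pr.isUniformInducing]
  apply IsClosed.isComplete
  rw [range_pr]
  have e1 : ∀ x : ℝ, Continuous fun q : BoundedContinuousFunction ℝ ℝ ×
      BoundedContinuousFunction ℝ ℝ => q.1 x := fun x =>
    Continuous.eval continuous_fst continuous_const
  have e2 : ∀ x : ℝ, Continuous fun q : BoundedContinuousFunction ℝ ℝ ×
      BoundedContinuousFunction ℝ ℝ => q.2 x := fun x =>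
    Continuous.eval continuous_snd continuous_const
  have e3 : ∀ x : ℝ, Continuous fun q : BoundedContinuousFunction ℝ ℝ ×
      BoundedContinuousFunction ℝ ℝ => q.1 (x + q.2 x) := fun x =>
    Continuous.eval continuous_fst (continuous_const.add (e2 x))
  have e4 : ∀ x : ℝ, Continuous fun q : BoundedContinuousFunction ℝ ℝ ×
      BoundedContinuousFunction ℝ ℝ => q.2 (x + q.1 x) := fun x =>
    Continuous.eval continuous_snd (continuous_const.add (e1 x))
  simp only [ofPred_and, ofPred_forall]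
  refine IsClosed.inter ?_ (IsClosed.inter ?_ (IsClosed.inter ?_ (IsClosed.inter ?_ ?_)))
  · exact isClosed_iInter fun x => isClosed_eq ((e3 x).add (e2 x)) continuous_const
  · exact isClosed_iInter fun x => isClosed_eq ((e4 x).add (e1 x)) continuous_const
  · exact isClosed_iInter fun x => isClosed_eq (e1 (x + 1)) (e1 x)
  · exact isClosed_iInter fun x => isClosed_iInter fun y => isClosed_iInter fun _ =>
      isClosed_le (continuous_const.add (e1 x)) (continuous_const.add (e1 y))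
  · exact isClosed_iInter fun x => isClosed_iInter fun y => isClosed_iInter fun _ =>
      isClosed_le (continuous_const.add (e2 x)) (continuous_const.add (e2 y))

theorem continuous_val : Continuous (fun g : HH => g.1) := by
  rw [continuous_E]
  intro x
  have : LipschitzWith 1 fun g : HH => g.1 x := by
    refine LipschitzWith.of_dist_le_mul fun g h => ?_
    rw [Real.dist_eq]
    simpa using dist_apply_le g h x
  exact this.continuous

/-- the group as a metric space -/
def GG (Γ : Subgroup E) := {g : HH // g.1 ∈ Γ}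

noncomputable instance (Γ : Subgroup E) : MetricSpace (GG Γ) := Subtype.metricSpace

theorem completeSpace_GG {Γ : Subgroup E} (hcl : IsClosed (Γ : Set E)) : CompleteSpace (GG Γ) := by
  have h1 : IsClosed {g : HH | g.1 ∈ Γ} := hcl.preimage continuous_val
  exact h1.completeSpace_coe

variable {Γ : Subgroup E}

/-- element of `GG Γ` from an element of `Γ` -/
def mk (hH : Γ ≤ H) (g : E) (hg : g ∈ Γ) : GG Γ := ⟨⟨g, hH hg⟩, hg⟩

theorem continuous_evG (x : ℝ) : Continuous fun g : GG Γ => g.1.1 x :=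
  (continuous_eval_at x).comp (continuous_val.comp continuous_subtype_val)

/-- neighbourhoods: products `γ u⁻¹ v` are close to `γ` -/
theorem close_mul (hH : Γ ≤ H) (γ : GG Γ) {r : ℝ} (hr : 0 < r) :
    ∃ U : Set E, IsOpen U ∧ (1 : E) ∈ U ∧ ∀ u ∈ U, ∀ v ∈ U, ∀ (hu : u ∈ Γ) (hv : v ∈ Γ),
      mk hH (γ.1.1 * (u⁻¹ * v)) (Γ.mul_mem γ.2 (Γ.mul_mem (Γ.inv_mem hu) hv)) ∈ ball γ r := by
  set g : E := γ.1.1 with hg
  have hgΓ : g ∈ Γ := γ.2
  -- conjugation
  have c1 : Tendsto (fun w : E => g * w * g⁻¹) (𝓝 1) (𝓝 1) := by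
    have h1 : Continuous fun w : E => g * w * g⁻¹ := (continuous_const.mul continuous_id).mul
      continuous_const
    have h2 := h1.tendsto 1
    rwa [mul_one, mul_inv_cancel] at h2
  have c2 : Tendsto (fun q : E × E => q.1⁻¹ * q.2) (𝓝 (1, 1)) (𝓝 1) := by
    have h1 : Continuous fun q : E × E => q.1⁻¹ * q.2 := continuous_fst.inv.mul continuous_snd
    have h2 := h1.tendsto (1, 1)
    rwa [inv_one, mul_one] at h2
  have h1 := c2.eventually (c1.eventually (eventually_small (half_pos hr)))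
  have h2 := c2.eventually (eventually_small (half_pos hr))
  have h3 := h1.and h2
  rw [nhds_prod_eq, Filter.eventually_iff, Filter.mem_prod_self_iff] at h3
  obtain ⟨U₀, hU₀, hsub⟩ := h3
  obtain ⟨U, hUU, hUo, h1U⟩ := _root_.mem_nhds_iff.1 hU₀
  refine ⟨U, hUo, h1U, fun u hu v hv huΓ hvΓ => ?_⟩
  have h4 : (u, v) ∈ U₀ ×ˢ U₀ := mk_mem_prod (hUU hu) (hUU hv)
  obtain ⟨h5, h6⟩ := hsub h4
  have hw : u⁻¹ * v ∈ Γ := Γ.mul_mem (Γ.inv_mem huΓ) hvΓ
  have h7 : Small (r / 2) (g * (u⁻¹ * v) * g⁻¹) :=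
    h5 (hH (Γ.mul_mem (Γ.mul_mem hgΓ hw) (Γ.inv_mem hgΓ)))
  have h8 : Small (r / 2) (u⁻¹ * v) := h6 (hH hw)
  set w : E := u⁻¹ * v with hwdef
  rw [mem_ball]
  refine lt_of_le_of_lt (dist_le_of (ε := r / 2) (by linarith) ?_ ?_) (by linarith)
  · intro x
    have h9 := h7 (g x)
    simp only [mul_ap, inv_ap] at h9
    exact h9.le
  · intro x
    have h9 := h8.inv (g⁻¹ x)
    show |(g * w)⁻¹ x - g⁻¹ x| ≤ r / 2
    rw [mul_inv_rev, mul_ap]
    exact h9.le

/-- density step -/
theorem dense_step (Γ : Subgroup E) : ∃ s : ℕ → (Γ : Set E), ∀ U : Set E, IsOpen U →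
    (1 : E) ∈ U → ∀ h ∈ Γ, ∃ n : ℕ, ((s n : E))⁻¹ * h ∈ U := by
  have : Nonempty (Γ : Set E) := ⟨⟨1, Γ.one_mem⟩⟩
  refine ⟨TopologicalSpace.denseSeq (Γ : Set E), fun U hUo h1U h hh => ?_⟩
  have hc : Continuous fun k : (Γ : Set E) => (k : E)⁻¹ * h :=
    continuous_subtype_val.inv.mul continuous_const
  have ho : IsOpen ((fun k : (Γ : Set E) => (k : E)⁻¹ * h) ⁻¹' U) := hUo.preimage hc
  have hne : ((fun k : (Γ : Set E) => (k : E)⁻¹ * h) ⁻¹' U).Nonempty := ⟨⟨h, hh⟩, by
    show h⁻¹ * h ∈ U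
    rw [inv_mul_cancel]; exact h1U⟩
  obtain ⟨n, hn⟩ := (TopologicalSpace.denseRange_denseSeq (Γ : Set E)).exists_mem_open ho hne
  exact ⟨n, hn⟩

theorem image_closure' (g : E) (S : Set ℝ) : (fun x => g x) '' closure S =
    closure ((fun x => g x) '' S) := g.toHomeomorph.image_closure S

theorem image_interior' (g : E) (S : Set ℝ) : (fun x => g x) '' interior S =
    interior ((fun x => g x) '' S) := g.toHomeomorph.image_interior S

/-- almost openness of the evaluation maps -/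
theorem almost_open (hH : Γ ≤ H) (htr : Trans Γ) (x : ℝ)
    (γ : GG Γ) {r : ℝ} (hr : 0 < r) :
    γ.1.1 x ∈ interior (closure ((fun g : GG Γ => g.1.1 x) '' ball γ r)) := by
  classical
  obtain ⟨U, hUo, h1U, hUV⟩ := close_mul hH γ hr
  obtain ⟨s, hs⟩ := dense_step Γ
  -- the orbit piece
  set A : Set ℝ := {y | ∃ u ∈ U, u ∈ Γ ∧ u x = y} with hA
  -- countably many translates cover
  have hcov : ⋃ n, closure ((fun y => (s n : E) y) '' A) = univ := by
    rw [eq_univ_iff_forall]
    intro p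
    obtain ⟨h, hhΓ, hh⟩ := htr x p
    obtain ⟨n, hn⟩ := hs U hUo h1U h hhΓ
    rw [mem_iUnion]
    refine ⟨n, subset_closure ⟨((s n : E)⁻¹ * h) x, ⟨_, hn,
      Γ.mul_mem (Γ.inv_mem (s n).2) hhΓ, rfl⟩, ?_⟩⟩
    simp [hh]
  obtain ⟨n, hn⟩ := nonempty_interior_of_iUnion_of_closed (fun n => isClosed_closure) hcov
  -- hence `closure A` has non-empty interior
  have hAint : (interior (closure A)).Nonempty := by
    rw [← image_closure', ← image_interior'] at hn
    exact hn.of_image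
  obtain ⟨w, hw⟩ := hAint
  obtain ⟨_, hW1, ⟨u, hu, huΓ, rfl⟩⟩ := mem_closure_iff.1 (interior_subset hw) _ isOpen_interior hw
  have key : γ.1.1 x ∈ (fun y => (γ.1.1 * u⁻¹ : E) y) '' interior (closure A) := by
    refine ⟨u x, hW1, ?_⟩
    simp
  rw [image_interior', image_closure'] at key
  refine interior_mono (closure_mono ?_) key
  rintro _ ⟨_, ⟨v, hv, hvΓ, rfl⟩, rfl⟩
  exact ⟨_, hUV u hu v hv huΓ hvΓ, rfl⟩

end Micro

open Micro in
theorem microtrans {Γ : Subgroup E} (hH : Γ ≤ H) (hcl : IsClosed (Γ : Set E)) (htr : Trans Γ) :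
    MTr Γ := by
  intro x U hU
  obtain ⟨ε, hε, hsmall⟩ := exists_small_subset hU
  have := completeSpace_GG hcl
  set r : ℝ := ε / 5 with hr
  have hr0 : 0 < r := by positivity
  let e : GG Γ := mk hH 1 Γ.one_mem
  let W : ℝ → Set ℝ := fun z => interior (closure ((fun g : GG Γ => g.1.1 z) '' ball e r))
  have hW : ∀ z, z ∈ W z := fun z => almost_open hH htr z e hr0
  have hmem : W x ∈ 𝓝 x := isOpen_interior.mem_nhds (hW x)
  filter_upwards [hmem] with y hy
  obtain ⟨g₁, g₂, h1, h2, h3⟩ := common_value (f₁ := fun g : GG Γ => g.1.1 x)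
    (f₂ := fun g : GG Γ => g.1.1 y) (continuous_evG x) (continuous_evG y)
    (fun g r hr => almost_open hH htr x g hr) (fun g r hr => almost_open hH htr y g hr)
    (a := e) (b := e) hr0 ⟨y, hy, hW y⟩
  have near : ∀ g : GG Γ, dist e g ≤ 2 * r → Small (5 / 2 * r) g.1.1 := by
    intro g hg p
    have h4 : |(1 : E) p - g.1.1 p| ≤ dist e g := dist_apply_le e.1 g.1 p
    rw [one_ap, abs_sub_comm] at h4
    have h5 : 2 * r < 5 / 2 * r := by linarith
    exact lt_of_le_of_lt (h4.trans hg) h5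
  have n1 := near g₁ h1
  have n2 := near g₂ h2
  refine ⟨g₂.1.1⁻¹ * g₁.1.1, Γ.mul_mem (Γ.inv_mem g₂.2) g₁.2, hsmall _ ?_, ?_⟩
  · have h6 := n2.inv.mul n1
    have h7 : 5 / 2 * r + 5 / 2 * r = ε := by rw [hr]; ring
    rwa [h7] at h6
  · rw [mul_ap]
    show g₂.1.1⁻¹ (g₁.1.1 x) = y
    have h8 : g₁.1.1 x = g₂.1.1 y := h3
    rw [h8, inv_ap]

end Pool.Agent.Circ
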