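import Pool.Agent.Circ.Order
import Pool.Agent.Circ.Micro

/-!
Section 3: the main theorem at the level of the line, from Theorem B.
-/

set_option autoImplicit false
set_option linter.unusedSectionVars false

open Set Filter Topology

namespace Pool.Agent.Circ

@[simp] lemma T1_ap (x : ℝ) : T1 x = x + 1 := rfl

lemma T1_comm {g : E} (hg : g ∈ H) : T1 * g = g * T1 := by
  apply ext_ap
  intro x
  simp only [mul_ap, T1_ap]
  exact (hg x).symm

lemma T1_mem_H : T1 ∈ H := fun _ => rfl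

lemma T1_zpow_ap (n : ℤ) (x : ℝ) : (T1 ^ n) x = x + n := by
  have hnat : ∀ (m : ℕ) (x : ℝ), (T1 ^ m) x = x + m := by
    intro m
    induction m with
    | zero => intro x; simp
    | succ m ih =>
      intro x
      rw [pow_succ_ap, ih, T1_ap]; push_cast; ring
  rcases Int.eq_nat_or_neg n with ⟨m, rfl | rfl⟩
  · rw [zpow_natCast, hnat]; simp
  · rw [zpow_neg, zpow_natCast, inv_eq_iff, hnat]; push_cast; ring

lemma Act_of_MTr {Γ : Subgroup E} (hmt : MTr Γ) : Act Γ.subtype where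
  cont := continuous_subtype_val
  mt := by
    intro x U hU
    rw [nhds_subtype_eq_comap, mem_comap] at hU
    obtain ⟨V, hV, hVU⟩ := hU
    refine mem_of_superset (hmt x V hV) ?_
    rintro y ⟨g, hg, hgV, rfl⟩
    exact ⟨⟨g, hg⟩, hVU hgV, rfl⟩

lemma eventually_subgroup {Γ : Subgroup E} {p : E → Prop} :
    (∀ᶠ k : Γ in 𝓝 1, p k) ↔ ∀ᶠ g in 𝓝 (1 : E), g ∈ Γ → p g := by
  rw [nhds_subtype_eq_comap, eventually_comap]
  constructor
  · intro h
    filter_upwards [h] with g hg hgΓ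
    exact hg ⟨g, hgΓ⟩ rfl
  · intro h
    filter_upwards [h] with g hg k hk
    subst hk
    exact hg k.2

section caseB
variable {Γ : Subgroup E}

/-- Case B: the quasi-centraliser has no least positive element. -/
lemma caseB_free (hH : Γ ≤ H) (hmt : MTr Γ) (hno : ¬ HasLeast (QC Γ.subtype)) : Free Γ := by
  have hact := Act_of_MTr hmt
  set C := QC Γ.subtype with hC
  have hF : Free C := QC_free hact
  have hTC : T1 ∈ C := by
    show ∀ᶠ k in 𝓝 (1 : Γ), T1 * Γ.subtype k = Γ.subtype k * T1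
    exact Eventually.of_forall fun k => T1_comm (hH k.2)
  have hTpos : ∀ x : ℝ, x < T1 x := fun x => by rw [T1_ap]; linarith
  have hcomm := free_comm hF hno
  have key : ∀ g ∈ Γ, ∀ c ∈ C, ¬ (c 0 < (g * c * g⁻¹) 0) := by
    intro g hg c hc hlt
    have hc' : g * c * g⁻¹ ∈ C := QC_conj (⟨g, hg⟩ : Γ) hc
    set c' : E := g * c * g⁻¹ with hc'def
    set ψ : E := c⁻¹ * c' with hψ
    have hψC : ψ ∈ C := C.mul_mem (C.inv_mem hc) hc'
    have hψpos : ∀ x, x < ψ x := by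
      apply hF.pos hψC (x := 0)
      rw [hψ, mul_ap, lt_inv_iff]; exact hlt
    obtain ⟨M, hM⟩ := arch hψpos 0 (T1 0)
    have hM' : ∀ z, T1 z < (ψ ^ M) z := hF.lt hTC (C.pow_mem hψC M) hM
    obtain ⟨q, hq1, hq2⟩ := exists_zpow_le hTpos 0 ((c ^ M) 0)
    have hq1' := hF.le (C.zpow_mem hTC q) (C.pow_mem hc M) hq1
    have hq2' := hF.lt (C.pow_mem hc M) (C.zpow_mem hTC (q + 1)) hq2
    have hc'M : c' ^ M = g * c ^ M * g⁻¹ := by rw [hc'def, conj_pow]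
    have h1 : (c' ^ M) 0 < (T1 ^ (q + 1)) 0 := by
      rw [hc'M]
      simp only [mul_ap]
      have h2 := g.strictMono (hq2' (g⁻¹ 0))
      have h3 : g ((T1 ^ (q + 1)) (g⁻¹ 0)) = (T1 ^ (q + 1)) 0 := by
        rw [T1_zpow_ap, T1_zpow_ap, H_add_int (hH hg), ap_inv]
      rw [h3] at h2
      exact h2
    have h2 : c' ^ M = c ^ M * ψ ^ M := by
      have h3 : c' = c * ψ := by rw [hψ]; group
      have h4 : Commute c ψ := hcomm c hc ψ hψC
      rw [h3, h4.mul_pow]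
    have h3 : (T1 ^ (q + 1)) 0 < (c' ^ M) 0 := by
      rw [h2, mul_ap, zpow_add, zpow_one, mul_ap]
      exact lt_of_lt_of_le ((T1 ^ q).strictMono (hM' 0)) (hq1' _)
    exact absurd h1 (not_lt.2 h3.le)
  have hcent : ∀ g ∈ Γ, ∀ c ∈ C, g * c = c * g := by
    intro g hg c hc
    have hc' : g * c * g⁻¹ ∈ C := QC_conj (⟨g, hg⟩ : Γ) hc
    have h1 := key g hg c hc
    have h2 := key g⁻¹ (Γ.inv_mem hg) _ hc'
    have h3 : g⁻¹ * (g * c * g⁻¹) * g⁻¹⁻¹ = c := by group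
    rw [h3] at h2
    have h4 : g * c * g⁻¹ = c := hF.eq hc' hc (le_antisymm (not_lt.1 h1) (not_lt.1 h2))
    calc g * c = (g * c * g⁻¹) * g := by group
      _ = c * g := by rw [h4]
  have hne : C ≠ ⊥ := by
    intro hbot
    rw [hbot, Subgroup.mem_bot] at hTC
    have := hTpos 0
    rw [hTC] at this
    exact lt_irrefl _ this
  have hdense := dense_orbits hact hne hno
  intro g hg x hx
  apply ext_ap
  intro y
  rw [one_ap]
  have h1 : Continuous (fun z => g z) := cont_ap g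
  have hcl : IsClosed {z : ℝ | g z = z} := isClosed_eq h1 continuous_id
  have h2 : y ∈ closure {z : ℝ | g z = z} := by
    rw [Metric.mem_closure_iff]
    intro ε hε
    obtain ⟨c, hc, hcy⟩ := hdense x y ε hε
    refine ⟨c x, ?_, ?_⟩
    · show g (c x) = c x
      have h3 := hcent g hg c hc
      have h4 : (g * c) x = (c * g) x := by rw [h3]
      simp only [mul_ap] at h4
      rw [h4, hx]
    · rw [dist_comm, Real.dist_eq]; exact hcy
  rw [hcl.closure_eq] at h2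
  exact h2

lemma caseB_concl (hT : T1 ∈ Γ) (htr : Trans Γ) (hF : Free Γ) :
    ∃ h ∈ H, ∀ g : E, g ∈ Γ ↔ ∃ t : ℝ, ∀ x, h⁻¹ (g (h x)) = x + t := by
  obtain ⟨χ, hχ⟩ := holder hF htr
  obtain ⟨t0, ht0⟩ := (hχ T1).1 hT
  have ht0' : ∀ x, χ (x + 1) = χ x + t0 := ht0
  have htpos : 0 < t0 := by
    have h1 := χ.strictMono (show (0 : ℝ) < 0 + 1 by norm_num)
    rw [ht0'] at h1
    linarith
  let s : E :=
    { toFun := fun x => x / t0
      invFun := fun x => x * t0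
      left_inv := fun x => by field_simp
      right_inv := fun x => by field_simp
      map_rel_iff' := by
        intro a b
        show a / t0 ≤ b / t0 ↔ a ≤ b
        exact div_le_div_iff_of_pos_right htpos }
  have hs : ∀ x, s x = x / t0 := fun x => rfl
  set χ' : E := s * χ with hχ'
  have hχ'ap : ∀ x, χ' x = χ x / t0 := fun x => rfl
  refine ⟨χ'⁻¹, H.inv_mem ?_, fun g => ?_⟩
  · intro x
    rw [hχ'ap, hχ'ap, ht0', add_div, div_self htpos.ne']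
  · rw [hχ g, inv_inv]
    constructor
    · rintro ⟨t, ht⟩
      refine ⟨t / t0, fun x => ?_⟩
      rw [hχ'ap, ht, add_div, ← hχ'ap, ap_inv]
    · rintro ⟨t, ht⟩
      refine ⟨t * t0, fun x => ?_⟩
      have h1 := ht (χ' x)
      rw [inv_ap, hχ'ap, hχ'ap] at h1
      rw [div_eq_iff htpos.ne', add_mul, div_mul_cancel₀ _ htpos.ne'] at h1
      exact h1

end caseB

section caseA
variable {Γ : Subgroup E}

/-- The averaged conjugacy. -/
lemma exists_phi {τ : E} {k : ℕ} (hk : 0 < k) (hτ : ∀ x, x < τ x) (hTk : T1 = τ ^ k) :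
    ∃ φ : E, (∀ x, φ (τ x) = φ x + 1) ∧ ∀ x, φ (x + 1) = φ x + k := by
  set f : ℝ → ℝ := fun x => ∑ i ∈ Finset.range k, (τ ^ i) x with hf
  have hne : (Finset.range k).Nonempty := Finset.nonempty_range_iff.2 hk.ne'
  have hmono : StrictMono f := by
    intro x y hxy
    exact Finset.sum_lt_sum_of_nonempty hne (fun i _ => (τ ^ i).strictMono hxy)
  have hcont : Continuous f := continuous_finsetSum _ (fun i _ => cont_ap (τ ^ i))
  have hlow : ∀ x, k * x ≤ f x := by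
    intro x
    have : ∑ i ∈ Finset.range k, x ≤ f x :=
      Finset.sum_le_sum (fun i _ => pow_le_of_pos hτ i x)
    simpa using this
  have hup : ∀ x, f x ≤ k * (x + 1) := by
    intro x
    have : f x ≤ ∑ i ∈ Finset.range k, (x + 1) := by
      apply Finset.sum_le_sum
      intro i hi
      have h1 : (τ ^ (i : ℤ)) x ≤ (τ ^ (k : ℤ)) x :=
        zpow_le_zpow_ap hτ (by have := Finset.mem_range.1 hi; omega) x
      rw [zpow_natCast, zpow_natCast, ← hTk] at h1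
      exact h1
    rw [Finset.sum_const, Finset.card_range, nsmul_eq_mul] at this
    exact this
  have hkpos : (0 : ℝ) < k := by exact_mod_cast hk
  have hsurj : Function.Surjective f := by
    intro z
    apply mem_range_of_exists_le_of_exists_ge hcont
    · refine ⟨z / k - 1, (hup _).trans ?_⟩
      rw [sub_add_cancel, mul_div_cancel₀ _ hkpos.ne']
    · refine ⟨z / k, le_trans ?_ (hlow _)⟩
      rw [mul_div_cancel₀ _ hkpos.ne']
  refine ⟨hmono.orderIsoOfSurjective f hsurj, fun x => ?_, fun x => ?_⟩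
  · show f (τ x) = f x + 1
    have h1 : f (τ x) = ∑ i ∈ Finset.range k, (τ ^ (i + 1)) x := by
      apply Finset.sum_congr rfl
      intro i _
      rw [pow_succ]; rfl
    have h2 := Finset.sum_range_succ (fun i => (τ ^ i) x) k
    have h3 := Finset.sum_range_succ' (fun i => (τ ^ i) x) k
    rw [h2] at h3
    have h4 : (τ ^ k) x = x + 1 := by rw [← hTk]; rfl
    have h5 : (τ ^ 0) x = x := by rw [pow_zero]; rfl
    rw [h4, h5] at h3
    rw [h1]
    show _ = (∑ i ∈ Finset.range k, (τ ^ i) x) + 1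
    linarith
  · show f (x + 1) = f x + k
    have h1 : ∀ i : ℕ, (τ ^ i) (x + 1) = (τ ^ i) x + 1 := by
      intro i
      have h2 : (τ ^ i) (T1 x) = T1 ((τ ^ i) x) := by
        rw [hTk, ← mul_ap, ← mul_ap, ← pow_add, ← pow_add, add_comm]
      exact h2
    show ∑ i ∈ Finset.range k, (τ ^ i) (x + 1) = (∑ i ∈ Finset.range k, (τ ^ i) x) + k
    simp_rw [h1]
    rw [Finset.sum_add_distrib]
    simp

/-- The conclusion of Theorem B. -/
def IsPSL (Γ : Subgroup E) : Prop :=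
  ∃ Φ ∈ H, (∀ g : E, g ∈ Γ ↔ (g ∈ H ∧ ∃ a b c d : ℝ, a * d - b * c = 1 ∧
        Proj a b c d (Φ * g * Φ⁻¹))) ∧
      (∀ a b c d : ℝ, a * d - b * c = 1 → ∃ g ∈ Γ, Proj a b c d (Φ * g * Φ⁻¹))

/-- Conjugation of a subgroup. -/
def conjG (φ : E) (Γ : Subgroup E) : Subgroup E := Γ.comap (MulAut.conj φ⁻¹).toMonoidHom

lemma mem_conjG {φ : E} {Γ : Subgroup E} {g : E} : g ∈ conjG φ Γ ↔ φ⁻¹ * g * φ ∈ Γ := by
  unfold conjG
  rw [Subgroup.mem_comap]
  simp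

lemma caseA_main (hB : ∀ Γ : Subgroup E, Γ ≤ H → IsClosed (Γ : Set E) → Trans Γ → CB Γ → Γ ≠ H →
      IsPSL Γ) (hH : Γ ≤ H) (hcl : IsClosed (Γ : Set E)) (htr : Trans Γ) (hmt : MTr Γ)
    (hL : HasLeast (QC Γ.subtype)) :
    ∃ k : ℕ, 0 < k ∧ ∃ ψ : E, (∀ x, ψ (x + k) = ψ x + 1) ∧
      ((∀ g : E, g ∈ Γ ↔ ψ⁻¹ * g * ψ ∈ H) ∨
       ((∀ g : E, g ∈ Γ ↔ (ψ⁻¹ * g * ψ ∈ H ∧ ∃ a b c d : ℝ, a * d - b * c = 1 ∧
          Proj a b c d (ψ⁻¹ * g * ψ))) ∧
        (∀ a b c d : ℝ, a * d - b * c = 1 → ∃ g ∈ Γ, Proj a b c d (ψ⁻¹ * g * ψ)))) := by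
  have hact := Act_of_MTr hmt
  set C := QC Γ.subtype with hC
  have hF : Free C := QC_free hact
  obtain ⟨τ, hτ, hpos, hleast⟩ := hL
  have hTC : T1 ∈ C := by
    show ∀ᶠ k in 𝓝 (1 : Γ), T1 * Γ.subtype k = Γ.subtype k * T1
    exact Eventually.of_forall fun k => T1_comm (hH k.2)
  have hgen := least_generates hF hτ hpos hleast
  have hcen : ∀ g ∈ Γ, g * τ = τ * g := fun g hg =>
    least_central hact hτ hpos hleast (⟨g, hg⟩ : Γ)
  obtain ⟨n, hn⟩ := hgen T1 hTC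
  have hn0 : 0 < n := by
    have h1 : (τ ^ (0 : ℤ)) (0 : ℝ) < (τ ^ n) 0 := by
      rw [← hn, zpow_zero, one_ap, T1_ap]; norm_num
    exact zpow_lt_of_lt hpos h1
  obtain ⟨k, rfl⟩ := Int.eq_ofNat_of_zero_le hn0.le
  have hk : 0 < k := by exact_mod_cast hn0
  rw [zpow_natCast] at hn
  obtain ⟨φ, hφ1, hφ2⟩ := exists_phi hk hpos hn
  have hφ1z : ∀ (j : ℤ) (x : ℝ), φ ((τ ^ j) x) = φ x + j := by
    intro j x
    have h1 : φ * τ = T1 * φ := by
      apply ext_ap; intro y; simp only [mul_ap, T1_ap]; exact hφ1 y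
    have h2 : φ * τ ^ j * φ⁻¹ = T1 ^ j := by
      rw [← conj_zpow]
      congr 1
      rw [h1]; group
    have h3 : φ * τ ^ j = T1 ^ j * φ := by rw [← h2]; group
    have h4 : (φ * τ ^ j) x = (T1 ^ j * φ) x := by rw [h3]
    simp only [mul_ap] at h4
    rw [h4, T1_zpow_ap]
  set Γ1 := conjG φ Γ with hΓ1
  have hH1 : Γ1 ≤ H := by
    intro g hg
    rw [mem_conjG] at hg
    have h1 := hcen _ hg
    intro x
    set g' : E := φ⁻¹ * g * φ with hg'
    have hgg : g = φ * g' * φ⁻¹ := by rw [hg']; group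
    have h2 : x + 1 = φ (τ (φ⁻¹ x)) := by rw [hφ1, ap_inv]
    have h3 : g (x + 1) = φ (τ (g' (φ⁻¹ x))) := by
      rw [h2, hgg]
      simp only [mul_ap, inv_ap]
      have h4 : (g' * τ) (φ⁻¹ x) = (τ * g') (φ⁻¹ x) := by rw [h1]
      simp only [mul_ap] at h4
      rw [h4]
    rw [h3, hφ1, hgg]
    simp only [mul_ap]
  have hcl1 : IsClosed (Γ1 : Set E) := by
    have h1 : (Γ1 : Set E) = (fun g : E => φ⁻¹ * g * φ) ⁻¹' (Γ : Set E) := by
      ext g
      rw [SetLike.mem_coe, mem_conjG]; rfl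
    rw [h1]
    exact hcl.preimage (by fun_prop)
  have htr1 : Trans Γ1 := by
    intro x y
    obtain ⟨g, hg, hgx⟩ := htr (φ⁻¹ x) (φ⁻¹ y)
    refine ⟨φ * g * φ⁻¹, ?_, ?_⟩
    · rw [mem_conjG]
      have : φ⁻¹ * (φ * g * φ⁻¹) * φ = g := by group
      rw [this]; exact hg
    · simp only [mul_ap]; rw [hgx, ap_inv]
  have hCB1 : CB Γ1 := by
    intro x y hxy U hU
    by_contra hcon
    push Not at hcon
    have h1 : ∀ᶠ g in 𝓝 (1 : E), g ∈ Γ → (g (φ⁻¹ x) = φ⁻¹ x → g (φ⁻¹ y) = φ⁻¹ y) := by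
      have h2 : Continuous (fun g : E => φ * g * φ⁻¹) := by fun_prop
      have h3 : Tendsto (fun g : E => φ * g * φ⁻¹) (𝓝 1) (𝓝 1) := by
        have := h2.tendsto 1
        simpa using this
      filter_upwards [h3.eventually hU] with g hgU hg hgx
      have hg1 : φ * g * φ⁻¹ ∈ Γ1 := by
        rw [mem_conjG]
        have : φ⁻¹ * (φ * g * φ⁻¹) * φ = g := by group
        rw [this]; exact hg
      have h4 := hcon _ hg1 hgU (by simp only [mul_ap]; rw [hgx, ap_inv])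
      simp only [mul_ap] at h4
      rw [inv_eq_iff.symm] at h4
      · exact h4.symm
    have h2 : ∀ᶠ k in 𝓝 (1 : Γ), Γ.subtype k (φ⁻¹ x) = φ⁻¹ x → Γ.subtype k (φ⁻¹ y) = φ⁻¹ y :=
      (eventually_subgroup (Γ := Γ)
        (p := fun g => g (φ⁻¹ x) = φ⁻¹ x → g (φ⁻¹ y) = φ⁻¹ y)).2 h1
    obtain ⟨c, hc, hcx⟩ := exists_QC hact h2
    obtain ⟨j, hj⟩ := hgen c hc
    apply hxy j
    have h3 := hφ1z j (φ⁻¹ x)
    rw [← hj, hcx, ap_inv, ap_inv] at h3
    exact h3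
  have hφinv : ∀ x, φ⁻¹ (x + k) = φ⁻¹ x + 1 := by
    intro x
    rw [inv_eq_iff, hφ2, ap_inv]
  have hmem : ∀ g : E, g ∈ Γ ↔ φ * g * φ⁻¹ ∈ Γ1 := by
    intro g
    rw [mem_conjG]
    have : φ⁻¹ * (φ * g * φ⁻¹) * φ = g := by group
    rw [this]
  by_cases h1H : Γ1 = H
  · refine ⟨k, hk, φ⁻¹, hφinv, Or.inl ?_⟩
    intro g
    rw [inv_inv, ← h1H, ← hmem]
  · obtain ⟨Φ, hΦ, hΦ1, hΦ2⟩ := hB Γ1 hH1 hcl1 htr1 hCB1 h1H
    have hrw : ∀ g : E, (φ⁻¹ * Φ⁻¹)⁻¹ * g * (φ⁻¹ * Φ⁻¹) = Φ * (φ * g * φ⁻¹) * Φ⁻¹ := by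
      intro g; group
    refine ⟨k, hk, φ⁻¹ * Φ⁻¹, ?_, Or.inr ⟨?_, ?_⟩⟩
    · intro x
      simp only [mul_ap]
      have h1 := H_add_int (H.inv_mem hΦ) x (k : ℤ)
      rw [Int.cast_natCast] at h1
      rw [h1, hφinv]
    · intro g
      rw [hrw, hmem, hΦ1]
      have h2 : φ * g * φ⁻¹ ∈ H ↔ Φ * (φ * g * φ⁻¹) * Φ⁻¹ ∈ H := by
        constructor
        · intro h; exact H.mul_mem (H.mul_mem hΦ h) (H.inv_mem hΦ)
        · intro h
          have h3 := H.mul_mem (H.mul_mem (H.inv_mem hΦ) h) hΦ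
          have : Φ⁻¹ * (Φ * (φ * g * φ⁻¹) * Φ⁻¹) * Φ = φ * g * φ⁻¹ := by group
          rwa [this] at h3
      rw [h2]
    · intro a b c d habcd
      obtain ⟨g, hg, hP⟩ := hΦ2 a b c d habcd
      refine ⟨φ⁻¹ * g * φ, ?_, ?_⟩
      · exact mem_conjG.1 hg
      · rw [hrw]
        have : φ * (φ⁻¹ * g * φ) * φ⁻¹ = g := by group
        rw [this]; exact hP

end caseA

theorem mainE_of (hB : ∀ Γ : Subgroup E, Γ ≤ H → IsClosed (Γ : Set E) → Trans Γ → CB Γ →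
      Γ ≠ H → IsPSL Γ)
    {Γ : Subgroup E} (hH : Γ ≤ H) (hcl : IsClosed (Γ : Set E)) (htr : Trans Γ)
    (hT : T1 ∈ Γ) :
    (∃ h ∈ H, ∀ g : E, g ∈ Γ ↔ ∃ t : ℝ, ∀ x, h⁻¹ (g (h x)) = x + t) ∨
    ∃ k : ℕ, 0 < k ∧ ∃ ψ : E, (∀ x, ψ (x + k) = ψ x + 1) ∧
      ((∀ g : E, g ∈ Γ ↔ ψ⁻¹ * g * ψ ∈ H) ∨
       ((∀ g : E, g ∈ Γ ↔ (ψ⁻¹ * g * ψ ∈ H ∧ ∃ a b c d : ℝ, a * d - b * c = 1 ∧
          Proj a b c d (ψ⁻¹ * g * ψ))) ∧
        (∀ a b c d : ℝ, a * d - b * c = 1 → ∃ g ∈ Γ, Proj a b c d (ψ⁻¹ * g * ψ)))) := by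
  have hmt := microtrans hH hcl htr
  by_cases hL : HasLeast (QC Γ.subtype)
  · exact Or.inr (caseA_main hB hH hcl htr hmt hL)
  · exact Or.inl (caseB_concl hT htr (caseB_free hH hmt hL))

end Pool.Agent.Circ
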