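import Pool.Agent.Circ.Basic

/-!
MP_348654_gt, module C, part 2 (sections 4.3-4.6): from an unrealised sign pattern to
local compactness.
-/

set_option autoImplicit false

open Set Filter Topology

namespace Pool.Agent.Circ

/-- Equicontinuity at the point `u` of the `r`-small elements of `Γ`. -/
def Eqc (Γ : Subgroup E) (r u : ℝ) : Prop :=
  ∀ κ > 0, ∃ δ > 0, ∀ g ∈ Γ, Small r g → ∀ v, |v - u| < δ → |g v - g u| < κ

lemma Eqc.mono {Γ : Subgroup E} {r r' u : ℝ} (h : Eqc Γ r u) (hr : r' ≤ r) : Eqc Γ r' u := by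
  intro κ hκ
  obtain ⟨δ, hδ, hd⟩ := h κ hκ
  exact ⟨δ, hδ, fun g hg hs => hd g hg (hs.mono hr)⟩

lemma ultra_lim {α : Type*} (𝒰 : Ultrafilter α) (f : α → ℝ) (a b : ℝ)
    (h : ∀ᶠ g in (𝒰 : Filter α), f g ∈ Icc a b) :
    ∃ l ∈ Icc a b, Tendsto f (𝒰 : Filter α) (𝓝 l) := by
  have h1 : ((𝒰.map f : Ultrafilter ℝ) : Filter ℝ) ≤ 𝓟 (Icc a b) := by
    rw [le_principal_iff]
    exact h
  obtain ⟨l, hl, hle⟩ := isCompact_Icc.ultrafilter_le_nhds (𝒰.map f) h1
  exact ⟨l, hl, hle⟩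

/-- The compactness statement. -/
lemma compact_of_eqc {Γ : Subgroup E} (hcl : IsClosed (Γ : Set E)) {r r' : ℝ} (hr : r' < r)
    (h : ∀ u, Eqc Γ r u) : IsCompact {g : E | g ∈ Γ ∧ ∀ x, |g x - x| ≤ r'} := by
  rw [isCompact_iff_ultrafilter_le_nhds]
  intro 𝒰 h𝒰
  have hS : ∀ᶠ g in (𝒰 : Filter E), g ∈ Γ ∧ ∀ x, |g x - x| ≤ r' := le_principal_iff.1 h𝒰
  have hSm : ∀ g : E, (∀ x, |g x - x| ≤ r') → Small r g := fun g hg x => lt_of_le_of_lt (hg x) hr
  have hG : ∀ x : ℝ, ∃ l ∈ Icc (x - r') (x + r'),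
      Tendsto (fun g : E => g x) (𝒰 : Filter E) (𝓝 l) := by
    intro x
    apply ultra_lim
    filter_upwards [hS] with g hg
    have := abs_le.1 (hg.2 x)
    constructor <;> linarith
  have hK : ∀ x : ℝ, ∃ l ∈ Icc (x - r') (x + r'),
      Tendsto (fun g : E => g⁻¹ x) (𝒰 : Filter E) (𝓝 l) := by
    intro x
    apply ultra_lim
    filter_upwards [hS] with g hg
    have := hg.2 (g⁻¹ x)
    rw [ap_inv] at this
    have := abs_le.1 this
    constructor <;> linarith
  choose G hGm hGt using hG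
  choose K hKm hKt using hK
  have hGK : ∀ x, G (K x) = x := by
    intro x
    by_contra hne
    have hκ : 0 < |G (K x) - x| / 2 := by
      have : 0 < |G (K x) - x| := abs_pos.2 (sub_ne_zero.2 hne)
      linarith
    obtain ⟨δ, hδ, hd⟩ := h (K x) _ hκ
    have h1 := (Metric.tendsto_nhds.1 (hKt x)) δ hδ
    have h2 := (Metric.tendsto_nhds.1 (hGt (K x))) _ hκ
    obtain ⟨g, hg, hg1, hg2⟩ := (hS.and (h1.and h2)).exists
    have h3 := hd g hg.1 (hSm g hg.2) (g⁻¹ x) hg1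
    rw [ap_inv] at h3
    rw [Real.dist_eq] at hg2
    have h4 : |G (K x) - x| ≤ |x - g (K x)| + |g (K x) - G (K x)| := by
      rw [abs_sub_comm (G (K x)) x]
      exact abs_sub_le _ _ _
    linarith
  have hKG : ∀ x, K (G x) = x := by
    intro x
    by_contra hne
    have hκ : 0 < |K (G x) - x| / 2 := by
      have : 0 < |K (G x) - x| := abs_pos.2 (sub_ne_zero.2 hne)
      linarith
    obtain ⟨δ, hδ, hd⟩ := h (G x) _ hκ
    have h1 := (Metric.tendsto_nhds.1 (hGt x)) δ hδ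
    have h2 := (Metric.tendsto_nhds.1 (hKt (G x))) _ hκ
    obtain ⟨g, hg, hg1, hg2⟩ := (hS.and (h1.and h2)).exists
    have h3 := hd g⁻¹ (Γ.inv_mem hg.1) (hSm g hg.2).inv (g x) hg1
    rw [inv_ap] at h3
    rw [Real.dist_eq] at hg2
    have h4 : |K (G x) - x| ≤ |x - g⁻¹ (G x)| + |g⁻¹ (G x) - K (G x)| := by
      rw [abs_sub_comm (K (G x)) x]
      exact abs_sub_le _ _ _
    linarith
  have hmono : Monotone G := by
    intro x y hxy
    exact le_of_tendsto_of_tendsto (hGt x) (hGt y)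
      (Eventually.of_forall fun g => g.monotone hxy)
  have hstrict : StrictMono G := hmono.strictMono_of_injective
    (Function.LeftInverse.injective hKG)
  let e : E := StrictMono.orderIsoOfSurjective G hstrict (Function.RightInverse.surjective hGK)
  have he : ∀ x, e x = G x := fun x => rfl
  have hlim : (𝒰 : Filter E) ≤ 𝓝 e := by
    have : Tendsto (fun g : E => g) (𝒰 : Filter E) (𝓝 e) := by
      rw [tendsto_E]
      intro x
      rw [he]
      exact hGt x
    exact this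
  refine ⟨e, ⟨?_, ?_⟩, hlim⟩
  · have : e ∈ (Γ : Set E) := hcl.mem_of_tendsto (f := fun g : E => g) (b := (𝒰 : Filter E)) hlim
      (hS.mono fun g hg => hg.1)
    exact this
  · intro x
    rw [he, abs_le]
    have := hGm x
    constructor <;> linarith [this.1, this.2]

lemma Eqc.nhds {Γ : Subgroup E} (hH : Γ ≤ H) (hmt : MTr Γ) {r u : ℝ} (hr : 0 < r)
    (h : Eqc Γ r u) : ∀ᶠ w in 𝓝 u, Eqc Γ (r / 2) w := by
  have hU := eventually_small (half_pos hr)
  refine mem_of_superset (hmt u _ hU) ?_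
  rintro w ⟨ψ, hψ, hψU, rfl⟩
  intro κ hκ
  obtain ⟨δ, hδ, hd⟩ := h κ hκ
  have hψs : Small (r / 2) ψ := hψU (hH hψ)
  have hc : ContinuousAt (fun x => ψ⁻¹ x) (ψ u) := (cont_ap ψ⁻¹).continuousAt
  obtain ⟨δ', hδ', hd'⟩ := Metric.continuousAt_iff.1 hc δ hδ
  refine ⟨δ', hδ', fun g hg hgs w' hw' => ?_⟩
  have h1 := hd (g * ψ) (Γ.mul_mem hg hψ) ((hgs.mul hψs).mono (by linarith)) (ψ⁻¹ w') (by
    have := hd' (x := w') (by rw [Real.dist_eq]; exact hw')
    rw [Real.dist_eq, inv_ap] at this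
    exact this)
  simpa using h1

lemma Eqc.periodic {Γ : Subgroup E} (hH : Γ ≤ H) {r u : ℝ} (h : Eqc Γ r u) (n : ℤ) :
    Eqc Γ r (u + n) := by
  intro κ hκ
  obtain ⟨δ, hδ, hd⟩ := h κ hκ
  refine ⟨δ, hδ, fun g hg hgs v hv => ?_⟩
  have h1 := hd g hg hgs (v - n) (by
    have : v - n - u = v - (u + n) := by ring
    rw [this]
    exact hv)
  have h2 := H_add_int (hH hg) (v - n) n
  have h3 := H_add_int (hH hg) u n
  rw [sub_add_cancel] at h2
  rw [h2, h3]
  have : g (v - n) + n - (g u + n) = g (v - n) - g u := by ring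
  rw [this]
  exact h1

lemma eqc_all {Γ : Subgroup E} (hH : Γ ≤ H) (hmt : MTr Γ)
    (h : ∀ u, ∃ r > 0, Eqc Γ r u) : ∃ r > 0, ∀ u, Eqc Γ r u := by
  have h1 : ∃ r > 0, ∀ u ∈ Icc (0 : ℝ) 1, Eqc Γ r u := by
    refine IsCompact.induction_on (p := fun S => ∃ r > 0, ∀ u ∈ S, Eqc Γ r u) isCompact_Icc
      ⟨1, one_pos, fun u hu => absurd hu (Set.notMem_empty u)⟩ ?_ ?_ ?_
    · rintro s t hst ⟨r, hr, h⟩
      exact ⟨r, hr, fun u hu => h u (hst hu)⟩
    · rintro s t ⟨r, hr, h⟩ ⟨r', hr', h'⟩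
      refine ⟨min r r', lt_min hr hr', fun u hu => ?_⟩
      rcases hu with hu | hu
      · exact (h u hu).mono (min_le_left _ _)
      · exact (h' u hu).mono (min_le_right _ _)
    · intro x _
      obtain ⟨r, hr, hx⟩ := h x
      exact ⟨{w | Eqc Γ (r / 2) w}, mem_nhdsWithin_of_mem_nhds (hx.nhds hH hmt hr),
        r / 2, half_pos hr, fun u hu => hu⟩
  obtain ⟨r, hr, h⟩ := h1
  refine ⟨r, hr, fun u => ?_⟩
  have h2 := (h (Int.fract u) ⟨Int.fract_nonneg u, (Int.fract_lt_one u).le⟩).periodic hH ⌊u⌋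
  rwa [Int.fract_add_floor] at h2

/-! ### sign patterns -/

lemma sign_mono (k : E) {e a b : ℝ} (h : 0 < e * (a - b)) : 0 < e * (k a - k b) := by
  rcases lt_trichotomy e 0 with he | he | he
  · have h1 : a - b < 0 := by
      by_contra hc
      push Not at hc
      nlinarith
    have h2 : k a < k b := k.strictMono (by linarith)
    nlinarith
  · rw [he, zero_mul] at h
    exact absurd h (lt_irrefl _)
  · have h1 : 0 < a - b := by
      by_contra hc
      push Not at hc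
      nlinarith
    have h2 : k b < k a := k.strictMono (by linarith)
    nlinarith

lemma Conf_map {n : ℕ} {X : Fin n → ℝ} (hX : X ∈ Conf n) {k : E} (hk : k ∈ H) :
    (fun i => k (X i)) ∈ Conf n := by
  refine ⟨fun i j hij => k.strictMono (hX.1 hij), fun i j => ?_⟩
  have := k.strictMono (hX.2 i j)
  rwa [hk] at this

/-- The pattern `e` at `X` is not realised by `η`-small elements of `Γ`. -/
def Unr (Γ : Subgroup E) {n : ℕ} (X e : Fin n → ℝ) (η : ℝ) : Prop :=
  ∀ g ∈ Γ, Small η g → ¬ ∀ i, 0 < e i * (g (X i) - X i)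

lemma Unr.conj {Γ : Subgroup E} (hH : Γ ≤ H) {n : ℕ} {X e : Fin n → ℝ} {η : ℝ} (hη : 0 < η)
    (h : Unr Γ X e η) {k : E} (hk : k ∈ Γ) : ∃ η' > 0, Unr Γ (fun i => k (X i)) e η' := by
  have hc : Tendsto (fun g : E => k⁻¹ * g * k) (𝓝 1) (𝓝 1) := by
    have : Continuous (fun g : E => k⁻¹ * g * k) := by fun_prop
    have h1 := this.tendsto 1
    simpa using h1
  obtain ⟨η', hη', hs⟩ := eventually_mem_of_small (hc.eventually (eventually_small hη))
  refine ⟨η', hη', fun g hg hgs hpos => ?_⟩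
  have hm : k⁻¹ * g * k ∈ Γ := Γ.mul_mem (Γ.mul_mem (Γ.inv_mem hk) hg) hk
  refine h _ hm (hs g hgs (hH hm)) fun i => ?_
  have h1 := sign_mono k⁻¹ (hpos i)
  rw [inv_ap] at h1
  exact h1

/-- 4.3: the remark E0. -/
lemma e0_of_unr {Γ : Subgroup E} (hH : Γ ≤ H) {m : ℕ} (hpat : AllPat Γ m)
    {X e : Fin (m + 1) → ℝ} (hX : X ∈ Conf (m + 1)) (he : ∀ i, e i ≠ 0) {η : ℝ} (hη : 0 < η)
    (h : Unr Γ X e η) : ∀ᶠ g in 𝓝 (1 : E), g ∈ Γ →
    (∀ i : Fin m, g (X i.succ) = X i.succ) → g (X 0) = X 0 := by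
  filter_upwards [eventually_small (half_pos hη)] with g hgs hg hfix
  by_contra hne
  -- without loss of generality
  have key : ∀ g ∈ Γ, Small (η / 2) g → (∀ i : Fin m, g (X i.succ) = X i.succ) →
      ¬ 0 < e 0 * (g (X 0) - X 0) := by
    intro g hg hgs hfix hpos
    have hne : g (X 0) - X 0 ≠ 0 := by
      intro h0
      rw [h0, mul_zero] at hpos
      exact lt_irrefl _ hpos
    have hY : (fun i : Fin m => X i.succ) ∈ Conf m :=
      ⟨fun i j hij => hX.1 (Fin.succ_lt_succ_iff.2 hij), fun i j => hX.2 _ _⟩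
    obtain ⟨u, hu, hus, hpu⟩ := hpat _ hY (fun i => e i.succ) (fun i => he _)
      (min (η / 2) |g (X 0) - X 0|) (lt_min (half_pos hη) (abs_pos.2 hne))
    refine h (u * g) (Γ.mul_mem hu hg)
      (((hus.mono (min_le_left _ _)).mul hgs).mono (by linarith)) ?_
    intro i
    refine Fin.cases ?_ (fun i => ?_) i
    · have h1 : |u (g (X 0)) - g (X 0)| < |g (X 0) - X 0| :=
        lt_of_lt_of_le (hus (g (X 0))) (min_le_right _ _)
      rw [mul_ap]
      rcases lt_trichotomy (e 0) 0 with h0 | h0 | h0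
      · have h2 : g (X 0) - X 0 < 0 := by
          by_contra hc
          push Not at hc
          nlinarith
        rw [abs_of_neg h2, abs_lt] at h1
        have h3 : u (g (X 0)) - X 0 < 0 := by linarith [h1.2]
        exact mul_pos_of_neg_of_neg h0 h3
      · exact absurd h0 (he 0)
      · have h2 : 0 < g (X 0) - X 0 := by
          by_contra hc
          push Not at hc
          nlinarith
        rw [abs_of_pos h2, abs_lt] at h1
        have h3 : 0 < u (g (X 0)) - X 0 := by linarith [h1.1]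
        exact mul_pos h0 h3
    · rw [mul_ap, hfix i]
      exact hpu i
  have hgs' := hgs (hH hg)
  rcases lt_trichotomy (e 0 * (g (X 0) - X 0)) 0 with h0 | h0 | h0
  · refine key g⁻¹ (Γ.inv_mem hg) hgs'.inv (fun i => ?_) ?_
    · rw [inv_eq_iff]
      exact hfix i
    · have h1 : 0 < e 0 * (X 0 - g (X 0)) := by linarith
      have h2 := sign_mono g⁻¹ h1
      rwa [inv_ap] at h2
  · rcases mul_eq_zero.1 h0 with h1 | h1
    · exact he 0 h1
    · exact hne (sub_eq_zero.1 h1)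
  · exact key g hg hgs' hfix h0

lemma isOpen_Conf' (n : ℕ) : IsOpen (Conf n) := by
  have h1 : Conf n = (⋂ i : Fin n, ⋂ j : Fin n, {X : Fin n → ℝ | i < j → X i < X j}) ∩
      (⋂ i : Fin n, ⋂ j : Fin n, {X : Fin n → ℝ | X i < X j + 1}) := by
    ext X
    simp only [Conf, mem_inter_iff, mem_iInter, mem_ofPred_eq]
    constructor
    · rintro ⟨h1, h2⟩
      exact ⟨fun i j hij => h1 hij, h2⟩
    · rintro ⟨h1, h2⟩
      exact ⟨fun i j hij => h1 i j hij, h2⟩
  rw [h1]
  refine IsOpen.inter ?_ ?_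
  · refine isOpen_iInter_of_finite fun i => isOpen_iInter_of_finite fun j => ?_
    by_cases hij : i < j
    · have : {X : Fin n → ℝ | i < j → X i < X j} = {X : Fin n → ℝ | X i < X j} := by
        ext X
        simp [hij]
      rw [this]
      exact isOpen_lt (continuous_apply i) (continuous_apply j)
    · have : {X : Fin n → ℝ | i < j → X i < X j} = univ := by
        ext X
        simp [hij]
      rw [this]
      exact isOpen_univ
  · refine isOpen_iInter_of_finite fun i => isOpen_iInter_of_finite fun j => ?_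
    exact isOpen_lt (continuous_apply i) ((continuous_apply j).add continuous_const)

/-- The core of 4.4. -/
lemma cd_core {Γ : Subgroup E} {m : ℕ} (hpat : AllPat Γ m) {X e : Fin (m + 1) → ℝ}
    (he : ∀ i, e i ≠ 0) {η r₁ : ℝ} (h : Unr Γ X e η) (hr : 0 < r₁) (hr9 : 9 * r₁ ≤ η)
    {𝒰 : Filter ℕ} [𝒰.NeBot] {G G' : ℕ → E} (hG : ∀ n, G n ∈ Γ) (hG' : ∀ n, G' n ∈ Γ)
    (hGs : ∀ n, Small (4 * r₁) (G n)) (hGs' : ∀ n, Small (4 * r₁) (G' n))
    {y : Fin m → ℝ} (hy : y ∈ Conf m)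
    (h1 : ∀ i, Tendsto (fun n => G n (X i.succ)) 𝒰 (𝓝 (y i)))
    (h1' : ∀ i, Tendsto (fun n => G' n (X i.succ)) 𝒰 (𝓝 (y i))) {z z' : ℝ}
    (hz : Tendsto (fun n => G n (X 0)) 𝒰 (𝓝 z)) (hz' : Tendsto (fun n => G' n (X 0)) 𝒰 (𝓝 z'))
    (hpos : 0 < e 0 * (z' - z)) : False := by
  have hne : z' - z ≠ 0 := by
    intro h0
    rw [h0, mul_zero] at hpos
    exact lt_irrefl _ hpos
  obtain ⟨f, hf, hfs, hfp⟩ := hpat y hy (fun i => - e i.succ) (fun i => neg_ne_zero.2 (he _))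
    (min r₁ |z' - z|) (lt_min hr (abs_pos.2 hne))
  -- the limits of the relevant quantities
  have hfc : ∀ a : ℝ, Tendsto (fun x => f x) (𝓝 a) (𝓝 (f a)) := fun a => (cont_ap f).tendsto a
  have e1 : ∀ i : Fin m, ∀ᶠ n in 𝒰, 0 < e i.succ * (G' n (X i.succ) - f (G n (X i.succ))) := by
    intro i
    have t1 : Tendsto (fun n => e i.succ * (G' n (X i.succ) - f (G n (X i.succ)))) 𝒰
        (𝓝 (e i.succ * (y i - f (y i)))) :=
      ((h1' i).sub ((hfc _).comp (h1 i))).const_mul _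
    have t2 : 0 < e i.succ * (y i - f (y i)) := by
      have := hfp i
      linarith
    exact (tendsto_order.1 t1).1 0 t2
  have e2 : ∀ᶠ n in 𝒰, 0 < e 0 * (G' n (X 0) - f (G n (X 0))) := by
    have t1 : Tendsto (fun n => e 0 * (G' n (X 0) - f (G n (X 0)))) 𝒰 (𝓝 (e 0 * (z' - f z))) :=
      (hz'.sub ((hfc _).comp hz)).const_mul _
    have t2 : 0 < e 0 * (z' - f z) := by
      have h2 : |f z - z| < |z' - z| := lt_of_lt_of_le (hfs z) (min_le_right _ _)
      rcases lt_trichotomy (e 0) 0 with h0 | h0 | h0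
      · have h3 : z' - z < 0 := by
          by_contra hc
          push Not at hc
          nlinarith
        rw [abs_of_neg h3, abs_lt] at h2
        exact mul_pos_of_neg_of_neg h0 (by linarith [h2.1])
      · exact absurd h0 (he 0)
      · have h3 : 0 < z' - z := by
          by_contra hc
          push Not at hc
          nlinarith
        rw [abs_of_pos h3, abs_lt] at h2
        exact mul_pos h0 (by linarith [h2.2])
    exact (tendsto_order.1 t1).1 0 t2
  obtain ⟨n, hn1, hn2⟩ := ((eventually_all.2 e1).and e2).exists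
  refine h ((f * G n)⁻¹ * G' n)
    (Γ.mul_mem (Γ.inv_mem (Γ.mul_mem hf (hG n))) (hG' n)) ?_ ?_
  · exact ((((hfs.mono (min_le_left _ _)).mul (hGs n)).inv).mul (hGs' n)).mono (by linarith)
  · intro i
    have hgen : ∀ j : Fin (m + 1), 0 < e j * (G' n (X j) - f (G n (X j))) →
        0 < e j * (((f * G n)⁻¹ * G' n) (X j) - X j) := by
      intro j hj
      have := sign_mono (f * G n)⁻¹ hj
      rw [show f (G n (X j)) = (f * G n) (X j) from rfl, inv_ap] at this
      exact this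
    refine Fin.cases (hgen 0 hn2) (fun i => hgen _ (hn1 i)) i

/-- 4.4 -/
lemma cd {Γ : Subgroup E} {m : ℕ} (hpat : AllPat Γ m) {X e : Fin (m + 1) → ℝ}
    (hX : X ∈ Conf (m + 1)) (he : ∀ i, e i ≠ 0) {η : ℝ} (hη : 0 < η) (h : Unr Γ X e η) :
    ∃ r₁ > 0, ∀ κ > 0, ∃ ρ > 0, ∀ g ∈ Γ, Small (4 * r₁) g → ∀ g' ∈ Γ, Small (4 * r₁) g' →
      (∀ i : Fin m, |g (X i.succ) - g' (X i.succ)| ≤ ρ) → |g (X 0) - g' (X 0)| < κ := by
  have hY : (fun i : Fin m => X i.succ) ∈ Conf m :=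
    ⟨fun i j hij => hX.1 (Fin.succ_lt_succ_iff.2 hij), fun i j => hX.2 _ _⟩
  obtain ⟨ε, hε, hball⟩ := Metric.isOpen_iff.1 (isOpen_Conf' m) _ hY
  refine ⟨min (ε / 5) (η / 9), lt_min (by linarith) (by linarith), ?_⟩
  set r₁ := min (ε / 5) (η / 9) with hr₁
  have hr : 0 < r₁ := lt_min (by linarith) (by linarith)
  have hrε : 4 * r₁ < ε := by
    have := min_le_left (ε / 5) (η / 9)
    linarith
  have hr9 : 9 * r₁ ≤ η := by
    have := min_le_right (ε / 5) (η / 9)
    linarith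
  by_contra hcon
  push Not at hcon
  obtain ⟨κ, hκ, hcon⟩ := hcon
  have hseq : ∀ n : ℕ, ∃ g ∈ Γ, Small (4 * r₁) g ∧ ∃ g' ∈ Γ, Small (4 * r₁) g' ∧
      (∀ i : Fin m, |g (X i.succ) - g' (X i.succ)| ≤ 1 / ((n : ℝ) + 1)) ∧
        κ ≤ |g (X 0) - g' (X 0)| := fun n => hcon _ (by positivity)
  choose G hG hGs G' hG' hGs' hcl hfar using hseq
  set 𝒰 : Ultrafilter ℕ := hyperfilter ℕ with h𝒰
  have hle : (𝒰 : Filter ℕ) ≤ atTop := Nat.hyperfilter_le_atTop
  have hlim : ∀ (F : ℕ → E), (∀ n, Small (4 * r₁) (F n)) → ∀ x : ℝ,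
      ∃ l ∈ Icc (x - 4 * r₁) (x + 4 * r₁), Tendsto (fun n => F n x) (𝒰 : Filter ℕ) (𝓝 l) := by
    intro F hF x
    apply ultra_lim
    refine Eventually.of_forall fun n => ?_
    have := abs_lt.1 (hF n x)
    constructor <;> linarith
  choose y hym hyt using fun i : Fin m => hlim G hGs (X i.succ)
  obtain ⟨z, -, hz⟩ := hlim G hGs (X 0)
  obtain ⟨z', -, hz'⟩ := hlim G' hGs' (X 0)
  have hyC : y ∈ Conf m := by
    apply hball
    rw [Metric.mem_ball]
    refine lt_of_le_of_lt ((dist_pi_le_iff (by linarith)).2 fun i => ?_) hrε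
    rw [Real.dist_eq, abs_le]
    have := hym i
    constructor <;> linarith [this.1, this.2]
  have hyt' : ∀ i, Tendsto (fun n => G' n (X i.succ)) (𝒰 : Filter ℕ) (𝓝 (y i)) := by
    intro i
    have t1 : Tendsto (fun n => G' n (X i.succ) - G n (X i.succ)) (𝒰 : Filter ℕ) (𝓝 0) := by
      refine squeeze_zero_norm (a := fun n : ℕ => 1 / ((n : ℝ) + 1)) (fun n => ?_)
        (tendsto_one_div_add_atTop_nhds_zero_nat.mono_left hle)
      rw [Real.norm_eq_abs, abs_sub_comm]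
      exact hcl n i
    have t2 := t1.add (hyt i)
    simpa using t2
  have hzz : κ ≤ |z - z'| := by
    have t1 : Tendsto (fun n => |G n (X 0) - G' n (X 0)|) (𝒰 : Filter ℕ) (𝓝 |z - z'|) :=
      (hz.sub hz').abs
    exact ge_of_tendsto t1 (Eventually.of_forall hfar)
  have hzne : z - z' ≠ 0 := by
    intro h0
    rw [h0, abs_zero] at hzz
    linarith
  rcases lt_trichotomy (e 0 * (z' - z)) 0 with h0 | h0 | h0
  · exact cd_core hpat he h hr hr9 hG' hG hGs' hGs hyC hyt' hyt hz' hz (by linarith)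
  · rcases mul_eq_zero.1 h0 with h1 | h1
    · exact he 0 h1
    · exact hzne (by linarith)
  · exact cd_core hpat he h hr hr9 hG hG' hGs hGs' hyC hyt hyt' hz hz' h0

/-! ### 4.5 -/

/-- Monotone functions have isolated big jumps. -/
lemma jumps {F : ℝ → ℝ} (hF : Monotone F) {ρ : ℝ} (hρ : 0 < ρ) (x : ℝ) :
    ∀ᶠ y in 𝓝[≠] x, ∃ d > 0, F (y + d) - F (y - d) < ρ := by
  rw [← nhdsLT_sup_nhdsGT, eventually_sup]
  constructor
  · have h1 := hF.tendsto_nhdsLT x
    have h2 := (Metric.tendsto_nhds.1 h1) (ρ / 2) (half_pos hρ)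
    rw [Filter.Eventually, mem_nhdsLT_iff_exists_Ioo_subset] at h2
    obtain ⟨a, ha, hsub⟩ := h2
    rw [Filter.Eventually, mem_nhdsLT_iff_exists_Ioo_subset]
    refine ⟨a, ha, fun y hy => ?_⟩
    refine ⟨min (y - a) (x - y) / 2, by
      have : 0 < min (y - a) (x - y) := lt_min (by linarith [hy.1]) (by linarith [hy.2])
      linarith, ?_⟩
    have hmp : 0 < min (y - a) (x - y) := lt_min (by linarith [hy.1]) (by linarith [hy.2])
    have hm1 : min (y - a) (x - y) ≤ y - a := min_le_left _ _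
    have hm2 : min (y - a) (x - y) ≤ x - y := min_le_right _ _
    have g1 := hsub (show y + min (y - a) (x - y) / 2 ∈ Ioo a x by constructor <;> linarith)
    have g2 := hsub (show y - min (y - a) (x - y) / 2 ∈ Ioo a x by constructor <;> linarith)
    simp only [mem_ofPred_eq, Real.dist_eq] at g1 g2
    rw [abs_lt] at g1 g2
    linarith [g1.2, g2.1]
  · have h1 := hF.tendsto_nhdsGT x
    have h2 := (Metric.tendsto_nhds.1 h1) (ρ / 2) (half_pos hρ)
    rw [Filter.Eventually, mem_nhdsGT_iff_exists_Ioo_subset] at h2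
    obtain ⟨a, ha, hsub⟩ := h2
    rw [Filter.Eventually, mem_nhdsGT_iff_exists_Ioo_subset]
    refine ⟨a, ha, fun y hy => ?_⟩
    refine ⟨min (a - y) (y - x) / 2, by
      have : 0 < min (a - y) (y - x) := lt_min (by linarith [hy.2]) (by linarith [hy.1])
      linarith, ?_⟩
    have hmp : 0 < min (a - y) (y - x) := lt_min (by linarith [hy.2]) (by linarith [hy.1])
    have hm1 : min (a - y) (y - x) ≤ a - y := min_le_left _ _
    have hm2 : min (a - y) (y - x) ≤ y - x := min_le_right _ _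
    have g1 := hsub (show y + min (a - y) (y - x) / 2 ∈ Ioo x a by constructor <;> linarith)
    have g2 := hsub (show y - min (a - y) (y - x) / 2 ∈ Ioo x a by constructor <;> linarith)
    simp only [mem_ofPred_eq, Real.dist_eq] at g1 g2
    rw [abs_lt] at g1 g2
    linarith [g1.2, g2.1]

lemma jumps_open {F : ℝ → ℝ} (hF : Monotone F) {ρ : ℝ} (x : ℝ)
    (hx : ∃ d > 0, F (x + d) - F (x - d) < ρ) :
    ∀ᶠ y in 𝓝 x, ∃ d > 0, F (y + d) - F (y - d) < ρ := by
  obtain ⟨d, hd, h⟩ := hx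
  filter_upwards [Metric.ball_mem_nhds x (half_pos hd)] with y hy
  rw [Metric.mem_ball, Real.dist_eq, abs_lt] at hy
  refine ⟨d / 2, half_pos hd, ?_⟩
  have h1 : F (y + d / 2) ≤ F (x + d) := hF (by linarith [hy.2])
  have h2 : F (x - d) ≤ F (y - d / 2) := hF (by linarith [hy.1])
  linarith

lemma avoid {Γ : Subgroup E} (hH : Γ ≤ H) (hCB : CB Γ) {x₀ : ℝ} {p : ℝ → Prop}
    (hopen : ∀ x, p x → ∀ᶠ y in 𝓝 x, p y) (hpunct : ∀ x, ∀ᶠ y in 𝓝[≠] x, p y)
    {m : ℕ} {Y : Fin m → ℝ} (hY : ∀ i, ∀ n : ℤ, Y i ≠ x₀ + n) (s : Finset (Fin m)) :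
    ∀ ε > 0, ∃ h ∈ Γ, Small ε h ∧ h x₀ = x₀ ∧ ∀ i ∈ s, p (h (Y i)) := by
  classical
  induction s using Finset.induction_on with
  | empty =>
    intro ε hε
    exact ⟨1, Γ.one_mem, small_one hε, rfl, by simp⟩
  | insert i s _ ih =>
    intro ε hε
    obtain ⟨h, hh, hhs, hfix, hp⟩ := ih (ε / 2) (half_pos hε)
    by_cases hi : p (h (Y i))
    · refine ⟨h, hh, hhs.mono (by linarith), hfix, fun j hj => ?_⟩
      rcases Finset.mem_insert.1 hj with rfl | hj
      · exact hi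
      · exact hp j hj
    · have c1 : ∀ᶠ k in 𝓝 (1 : E), ∀ j ∈ s, p (k (h (Y j))) := by
        rw [Finset.eventually_all]
        intro j hj
        have := (continuous_eval_at (h (Y j))).tendsto (1 : E)
        exact this.eventually (hopen _ (hp j hj))
      have c2 : ∀ᶠ k in 𝓝 (1 : E), k (h (Y i)) ≠ h (Y i) → p (k (h (Y i))) := by
        have h1 := hpunct (h (Y i))
        rw [eventually_nhdsWithin_iff] at h1
        have := (continuous_eval_at (h (Y i))).tendsto (1 : E)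
        exact this.eventually h1
      have c3 := eventually_small (half_pos hε)
      have hne : ∀ n : ℤ, h (Y i) ≠ x₀ + n := by
        intro n hn
        apply hY i n
        apply h.injective
        rw [hn, H_add_int (hH hh), hfix]
      obtain ⟨k, hk, hkU, hkx, hky⟩ := hCB x₀ (h (Y i)) hne _ (c1.and (c2.and c3))
      refine ⟨k * h, Γ.mul_mem hk hh, ((hkU.2.2 (hH hk)).mul hhs).mono (by linarith), ?_, ?_⟩
      · rw [mul_ap, hfix, hkx]
      · intro j hj
        rw [mul_ap]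
        rcases Finset.mem_insert.1 hj with rfl | hj
        · exact hkU.2.1 hky
        · exact hkU.1 j hj

/-- 4.5 -/
lemma eqc_at {Γ : Subgroup E} (hH : Γ ≤ H) (hmt : MTr Γ) (hCB : CB Γ) {m : ℕ}
    (hpat : AllPat Γ m) {X e : Fin (m + 1) → ℝ}
    (hX : X ∈ Conf (m + 1)) (he : ∀ i, e i ≠ 0) {η : ℝ} (hη : 0 < η) (h : Unr Γ X e η) :
    ∃ r > 0, Eqc Γ r (X 0) := by
  obtain ⟨r₁, hr, hcd⟩ := cd hpat hX he hη h
  refine ⟨r₁, hr, ?_⟩
  by_contra hcon
  unfold Eqc at hcon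
  push Not at hcon
  obtain ⟨κ, hκ, hcon⟩ := hcon
  have hseq : ∀ n : ℕ, ∃ g ∈ Γ, Small r₁ g ∧ ∃ w, |w - X 0| < 1 / ((n : ℝ) + 1) ∧
      κ ≤ |g w - g (X 0)| := fun n => hcon _ (by positivity)
  choose G hG hGs w hw hfar using hseq
  obtain ⟨ρ, hρ, hcd⟩ := hcd κ hκ
  set 𝒰 : Ultrafilter ℕ := hyperfilter ℕ with h𝒰
  have hle : (𝒰 : Filter ℕ) ≤ atTop := Nat.hyperfilter_le_atTop
  have hlim : ∀ x : ℝ, ∃ l ∈ Icc (x - r₁) (x + r₁),
      Tendsto (fun n => G n x) (𝒰 : Filter ℕ) (𝓝 l) := by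
    intro x
    apply ultra_lim
    refine Eventually.of_forall fun n => ?_
    have := abs_lt.1 (hGs n x)
    constructor <;> linarith
  choose F _ hFt using hlim
  have hF : Monotone F := by
    intro x y hxy
    exact le_of_tendsto_of_tendsto (hFt x) (hFt y)
      (Eventually.of_forall fun n => (G n).monotone hxy)
  have hY : ∀ i : Fin m, ∀ n : ℤ, X i.succ ≠ X 0 + n := by
    intro i n hn
    have h1 : X 0 < X i.succ := hX.1 (Fin.succ_pos i)
    have h2 : X i.succ < X 0 + 1 := hX.2 _ _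
    rw [hn] at h1 h2
    have h3 : (0 : ℝ) < n := by linarith
    have h4 : (n : ℝ) < 1 := by linarith
    have h5 : 0 < n := by exact_mod_cast h3
    have h6 : n < 1 := by exact_mod_cast h4
    omega
  obtain ⟨a, ha, has, hafix, hap⟩ := avoid hH hCB (x₀ := X 0)
    (p := fun x => ∃ d > 0, F (x + d) - F (x - d) < ρ / 2)
    (fun x hx => jumps_open hF x hx) (fun x => jumps hF (half_pos hρ) x)
    hY Finset.univ r₁ hr
  have hap' : ∀ i : Fin m, ∃ d > 0, F (a (X i.succ) + d) - F (a (X i.succ) - d) < ρ / 2 :=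
    fun i => hap i (Finset.mem_univ i)
  choose d hd hdF using hap'
  have c1 : ∀ᶠ n in (𝒰 : Filter ℕ), ∀ i : Fin m,
      G n (a (X i.succ) + d i) - G n (a (X i.succ) - d i) < ρ / 2 := by
    rw [eventually_all]
    intro i
    exact (tendsto_order.1 ((hFt _).sub (hFt _))).2 _ (hdF i)
  -- the small element moving the base point
  obtain ⟨d₀, hd₀, hd₀le⟩ : ∃ d₀ > 0, ∀ i, d₀ ≤ d i := by
    rcases isEmpty_or_nonempty (Fin m) with hem | hne
    · exact ⟨1, one_pos, fun i => (hem.false i).elim⟩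
    · obtain ⟨i, hi⟩ := Finite.exists_min d
      exact ⟨d i, hd i, hi⟩
  have hwt : Tendsto w (𝒰 : Filter ℕ) (𝓝 (X 0)) := by
    rw [tendsto_iff_dist_tendsto_zero]
    refine squeeze_zero (fun _ => dist_nonneg) (fun n => ?_)
      (tendsto_one_div_add_atTop_nhds_zero_nat.mono_left hle)
    rw [Real.dist_eq]
    exact (hw n).le
  have c2 := hwt.eventually (hmt (X 0) _ (eventually_small (lt_min hd₀ hr)))
  obtain ⟨n, hn1, ψ, hψ, hψU, hψw⟩ := (c1.and c2).exists
  have hψs := hψU (hH hψ)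
  have k := hcd (G n * a) (Γ.mul_mem (hG n) ha) (((hGs n).mul has).mono (by linarith))
    (G n * ψ * a) (Γ.mul_mem (Γ.mul_mem (hG n) hψ) ha)
    ((((hGs n).mul (hψs.mono (min_le_right _ _))).mul has).mono (by linarith)) (by
      intro i
      simp only [mul_ap]
      have q0 : |ψ (a (X i.succ)) - a (X i.succ)| < d i :=
        lt_of_lt_of_le (hψs (a (X i.succ))) ((min_le_left _ _).trans (hd₀le i))
      rw [abs_lt] at q0
      have q1 : G n (a (X i.succ) - d i) ≤ G n (a (X i.succ)) :=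
        (G n).monotone (by linarith [hd i])
      have q2 : G n (a (X i.succ)) ≤ G n (a (X i.succ) + d i) :=
        (G n).monotone (by linarith [hd i])
      have q3 : G n (a (X i.succ) - d i) ≤ G n (ψ (a (X i.succ))) :=
        (G n).monotone (by linarith [q0.1])
      have q4 : G n (ψ (a (X i.succ))) ≤ G n (a (X i.succ) + d i) :=
        (G n).monotone (by linarith [q0.2])
      have q5 := hn1 i
      rw [abs_le]
      constructor <;> linarith)
  simp only [mul_ap, hafix, hψw] at k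
  have := hfar n
  rw [abs_sub_comm] at this
  linarith

/-- 4.3-4.6: the local compactness. -/
theorem lc_of_unrealised {Γ : Subgroup E} (hH : Γ ≤ H) (hcl : IsClosed (Γ : Set E))
    (htr : Trans Γ) (hmt : MTr Γ) (hCB : CB Γ) {m : ℕ} (hm : 2 ≤ m)
    (hpat : ∀ j ≤ m, AllPat Γ j) (hn : ¬ AllPat Γ (m + 1)) : ∃ r, LC Γ m r := by
  unfold AllPat at hn
  push Not at hn
  obtain ⟨X, hX, e, he, η, hη, hun⟩ := hn
  have hun' : Unr Γ X e η := by
    intro g hg hgs hall
    obtain ⟨i, hi⟩ := hun g hg hgs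
    exact absurd (hall i) (not_lt.2 hi)
  have hall : ∀ u, ∃ r > 0, Eqc Γ r u := by
    intro u
    obtain ⟨k, hk, hku⟩ := htr (X 0) u
    obtain ⟨η', hη', hun2⟩ := hun'.conj hH hη hk
    obtain ⟨r, hr, h⟩ := eqc_at hH hmt hCB (hpat m le_rfl) (Conf_map hX (hH hk)) he hη' hun2
    rw [hku] at h
    exact ⟨r, hr, h⟩
  obtain ⟨r, hr, h⟩ := eqc_all hH hmt hall
  exact ⟨r / 2, hH, hcl, htr, hm, hpat,
    ⟨X, hX, e0_of_unr hH (hpat m le_rfl) hX he hη hun'⟩, half_pos hr,
    compact_of_eqc hcl (by linarith) h⟩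

end Pool.Agent.Circ
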