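import Pool.Agent.Circ.Arc

set_option autoImplicit false

open Set Filter Topology

namespace Pool.Agent.Circ

/-- Elements of `H` preserve configurations. -/
lemma conf_map {g : E} (hg : g ∈ H) {n : ℕ} {X : Fin n → ℝ} (hX : X ∈ Conf n) :
    (fun i => g (X i)) ∈ Conf n := by
  refine ⟨fun i j hij => g.strictMono (hX.1 hij), fun i j => ?_⟩
  have h1 := g.strictMono (hX.2 i j)
  rw [hg] at h1
  exact h1

/-- The configuration space is open. -/
lemma isOpen_Conf (n : ℕ) : IsOpen (Conf n) := by
  have h : Conf n = (⋂ i : Fin n, ⋂ j : Fin n, {X : Fin n → ℝ | i < j → X i < X j}) ∩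
      (⋂ i : Fin n, ⋂ j : Fin n, {X : Fin n → ℝ | X i < X j + 1}) := by
    ext X
    simp only [Conf, mem_inter_iff, mem_iInter, mem_ofPred_eq]
    exact ⟨fun h => ⟨fun i j hij => h.1 hij, h.2⟩, fun h => ⟨fun i j hij => h.1 i j hij, h.2⟩⟩
  rw [h]
  refine IsOpen.inter ?_ ?_
  · refine isOpen_iInter_of_finite fun i => isOpen_iInter_of_finite fun j => ?_
    by_cases hij : i < j
    · simp only [hij, true_imp_iff]
      exact isOpen_lt (continuous_apply i) (continuous_apply j)
    · simp only [hij, false_imp_iff, ofPred_true, isOpen_univ]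
  · refine isOpen_iInter_of_finite fun i => isOpen_iInter_of_finite fun j => ?_
    exact isOpen_lt (continuous_apply i) ((continuous_apply j).add continuous_const)

/-- The configuration space is convex. -/
lemma convex_Conf (n : ℕ) : Convex ℝ (Conf n) := by
  rintro X ⟨hX1, hX2⟩ Y ⟨hY1, hY2⟩ a b ha hb hab
  have key : ∀ x y x' y' : ℝ, x < y → x' < y' → a * x + b * x' < a * y + b * y' := by
    intro x y x' y' h1 h2
    rcases ha.eq_or_lt with h | h
    · have hb1 : b = 1 := by rw [← h] at hab; linarith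
      rw [← h, hb1]; linarith
    · have h3 : a * x < a * y := mul_lt_mul_of_pos_left h1 h
      have h4 : b * x' ≤ b * y' := mul_le_mul_of_nonneg_left h2.le hb
      linarith
  refine ⟨fun i j hij => ?_, fun i j => ?_⟩
  · simpa using key _ _ _ _ (hX1 hij) (hY1 hij)
  · have h1 := key _ _ _ _ (hX2 i j) (hY2 i j)
    simp only [Pi.add_apply, Pi.smul_apply, smul_eq_mul]
    have h2 : a * (X j + 1) + b * (Y j + 1) = a * X j + b * Y j + 1 := by
      calc a * (X j + 1) + b * (Y j + 1) = a * X j + b * Y j + (a + b) := by ring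
        _ = _ := by rw [hab]
    linarith

/-- 4.1 -/
theorem push {Γ : Subgroup E} {n : ℕ} (h : AllPat Γ n) {Q P : Fin n → ℝ} (hQ : Q ∈ Conf n)
    (hne : P ≠ Q) {η : ℝ} (hη : 0 < η) :
    ∃ g ∈ Γ, Small η g ∧ dist (fun i => g (Q i)) P < dist Q P := by
  have hd : 0 < dist Q P := dist_pos.2 hne.symm
  obtain ⟨g, hg, hgs, hgp⟩ := h Q hQ (fun i => if P i = Q i then 1 else P i - Q i)
    (fun i => by
      by_cases hi : P i = Q i
      · simp [hi]
      · simp only [hi, if_false]; exact sub_ne_zero.2 hi) (min η (dist Q P)) (lt_min hη hd)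
  refine ⟨g, hg, hgs.mono (min_le_left _ _), ?_⟩
  rw [dist_pi_lt_iff hd]
  intro i
  have h1 : |g (Q i) - Q i| < dist Q P := lt_of_lt_of_le (hgs (Q i)) (min_le_right _ _)
  have h2 : |Q i - P i| ≤ dist Q P := by
    rw [← Real.dist_eq]; exact dist_le_pi_dist Q P i
  have h3 := hgp i
  rw [Real.dist_eq]
  by_cases hi : P i = Q i
  · rw [hi]; exact h1
  · simp only [hi, if_false] at h3
    rcases lt_or_gt_of_ne hi with h4 | h4
    · -- move left
      have h5 : g (Q i) - Q i < 0 := by
        by_contra hc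
        push Not at hc
        have : (P i - Q i) * (g (Q i) - Q i) ≤ 0 := mul_nonpos_of_nonpos_of_nonneg (by linarith) hc
        linarith
      rw [abs_lt] at h1 ⊢
      rw [abs_le] at h2
      constructor <;> linarith
    · have h5 : 0 < g (Q i) - Q i := by
        by_contra hc
        push Not at hc
        have : (P i - Q i) * (g (Q i) - Q i) ≤ 0 := mul_nonpos_of_nonneg_of_nonpos (by linarith) hc
        linarith
      rw [abs_lt] at h1 ⊢
      rw [abs_le] at h2
      constructor <;> linarith

end Pool.Agent.Circ
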