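import Pool.Agent.Circ.Basic

/-!
Quasi-centralisers of microtransitive actions on the line (section 2 of the proof).
-/

set_option autoImplicit false
set_option linter.unusedSectionVars false
set_option linter.unusedVariables false

open Set Filter Topology

namespace Pool.Agent.Circ

section B
variable {K : Type*} [Group K] [TopologicalSpace K] [IsTopologicalGroup K] {ρ : K →* E}

lemma Act.tendsto (h : Act ρ) (x : ℝ) : Tendsto (fun k => ρ k x) (𝓝 1) (𝓝 x) := by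
  have h1 := (h.cont.tendsto 1)
  rw [map_one] at h1
  exact (tendsto_E.1 h1) x

lemma rho_inv_ap (k : K) (x : ℝ) : ρ k⁻¹ (ρ k x) = x := by
  rw [map_inv]; exact inv_ap _ _

lemma rho_ap_inv (k : K) (x : ℝ) : ρ k (ρ k⁻¹ x) = x := by
  rw [map_inv]; exact ap_inv _ _

lemma rho_mul_ap (j k : K) (x : ℝ) : ρ (j * k) x = ρ j (ρ k x) := by
  rw [map_mul]; rfl

lemma Act.isOpen_of_inv (h : Act ρ) {S : Set ℝ}
    (hinv : ∀ᶠ k in 𝓝 (1 : K), ∀ x ∈ S, ρ k x ∈ S) : IsOpen S := by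
  rw [isOpen_iff_mem_nhds]
  intro x hx
  refine mem_of_superset (h.mt x _ hinv) ?_
  rintro y ⟨k, hk, rfl⟩
  exact hk x hx

lemma tendsto_inv_one : Tendsto (fun k : K => k⁻¹) (𝓝 1) (𝓝 1) := by
  have := (continuous_inv (G := K)).tendsto 1
  rwa [inv_one] at this

theorem invariant_univ (h : Act ρ) {S : Set ℝ} (hne : S.Nonempty)
    (hinv : ∀ᶠ k in 𝓝 (1 : K), ∀ x ∈ S, ρ k x ∈ S) : S = univ := by
  have h1 : IsOpen S := h.isOpen_of_inv hinv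
  have h2 : IsOpen Sᶜ := by
    apply h.isOpen_of_inv
    filter_upwards [tendsto_inv_one.eventually hinv] with k hk x hx hx'
    apply hx
    have := hk _ hx'
    rwa [rho_inv_ap] at this
  exact IsClopen.eq_univ ⟨⟨h2⟩, h1⟩ hne

theorem QC_free (h : Act ρ) : Free (QC ρ) := by
  intro c hc x hx
  have h1 : {z : ℝ | c z = z} = univ := by
    apply invariant_univ h (S := {z : ℝ | c z = z}) ⟨x, hx⟩
    have hc' : ∀ᶠ k in 𝓝 (1 : K), c * ρ k = ρ k * c := hc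
    filter_upwards [hc'] with k hk z hz
    have h2 : (c * ρ k) z = (ρ k * c) z := by rw [hk]
    simp only [mul_ap] at h2
    have hz' : c z = z := hz
    rw [hz'] at h2
    exact h2
  apply ext_ap
  intro z
  have : z ∈ {z : ℝ | c z = z} := by rw [h1]; trivial
  exact this

lemma tendsto_conj (k : K) : Tendsto (fun j : K => k⁻¹ * j * k) (𝓝 1) (𝓝 1) := by
  have h1 : Continuous (fun j : K => k⁻¹ * j * k) := by fun_prop
  have := h1.tendsto 1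
  simpa using this

theorem QC_conj (k : K) {c : E} (hc : c ∈ QC ρ) : ρ k * c * (ρ k)⁻¹ ∈ QC ρ := by
  have hc' : ∀ᶠ k in 𝓝 (1 : K), c * ρ k = ρ k * c := hc
  show ∀ᶠ j in 𝓝 (1 : K), (ρ k * c * (ρ k)⁻¹) * ρ j = ρ j * (ρ k * c * (ρ k)⁻¹)
  filter_upwards [(tendsto_conj k).eventually hc'] with j hj
  have h1 : ρ (k⁻¹ * j * k) = (ρ k)⁻¹ * ρ j * ρ k := by
    rw [map_mul, map_mul, map_inv]
  rw [h1] at hj
  calc ρ k * c * (ρ k)⁻¹ * ρ j = ρ k * (c * ((ρ k)⁻¹ * ρ j * ρ k)) * (ρ k)⁻¹ := by group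
    _ = ρ k * (((ρ k)⁻¹ * ρ j * ρ k) * c) * (ρ k)⁻¹ := by rw [hj]
    _ = ρ j * (ρ k * c * (ρ k)⁻¹) := by group

/-! ### locally equivariant maps -/

/-- `θ` is locally equivariant on `J`. -/
def LEq (ρ : K →* E) (J : Set ℝ) (θ : ℝ → ℝ) : Prop :=
  ∀ z ∈ J, ∀ᶠ k in 𝓝 (1 : K), θ (ρ k z) = ρ k (θ z)

lemma LEq.unique (h : Act ρ) {J : Set ℝ} (hJo : IsOpen J) (hJc : IsPreconnected J)
    {θ θ' : ℝ → ℝ} (h1 : LEq ρ J θ) (h2 : LEq ρ J θ') {x : ℝ} (hx : x ∈ J)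
    (hxx : θ x = θ' x) : ∀ z ∈ J, θ z = θ' z := by
  have hu : IsOpen {z | z ∈ J ∧ θ z = θ' z} := by
    rw [isOpen_iff_mem_nhds]
    rintro z ⟨hz, hzz⟩
    have h3 := h.mt z _ ((h1 z hz).and (h2 z hz))
    filter_upwards [h3, hJo.mem_nhds hz] with w hw hwJ
    obtain ⟨k, ⟨hk1, hk2⟩, rfl⟩ := hw
    exact ⟨hwJ, by rw [hk1, hk2, hzz]⟩
  have hv : IsOpen {z | z ∈ J ∧ θ z ≠ θ' z} := by
    rw [isOpen_iff_mem_nhds]
    rintro z ⟨hz, hzz⟩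
    have h3 := h.mt z _ ((h1 z hz).and (h2 z hz))
    filter_upwards [h3, hJo.mem_nhds hz] with w hw hwJ
    obtain ⟨k, ⟨hk1, hk2⟩, rfl⟩ := hw
    exact ⟨hwJ, by rw [hk1, hk2]; exact fun hh => hzz ((ρ k).injective hh)⟩
  have h4 : J ⊆ {z | z ∈ J ∧ θ z = θ' z} := by
    apply hJc.subset_left_of_subset_union hu hv
    · rw [Set.disjoint_left]
      rintro z ⟨_, h5⟩ ⟨_, h6⟩
      exact h6 h5
    · intro z hz
      by_cases h5 : θ z = θ' z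
      · exact Or.inl ⟨hz, h5⟩
      · exact Or.inr ⟨hz, h5⟩
    · exact ⟨x, hx, hx, hxx⟩
  intro z hz
  exact (h4 hz).2

lemma LEq.exists_local (h : Act ρ) {x y : ℝ}
    (hxy : ∀ᶠ k in 𝓝 (1 : K), ρ k x = x → ρ k y = y) :
    ∃ J : Set ℝ, IsOpen J ∧ IsPreconnected J ∧ x ∈ J ∧ ∃ θ : ℝ → ℝ, LEq ρ J θ ∧ θ x = y := by
  classical
  obtain ⟨U, hUo, hU1, hU⟩ : ∃ U : Set K, IsOpen U ∧ (1 : K) ∈ U ∧
      ∀ k ∈ U, ∀ k' ∈ U, (ρ (k⁻¹ * k') x = x → ρ (k⁻¹ * k') y = y) := by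
    have h1 : Tendsto (fun p : K × K => p.1⁻¹ * p.2) (𝓝 1 ×ˢ 𝓝 1) (𝓝 1) := by
      have h2 : Continuous (fun p : K × K => p.1⁻¹ * p.2) := by fun_prop
      have h3 := h2.tendsto (1, 1)
      simpa [nhds_prod_eq] using h3
    have h2 := h1.eventually hxy
    rw [eventually_prod_iff] at h2
    obtain ⟨p, hp, q, hq, hpq⟩ := h2
    obtain ⟨V, hV, hVo, hV1⟩ := eventually_nhds_iff.1 (hp.and hq)
    exact ⟨V, hVo, hV1, fun k hk k' hk' => hpq (hV k hk).1 (hV k' hk').2⟩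
  let θ : ℝ → ℝ := fun z => if h : ∃ k ∈ U, ρ k x = z then ρ h.choose y else 0
  have hθ : ∀ k ∈ U, θ (ρ k x) = ρ k y := by
    intro k hk
    have hex : ∃ k' ∈ U, ρ k' x = ρ k x := ⟨k, hk, rfl⟩
    have h1 : θ (ρ k x) = ρ hex.choose y := dif_pos hex
    rw [h1]
    have h2 := hex.choose_spec
    have h3 := hU k hk hex.choose h2.1
    have h4 : ρ (k⁻¹ * hex.choose) x = x := by
      rw [rho_mul_ap, h2.2, rho_inv_ap]
    have h5 := h3 h4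
    rw [rho_mul_ap] at h5
    calc ρ hex.choose y = ρ k (ρ k⁻¹ (ρ hex.choose y)) := (rho_ap_inv _ _).symm
      _ = ρ k y := by rw [h5]
  have hN := h.mt x U (hUo.mem_nhds hU1)
  obtain ⟨ε, hε, hball⟩ := Metric.mem_nhds_iff.1 hN
  refine ⟨Metric.ball x ε, Metric.isOpen_ball, ?_, Metric.mem_ball_self hε, θ, ?_, ?_⟩
  · rw [Real.ball_eq_Ioo]; exact isPreconnected_Ioo
  · intro z hz
    obtain ⟨k, hk, rfl⟩ := hball hz
    have h1 : Tendsto (fun j : K => j * k) (𝓝 1) (𝓝 k) := by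
      have h2 : Continuous (fun j : K => j * k) := by fun_prop
      have := h2.tendsto 1
      simpa using this
    filter_upwards [h1.eventually (hUo.mem_nhds hk)] with j hj
    rw [← rho_mul_ap, hθ _ hj, hθ _ hk, rho_mul_ap]
  · have := hθ 1 hU1
    simpa using this

lemma LEq.conj {J : Set ℝ} {θ : ℝ → ℝ} (hθ : LEq ρ J θ) (k : K) :
    LEq ρ {z | ρ k⁻¹ z ∈ J} (fun z => ρ k (θ (ρ k⁻¹ z))) := by
  intro z hz
  filter_upwards [(tendsto_conj k).eventually (hθ _ hz)] with j hj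
  have h1 : ρ (k⁻¹ * j * k) (ρ k⁻¹ z) = ρ k⁻¹ (ρ j z) := by
    rw [rho_mul_ap, rho_mul_ap, rho_ap_inv]
  have h2 : ρ (k⁻¹ * j * k) (θ (ρ k⁻¹ z)) = ρ k⁻¹ (ρ j (ρ k (θ (ρ k⁻¹ z)))) := by
    rw [rho_mul_ap, rho_mul_ap]
  rw [h1, h2] at hj
  show ρ k (θ (ρ k⁻¹ (ρ j z))) = ρ j (ρ k (θ (ρ k⁻¹ z)))
  rw [hj, rho_ap_inv]

lemma exists_equivariant (h : Act ρ) {x y : ℝ}
    (hxy : ∀ᶠ k in 𝓝 (1 : K), ρ k x = x → ρ k y = y) :
    ∃ θ : ℝ → ℝ, θ x = y ∧ ∀ᶠ k in 𝓝 (1 : K), ∀ z, θ (ρ k z) = ρ k (θ z) := by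
  classical
  let P : Set ℝ → (ℝ → ℝ) → Prop := fun J θ =>
    IsOpen J ∧ IsPreconnected J ∧ x ∈ J ∧ LEq ρ J θ ∧ θ x = y
  let JJ : Set (Set ℝ) := {J | ∃ θ, P J θ}
  let θs : ℝ → ℝ := fun z =>
    if hz : ∃ p : Set ℝ × (ℝ → ℝ), P p.1 p.2 ∧ z ∈ p.1 then hz.choose.2 z else 0
  have hval : ∀ J θ, P J θ → ∀ z ∈ J, θs z = θ z := by
    intro J θ hP z hz
    have hex : ∃ p : Set ℝ × (ℝ → ℝ), P p.1 p.2 ∧ z ∈ p.1 := ⟨(J, θ), hP, hz⟩
    have h1 : θs z = hex.choose.2 z := dif_pos hex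
    rw [h1]
    obtain ⟨hP', hz'⟩ := hex.choose_spec
    set J' := hex.choose.1
    set θ' := hex.choose.2
    have hIo : IsOpen (J ∩ J') := hP.1.inter hP'.1
    have hIc : IsPreconnected (J ∩ J') := by
      have h2 : (J ∩ J').OrdConnected :=
        (hP.2.1.ordConnected).inter (hP'.2.1.ordConnected)
      exact h2.isPreconnected
    have h2 : LEq ρ (J ∩ J') θ := fun w hw => hP.2.2.2.1 w hw.1
    have h3 : LEq ρ (J ∩ J') θ' := fun w hw => hP'.2.2.2.1 w hw.2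
    exact (LEq.unique h hIo hIc h3 h2 ⟨hP.2.2.1, hP'.2.2.1⟩
      (hP'.2.2.2.2.trans hP.2.2.2.2.symm) z ⟨hz, hz'⟩)
  obtain ⟨J0, h0o, h0c, h0x, θ0, h0e, h0y⟩ := LEq.exists_local h hxy
  have hP0 : P J0 θ0 := ⟨h0o, h0c, h0x, h0e, h0y⟩
  set Js : Set ℝ := ⋃₀ JJ with hJs
  have hJso : IsOpen Js := isOpen_sUnion (fun J hJ => by obtain ⟨θ, hP⟩ := hJ; exact hP.1)
  have hJsc : IsPreconnected Js :=
    isPreconnected_sUnion x JJ (fun J hJ => by obtain ⟨θ, hP⟩ := hJ; exact hP.2.2.1)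
      (fun J hJ => by obtain ⟨θ, hP⟩ := hJ; exact hP.2.1)
  have hJsx : x ∈ Js := ⟨J0, ⟨θ0, hP0⟩, h0x⟩
  have hsx : θs x = y := by rw [hval J0 θ0 hP0 x h0x, h0y]
  have hse : LEq ρ Js θs := by
    rintro z ⟨J, ⟨θ, hP⟩, hz⟩
    have h1 : ∀ᶠ k in 𝓝 (1 : K), ρ k z ∈ J := (h.tendsto z).eventually (hP.1.mem_nhds hz)
    filter_upwards [h1, hP.2.2.2.1 z hz] with k hk1 hk2
    rw [hval J θ hP _ hk1, hval J θ hP _ hz, hk2]
  -- small conjugates stay in the family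
  have hkey : ∀ᶠ k in 𝓝 (1 : K), ρ k⁻¹ x ∈ Js ∧ θs (ρ k⁻¹ x) = ρ k⁻¹ y := by
    have h1 := tendsto_inv_one.eventually (hse x hJsx)
    have h2 : ∀ᶠ k in 𝓝 (1 : K), ρ k⁻¹ x ∈ Js :=
      tendsto_inv_one.eventually ((h.tendsto x).eventually (hJso.mem_nhds hJsx))
    filter_upwards [h1, h2] with k hk1 hk2
    exact ⟨hk2, by rw [hk1, hsx]⟩
  have hconj : ∀ k : K, ρ k⁻¹ x ∈ Js → θs (ρ k⁻¹ x) = ρ k⁻¹ y →
      P {z | ρ k⁻¹ z ∈ Js} (fun z => ρ k (θs (ρ k⁻¹ z))) := by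
    intro k hk1 hk2
    refine ⟨hJso.preimage (cont_ap _), ?_, hk1, hse.conj k, ?_⟩
    · have h1 : {z | ρ k⁻¹ z ∈ Js} = (fun z => ρ k z) '' Js := by
        ext z
        constructor
        · intro hz; exact ⟨ρ k⁻¹ z, hz, rho_ap_inv _ _⟩
        · rintro ⟨w, hw, rfl⟩
          show ρ k⁻¹ (ρ k w) ∈ Js
          rwa [rho_inv_ap]
      rw [h1]
      exact hJsc.image _ (cont_ap _).continuousOn
    · show ρ k (θs (ρ k⁻¹ x)) = y
      rw [hk2, rho_ap_inv]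
  have huniv : Js = univ := by
    apply invariant_univ h ⟨x, hJsx⟩
    filter_upwards [hkey] with k hk z hz
    have h1 := hconj k hk.1 hk.2
    have h2 : ρ k z ∈ {z | ρ k⁻¹ z ∈ Js} := by
      show ρ k⁻¹ (ρ k z) ∈ Js
      rwa [rho_inv_ap]
    exact ⟨_, ⟨_, h1⟩, h2⟩
  refine ⟨θs, hsx, ?_⟩
  filter_upwards [hkey] with k hk z
  have h1 := hconj k hk.1 hk.2
  have h2 : ρ k z ∈ {z | ρ k⁻¹ z ∈ Js} := by
    show ρ k⁻¹ (ρ k z) ∈ Js
    rw [rho_inv_ap, huniv]; trivial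
  have h3 := hval _ _ h1 (ρ k z) h2
  rw [h3]
  show ρ k (θs (ρ k⁻¹ (ρ k z))) = _
  rw [rho_inv_ap]

/-! ### equivariant maps are order isomorphisms -/

lemma eqv_continuous (h : Act ρ) {θ : ℝ → ℝ}
    (hθ : ∀ᶠ k in 𝓝 (1 : K), ∀ z, θ (ρ k z) = ρ k (θ z)) : Continuous θ := by
  rw [continuous_iff_continuousAt]
  intro z N hN
  have h1 : ∀ᶠ k in 𝓝 (1 : K), ρ k (θ z) ∈ N := (h.tendsto _).eventually hN
  show θ ⁻¹' N ∈ 𝓝 z
  refine mem_of_superset (h.mt z _ (h1.and hθ)) ?_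
  rintro w ⟨k, ⟨hk1, hk2⟩, rfl⟩
  show θ (ρ k z) ∈ N
  rw [hk2]; exact hk1

lemma exists_gt_of_nhds {x : ℝ} {S : Set ℝ} (hS : S ∈ 𝓝 x) : ∃ y ∈ S, x < y := by
  obtain ⟨ε, hε, hb⟩ := Metric.mem_nhds_iff.1 hS
  refine ⟨x + ε / 2, hb ?_, by linarith⟩
  rw [Metric.mem_ball, Real.dist_eq]
  rw [show x + ε / 2 - x = ε / 2 by ring, abs_of_pos (by linarith)]
  linarith

lemma exists_lt_of_nhds {x : ℝ} {S : Set ℝ} (hS : S ∈ 𝓝 x) : ∃ y ∈ S, y < x := by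
  obtain ⟨ε, hε, hb⟩ := Metric.mem_nhds_iff.1 hS
  refine ⟨x - ε / 2, hb ?_, by linarith⟩
  rw [Metric.mem_ball, Real.dist_eq]
  rw [show x - ε / 2 - x = -(ε / 2) by ring, abs_neg, abs_of_pos (by linarith)]
  linarith

lemma eqv_no_extr (h : Act ρ) {θ : ℝ → ℝ}
    (hθ : ∀ᶠ k in 𝓝 (1 : K), ∀ z, θ (ρ k z) = ρ k (θ z)) (htend : ∀ x : ℝ, Tendsto (fun k => ρ k x) (𝓝 1) (𝓝 x)) (c : ℝ) : ¬ IsLocalExtr θ c := by
  rintro (hmin | hmax)
  · have h1 : ∀ᶠ k in 𝓝 (1 : K), θ c ≤ θ (ρ k c) := (htend c).eventually hmin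
    obtain ⟨y, ⟨k, ⟨hk1, hk2⟩, rfl⟩, hy⟩ := exists_lt_of_nhds (h.mt (θ c) _ (h1.and hθ))
    rw [hk2] at hk1
    exact absurd hy (not_lt.2 hk1)
  · have h1 : ∀ᶠ k in 𝓝 (1 : K), θ (ρ k c) ≤ θ c := (htend c).eventually hmax
    obtain ⟨y, ⟨k, ⟨hk1, hk2⟩, rfl⟩, hy⟩ := exists_gt_of_nhds (h.mt (θ c) _ (h1.and hθ))
    rw [hk2] at hk1
    exact absurd hy (not_lt.2 hk1)

lemma eqv_injective (h : Act ρ) {θ : ℝ → ℝ}
    (hθ : ∀ᶠ k in 𝓝 (1 : K), ∀ z, θ (ρ k z) = ρ k (θ z)) : Function.Injective θ := by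
  have hc := eqv_continuous h hθ
  have key : ∀ a b : ℝ, a < b → θ a ≠ θ b := by
    intro a b hab hab'
    obtain ⟨c, _, hc'⟩ := exists_isLocalExtr_Ioo hab hc.continuousOn hab'
    exact eqv_no_extr h hθ h.tendsto c hc'
  intro a b hab
  rcases lt_trichotomy a b with h1 | h1 | h1
  · exact absurd hab (key a b h1)
  · exact h1
  · exact absurd hab.symm (key b a h1)

lemma eqv_surjective (h : Act ρ) {θ : ℝ → ℝ}
    (hθ : ∀ᶠ k in 𝓝 (1 : K), ∀ z, θ (ρ k z) = ρ k (θ z)) : Function.Surjective θ := by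
  have h1 : range θ = univ := by
    apply invariant_univ h ⟨θ 0, mem_range_self 0⟩
    filter_upwards [hθ] with k hk x hx
    obtain ⟨z, rfl⟩ := hx
    exact ⟨ρ k z, hk z⟩
  exact range_eq_univ.1 h1

lemma not_fixed_all (h : Act ρ) (p : ℝ) : ¬ ∀ᶠ k in 𝓝 (1 : K), ρ k p = p := by
  intro hcon
  obtain ⟨y, ⟨k, hk, rfl⟩, hy⟩ := exists_gt_of_nhds (h.mt p _ hcon)
  have hk' : ρ k p = p := hk
  rw [hk'] at hy
  exact lt_irrefl _ hy

lemma eqv_strictMono (h : Act ρ) {θ : ℝ → ℝ}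
    (hθ : ∀ᶠ k in 𝓝 (1 : K), ∀ z, θ (ρ k z) = ρ k (θ z)) : StrictMono θ := by
  have hc := eqv_continuous h hθ
  rcases hc.strictMono_of_inj (eqv_injective h hθ) with h1 | h1
  · exact h1
  · exfalso
    -- a fixed point
    have hfix : ∃ p, θ p = p := by
      have hcg : Continuous (fun z => θ z - z) := hc.sub continuous_id
      rcases lt_trichotomy (θ 0) 0 with h0 | h0 | h0
      · have h2 : θ 0 < θ (θ 0) := h1 h0
        have h3 : (0 : ℝ) ∈ (fun z => θ z - z) '' Icc (θ 0) 0 := by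
          apply intermediate_value_Icc' h0.le hcg.continuousOn
          constructor
          · show θ 0 - 0 ≤ 0; linarith
          · show 0 ≤ θ (θ 0) - θ 0; linarith
        obtain ⟨p, _, hp⟩ := h3
        exact ⟨p, by have : θ p - p = 0 := hp; linarith⟩
      · exact ⟨0, h0⟩
      · have h2 : θ (θ 0) < θ 0 := h1 h0
        have h3 : (0 : ℝ) ∈ (fun z => θ z - z) '' Icc 0 (θ 0) := by
          apply intermediate_value_Icc' h0.le hcg.continuousOn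
          constructor
          · show θ (θ 0) - θ 0 ≤ 0; linarith
          · show 0 ≤ θ 0 - 0; linarith
        obtain ⟨p, _, hp⟩ := h3
        exact ⟨p, by have : θ p - p = 0 := hp; linarith⟩
    obtain ⟨p, hp⟩ := hfix
    apply not_fixed_all h p
    filter_upwards [hθ] with k hk
    have h2 : θ (ρ k p) = ρ k p := by rw [hk, hp]
    rcases lt_trichotomy (ρ k p) p with h3 | h3 | h3
    · have := h1 h3
      rw [h2, hp] at this
      exact absurd h3 (not_lt.2 this.le)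
    · exact h3
    · have := h1 h3
      rw [h2, hp] at this
      exact absurd h3 (not_lt.2 this.le)

theorem exists_QC (h : Act ρ) {x y : ℝ}
    (hxy : ∀ᶠ k in 𝓝 (1 : K), ρ k x = x → ρ k y = y) : ∃ c ∈ QC ρ, c x = y := by
  obtain ⟨θ, hθx, hθ⟩ := exists_equivariant h hxy
  let c : E := (eqv_strictMono h hθ).orderIsoOfSurjective θ (eqv_surjective h hθ)
  refine ⟨c, ?_, hθx⟩
  show ∀ᶠ k in 𝓝 (1 : K), c * ρ k = ρ k * c
  filter_upwards [hθ] with k hk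
  apply ext_ap
  intro z
  exact hk z

lemma QC_fix (h : Act ρ) {c : E} (hc : c ∈ QC ρ) (x : ℝ) :
    ∀ᶠ k in 𝓝 (1 : K), ρ k x = x → ρ k (c x) = c x := by
  have hc' : ∀ᶠ k in 𝓝 (1 : K), c * ρ k = ρ k * c := hc
  filter_upwards [hc'] with k hk hx
  have h2 : (c * ρ k) x = (ρ k * c) x := by rw [hk]
  simp only [mul_ap] at h2
  rw [← h2, hx]

end B

end Pool.Agent.Circ
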